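import Pool.Agent.R153.Hook2Defs

set_option autoImplicit false

namespace Pool.Agent.R153.Hook2

open Finset

theorem rowLen_eq {w : List ℕ} (hw : w.SortedGE) (i : ℕ) (hi : i < w.length) :
    (YoungDiagram.ofRowLens w hw).rowLen i = w[i] :=
  YoungDiagram.rowLen_ofRowLens ⟨i, hi⟩

theorem rowLen_zero {w : List ℕ} (hw : w.SortedGE) (i : ℕ) (hi : w.length ≤ i) :
    (YoungDiagram.ofRowLens w hw).rowLen i = 0 := by
  by_contra h
  have hm : (i, 0) ∈ YoungDiagram.ofRowLens w hw :=
    YoungDiagram.mem_iff_lt_rowLen.2 (Nat.pos_of_ne_zero h)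
  rw [YoungDiagram.mem_ofRowLens] at hm
  obtain ⟨h1, -⟩ := hm
  simp only at h1
  omega

theorem mem_parts_iff {n : ℕ} (p : n.Partition) {x : ℕ} (hx : 0 < x) :
    x ∈ p.parts ↔ ∃ i, (young p).rowLen i = x := by
  have hw := (Multiset.pairwise_sort p.parts (· ≥ ·)).sortedGE
  rw [← Multiset.mem_sort (r := (· ≥ ·))]
  constructor
  · intro h
    obtain ⟨i, hi, hix⟩ := List.mem_iff_getElem.1 h
    exact ⟨i, by unfold young; rw [rowLen_eq hw i hi, hix]⟩
  · rintro ⟨i, hi⟩
    unfold young at hi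
    rcases Nat.lt_or_ge i (p.parts.sort (· ≥ ·)).length with h | h
    · rw [rowLen_eq hw i h] at hi
      rw [← hi]
      exact List.getElem_mem h
    · rw [rowLen_zero hw i h] at hi
      omega

theorem count_iff {n : ℕ} (p : n.Partition) {x : ℕ} (hx : 0 < x) :
    2 ≤ p.parts.count x ↔ ∃ i j, i < j ∧ (young p).rowLen i = x ∧ (young p).rowLen j = x := by
  have hw := (Multiset.pairwise_sort p.parts (· ≥ ·)).sortedGE
  have hc : p.parts.count x = (p.parts.sort (· ≥ ·)).count x := by
    conv_lhs => rw [← Multiset.sort_eq p.parts (· ≥ ·)]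
    rw [Multiset.coe_count]
  rw [hc, ← List.duplicate_iff_two_le_count, List.duplicate_iff_exists_distinct_get]
  constructor
  · rintro ⟨i, j, hij, hi, hj⟩
    refine ⟨i, j, hij, ?_, ?_⟩
    · unfold young; rw [rowLen_eq hw i i.2]; exact hi.symm
    · unfold young; rw [rowLen_eq hw j j.2]; exact hj.symm
  · rintro ⟨i, j, hij, hi, hj⟩
    unfold young at hi hj
    have hi' : i < (p.parts.sort (· ≥ ·)).length := by
      by_contra h
      rw [rowLen_zero hw i (by omega)] at hi
      omega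
    have hj' : j < (p.parts.sort (· ≥ ·)).length := by
      by_contra h
      rw [rowLen_zero hw j (by omega)] at hj
      omega
    refine ⟨⟨i, hi'⟩, ⟨j, hj'⟩, hij, ?_, ?_⟩
    · rw [rowLen_eq hw i hi'] at hi; exact hi.symm
    · rw [rowLen_eq hw j hj'] at hj; exact hj.symm

theorem hooks2_eq {n : ℕ} (p : n.Partition) : hooks2 p =
    (p.parts.toFinset.filter (fun x => 2 ≤ x ∧ x - 1 ∉ p.parts)).card +
    (p.parts.toFinset.filter (fun x => 2 ≤ p.parts.count x)).card := by
  obtain ⟨μ, hμ⟩ : ∃ μ, μ = young p := ⟨_, rfl⟩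
  have hmem : ∀ {x : ℕ}, 0 < x → (x ∈ p.parts ↔ ∃ i, μ.rowLen i = x) := by
    intro x hx; rw [hμ]; exact mem_parts_iff p hx
  have hcnt : ∀ {x : ℕ}, 0 < x → (2 ≤ p.parts.count x ↔
      ∃ i j, i < j ∧ μ.rowLen i = x ∧ μ.rowLen j = x) := by
    intro x hx; rw [hμ]; exact count_iff p hx
  have hpos : ∀ {x : ℕ}, x ∈ p.parts → 0 < x := fun hx => p.parts_pos hx
  unfold hooks2
  rw [← hμ]
  have hsplit : μ.cells.filter (fun c => hookLength μ c = 2) =
      μ.cells.filter (fun c => μ.rowLen c.1 = c.2 + 2 ∧ μ.colLen c.2 = c.1 + 1) ∪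
      μ.cells.filter (fun c => μ.rowLen c.1 = c.2 + 1 ∧ μ.colLen c.2 = c.1 + 2) := by
    rw [← Finset.filter_or]
    apply Finset.filter_congr
    rintro ⟨i, j⟩ hc
    have hc' : (i, j) ∈ μ := hc
    have h1 := YoungDiagram.mem_iff_lt_rowLen.1 hc'
    have h2 := YoungDiagram.mem_iff_lt_colLen.1 hc'
    unfold hookLength
    simp only
    omega
  rw [hsplit, Finset.card_union_of_disjoint]
  · congr 1
    · apply Finset.card_bij (fun c _ => c.2 + 2)
      · rintro ⟨i, j⟩ hc
        rw [Finset.mem_filter] at hc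
        obtain ⟨hc0, hc1, hc2⟩ := hc
        simp only at hc1 hc2 ⊢
        rw [Finset.mem_filter, Multiset.mem_toFinset]
        refine ⟨(hmem (by omega)).2 ⟨i, hc1⟩, by omega, ?_⟩
        intro hcon
        have e : j + 2 - 1 = j + 1 := by omega
        rw [e] at hcon
        obtain ⟨k, hk⟩ := (hmem (by omega)).1 hcon
        have hkj : (k, j) ∈ μ := YoungDiagram.mem_iff_lt_rowLen.2 (by omega)
        have := YoungDiagram.mem_iff_lt_colLen.1 hkj
        have := μ.rowLen_anti k i (by omega)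
        omega
      · rintro ⟨i, j⟩ hc ⟨i', j'⟩ hc' h
        rw [Finset.mem_filter] at hc hc'
        obtain ⟨-, hc1, hc2⟩ := hc
        obtain ⟨-, hc1', hc2'⟩ := hc'
        simp only at hc1 hc2 hc1' hc2' h
        have hj : j = j' := by omega
        subst hj
        rw [Prod.mk.injEq]
        omega
      · intro x hx
        rw [Finset.mem_filter, Multiset.mem_toFinset] at hx
        obtain ⟨hx1, hx2, hx3⟩ := hx
        obtain ⟨k, hk⟩ := (hmem (by omega)).1 hx1
        obtain ⟨j, rfl⟩ : ∃ j, x = j + 2 := ⟨x - 2, by omega⟩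
        have e : j + 2 - 1 = j + 1 := by omega
        rw [e] at hx3
        have hk1 : (k, j + 1) ∈ μ := YoungDiagram.mem_iff_lt_rowLen.2 (by omega)
        have hk2 := YoungDiagram.mem_iff_lt_colLen.1 hk1
        obtain ⟨i, hi⟩ : ∃ i, μ.colLen (j + 1) = i + 1 := ⟨μ.colLen (j + 1) - 1, by omega⟩
        have him : (i, j + 1) ∈ μ := YoungDiagram.mem_iff_lt_colLen.2 (by omega)
        have hir := YoungDiagram.mem_iff_lt_rowLen.1 him
        have hik := μ.rowLen_anti k i (by omega)
        have hri : μ.rowLen i = j + 2 := by omega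
        have hcj : μ.colLen j = i + 1 := by
          have h1 := μ.colLen_anti j (j + 1) (by omega)
          by_contra hne
          have h2 : (i + 1, j) ∈ μ := YoungDiagram.mem_iff_lt_colLen.2 (by omega)
          have h3 := YoungDiagram.mem_iff_lt_rowLen.1 h2
          have h4 : ¬ (i + 1, j + 1) ∈ μ := by
            rw [YoungDiagram.mem_iff_lt_colLen]; omega
          rw [YoungDiagram.mem_iff_lt_rowLen] at h4
          exact hx3 ((hmem (by omega)).2 ⟨i + 1, by omega⟩)
        refine ⟨(i, j), ?_, rfl⟩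
        rw [Finset.mem_filter]
        exact ⟨YoungDiagram.mem_iff_lt_rowLen.2 (by omega), hri, hcj⟩
    · apply Finset.card_bij (fun c _ => c.2 + 1)
      · rintro ⟨i, j⟩ hc
        rw [Finset.mem_filter] at hc
        obtain ⟨hc0, hc1, hc2⟩ := hc
        simp only at hc1 hc2 ⊢
        rw [Finset.mem_filter, Multiset.mem_toFinset]
        refine ⟨(hmem (by omega)).2 ⟨i, hc1⟩, ?_⟩
        rw [hcnt (by omega)]
        refine ⟨i, i + 1, by omega, hc1, ?_⟩
        have h1 : (i + 1, j) ∈ μ := YoungDiagram.mem_iff_lt_colLen.2 (by omega)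
        have h2 := YoungDiagram.mem_iff_lt_rowLen.1 h1
        have h3 := μ.rowLen_anti i (i + 1) (by omega)
        omega
      · rintro ⟨i, j⟩ hc ⟨i', j'⟩ hc' h
        rw [Finset.mem_filter] at hc hc'
        obtain ⟨-, hc1, hc2⟩ := hc
        obtain ⟨-, hc1', hc2'⟩ := hc'
        simp only at hc1 hc2 hc1' hc2' h
        have hj : j = j' := by omega
        subst hj
        rw [Prod.mk.injEq]
        omega
      · intro x hx
        rw [Finset.mem_filter, Multiset.mem_toFinset] at hx
        obtain ⟨hx1, hx2⟩ := hx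
        have hx0 := hpos hx1
        obtain ⟨k, k', hkk, hk, hk'⟩ := (hcnt hx0).1 hx2
        obtain ⟨j, rfl⟩ : ∃ j, x = j + 1 := ⟨x - 1, by omega⟩
        have hk1 : (k', j) ∈ μ := YoungDiagram.mem_iff_lt_rowLen.2 (by omega)
        have hk2 := YoungDiagram.mem_iff_lt_colLen.1 hk1
        obtain ⟨i, hi⟩ : ∃ i, μ.colLen j = i + 2 := ⟨μ.colLen j - 2, by omega⟩
        have him : (i, j) ∈ μ := YoungDiagram.mem_iff_lt_colLen.2 (by omega)
        have hir := YoungDiagram.mem_iff_lt_rowLen.1 him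
        have hik := μ.rowLen_anti k i (by omega)
        refine ⟨(i, j), ?_, rfl⟩
        rw [Finset.mem_filter]
        exact ⟨him, by simp only; omega, hi⟩
  · rw [Finset.disjoint_left]
    rintro ⟨i, j⟩ hc hc'
    rw [Finset.mem_filter] at hc hc'
    omega

end Pool.Agent.R153.Hook2
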