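import Mathlib

set_option autoImplicit false

/-! Determinants with entries depending on natural numbers: splitting by parity, rank one
perturbations. -/

namespace Pool.Agent.R153.DS

open Finset

variable {R : Type} [CommRing R]

/-- the determinant of the square matrix with entries `g i j` -/
def dt (g : ℕ → ℕ → R) (n : ℕ) : R := (Matrix.of fun i j : Fin n => g i j).det

theorem dt_congr {g g' : ℕ → ℕ → R} {n : ℕ} (h : ∀ i j, i < n → j < n → g i j = g' i j) :
    dt g n = dt g' n := by
  unfold dt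
  congr 1
  ext i j
  exact h i j i.2 j.2

theorem dt_transpose (g : ℕ → ℕ → R) (n : ℕ) : dt (fun i j => g j i) n = dt g n := by
  unfold dt
  rw [← Matrix.det_transpose]
  rfl

theorem dt_zero (g : ℕ → ℕ → R) : dt g 0 = 1 := by
  unfold dt
  rw [Matrix.det_isEmpty]

theorem dt_smul (g : ℕ → ℕ → R) (c : R) (n : ℕ) :
    dt (fun i j => c * g i j) n = c ^ n * dt g n := by
  unfold dt
  have : (Matrix.of fun i j : Fin n => c * g i j) = c • (Matrix.of fun i j : Fin n => g i j) := by
    ext i j
    rfl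
  rw [this, Matrix.det_smul, Fintype.card_fin]

theorem dt_neg (g : ℕ → ℕ → R) (n : ℕ) :
    dt (fun i j => - g i j) n = (-1) ^ n * dt g n := by
  rw [← dt_smul]
  apply dt_congr
  intro i j _ _
  ring

/-- separating even and odd indices -/
noncomputable def sp (k l n : ℕ) (hk : k = (n + 1) / 2) (hl : l = n / 2) : Fin k ⊕ Fin l ≃ Fin n :=
  Equiv.ofBijective (Sum.elim (fun a => ⟨2 * a, by have := a.2; omega⟩)
    (fun b => ⟨2 * b + 1, by have := b.2; omega⟩)) (by
  constructor
  · rintro (a | a) (b | b) hab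
    · have h := congrArg Fin.val hab
      simp only [Sum.elim_inl] at h
      congr 1
      apply Fin.ext
      omega
    · have h := congrArg Fin.val hab
      simp only [Sum.elim_inl, Sum.elim_inr] at h
      omega
    · have h := congrArg Fin.val hab
      simp only [Sum.elim_inl, Sum.elim_inr] at h
      omega
    · have h := congrArg Fin.val hab
      simp only [Sum.elim_inr] at h
      congr 1
      apply Fin.ext
      omega
  · intro i
    have hi := i.2
    by_cases h : (i : ℕ) % 2 = 0
    · refine ⟨Sum.inl ⟨i / 2, by omega⟩, ?_⟩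
      apply Fin.ext
      simp only [Sum.elim_inl]
      omega
    · refine ⟨Sum.inr ⟨i / 2, by omega⟩, ?_⟩
      apply Fin.ext
      simp only [Sum.elim_inr]
      omega)

theorem dt_split (g : ℕ → ℕ → R) {k l n : ℕ} (hk : k = (n + 1) / 2) (hl : l = n / 2) :
    dt g n = (Matrix.fromBlocks (Matrix.of fun a b : Fin k => g (2 * a) (2 * b))
      (Matrix.of fun (a : Fin k) (b : Fin l) => g (2 * a) (2 * b + 1))
      (Matrix.of fun (a : Fin l) (b : Fin k) => g (2 * a + 1) (2 * b))
      (Matrix.of fun a b : Fin l => g (2 * a + 1) (2 * b + 1))).det := by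
  unfold dt
  rw [← Matrix.det_submatrix_equiv_self (sp k l n hk hl)]
  congr 1
  ext (i | i) (j | j) <;> rfl

theorem split_upper (g : ℕ → ℕ → R) {k l n : ℕ} (hk : k = (n + 1) / 2) (hl : l = n / 2)
    (h : ∀ a b, a < k → b < l → g (2 * a) (2 * b + 1) = 0) :
    dt g n = dt (fun a b => g (2 * a) (2 * b)) k * dt (fun a b => g (2 * a + 1) (2 * b + 1)) l := by
  rw [dt_split g hk hl]
  have h1 : (Matrix.of fun (a : Fin k) (b : Fin l) => g (2 * a) (2 * b + 1)) = 0 := by
    ext a b
    exact h a b a.2 b.2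
  rw [h1, Matrix.det_fromBlocks_zero₁₂]
  rfl

theorem split_lower (g : ℕ → ℕ → R) {k l n : ℕ} (hk : k = (n + 1) / 2) (hl : l = n / 2)
    (h : ∀ a b, a < l → b < k → g (2 * a + 1) (2 * b) = 0) :
    dt g n = dt (fun a b => g (2 * a) (2 * b)) k * dt (fun a b => g (2 * a + 1) (2 * b + 1)) l := by
  rw [dt_split g hk hl]
  have h1 : (Matrix.of fun (a : Fin l) (b : Fin k) => g (2 * a + 1) (2 * b)) = 0 := by
    ext a b
    exact h a b a.2 b.2
  rw [h1, Matrix.det_fromBlocks_zero₂₁]
  rfl

theorem det_swap (m : ℕ) :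
    (Matrix.fromBlocks 0 1 1 0 : Matrix (Fin m ⊕ Fin m) (Fin m ⊕ Fin m) R).det = (-1) ^ m := by
  have h3 : (Matrix.fromBlocks 0 1 1 0 : Matrix (Fin m ⊕ Fin m) (Fin m ⊕ Fin m) R) *
      Matrix.fromBlocks 1 0 1 1 = Matrix.fromBlocks 1 1 1 0 := by
    rw [Matrix.fromBlocks_multiply]
    simp
  have h4 := congrArg Matrix.det h3
  rw [Matrix.det_mul, Matrix.det_fromBlocks_zero₁₂, Matrix.det_one, mul_one, mul_one,
    Matrix.det_fromBlocks_one₁₁, zero_sub, Matrix.one_mul, Matrix.det_neg, Matrix.det_one,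
    mul_one, Fintype.card_fin] at h4
  exact h4

theorem det_anti {m : ℕ} (B C D : Matrix (Fin m) (Fin m) R) :
    (Matrix.fromBlocks 0 B C D).det = (-1) ^ m * (B.det * C.det) := by
  have h1 : Matrix.fromBlocks 0 B C D = Matrix.fromBlocks B 0 D C * Matrix.fromBlocks 0 1 1 0 := by
    rw [Matrix.fromBlocks_multiply]
    simp
  rw [h1, Matrix.det_mul, Matrix.det_fromBlocks_zero₁₂, det_swap]
  ring

theorem det_anti' {m : ℕ} (A B C : Matrix (Fin m) (Fin m) R) :
    (Matrix.fromBlocks A B C 0).det = (-1) ^ m * (B.det * C.det) := by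
  have h1 : Matrix.fromBlocks A B C 0 = Matrix.fromBlocks B A 0 C * Matrix.fromBlocks 0 1 1 0 := by
    rw [Matrix.fromBlocks_multiply]
    simp
  rw [h1, Matrix.det_mul, Matrix.det_fromBlocks_zero₂₁, det_swap]
  ring

theorem split_anti (g : ℕ → ℕ → R) (m : ℕ)
    (h : ∀ a b, a < m → b < m → g (2 * a) (2 * b) = 0) :
    dt g (2 * m) = (-1) ^ m * (dt (fun a b => g (2 * a) (2 * b + 1)) m *
      dt (fun a b => g (2 * a + 1) (2 * b)) m) := by
  have hk : m = (2 * m + 1) / 2 := by omega
  have hl : m = 2 * m / 2 := by omega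
  rw [dt_split g hk hl]
  have h1 : (Matrix.of fun (a : Fin m) (b : Fin m) => g (2 * a) (2 * b)) = 0 := by
    ext a b
    exact h a b a.2 b.2
  rw [h1, det_anti]
  rfl

theorem split_anti' (g : ℕ → ℕ → R) (m : ℕ)
    (h : ∀ a b, a < m → b < m → g (2 * a + 1) (2 * b + 1) = 0) :
    dt g (2 * m) = (-1) ^ m * (dt (fun a b => g (2 * a) (2 * b + 1)) m *
      dt (fun a b => g (2 * a + 1) (2 * b)) m) := by
  have hk : m = (2 * m + 1) / 2 := by omega
  have hl : m = 2 * m / 2 := by omega
  rw [dt_split g hk hl]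
  have h1 : (Matrix.of fun (a : Fin m) (b : Fin m) => g (2 * a + 1) (2 * b + 1)) = 0 := by
    ext a b
    exact h a b a.2 b.2
  rw [h1, det_anti']
  rfl

/-- the matrix with a prescribed last row -/
def MX (g : ℕ → ℕ → R) (p : ℕ → R) (n : ℕ) (w : ℕ → R) : Matrix (Fin (n + 1)) (Fin (n + 1)) R :=
  Matrix.of fun i j => if (i : ℕ) < n then (if (j : ℕ) < n then g i j else p i) else w j

theorem MX_eq (g : ℕ → ℕ → R) (p : ℕ → R) (n : ℕ) (w : ℕ → R) :
    MX g p n w = (MX g p n 0).updateRow (Fin.last n) (fun j => w j) := by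
  ext i j
  by_cases h : i = Fin.last n
  · subst h
    rw [Matrix.updateRow_self]
    unfold MX
    simp
  · rw [Matrix.updateRow_ne h]
    have hi : (i : ℕ) < n := by
      have := i.2
      have h2 : (i : ℕ) ≠ n := fun h3 => h (Fin.ext h3)
      omega
    unfold MX
    simp [hi]

theorem MX_add (g : ℕ → ℕ → R) (p : ℕ → R) (n : ℕ) (w w' : ℕ → R) :
    (MX g p n (w + w')).det = (MX g p n w).det + (MX g p n w').det := by
  rw [MX_eq g p n w, MX_eq g p n w', MX_eq g p n (w + w'), ← Matrix.det_updateRow_add]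
  rfl

theorem MX_smul (g : ℕ → ℕ → R) (p : ℕ → R) (n : ℕ) (c : R) (w : ℕ → R) :
    (MX g p n (c • w)).det = c * (MX g p n w).det := by
  rw [MX_eq g p n w, MX_eq g p n (c • w), ← Matrix.det_updateRow_smul]
  rfl

theorem dt_border (g : ℕ → ℕ → R) (p q : ℕ → R) (n : ℕ) :
    dt (fun i j => g i j - p i * q j) n =
      (MX g p n (fun j => if j < n then q j else 1)).det := by
  rw [← Matrix.det_submatrix_equiv_self (finSumFinEquiv (m := n) (n := 1))]
  have h1 : (MX g p n (fun j => if j < n then q j else 1)).submatrix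
      (finSumFinEquiv (m := n) (n := 1)) (finSumFinEquiv (m := n) (n := 1)) =
      Matrix.fromBlocks (Matrix.of fun i j : Fin n => g i j)
        (Matrix.of fun (i : Fin n) (_ : Fin 1) => p i)
        (Matrix.of fun (_ : Fin 1) (j : Fin n) => q j) 1 := by
    ext (i | i) (j | j)
    · simp [MX]
    · simp [MX]
    · simp [MX]
    · have hi : i = 0 := Subsingleton.elim _ _
      have hj : j = 0 := Subsingleton.elim _ _
      subst hi
      subst hj
      simp [MX]
  rw [h1, Matrix.det_fromBlocks_one₂₂]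
  unfold dt
  congr 1
  ext i j
  simp [Matrix.mul_apply]

/-- additivity in a rank one perturbation -/
theorem dt_rank_add (g : ℕ → ℕ → R) (p q q' : ℕ → R) (n : ℕ) :
    dt (fun i j => g i j + p i * (q j + q' j)) n + dt g n =
      dt (fun i j => g i j + p i * q j) n + dt (fun i j => g i j + p i * q' j) n := by
  have e0 : dt g n = dt (fun i j => g i j - p i * 0) n := by
    apply dt_congr; intro i j _ _; ring
  have e1 : dt (fun i j => g i j + p i * q j) n = dt (fun i j => g i j - p i * (- q j)) n := by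
    apply dt_congr; intro i j _ _; ring
  have e2 : dt (fun i j => g i j + p i * q' j) n = dt (fun i j => g i j - p i * (- q' j)) n := by
    apply dt_congr; intro i j _ _; ring
  have e3 : dt (fun i j => g i j + p i * (q j + q' j)) n =
      dt (fun i j => g i j - p i * (- q j - q' j)) n := by
    apply dt_congr; intro i j _ _; ring
  rw [e0, e1, e2, e3, dt_border g p (fun _ => 0), dt_border g p (fun j => - q j),
    dt_border g p (fun j => - q' j), dt_border g p (fun j => - q j - q' j),
    ← MX_add, ← MX_add]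
  congr 2
  funext j
  simp only [Pi.add_apply]
  split_ifs <;> ring

/-- homogeneity in a rank one perturbation -/
theorem dt_rank_smul (g : ℕ → ℕ → R) (p q : ℕ → R) (c : R) (n : ℕ) :
    dt (fun i j => g i j + c * (p i * q j)) n =
      (1 - c) * dt g n + c * dt (fun i j => g i j + p i * q j) n := by
  have e0 : dt g n = dt (fun i j => g i j - p i * 0) n := by
    apply dt_congr; intro i j _ _; ring
  have e1 : dt (fun i j => g i j + p i * q j) n = dt (fun i j => g i j - p i * (- q j)) n := by
    apply dt_congr; intro i j _ _; ring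
  have e3 : dt (fun i j => g i j + c * (p i * q j)) n =
      dt (fun i j => g i j - p i * (- (c * q j))) n := by
    apply dt_congr; intro i j _ _; ring
  rw [e0, e1, e3, dt_border g p (fun _ => 0), dt_border g p (fun j => - q j),
    dt_border g p (fun j => - (c * q j)), ← MX_smul, ← MX_smul, ← MX_add]
  congr 2
  funext j
  simp only [Pi.add_apply, Pi.smul_apply, smul_eq_mul]
  split_ifs <;> ring

theorem dt_rowdiff (g : ℕ → ℕ → R) (c : ℕ → R) (n : ℕ) :
    dt (fun i j => if i = 0 then g i j else g i j - c i * g (i - 1) j) n = dt g n := by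
  rcases n with _ | n
  · rw [dt_zero, dt_zero]
  · unfold dt
    symm
    apply Matrix.det_eq_of_forall_row_eq_smul_add_pred (fun i => c (i + 1))
    · intro j
      simp
    · intro i j
      simp

theorem dt_coldiff (g : ℕ → ℕ → R) (c : ℕ → R) (n : ℕ) :
    dt (fun i j => if j = 0 then g i j else g i j - c j * g i (j - 1)) n = dt g n := by
  rw [← dt_transpose g n, ← dt_rowdiff (fun i j => g j i) c n, ← dt_transpose]

/-- subtracting even rows from the next odd rows -/
theorem dt_rowpar (g : ℕ → ℕ → R) (n : ℕ) (s : R) :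
    dt (fun i j => if i % 2 = 1 then g i j - s * g (i - 1) j else g i j) n = dt g n := by
  rw [← dt_rowdiff g (fun i => if i % 2 = 1 then s else 0) n]
  apply dt_congr
  intro i j _ _
  rcases Nat.eq_zero_or_pos i with h | h
  · subst h
    simp
  · rw [if_neg (by omega : ¬ i = 0)]
    split_ifs <;> ring

theorem dt_colpar (g : ℕ → ℕ → R) (n : ℕ) (s : R) :
    dt (fun i j => if j % 2 = 1 then g i j - s * g i (j - 1) else g i j) n = dt g n := by
  rw [← dt_transpose g n, ← dt_rowpar (fun i j => g j i) n s, ← dt_transpose]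

/-- Hankel determinant -/
def Hk (f : ℕ → R) (n : ℕ) : R := dt (fun i j => f (i + j)) n

/-- the derivative of the Hankel determinant in the direction of the constant sequence -/
def Hd (f : ℕ → R) (n : ℕ) : R := Hk (fun m => f m + 1) n - Hk f n

theorem Hk_congr {f f' : ℕ → R} (n : ℕ) (h : ∀ m, f m = f' m) : Hk f n = Hk f' n := by
  rw [funext h]

theorem Hk_zero (f : ℕ → R) : Hk f 0 = 1 := dt_zero _

theorem Hd_zero (f : ℕ → R) : Hd f 0 = 0 := by
  unfold Hd
  rw [Hk_zero, Hk_zero, sub_self]

theorem Hk_const (f : ℕ → R) (c : R) (n : ℕ) : Hk (fun m => f m + c) n = Hk f n + c * Hd f n := by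
  have h := dt_rank_smul (fun i j => f (i + j)) (fun _ => 1) (fun _ => 1) c n
  unfold Hd Hk
  simp only [mul_one] at h
  rw [h]
  ring

theorem Hd_const (f : ℕ → R) (c : R) (n : ℕ) : Hd (fun m => f m + c) n = Hd f n := by
  have h1 := Hk_const f c n
  have h2 := Hk_const f (c + 1) n
  have e : Hk (fun m => f m + c + 1) n = Hk (fun m => f m + (c + 1)) n :=
    Hk_congr n (fun m => by ring)
  unfold Hd at *
  rw [e, h1, h2]
  ring

theorem Hk_smul (f : ℕ → R) (t : R) (n : ℕ) : Hk (fun m => t * f m) n = t ^ n * Hk f n := by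
  unfold Hk
  rw [← dt_smul]

theorem Hd_smul (f : ℕ → R) (t : R) (ht : IsLeftRegular t) (n : ℕ) :
    Hd (fun m => t * f m) (n + 1) = t ^ n * Hd f (n + 1) := by
  apply ht
  simp only
  have h1 := Hk_const (fun m => t * f m) t (n + 1)
  have h2 : Hk (fun m => t * f m + t) (n + 1) = t ^ (n + 1) * Hk (fun m => f m + 1) (n + 1) := by
    rw [← Hk_smul]
    exact Hk_congr _ (fun m => by ring)
  rw [h2, Hk_smul] at h1
  have h3 : Hd f (n + 1) = Hk (fun m => f m + 1) (n + 1) - Hk f (n + 1) := rfl
  rw [h3]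
  linear_combination -h1

end Pool.Agent.R153.DS
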