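import Pool.Agent.R153.DS1

set_option autoImplicit false

/-! Recursions for the Hankel determinants of weighted binary digit sums. -/

namespace Pool.Agent.R153.DS

open Finset

variable {R : Type} [CommRing R]

def ev (i : ℕ) : R := if i % 2 = 0 then 1 else 0

def od (i : ℕ) : R := if i % 2 = 1 then 1 else 0

theorem ev_even (a : ℕ) : (ev (2 * a) : R) = 1 := by
  unfold ev
  rw [if_pos (by omega)]

theorem ev_odd (a : ℕ) : (ev (2 * a + 1) : R) = 0 := by
  unfold ev
  rw [if_neg (by omega)]

theorem od_even (a : ℕ) : (od (2 * a) : R) = 0 := by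
  unfold od
  rw [if_neg (by omega)]

theorem od_odd (a : ℕ) : (od (2 * a + 1) : R) = 1 := by
  unfold od
  rw [if_pos (by omega)]

/-- block diagonal with respect to parity -/
def bd (X Y : ℕ → ℕ → R) (i j : ℕ) : R :=
  if i % 2 = 0 then (if j % 2 = 0 then X (i / 2) (j / 2) else 0)
  else (if j % 2 = 0 then 0 else Y (i / 2) (j / 2))

theorem bd_ee (X Y : ℕ → ℕ → R) (a b : ℕ) : bd X Y (2 * a) (2 * b) = X a b := by
  unfold bd
  rw [if_pos (by omega), if_pos (by omega), Nat.mul_div_cancel_left _ two_pos,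
    Nat.mul_div_cancel_left _ two_pos]

theorem bd_eo (X Y : ℕ → ℕ → R) (a b : ℕ) : bd X Y (2 * a) (2 * b + 1) = 0 := by
  unfold bd
  rw [if_pos (by omega), if_neg (by omega)]

theorem bd_oe (X Y : ℕ → ℕ → R) (a b : ℕ) : bd X Y (2 * a + 1) (2 * b) = 0 := by
  unfold bd
  rw [if_neg (by omega), if_pos (by omega)]

theorem bd_oo (X Y : ℕ → ℕ → R) (a b : ℕ) : bd X Y (2 * a + 1) (2 * b + 1) = Y a b := by
  unfold bd
  rw [if_neg (by omega), if_neg (by omega)]
  congr 1 <;> omega

theorem parity_cases {P : ℕ → Prop} (h0 : ∀ a, P (2 * a)) (h1 : ∀ a, P (2 * a + 1)) (i : ℕ) :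
    P i := by
  rcases Nat.even_or_odd' i with ⟨a, rfl | rfl⟩
  · exact h0 a
  · exact h1 a

theorem dt_JJ (X Y s : ℕ → ℕ → R) {k l n : ℕ} (hk : k = (n + 1) / 2) (hl : l = n / 2)
    (h00 : ∀ a b, s (2 * a) (2 * b) = X a b) (h01 : ∀ a b, s (2 * a) (2 * b + 1) = 1)
    (h10 : ∀ a b, s (2 * a + 1) (2 * b) = 1) (h11 : ∀ a b, s (2 * a + 1) (2 * b + 1) = Y a b + 1) :
    dt s n = dt X k * dt (fun a b => Y a b + 1) l -
      (dt (fun a b => X a b + 1) k - dt X k) * (dt (fun a b => Y a b + 1) l - dt Y l) := by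
  have e0 : dt (bd X Y) n = dt X k * dt Y l := by
    rw [split_upper _ hk hl (fun a b _ _ => bd_eo X Y a b)]
    congr 1
    · exact dt_congr (fun i j _ _ => bd_ee X Y i j)
    · exact dt_congr (fun i j _ _ => bd_oo X Y i j)
  have e1 : dt (fun i j => bd X Y i j + 1 * ev j) n = dt (fun a b => X a b + 1) k * dt Y l := by
    rw [split_upper _ hk hl (fun a b _ _ => by rw [bd_eo, ev_odd]; ring)]
    congr 1
    · exact dt_congr (fun i j _ _ => by rw [bd_ee, ev_even]; ring)
    · exact dt_congr (fun i j _ _ => by rw [bd_oo, ev_odd]; ring)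
  have e2 : dt (fun i j => bd X Y i j + 1 * od j) n = dt X k * dt (fun a b => Y a b + 1) l := by
    rw [split_lower _ hk hl (fun a b _ _ => by rw [bd_oe, od_even]; ring)]
    congr 1
    · exact dt_congr (fun i j _ _ => by rw [bd_ee, od_even]; ring)
    · exact dt_congr (fun i j _ _ => by rw [bd_oo, od_odd]; ring)
  have e3 := dt_rank_add (bd X Y) (fun _ => 1) ev od n
  have e4 : dt (fun i j => bd X Y i j + od i * 1) n = dt X k * dt (fun a b => Y a b + 1) l := by
    rw [split_upper _ hk hl (fun a b _ _ => by rw [bd_eo, od_even]; ring)]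
    congr 1
    · exact dt_congr (fun i j _ _ => by rw [bd_ee, od_even]; ring)
    · exact dt_congr (fun i j _ _ => by rw [bd_oo, od_odd]; ring)
  have e5 : dt (fun i j => bd X Y i j + od i * 1 + ev i * ev j) n =
      dt (fun a b => X a b + 1) k * dt (fun a b => Y a b + 1) l := by
    rw [split_upper _ hk hl (fun a b _ _ => by rw [bd_eo, od_even, ev_odd]; ring)]
    congr 1
    · exact dt_congr (fun i j _ _ => by rw [bd_ee, od_even, ev_even, ev_even]; ring)
    · exact dt_congr (fun i j _ _ => by rw [bd_oo, od_odd, ev_odd]; ring)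
  have e6 := dt_rank_add (fun i j => bd X Y i j + od i * 1) ev ev od n
  have e7 : dt (fun i j => bd X Y i j + od i * 1 + ev i * (ev j + od j)) n =
      dt (fun i j => bd X Y i j + 1 * (ev j + od j)) n := by
    apply dt_congr
    intro i j _ _
    have h : (ev i + od i : R) = 1 :=
      parity_cases (P := fun i => (ev i + od i : R) = 1) (fun a => by rw [ev_even, od_even]; ring)
        (fun a => by rw [ev_odd, od_odd]; ring) i
    have h2 : (ev j + od j : R) = 1 :=
      parity_cases (P := fun i => (ev i + od i : R) = 1) (fun a => by rw [ev_even, od_even]; ring)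
        (fun a => by rw [ev_odd, od_odd]; ring) j
    rw [h2]
    linear_combination h
  have e8 : dt (fun i j => bd X Y i j + od i * 1 + ev i * od j) n = dt s n := by
    apply dt_congr
    intro i j _ _
    rcases Nat.even_or_odd' i with ⟨a, rfl | rfl⟩ <;> rcases Nat.even_or_odd' j with ⟨b, rfl | rfl⟩
    · rw [bd_ee, od_even, od_even, ev_even, h00]; ring
    · rw [bd_eo, od_even, od_odd, ev_even, h01]; ring
    · rw [bd_oe, od_odd, ev_odd, h10]; ring
    · rw [bd_oo, od_odd, ev_odd, h11]; ring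
  rw [e0, e1, e2] at e3
  rw [e4, e5, e7, e8] at e6
  linear_combination e3 - e6

/-- Hankel matrix with a column of ones -/
def Eo (f : ℕ → R) (n : ℕ) : R := dt (fun i j => if j < n then f (i + j) else 1) (n + 1)

theorem Eo_eq (f : ℕ → R) (n : ℕ) : Eo f n = (-1) ^ n * Hk (fun m => f (m + 1) - f m) n := by
  unfold Eo Hk dt
  set Z : Matrix (Fin (n + 1)) (Fin (n + 1)) R :=
    Matrix.of fun i j => if (j : ℕ) < n then f (i + j) else 1 with hZ
  set B : Matrix (Fin (n + 1)) (Fin (n + 1)) R :=
    Matrix.of fun i => Fin.cases (Z 0) (fun i' => fun j => Z i'.succ j - Z i'.castSucc j) i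
    with hB
  have h1 : Z.det = B.det := by
    apply Matrix.det_eq_of_forall_row_eq_smul_add_pred (fun _ => (1 : R))
    · intro j
      rfl
    · intro i j
      have : B i.succ j = Z i.succ j - Z i.castSucc j := rfl
      rw [this]
      ring
  have hlast : ∀ i : Fin n, B i.succ (Fin.last n) = 0 := by
    intro i
    have : B i.succ (Fin.last n) = Z i.succ (Fin.last n) - Z i.castSucc (Fin.last n) := rfl
    rw [this, hZ]
    simp
  have h00 : B 0 (Fin.last n) = 1 := by
    have : B 0 (Fin.last n) = Z 0 (Fin.last n) := rfl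
    rw [this, hZ]
    simp
  rw [h1, Matrix.det_succ_column B (Fin.last n), Fin.sum_univ_succ]
  have hz : ∑ i : Fin n, (-1 : R) ^ ((i.succ : ℕ) + (Fin.last n : ℕ)) * B i.succ (Fin.last n) *
      (B.submatrix i.succ.succAbove (Fin.last n).succAbove).det = 0 := by
    apply Finset.sum_eq_zero
    intro i _
    rw [hlast, mul_zero, zero_mul]
  rw [hz, add_zero, h00, mul_one, Fin.val_zero, zero_add, Fin.val_last]
  congr 2
  ext i j
  rw [Matrix.submatrix_apply, Fin.succAbove_zero, Fin.succAbove_last]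
  have : B i.succ j.castSucc = Z i.succ j.castSucc - Z i.castSucc j.castSucc := rfl
  rw [this, hZ]
  simp only [Matrix.of_apply, Fin.val_castSucc, Fin.is_lt, if_true, Fin.val_succ]
  congr 2
  ring

theorem Eo_smul (f : ℕ → R) (c : R) (n : ℕ) :
    dt (fun i j => if j < n then f (i + j) else c) (n + 1) = c * Eo f n := by
  unfold Eo dt
  have h3 : (Matrix.of fun i j : Fin (n + 1) => if (j : ℕ) < n then f (i + j) else c) =
      Matrix.of fun i j : Fin (n + 1) => (if (j : ℕ) < n then 1 else c) *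
        (Matrix.of fun i j : Fin (n + 1) => if (j : ℕ) < n then f (i + j) else (1 : R)) i j := by
    ext i j
    simp only [Matrix.of_apply]
    split_ifs <;> ring
  rw [h3, Matrix.det_mul_row]
  have h4 : ∏ i : Fin (n + 1), (if (i : ℕ) < n then (1 : R) else c) = c := by
    rw [Fin.prod_univ_castSucc]
    simp
  rw [h4]

/-- Hankel determinant of odd size of a sequence constant at even places -/
theorem Hk_odd_const (z y : ℕ → R) (c : R) (n : ℕ) (h0 : ∀ m, z (2 * m) = c)
    (h1 : ∀ m, z (2 * m + 1) = y m) :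
    Hk z (2 * n + 1) = (-1) ^ n * c * Hk (fun m => y (m + 1) - y m) n ^ 2 := by
  unfold Hk
  have e1 : dt (fun i j => z (i + j)) (2 * n + 1) =
      dt (fun i j => (z (i + j) - c * (ev i * ev j)) - ev i * (- c * ev j)) (2 * n + 1) := by
    apply dt_congr; intro i j _ _; ring
  rw [e1, dt_border (fun i j => z (i + j) - c * (ev i * ev j)) ev (fun j => - c * ev j)]
  set m : ℕ → ℕ → R := fun i j => if i < 2 * n + 1 then
    (if j < 2 * n + 1 then z (i + j) - c * (ev i * ev j) else ev i) else
      (if j < 2 * n + 1 then - c * ev j else 1) with hm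
  have e2 : (MX (fun i j => z (i + j) - c * (ev i * ev j)) ev (2 * n + 1)
      (fun j => if j < 2 * n + 1 then - c * ev j else 1)).det = dt m (2 * (n + 1)) := rfl
  rw [e2, split_anti]
  · have e3 : dt (fun a b => m (2 * a) (2 * b + 1)) (n + 1) = Eo y n := by
      apply dt_congr
      intro a b ha hb
      rw [hm]
      simp only
      rw [if_pos (by omega : 2 * a < 2 * n + 1)]
      by_cases hb2 : b < n
      · rw [if_pos (by omega : 2 * b + 1 < 2 * n + 1), if_pos hb2, ev_odd, ← h1]
        have : 2 * a + (2 * b + 1) = 2 * (a + b) + 1 := by ring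
        rw [this]
        ring
      · rw [if_neg (by omega : ¬ 2 * b + 1 < 2 * n + 1), if_neg hb2, ev_even]
    have e4 : dt (fun a b => m (2 * a + 1) (2 * b)) (n + 1) = - c * Eo y n := by
      rw [← dt_transpose, ← Eo_smul]
      apply dt_congr
      intro a b ha hb
      rw [hm]
      simp only
      rw [if_pos (by omega : 2 * a < 2 * n + 1)]
      by_cases hb2 : b < n
      · rw [if_pos (by omega : 2 * b + 1 < 2 * n + 1), if_pos hb2, ev_odd, ← h1]
        have : 2 * b + 1 + 2 * a = 2 * (a + b) + 1 := by ring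
        rw [this]
        ring
      · rw [if_neg (by omega : ¬ 2 * b + 1 < 2 * n + 1), if_neg hb2,
          if_pos (by omega : 2 * a < 2 * n + 1), ev_even, mul_one]
    rw [e3, e4, Eo_eq]
    have h3 : ((-1 : R) ^ n) * (-1) ^ n = 1 := by
      rw [← mul_pow]; norm_num
    unfold Hk
    rw [pow_succ]
    linear_combination ((-1) ^ n * c * dt (fun i j => y (i + j + 1) - y (i + j)) n ^ 2) * h3
  · intro a b ha hb
    rw [hm]
    simp only
    rw [if_pos (by omega : 2 * a < 2 * n + 1), if_pos (by omega : 2 * b < 2 * n + 1), ev_even,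
      ev_even]
    have : 2 * a + 2 * b = 2 * (a + b) := by ring
    rw [this, h0]
    ring

section recursions

/-- first difference -/
def dif (f : ℕ → R) (m : ℕ) : R := f (m + 1) - f m

variable {t : R} {f : ℕ → R} (hf0 : ∀ m, f (2 * m) = t * f m) (hf1 : ∀ m, f (2 * m + 1) = t * f m + 1)

include hf0 hf1

theorem dif_even (m : ℕ) : dif f (2 * m) = 1 := by
  unfold dif
  rw [hf1, hf0]
  ring

theorem dif_odd (m : ℕ) : dif f (2 * m + 1) = t * dif f m - 1 := by
  unfold dif
  have : 2 * m + 1 + 1 = 2 * (m + 1) := by ring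
  rw [this, hf0, hf1]
  ring

/-- the auxiliary determinant -/
def Kd (t : R) (f : ℕ → R) (n : ℕ) : R := Hk (fun m => t * dif f m - 2) n

omit hf0 hf1 in
theorem Kd_dt (n : ℕ) : Kd t f n = dt (fun i j => t * dif f (i + j) - 2) n := rfl

omit hf0 hf1 in
theorem Kd_eq (n : ℕ) : Kd t f n =
    Hk (fun m => t * dif f m) n - 2 * Hd (fun m => t * dif f m) n := by
  have := Hk_const (fun m => t * dif f m) (-2) n
  unfold Kd
  have e : Hk (fun m => t * dif f m - 2) n = Hk (fun m => t * dif f m + -2) n :=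
    Hk_congr _ (fun m => by ring)
  rw [e, this]
  ring

theorem A_rec_aux (x : R) {k l n : ℕ} (hk : k = (n + 1) / 2) (hl : l = n / 2) :
    Hk (fun m => f m + x) n = Hk (fun m => t * f m + x) k * Kd t f l -
      Hd (fun m => t * f m) k * Hd (fun m => t * dif f m) l := by
  have e1 : Hk (fun m => f m + x) n = dt (fun i j => f (i + j) + x) n := rfl
  rw [e1, ← dt_colpar _ n 1, ← dt_rowpar _ n 1,
    dt_JJ (fun a b => t * f (a + b) + x) (fun a b => t * dif f (a + b) - 3) _ hk hl]
  · have e2 : Hd (fun m => t * f m) k = Hd (fun m => t * f m + x) k := (Hd_const _ _ _).symm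
    have e3 : Hd (fun m => t * dif f m) l = Hd (fun m => t * dif f m + -3) l :=
      (Hd_const _ _ _).symm
    rw [e2, e3]
    unfold Hd Kd Hk
    have e4 : dt (fun a b => t * dif f (a + b) - 3 + 1) l = dt (fun i j => t * dif f (i + j) - 2) l :=
      dt_congr (fun i j _ _ => by ring)
    have e5 : dt (fun i j => t * dif f (i + j) + -3 + 1) l =
        dt (fun i j => t * dif f (i + j) - 2) l :=
      dt_congr (fun i j _ _ => by ring)
    have e6 : dt (fun a b => t * dif f (a + b) - 3) l = dt (fun i j => t * dif f (i + j) + -3) l :=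
      dt_congr (fun i j _ _ => by ring)
    rw [e4, e5, e6]
  · intro a b
    rw [if_neg (by omega), if_neg (by omega)]
    have : 2 * a + 2 * b = 2 * (a + b) := by ring
    rw [this, hf0]
  · intro a b
    rw [if_neg (by omega), if_pos (by omega), Nat.add_sub_cancel]
    have : 2 * a + (2 * b + 1) = 2 * (a + b) + 1 := by ring
    have h2 : 2 * a + 2 * b = 2 * (a + b) := by ring
    rw [this, h2, hf0, hf1]
    ring
  · intro a b
    rw [if_pos (by omega), if_neg (by omega), if_neg (by omega), Nat.add_sub_cancel]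
    have : 2 * a + 1 + 2 * b = 2 * (a + b) + 1 := by ring
    have h2 : 2 * a + 2 * b = 2 * (a + b) := by ring
    rw [this, h2, hf0, hf1]
    ring
  · intro a b
    rw [if_pos (by omega), if_pos (by omega), if_pos (by omega), Nat.add_sub_cancel,
      Nat.add_sub_cancel]
    have h1 : 2 * a + 1 + (2 * b + 1) = 2 * (a + b + 1) := by ring
    have h2 : 2 * a + 1 + 2 * b = 2 * (a + b) + 1 := by ring
    have h3 : 2 * a + (2 * b + 1) = 2 * (a + b) + 1 := by ring
    have h4 : 2 * a + 2 * b = 2 * (a + b) := by ring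
    rw [h1, h2, h3, h4, hf0, hf0, hf1]
    unfold dif
    ring

theorem A_rec {k l n : ℕ} (hk : k = (n + 1) / 2) (hl : l = n / 2) :
    Hk f n = Hk (fun m => t * f m) k * Kd t f l -
      Hd (fun m => t * f m) k * Hd (fun m => t * dif f m) l := by
  have h := A_rec_aux hf0 hf1 0 hk hl
  have e1 : Hk (fun m => f m + 0) n = Hk f n := Hk_congr _ (fun m => by ring)
  have e2 : Hk (fun m => t * f m + 0) k = Hk (fun m => t * f m) k := Hk_congr _ (fun m => by ring)
  rw [e1, e2] at h
  exact h

theorem A'_rec {k l n : ℕ} (hk : k = (n + 1) / 2) (hl : l = n / 2) :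
    Hd f n = Hd (fun m => t * f m) k * Kd t f l := by
  have h := A_rec_aux hf0 hf1 1 hk hl
  have h2 := A_rec hf0 hf1 hk hl
  have e : Hd (fun m => t * f m) k = Hk (fun m => t * f m + 1) k - Hk (fun m => t * f m) k := rfl
  have e' : Hd f n = Hk (fun m => f m + 1) n - Hk f n := rfl
  rw [e', e]
  rw [e] at h h2
  linear_combination h - h2

theorem G_rec_aux (x : R) (n : ℕ) :
    Hk (fun m => dif f m + x) (2 * n) = (-1) ^ n * (Kd t f n * Hk (fun m => t * dif f m + 2 * x) n) := by
  have e1 : Hk (fun m => dif f m + x) (2 * n) = dt (fun i j => dif f (i + j) + x) (2 * n) := rfl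
  rw [e1, ← dt_rowpar _ (2 * n) (-1), ← dt_colpar _ (2 * n) 1, split_anti', Kd_dt]
  · congr 2
    · apply dt_congr
      intro a b _ _
      rw [if_pos (by omega), if_neg (by omega), if_neg (by omega), Nat.add_sub_cancel]
      have : 2 * a + (2 * b + 1) = 2 * (a + b) + 1 := by ring
      have h2 : 2 * a + 2 * b = 2 * (a + b) := by ring
      rw [this, h2, dif_even hf0 hf1, dif_odd hf0 hf1]
      ring
    · apply dt_congr
      intro a b _ _
      rw [if_neg (by omega), if_pos (by omega), Nat.add_sub_cancel]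
      have : 2 * a + 1 + 2 * b = 2 * (a + b) + 1 := by ring
      have h2 : 2 * a + 2 * b = 2 * (a + b) := by ring
      rw [this, h2, dif_even hf0 hf1, dif_odd hf0 hf1]
      ring
  · intro a b _ _
    rw [if_pos (by omega), if_pos (by omega), if_pos (by omega), Nat.add_sub_cancel,
      Nat.add_sub_cancel]
    have h1 : 2 * a + 1 + (2 * b + 1) = 2 * (a + b + 1) := by ring
    have h2 : 2 * a + 1 + 2 * b = 2 * (a + b) + 1 := by ring
    have h3 : 2 * a + (2 * b + 1) = 2 * (a + b) + 1 := by ring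
    have h4 : 2 * a + 2 * b = 2 * (a + b) := by ring
    rw [h1, h2, h3, h4, dif_even hf0 hf1, dif_even hf0 hf1, dif_odd hf0 hf1]
    ring

theorem G_rec (n : ℕ) :
    Hk (dif f) (2 * n) = (-1) ^ n * (Kd t f n * Hk (fun m => t * dif f m) n) := by
  have h := G_rec_aux hf0 hf1 0 n
  have e1 : Hk (fun m => dif f m + 0) (2 * n) = Hk (dif f) (2 * n) := Hk_congr _ (fun m => by ring)
  have e2 : Hk (fun m => t * dif f m + 2 * 0) n = Hk (fun m => t * dif f m) n :=
    Hk_congr _ (fun m => by ring)
  rw [e1, e2] at h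
  exact h

theorem G'_rec (n : ℕ) :
    Hd (dif f) (2 * n) = (-1) ^ n * (Kd t f n * (2 * Hd (fun m => t * dif f m) n)) := by
  have h := G_rec_aux hf0 hf1 1 n
  have h2 := G_rec hf0 hf1 n
  have e' : Hd (dif f) (2 * n) = Hk (fun m => dif f m + 1) (2 * n) - Hk (dif f) (2 * n) := rfl
  have h3 := Hk_const (fun m => t * dif f m) (2 * 1) n
  rw [e', h, h2, h3]
  ring

theorem G_odd_aux (x : R) (n : ℕ) :
    Hk (fun m => dif f m + x) (2 * n + 1) =
      (-1) ^ n * (1 + x) * Hk (fun m => t * dif (dif f) m) n ^ 2 := by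
  rw [Hk_odd_const (fun m => dif f m + x) (fun m => t * dif f m - 1 + x) (1 + x) n
    (fun m => by rw [dif_even hf0 hf1]) (fun m => by rw [dif_odd hf0 hf1])]
  congr 2
  apply Hk_congr
  intro m
  unfold dif
  ring

theorem G_odd (n : ℕ) :
    Hk (dif f) (2 * n + 1) = (-1) ^ n * Hk (fun m => t * dif (dif f) m) n ^ 2 := by
  have h := G_odd_aux hf0 hf1 0 n
  have e1 : Hk (fun m => dif f m + 0) (2 * n + 1) = Hk (dif f) (2 * n + 1) :=
    Hk_congr _ (fun m => by ring)
  rw [e1] at h
  rw [h]
  ring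

theorem G'_odd (n : ℕ) :
    Hd (dif f) (2 * n + 1) = (-1) ^ n * Hk (fun m => t * dif (dif f) m) n ^ 2 := by
  have h := G_odd_aux hf0 hf1 1 n
  have h2 := G_odd hf0 hf1 n
  have e' : Hd (dif f) (2 * n + 1) = Hk (fun m => dif f m + 1) (2 * n + 1) - Hk (dif f) (2 * n + 1) :=
    rfl
  rw [e', h, h2]
  ring

theorem B_rec {k l n : ℕ} (hk : k = (n + 1) / 2) (hl : l = n / 2) :
    Hk (dif (dif f)) n = Kd t f k * Hk (fun m => t * dif (dif f) m) l := by
  have d0 : ∀ m, dif (dif f) (2 * m) = t * dif f m - 2 := by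
    intro m
    have : dif (dif f) (2 * m) = dif f (2 * m + 1) - dif f (2 * m) := rfl
    rw [this, dif_even hf0 hf1, dif_odd hf0 hf1]
    ring
  have d1 : ∀ m, dif (dif f) (2 * m + 1) = 2 - t * dif f m := by
    intro m
    have : dif (dif f) (2 * m + 1) = dif f (2 * (m + 1)) - dif f (2 * m + 1) := rfl
    rw [this, dif_even hf0 hf1, dif_odd hf0 hf1]
    ring
  have e1 : Hk (dif (dif f)) n = dt (fun i j => dif (dif f) (i + j)) n := rfl
  rw [e1, ← dt_rowpar _ n (-1), split_lower _ hk hl, Kd_dt]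
  · congr 1
    · apply dt_congr
      intro a b _ _
      rw [if_neg (by omega)]
      have : 2 * a + 2 * b = 2 * (a + b) := by ring
      rw [this, d0]
    · apply dt_congr
      intro a b _ _
      rw [if_pos (by omega), Nat.add_sub_cancel]
      have h1 : 2 * a + 1 + (2 * b + 1) = 2 * (a + b + 1) := by ring
      have h3 : 2 * a + (2 * b + 1) = 2 * (a + b) + 1 := by ring
      rw [h1, h3, d0, d1]
      have : dif (dif f) (a + b) = dif f (a + b + 1) - dif f (a + b) := rfl
      change _ = t * dif (dif f) (a + b)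
      rw [this]
      ring
  · intro a b _ _
    rw [if_pos (by omega), Nat.add_sub_cancel]
    have h2 : 2 * a + 1 + 2 * b = 2 * (a + b) + 1 := by ring
    have h4 : 2 * a + 2 * b = 2 * (a + b) := by ring
    rw [h2, h4, d0, d1]
    ring

end recursions

end Pool.Agent.R153.DS
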