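import Pool.Agent.R153.DS2

set_option autoImplicit false

/-! The weighted binary digit sum and nonvanishing of its Hankel determinants. -/

namespace Pool.Agent.R153.DS

open Finset

/-- the weighted binary digit sum -/
noncomputable def ds {R : Type} [CommRing R] (t : R) (m : ℕ) : R := Nat.ofDigits t (Nat.digits 2 m)

section

variable {R : Type} [CommRing R] (t : R)

theorem ofD_cons (h : ℕ) (l : List ℕ) : Nat.ofDigits t (h :: l) = h + t * Nat.ofDigits t l := rfl

theorem ds_zero : ds t 0 = 0 := by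
  unfold ds
  rw [Nat.digits_zero]
  rfl

theorem ds_even (m : ℕ) : ds t (2 * m) = t * ds t m := by
  rcases Nat.eq_zero_or_pos m with h | h
  · subst h
    rw [mul_zero, ds_zero, mul_zero]
  · unfold ds
    rw [Nat.digits_def' (by norm_num) (by omega : 0 < 2 * m), ofD_cons]
    simp

theorem ds_odd (m : ℕ) : ds t (2 * m + 1) = t * ds t m + 1 := by
  unfold ds
  rw [Nat.digits_def' (by norm_num) (by omega : 0 < 2 * m + 1), ofD_cons]
  have h1 : (2 * m + 1) % 2 = 1 := by omega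
  have h2 : (2 * m + 1) / 2 = m := by omega
  rw [h1, h2]
  push_cast
  ring

theorem ds_map {S : Type} [CommRing S] (φ : R →+* S) (m : ℕ) : φ (ds t m) = ds (φ t) m := by
  induction m using Nat.strong_induction_on with
  | _ m ih =>
    rcases Nat.eq_zero_or_pos m with h | h
    · subst h
      rw [ds_zero, ds_zero, map_zero]
    · rcases Nat.even_or_odd' m with ⟨k, hk | hk⟩
      · rw [hk, ds_even, ds_even, map_mul, ih k (by omega)]
      · rw [hk, ds_odd, ds_odd, map_add, map_mul, map_one, ih k (by omega)]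

theorem Hk_map {S : Type} [CommRing S] (φ : R →+* S) (n : ℕ) :
    φ (Hk (ds t) n) = Hk (ds (φ t)) n := by
  unfold Hk dt
  rw [RingHom.map_det]
  congr 1
  ext i j
  simp only [RingHom.mapMatrix_apply, Matrix.map_apply, Matrix.of_apply]
  exact ds_map t φ _

end

section complex

variable {t : ℂ} (ht : 2 < ‖t‖)

include ht

theorem t_ne : t ≠ 0 := by
  intro h
  rw [h, norm_zero] at ht
  linarith

theorem t_reg : IsLeftRegular t := fun _ _ hab => mul_left_cancel₀ (t_ne ht) hab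

theorem K_formula (n : ℕ) : Kd t (ds t) (n + 1) =
    t ^ (n + 1) * Hk (dif (ds t)) (n + 1) - 2 * (t ^ n * Hd (dif (ds t)) (n + 1)) := by
  rw [Kd_eq, Hk_smul, Hd_smul _ _ (t_reg ht)]

theorem K_bound (n : ℕ) (h : ‖Hd (dif (ds t)) (n + 1)‖ ≤ ‖Hk (dif (ds t)) (n + 1)‖) :
    ‖t‖ ^ n * (‖t‖ - 2) * ‖Hk (dif (ds t)) (n + 1)‖ ≤ ‖Kd t (ds t) (n + 1)‖ := by
  rw [K_formula ht]
  have h1 := norm_sub_norm_le (t ^ (n + 1) * Hk (dif (ds t)) (n + 1))
    (2 * (t ^ n * Hd (dif (ds t)) (n + 1)))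
  rw [norm_mul, norm_mul, norm_mul, norm_pow, norm_pow] at h1
  have h2 : ‖(2 : ℂ)‖ = 2 := by norm_num
  rw [h2] at h1
  have h3 : 0 ≤ ‖t‖ ^ n := by positivity
  have h4 := mul_le_mul_of_nonneg_left h h3
  rw [pow_succ] at h1 ⊢
  rw [pow_succ] at h1
  nlinarith

theorem K_ne (n : ℕ) (h0 : Hk (dif (ds t)) n ≠ 0) (h : ‖Hd (dif (ds t)) n‖ ≤ ‖Hk (dif (ds t)) n‖) :
    Kd t (ds t) n ≠ 0 := by
  rcases n with _ | n
  · unfold Kd
    rw [Hk_zero]
    exact one_ne_zero
  · have h1 := K_bound ht n h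
    intro h2
    rw [h2, norm_zero] at h1
    have h3 : 0 < ‖t‖ ^ n * (‖t‖ - 2) * ‖Hk (dif (ds t)) (n + 1)‖ := by
      apply mul_pos
      · apply mul_pos
        · have : 0 < ‖t‖ := by linarith
          positivity
        · linarith
      · exact norm_pos_iff.2 h0
    linarith

theorem GB (n : ℕ) : Hk (dif (ds t)) n ≠ 0 ∧ Hk (dif (dif (ds t))) n ≠ 0 ∧
    ‖Hd (dif (ds t)) n‖ ≤ ‖Hk (dif (ds t)) n‖ := by
  have ht0 := t_ne ht
  have hf0 := ds_even t
  have hf1 := ds_odd t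
  induction n using Nat.strong_induction_on with
  | _ n ih =>
    rcases Nat.even_or_odd' n with ⟨m, hm | hm⟩
    · rcases m with _ | m
      · rw [hm, mul_zero, Hk_zero, Hk_zero, Hd_zero]
        refine ⟨one_ne_zero, one_ne_zero, ?_⟩
        rw [norm_zero]
        exact norm_nonneg _
      · obtain ⟨g1, b1, gb1⟩ := ih (m + 1) (by omega)
        have hK := K_ne ht (m + 1) g1 gb1
        rw [hm]
        refine ⟨?_, ?_, ?_⟩
        · rw [G_rec hf0 hf1, Hk_smul]
          exact mul_ne_zero (pow_ne_zero _ (by norm_num))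
            (mul_ne_zero hK (mul_ne_zero (pow_ne_zero _ ht0) g1))
        · rw [B_rec hf0 hf1 (k := m + 1) (l := m + 1) (by omega) (by omega), Hk_smul]
          exact mul_ne_zero hK (mul_ne_zero (pow_ne_zero _ ht0) b1)
        · rw [G_rec hf0 hf1, G'_rec hf0 hf1, Hk_smul, Hd_smul _ _ (t_reg ht)]
          rw [norm_mul ((-1) ^ (m + 1)), norm_mul ((-1) ^ (m + 1)), norm_mul (Kd t (ds t) (m + 1)),
            norm_mul (Kd t (ds t) (m + 1))]
          apply mul_le_mul_of_nonneg_left _ (norm_nonneg _)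
          apply mul_le_mul_of_nonneg_left _ (norm_nonneg _)
          rw [norm_mul, norm_mul, norm_mul, norm_pow, norm_pow]
          have h2 : ‖(2 : ℂ)‖ = 2 := by norm_num
          rw [h2, pow_succ]
          have h3 : 0 ≤ ‖t‖ ^ m := by positivity
          have h4 := mul_le_mul_of_nonneg_left gb1 h3
          have h5 : 0 ≤ ‖t‖ ^ m * ‖Hk (dif (ds t)) (m + 1)‖ := by positivity
          nlinarith
    · obtain ⟨g0, b0, gb0⟩ := ih m (by omega)
      have hg : Hk (dif (ds t)) n ≠ 0 := by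
        rw [hm, G_odd hf0 hf1, Hk_smul]
        exact mul_ne_zero (pow_ne_zero _ (by norm_num))
          (pow_ne_zero _ (mul_ne_zero (pow_ne_zero _ ht0) b0))
      have hgg : ‖Hd (dif (ds t)) n‖ ≤ ‖Hk (dif (ds t)) n‖ := by
        rw [hm, G_odd hf0 hf1, G'_odd hf0 hf1]
      refine ⟨hg, ?_, hgg⟩
      have hK : Kd t (ds t) (m + 1) ≠ 0 := by
        rcases Nat.eq_zero_or_pos m with h | h
        · have h1 : m + 1 = n := by omega
          rw [h1]
          exact K_ne ht n hg hgg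
        · obtain ⟨g1, -, gb1⟩ := ih (m + 1) (by omega)
          exact K_ne ht (m + 1) g1 gb1
      rw [hm, B_rec hf0 hf1 (k := m + 1) (l := m) (by omega) (by omega), Hk_smul]
      exact mul_ne_zero hK (mul_ne_zero (pow_ne_zero _ ht0) b0)

theorem Kd_ne (n : ℕ) : Kd t (ds t) n ≠ 0 := by
  obtain ⟨g, -, gg⟩ := GB ht n
  exact K_ne ht n g gg

theorem A'_ne (n : ℕ) : Hd (ds t) (n + 1) ≠ 0 := by
  have ht0 := t_ne ht
  have hf0 := ds_even t
  have hf1 := ds_odd t
  induction n using Nat.strong_induction_on with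
  | _ n ih =>
    rcases Nat.eq_zero_or_pos n with h | h
    · subst h
      have : Hd (ds t) (0 + 1) = 1 := by
        unfold Hd Hk dt
        simp
      rw [this]
      exact one_ne_zero
    · obtain ⟨k, hk⟩ : ∃ k, (n + 1 + 1) / 2 = k + 1 := ⟨(n + 1 + 1) / 2 - 1, by omega⟩
      rw [A'_rec hf0 hf1 (k := k + 1) (l := (n + 1) / 2) hk.symm rfl, Hd_smul _ _ (t_reg ht)]
      exact mul_ne_zero (mul_ne_zero (pow_ne_zero _ ht0) (ih k (by omega))) (Kd_ne ht _)

omit ht in
theorem A_bound (ht : 4 ≤ ‖t‖) (n : ℕ) : ‖Hd (ds t) (n + 2)‖ ≤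
    (‖t‖ - 1) * (‖t‖ - 2) * ‖Hk (ds t) (n + 2)‖ := by
  have ht2 : 2 < ‖t‖ := by linarith
  have hf0 := ds_even t
  have hf1 := ds_odd t
  induction n using Nat.strong_induction_on with
  | _ n ih =>
    rcases Nat.eq_zero_or_pos n with h | h
    · subst h
      have d0 : ds t 0 = 0 := ds_zero t
      have d1 : ds t 1 = 1 := by
        have := ds_odd t 0
        rw [mul_zero, zero_add] at this
        rw [this, d0]
        ring
      have h1 : Hd (ds t) 1 = 1 := by
        unfold Hd Hk dt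
        simp
      have h2 : Hk (ds t) 1 = 0 := by
        unfold Hk dt
        simp [d0]
      have h3 : Hk (dif (ds t)) 1 = 1 := by
        unfold Hk dt dif
        simp [d0, d1]
      have h4 : Hd (dif (ds t)) 1 = 1 := by
        unfold Hd Hk dt
        simp
      have hK : Kd t (ds t) 1 = t - 2 := by
        rw [K_formula ht2 0, h3, h4]
        ring
      have hA' : Hd (ds t) (0 + 2) = t - 2 := by
        rw [A'_rec hf0 hf1 (k := 0 + 1) (l := 1) (by norm_num) (by norm_num),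
          Hd_smul _ _ (t_reg ht2), h1, hK]
        ring
      have hA : Hk (ds t) (0 + 2) = -1 := by
        rw [A_rec hf0 hf1 (k := 0 + 1) (l := 0 + 1) (by norm_num) (by norm_num), Hk_smul,
          Hd_smul _ _ (t_reg ht2), Hd_smul _ _ (t_reg ht2), h1, h2, h4]
        ring
      rw [hA', hA, norm_neg, norm_one, mul_one]
      have h5 := norm_sub_le t 2
      have h6 : ‖(2 : ℂ)‖ = 2 := by norm_num
      rw [h6] at h5
      nlinarith
    · obtain ⟨k, hk⟩ : ∃ k, (n + 2 + 1) / 2 = k + 2 := ⟨(n + 2 + 1) / 2 - 2, by omega⟩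
      obtain ⟨l, hl⟩ : ∃ l, (n + 2) / 2 = l + 1 := ⟨(n + 2) / 2 - 1, by omega⟩
      have e1 := A'_rec hf0 hf1 (k := k + 2) (l := l + 1) (n := n + 2) (by omega) (by omega)
      have e2 := A_rec hf0 hf1 (k := k + 2) (l := l + 1) (n := n + 2) (by omega) (by omega)
      rw [Hd_smul _ _ (t_reg ht2)] at e1 e2
      rw [Hd_smul _ _ (t_reg ht2), Hk_smul] at e2
      have ihk := ih k (by omega)
      obtain ⟨g, -, gg⟩ := GB ht2 (l + 1)
      have hKb := K_bound ht2 l gg
      set a := ‖Hk (ds t) (k + 2)‖ with ha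
      set a' := ‖Hd (ds t) (k + 2)‖ with ha'
      set K := ‖Kd t (ds t) (l + 1)‖ with hK
      set g' := ‖Hd (dif (ds t)) (l + 1)‖ with hg'
      set G := ‖Hk (dif (ds t)) (l + 1)‖ with hG
      have e3 : ‖Hd (ds t) (n + 2)‖ = ‖t‖ ^ (k + 1) * a' * K := by
        rw [e1, norm_mul, norm_mul, norm_pow]
      have e4 : ‖t‖ ^ (k + 2) * a * K - ‖t‖ ^ (k + 1) * a' * (‖t‖ ^ l * g') ≤
          ‖Hk (ds t) (n + 2)‖ := by
        rw [e2]
        have := norm_sub_norm_le (t ^ (k + 2) * Hk (ds t) (k + 2) * Kd t (ds t) (l + 1))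
          (t ^ (k + 1) * Hd (ds t) (k + 2) * (t ^ l * Hd (dif (ds t)) (l + 1)))
        rw [norm_mul, norm_mul, norm_mul, norm_mul, norm_mul, norm_pow, norm_pow, norm_pow] at this
        exact this
      rw [e3]
      have ht1 : 0 ≤ ‖t‖ ^ (k + 1) := by positivity
      have htl : 0 ≤ ‖t‖ ^ l := by positivity
      have ha0 : 0 ≤ a := norm_nonneg _
      have ha'0 : 0 ≤ a' := norm_nonneg _
      have hK0 : 0 ≤ K := norm_nonneg _
      have hg0 : 0 ≤ g' := norm_nonneg _
      have hc : 0 ≤ (‖t‖ - 1) * (‖t‖ - 2) := by nlinarith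
      have s1 : (‖t‖ - 2) * (‖t‖ ^ l * g') ≤ K := by
        have h7 : (‖t‖ - 2) * (‖t‖ ^ l * g') ≤ (‖t‖ - 2) * (‖t‖ ^ l * G) :=
          mul_le_mul_of_nonneg_left (mul_le_mul_of_nonneg_left gg htl) (by linarith)
        have h8 : (‖t‖ - 2) * (‖t‖ ^ l * G) = ‖t‖ ^ l * (‖t‖ - 2) * G := by ring
        rw [h8] at h7
        exact h7.trans hKb
      calc ‖t‖ ^ (k + 1) * a' * K
          = ‖t‖ ^ (k + 1) * (‖t‖ * (a' * K) - (‖t‖ - 1) * (a' * K)) := by ring
        _ ≤ ‖t‖ ^ (k + 1) * (‖t‖ * ((‖t‖ - 1) * (‖t‖ - 2) * a * K) -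
            (‖t‖ - 1) * (a' * ((‖t‖ - 2) * (‖t‖ ^ l * g')))) := by
            apply mul_le_mul_of_nonneg_left _ ht1
            apply sub_le_sub
            · apply mul_le_mul_of_nonneg_left _ (by linarith)
              exact mul_le_mul_of_nonneg_right ihk hK0
            · apply mul_le_mul_of_nonneg_left _ (by linarith)
              exact mul_le_mul_of_nonneg_left s1 ha'0
        _ = (‖t‖ - 1) * (‖t‖ - 2) *
            (‖t‖ ^ (k + 2) * a * K - ‖t‖ ^ (k + 1) * a' * (‖t‖ ^ l * g')) := by ring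
        _ ≤ (‖t‖ - 1) * (‖t‖ - 2) * ‖Hk (ds t) (n + 2)‖ := mul_le_mul_of_nonneg_left e4 hc

omit ht in
theorem A_ne (ht : 4 ≤ ‖t‖) (n : ℕ) (hn : 2 ≤ n) : Hk (ds t) n ≠ 0 := by
  intro h
  obtain ⟨m, rfl⟩ : ∃ m, n = m + 2 := ⟨n - 2, by omega⟩
  have h1 := A_bound ht m
  rw [h, norm_zero, mul_zero] at h1
  have h2 : Hd (ds t) (m + 1 + 1) ≠ 0 := A'_ne (by linarith) (m + 1)
  exact h2 (norm_le_zero_iff.1 h1)

end complex

end Pool.Agent.R153.DS
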