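import Pool.Agent.R153.DS3

set_option autoImplicit false

/-! The Hankel determinant of size 55 at `-1`, with multiplicity two: computation in the dual
numbers. -/

namespace Pool.Agent.R153.DS4

open Pool.Agent.R153.DS

/-- the dual number `a + b ε` -/
def mk (a b : ℤ) : DualNumber ℤ := (a, b)

/-- `-1 + ε` -/
def tt : DualNumber ℤ := mk (-1) 1

theorem tt_reg : IsLeftRegular tt := by
  have h : mk (-1) (-1) * tt = 1 := rfl
  intro x y hxy
  have hxy2 : tt * x = tt * y := hxy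
  calc x = 1 * x := (one_mul x).symm
    _ = mk (-1) (-1) * (tt * x) := by rw [← h, mul_assoc]
    _ = mk (-1) (-1) * (tt * y) := by rw [hxy2]
    _ = 1 * y := by rw [← mul_assoc, h]
    _ = y := one_mul y

noncomputable def a (n : ℕ) : DualNumber ℤ := Hk (ds tt) n
noncomputable def a1 (n : ℕ) : DualNumber ℤ := Hd (ds tt) n
noncomputable def g (n : ℕ) : DualNumber ℤ := Hk (dif (ds tt)) n
noncomputable def g1 (n : ℕ) : DualNumber ℤ := Hd (dif (ds tt)) n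
noncomputable def b (n : ℕ) : DualNumber ℤ := Hk (dif (dif (ds tt))) n
noncomputable def K (n : ℕ) : DualNumber ℤ := Kd tt (ds tt) n

theorem K_rec {n n2 : ℕ} (h : n2 + 1 = n) : K n = tt ^ n * g n - 2 * (tt ^ n2 * g1 n) := by
  subst h
  unfold K g g1
  rw [Kd_eq, Hk_smul, Hd_smul _ _ tt_reg]

theorem a_rec {n k l k2 l2 : ℕ} (hk : k = (n + 1) / 2) (hl : l = n / 2) (hk2 : k2 + 1 = k)
    (hl2 : l2 + 1 = l) :
    a n = tt ^ k * a k * K l - tt ^ k2 * a1 k * (tt ^ l2 * g1 l) := by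
  unfold a K g1 a1
  rw [A_rec (ds_even tt) (ds_odd tt) hk hl, Hk_smul]
  subst hk2
  subst hl2
  rw [Hd_smul _ _ tt_reg, Hd_smul _ _ tt_reg]

theorem a1_rec {n k l k2 : ℕ} (hk : k = (n + 1) / 2) (hl : l = n / 2) (hk2 : k2 + 1 = k) :
    a1 n = tt ^ k2 * a1 k * K l := by
  unfold a1 K
  rw [A'_rec (ds_even tt) (ds_odd tt) hk hl]
  subst hk2
  rw [Hd_smul _ _ tt_reg]

theorem g_even {n m : ℕ} (h : n = 2 * m) : g n = (-1) ^ m * (K m * (tt ^ m * g m)) := by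
  subst h
  unfold g K
  rw [G_rec (ds_even tt) (ds_odd tt), Hk_smul]

theorem g1_even {n m m2 : ℕ} (h : n = 2 * m) (h2 : m2 + 1 = m) :
    g1 n = (-1) ^ m * (K m * (2 * (tt ^ m2 * g1 m))) := by
  subst h
  subst h2
  unfold g1 K
  rw [G'_rec (ds_even tt) (ds_odd tt), Hd_smul _ _ tt_reg]

theorem g_odd {n m : ℕ} (h : n = 2 * m + 1) : g n = (-1) ^ m * (tt ^ m * b m) ^ 2 := by
  subst h
  unfold g b
  rw [G_odd (ds_even tt) (ds_odd tt), Hk_smul]

theorem g1_odd {n m : ℕ} (h : n = 2 * m + 1) : g1 n = (-1) ^ m * (tt ^ m * b m) ^ 2 := by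
  subst h
  unfold g1 b
  rw [G'_odd (ds_even tt) (ds_odd tt), Hk_smul]

theorem b_rec {n k l : ℕ} (hk : k = (n + 1) / 2) (hl : l = n / 2) :
    b n = K k * (tt ^ l * b l) := by
  unfold b K
  rw [B_rec (ds_even tt) (ds_odd tt) hk hl, Hk_smul]

theorem b_zero : b 0 = 1 := Hk_zero _

theorem a_one : a 1 = mk 0 0 := by
  have : a 1 = ds tt 0 := by
    unfold a Hk dt
    simp
  rw [this, ds_zero]
  rfl

theorem a1_one : a1 1 = mk 1 0 := by
  have : a1 1 = 1 := by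
    unfold a1 Hd Hk dt
    simp
  rw [this]
  rfl

theorem vA_1 : a 1 = mk (0) (0) := by
  exact a_one

theorem vG_1 : g 1 = mk (1) (0) := by
  rw [g_odd (m := 0) rfl, b_zero]; rfl

theorem vG1_1 : g1 1 = mk (1) (0) := by
  rw [g1_odd (m := 0) rfl, b_zero]; rfl

theorem vK_1 : K 1 = mk (-3) (1) := by
  rw [K_rec (n := 1) (n2 := 0) rfl, vG_1, vG1_1]; rfl

theorem vA1_1 : a1 1 = mk (1) (0) := by
  exact a1_one

theorem vA_2 : a 2 = mk (-1) (0) := by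
  rw [a_rec (k := 1) (l := 1) (k2 := 0) (l2 := 0) rfl rfl rfl rfl, vA_1, vK_1, vA1_1, vG1_1]; rfl

theorem vG_2 : g 2 = mk (-3) (4) := by
  rw [g_even (m := 1) rfl, vK_1, vG_1]; rfl

theorem vG1_2 : g1 2 = mk (6) (-2) := by
  rw [g1_even (m := 1) (m2 := 0) rfl rfl, vK_1, vG1_1]; rfl

theorem vK_2 : K 2 = mk (9) (-6) := by
  rw [K_rec (n := 2) (n2 := 1) rfl, vG_2, vG1_2]; rfl

theorem vA1_2 : a1 2 = mk (-3) (1) := by
  rw [a1_rec (k := 1) (l := 1) (k2 := 0) rfl rfl rfl, vA1_1, vK_1]; rfl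

theorem vA_4 : a 4 = mk (9) (-24) := by
  rw [a_rec (k := 2) (l := 2) (k2 := 1) (l2 := 1) rfl rfl rfl rfl, vA_2, vK_2, vA1_2, vG1_2]; rfl

theorem vB_1 : b 1 = mk (-3) (1) := by
  rw [b_rec (k := 1) (l := 0) rfl rfl, vK_1, b_zero]; rfl

theorem vG_3 : g 3 = mk (-9) (24) := by
  rw [g_odd (m := 1) rfl, vB_1]; rfl

theorem vG1_3 : g1 3 = mk (-9) (24) := by
  rw [g1_odd (m := 1) rfl, vB_1]; rfl

theorem vK_3 : K 3 = mk (27) (-135) := by
  rw [K_rec (n := 3) (n2 := 2) rfl, vG_3, vG1_3]; rfl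

theorem vA1_4 : a1 4 = mk (27) (-54) := by
  rw [a1_rec (k := 2) (l := 2) (k2 := 1) rfl rfl rfl, vA1_2, vK_2]; rfl

theorem vA_7 : a 7 = mk (0) (-486) := by
  rw [a_rec (k := 4) (l := 3) (k2 := 3) (l2 := 2) rfl rfl rfl rfl, vA_4, vK_3, vA1_4, vG1_3]; rfl

theorem vB_3 : b 3 = mk (27) (-54) := by
  rw [b_rec (k := 2) (l := 1) rfl rfl, vK_2, vB_1]; rfl

theorem vG_7 : g 7 = mk (-729) (7290) := by
  rw [g_odd (m := 3) rfl, vB_3]; rfl

theorem vG1_7 : g1 7 = mk (-729) (7290) := by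
  rw [g1_odd (m := 3) rfl, vB_3]; rfl

theorem vK_7 : K 7 = mk (2187) (-35721) := by
  rw [K_rec (n := 7) (n2 := 6) rfl, vG_7, vG1_7]; rfl

theorem vA1_7 : a1 7 = mk (-729) (7290) := by
  rw [a1_rec (k := 4) (l := 3) (k2 := 3) rfl rfl rfl, vA1_4, vK_3]; rfl

theorem vA_14 : a 14 = mk (-531441) (18068994) := by
  rw [a_rec (k := 7) (l := 7) (k2 := 6) (l2 := 6) rfl rfl rfl rfl, vA_7, vK_7, vA1_7, vG1_7]; rfl

theorem vG_14 : g 14 = mk (-1594323) (53144100) := by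
  rw [g_even (m := 7) rfl, vK_7, vG_7]; rfl

theorem vG1_14 : g1 14 = mk (3188646) (-103099554) := by
  rw [g1_even (m := 7) (m2 := 6) rfl rfl, vK_7, vG1_7]; rfl

theorem vK_14 : K 14 = mk (4782969) (-213639282) := by
  rw [K_rec (n := 14) (n2 := 13) rfl, vG_14, vG1_14]; rfl

theorem vA1_14 : a1 14 = mk (-1594323) (51549777) := by
  rw [a1_rec (k := 7) (l := 7) (k2 := 6) rfl rfl rfl, vA1_7, vK_7]; rfl

theorem vA_28 : a 28 = mk (2541865828329) (-225378770111838) := by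
  rw [a_rec (k := 14) (l := 14) (k2 := 13) (l2 := 13) rfl rfl rfl rfl, vA_14, vK_14, vA1_14, vG1_14]; rfl

theorem vB_6 : b 6 = mk (-729) (7290) := by
  rw [b_rec (k := 3) (l := 3) rfl rfl, vK_3, vB_3]; rfl

theorem vB_13 : b 13 = mk (-1594323) (51549777) := by
  rw [b_rec (k := 7) (l := 6) rfl rfl, vK_7, vB_6]; rfl

theorem vG_27 : g 27 = mk (-2541865828329) (230462501768496) := by
  rw [g_odd (m := 13) rfl, vB_13]; rfl

theorem vG1_27 : g1 27 = mk (-2541865828329) (230462501768496) := by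
  rw [g1_odd (m := 13) rfl, vB_13]; rfl

theorem vK_27 : K 27 = mk (7625597484987) (-892194905743479) := by
  rw [K_rec (n := 27) (n2 := 26) rfl, vG_27, vG1_27]; rfl

theorem vA1_28 : a1 28 = mk (7625597484987) (-686303773648830) := by
  rw [a1_rec (k := 14) (l := 14) (k2 := 13) rfl rfl rfl, vA1_14, vK_14]; rfl

theorem vA_55 : a 55 = mk (0) (0) := by
  rw [a_rec (k := 28) (l := 27) (k2 := 27) (l2 := 26) rfl rfl rfl rfl, vA_28, vK_27, vA1_28, vG1_27]; rfl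

end Pool.Agent.R153.DS4
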