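import Mathlib

/-!
# Ferrers boards and gapped patterns: the injection inside one class

`B` is a down-closed board, `X` a finite set of columns, `p0` a base permutation.  We construct an
injection from the placements with no far `21` inside the board to the placements with no far `12`.
-/

namespace Pool.Agent.R153.GP

open Finset

variable {n : ℕ}

/-- next element of `V` after `w` -/
noncomputable def nx (V : Finset (Fin n)) (w : Fin n) : Fin n :=
  if h : (V.filter (fun u => w < u)).Nonempty then (V.filter (fun u => w < u)).min' h else w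

theorem nx_spec {V : Finset (Fin n)} {w m : Fin n} (hm : m ∈ V) (hw : w < m) :
    w < nx V w ∧ nx V w ∈ V ∧ ∀ u ∈ V, w < u → nx V w ≤ u := by
  have h : (V.filter (fun u => w < u)).Nonempty := ⟨m, by simp [hm, hw]⟩
  unfold nx
  rw [dif_pos h]
  have h1 := Finset.min'_mem _ h
  rw [mem_filter] at h1
  exact ⟨h1.2, h1.1, fun u hu hwu => Finset.min'_le _ _ (by simp [hu, hwu])⟩

/-- the cyclic shift of the values in `V` between `v` and `m` -/
noncomputable def kap (V : Finset (Fin n)) (v m w : Fin n) : Fin n :=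
  if w ∈ V ∧ v ≤ w then (if w = m then v else nx V w) else w

section kap

variable {V : Finset (Fin n)} {v m : Fin n}

theorem kap_m (hv : v ∈ V) (hm : m ∈ V) (hmax : ∀ w ∈ V, w ≤ m) : kap V v m m = v := by
  unfold kap
  rw [if_pos ⟨hm, hmax v hv⟩, if_pos rfl]

theorem kap_not_mem {w : Fin n} (hw : w ∉ V) : kap V v m w = w := by
  unfold kap
  rw [if_neg (fun h => hw h.1)]

theorem kap_lt {w : Fin n} (hw : w < v) : kap V v m w = w := by
  unfold kap
  rw [if_neg (fun h => absurd h.2 (not_le.mpr hw))]

theorem kap_ge (hm : m ∈ V) (hmax : ∀ w ∈ V, w ≤ m) {w : Fin n} (hw : w ∈ V) (hvw : v ≤ w)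
    (hwm : w ≠ m) :
    w < kap V v m w ∧ kap V v m w ∈ V ∧ ∀ u ∈ V, w < u → kap V v m w ≤ u := by
  unfold kap
  rw [if_pos ⟨hw, hvw⟩, if_neg hwm]
  exact nx_spec hm (lt_of_le_of_ne (hmax w hw) hwm)

theorem kap_mem (hv : v ∈ V) (hm : m ∈ V) (hmax : ∀ w ∈ V, w ≤ m) {w : Fin n} (hw : w ∈ V) :
    kap V v m w ∈ V := by
  by_cases h1 : w = m
  · subst h1
    rw [kap_m hv hm hmax]
    exact hv
  · by_cases h2 : v ≤ w
    · exact (kap_ge hm hmax hw h2 h1).2.1
    · rw [kap_lt (not_le.mp h2)]
      exact hw

theorem kap_inj (hv : v ∈ V) (hm : m ∈ V) (hmax : ∀ w ∈ V, w ≤ m) :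
    Function.Injective (kap V v m) := by
  have key : ∀ a b : Fin n, a < b → kap V v m a ≠ kap V v m b := by
    intro a b hab
    by_cases ha : a ∈ V
    · by_cases hb : b ∈ V
      · have ham : a ≠ m := fun h => absurd (hmax b hb) (not_le.mpr (h ▸ hab))
        by_cases hva : v ≤ a
        · have h1 := kap_ge hm hmax ha hva ham
          by_cases hbm : b = m
          · rw [hbm, kap_m hv hm hmax]
            exact (lt_of_le_of_lt hva h1.1).ne'
          · have h2 := kap_ge hm hmax hb (hva.trans hab.le) hbm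
            exact (lt_of_le_of_lt (h1.2.2 b hb hab) h2.1).ne
        · push Not at hva
          rw [kap_lt hva]
          by_cases hbm : b = m
          · rw [hbm, kap_m hv hm hmax]
            exact hva.ne
          · by_cases hvb : v ≤ b
            · have h2 := kap_ge hm hmax hb hvb hbm
              exact (lt_trans hab h2.1).ne
            · rw [kap_lt (not_le.mp hvb)]
              exact hab.ne
      · rw [kap_not_mem hb]
        intro h
        exact hb (h ▸ kap_mem hv hm hmax ha)
    · rw [kap_not_mem ha]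
      by_cases hb : b ∈ V
      · intro h
        exact ha (h.symm ▸ kap_mem hv hm hmax hb)
      · rw [kap_not_mem hb]
        exact hab.ne
  intro a b h
  rcases lt_trichotomy a b with h1 | h1 | h1
  · exact absurd h (key a b h1)
  · exact h1
  · exact absurd h.symm (key b a h1)

end kap

open Classical in
/-- `kap` as a permutation -/
noncomputable def kperm (V : Finset (Fin n)) (v m : Fin n) : Equiv.Perm (Fin n) :=
  if h : Function.Injective (kap V v m) then
    Equiv.ofBijective (kap V v m) (Finite.injective_iff_bijective.mp h) else 1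

theorem kperm_apply {V : Finset (Fin n)} {v m : Fin n} (hv : v ∈ V) (hm : m ∈ V)
    (hmax : ∀ w ∈ V, w ≤ m) (w : Fin n) : kperm V v m w = kap V v m w := by
  unfold kperm
  rw [dif_pos (kap_inj hv hm hmax)]
  rfl

section main

variable (B : Fin n → Fin n → Prop) (r : ℕ)

/-- permutations equal to `p0` outside `X` and inside the board on `X` -/
def Base (X : Finset (Fin n)) (p0 p : Equiv.Perm (Fin n)) : Prop :=
  (∀ x, x ∉ X → p x = p0 x) ∧ ∀ x ∈ X, B x (p x)

/-- no far `21` inside the board -/
def A21 (X : Finset (Fin n)) (p0 p : Equiv.Perm (Fin n)) : Prop :=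
  Base B X p0 p ∧ ∀ x ∈ X, ∀ y ∈ X, (x : ℕ) + r < y → p y < p x → ¬ B y (p x)

/-- no far `12` -/
def A12 (X : Finset (Fin n)) (p0 p : Equiv.Perm (Fin n)) : Prop :=
  Base B X p0 p ∧ ∀ x ∈ X, ∀ y ∈ X, (x : ℕ) + r < y → p y < p x

open Classical in
/-- columns reaching height `m` -/
noncomputable def top (X : Finset (Fin n)) (m : Fin n) : Finset (Fin n) :=
  X.filter (fun x => B x m)

open Classical in
/-- candidates for the bumped value -/
noncomputable def cand (X : Finset (Fin n)) (V : Finset (Fin n)) (p : Equiv.Perm (Fin n))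
    (j : Fin n) : Finset (Fin n) :=
  V.filter (fun w => ∀ y ∈ X, (j : ℕ) + r < y → p y < w)

/-- the bumped value -/
noncomputable def vv (X : Finset (Fin n)) (V : Finset (Fin n)) (p : Equiv.Perm (Fin n))
    (j : Fin n) : Fin n :=
  if h : (cand r X V p j).Nonempty then (cand r X V p j).min' h else j

/-- the bump -/
noncomputable def bump (X : Finset (Fin n)) (m j : Fin n) (p : Equiv.Perm (Fin n)) :
    Equiv.Perm (Fin n) :=
  kperm ((top B X m).image p) (vv r X ((top B X m).image p) p j) m * p

/-- hypotheses of the bump -/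
structure Hy (X : Finset (Fin n)) (m j : Fin n) (p : Equiv.Perm (Fin n)) : Prop where
  hj : j ∈ X
  hpj : p j = m
  hle : ∀ x ∈ X, p x ≤ m
  hBj : B j m
  hR : ∀ y ∈ X, (j : ℕ) + r < y → ¬ B y m
  far : ∀ x ∈ X, ∀ y ∈ X, x ≠ j → y ≠ j → (x : ℕ) + r < y → p y < p x

variable {B} {r}

theorem mem_top {X : Finset (Fin n)} {m x : Fin n} : x ∈ top B X m ↔ x ∈ X ∧ B x m := by
  classical
  unfold top
  rw [Finset.mem_filter]

theorem mem_cand {X V : Finset (Fin n)} {p : Equiv.Perm (Fin n)} {j w : Fin n} :
    w ∈ cand r X V p j ↔ w ∈ V ∧ ∀ y ∈ X, (j : ℕ) + r < y → p y < w := by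
  unfold cand
  rw [mem_filter]

/-- the facts about the bump -/
structure Fa (X : Finset (Fin n)) (m j : Fin n) (p z : Equiv.Perm (Fin n)) (v : Fin n)
    (V : Finset (Fin n)) : Prop where
  zj : z j = v
  hv : v ∈ V
  hvy : ∀ y ∈ X, (j : ℕ) + r < y → z y < v
  hmin : ∀ w ∈ V, (∀ y ∈ X, (j : ℕ) + r < y → z y < w) → v ≤ w
  img : (top B X m).image z = V
  out : ∀ x, x ∉ top B X m → z x = p x
  ins : ∀ x ∈ top B X m, x ≠ j → (p x < v ∧ z x = p x) ∨
    (v ≤ p x ∧ p x < z x ∧ ∀ u ∈ V, p x < u → z x ≤ u)

theorem bump_facts {X : Finset (Fin n)} {m j : Fin n} {p : Equiv.Perm (Fin n)}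
    (h : Hy B r X m j p) :
    Fa (B := B) (r := r) X m j p (bump B r X m j p)
      (vv r X ((top B X m).image p) p j) ((top B X m).image p) := by
  set V := (top B X m).image p with hV
  set v := vv r X V p j with hvdef
  have hjT : j ∈ top B X m := mem_top.mpr ⟨h.hj, h.hBj⟩
  have hmV : m ∈ V := by
    rw [hV, mem_image]
    exact ⟨j, hjT, h.hpj⟩
  have hmax : ∀ w ∈ V, w ≤ m := by
    intro w hw
    rw [hV, mem_image] at hw
    obtain ⟨x, hx, rfl⟩ := hw
    exact h.hle x (mem_top.mp hx).1
  have hmc : m ∈ cand r X V p j := by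
    rw [mem_cand]
    refine ⟨hmV, fun y hy hyj => lt_of_le_of_ne (h.hle y hy) ?_⟩
    intro e
    have e2 : y = j := p.injective (e.trans h.hpj.symm)
    rw [e2] at hyj
    omega
  have hne : (cand r X V p j).Nonempty := ⟨m, hmc⟩
  have hvc : v ∈ cand r X V p j := by
    rw [hvdef]
    unfold vv
    rw [dif_pos hne]
    exact Finset.min'_mem _ hne
  have hvmin : ∀ w ∈ cand r X V p j, v ≤ w := by
    intro w hw
    rw [hvdef]
    unfold vv
    rw [dif_pos hne]
    exact Finset.min'_le _ _ hw
  have hvV : v ∈ V := (mem_cand.mp hvc).1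
  have hz : ∀ x, bump B r X m j p x = kap V v m (p x) := by
    intro x
    unfold bump
    rw [Equiv.Perm.mul_apply]
    exact kperm_apply hvV hmV hmax (p x)
  have hout : ∀ x, x ∉ top B X m → bump B r X m j p x = p x := by
    intro x hx
    rw [hz]
    apply kap_not_mem
    rw [hV, mem_image]
    rintro ⟨x', hx', e⟩
    exact hx ((p.injective e) ▸ hx')
  have hfar : ∀ y ∈ X, (j : ℕ) + r < y → y ∉ top B X m := fun y hy hyj hyt =>
    h.hR y hy hyj (mem_top.mp hyt).2
  have hfar2 : ∀ y ∈ X, (j : ℕ) + r < y → bump B r X m j p y = p y := fun y hy hyj =>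
    hout y (hfar y hy hyj)
  refine ⟨?_, hvV, ?_, ?_, ?_, hout, ?_⟩
  · rw [hz, h.hpj, kap_m hvV hmV hmax]
  · intro y hy hyj
    rw [hfar2 y hy hyj]
    exact (mem_cand.mp hvc).2 y hy hyj
  · intro w hw hy
    apply hvmin
    rw [mem_cand]
    refine ⟨hw, fun y hyX hyj => ?_⟩
    rw [← hfar2 y hyX hyj]
    exact hy y hyX hyj
  · apply Finset.eq_of_subset_of_card_le
    · intro w hw
      rw [mem_image] at hw
      obtain ⟨x, hx, rfl⟩ := hw
      rw [hz]
      exact kap_mem hvV hmV hmax (by rw [hV]; exact mem_image_of_mem p hx)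
    · rw [hV, card_image_of_injective _ p.injective,
        card_image_of_injective _ (bump B r X m j p).injective]
  · intro x hx hxj
    have hxV : p x ∈ V := by rw [hV]; exact mem_image_of_mem p hx
    have hxm : p x ≠ m := fun e => hxj (p.injective (e.trans h.hpj.symm))
    by_cases hvx : v ≤ p x
    · right
      have h1 := kap_ge hmV hmax hxV hvx hxm
      rw [hz]
      exact ⟨hvx, h1.1, h1.2.2⟩
    · left
      push Not at hvx
      rw [hz]
      exact ⟨hvx, kap_lt hvx⟩

/-- `B` is down-closed -/
def Down (B : Fin n → Fin n → Prop) : Prop :=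
  ∀ x v x' v', B x v → x' ≤ x → v' ≤ v → B x' v'

theorem bump_mem (hB : Down B) {X : Finset (Fin n)} {m j : Fin n} {p p0 : Equiv.Perm (Fin n)}
    (h : Hy B r X m j p) (h0 : ∀ x, x ∉ X → p x = p0 x)
    (hb : ∀ x ∈ X, x ≠ j → B x (p x)) : A12 B r X p0 (bump B r X m j p) := by
  have F := bump_facts h
  set z := bump B r X m j p with hz
  set V := (top B X m).image p with hV
  set v := vv r X V p j with hvdef
  have hjT : j ∈ top B X m := mem_top.mpr ⟨h.hj, h.hBj⟩
  have hmax : ∀ w ∈ V, w ≤ m := by
    intro w hw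
    rw [hV, mem_image] at hw
    obtain ⟨x, hx, rfl⟩ := hw
    exact h.hle x (mem_top.mp hx).1
  have hpV : ∀ x ∈ top B X m, p x ∈ V := fun x hx => by
    rw [hV]; exact mem_image_of_mem p hx
  have hge : ∀ x, x ≠ j → p x ≤ z x := by
    intro x hxj
    by_cases hx : x ∈ top B X m
    · rcases F.ins x hx hxj with h1 | h1
      · exact h1.2.ge
      · exact h1.2.1.le
    · exact (F.out x hx).ge
  refine ⟨⟨?_, ?_⟩, ?_⟩
  · intro x hx
    rw [F.out x (fun h' => hx (mem_top.mp h').1)]
    exact h0 x hx
  · intro x hx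
    by_cases hxt : x ∈ top B X m
    · have h1 : z x ∈ V := by
        rw [← F.img]
        exact mem_image_of_mem z hxt
      exact hB x m x (z x) (mem_top.mp hxt).2 le_rfl (hmax _ h1)
    · rw [F.out x hxt]
      apply hb x hx
      intro e
      exact hxt (e ▸ hjT)
  · intro x hx y hy hxy
    have hlt : x < y := by
      rw [Fin.lt_def]
      omega
    by_cases hxj : x = j
    · subst hxj
      rw [F.zj]
      exact F.hvy y hy hxy
    · by_cases hyj : y = j
      · subst hyj
        have hxt : x ∈ top B X m := mem_top.mpr ⟨hx, hB y m x m h.hBj hlt.le le_rfl⟩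
        have hvx : v ≤ p x := by
          apply F.hmin _ (hpV x hxt)
          intro y' hy' hyy'
          have hy't : y' ∉ top B X m := fun h' => h.hR y' hy' hyy' (mem_top.mp h').2
          rw [F.out y' hy't]
          apply h.far x hx y' hy' hxj
          · intro e
            rw [e] at hyy'
            omega
          · omega
        rw [F.zj]
        rcases F.ins x hxt hxj with h1 | h1
        · exact absurd hvx (not_le.mpr h1.1)
        · exact lt_of_le_of_lt hvx h1.2.1
      · have hpp := h.far x hx y hy hxj hyj hxy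
        by_cases hyt : y ∈ top B X m
        · have hxt : x ∈ top B X m :=
            mem_top.mpr ⟨hx, hB y m x m (mem_top.mp hyt).2 hlt.le le_rfl⟩
          rcases F.ins y hyt hyj with h1 | h1
          · rw [h1.2]
            exact lt_of_lt_of_le hpp (hge x hxj)
          · have h2 : z y ≤ p x := h1.2.2 (p x) (hpV x hxt) hpp
            rcases F.ins x hxt hxj with h3 | h3
            · exact absurd (h1.1.trans hpp.le) (not_le.mpr h3.1)
            · exact lt_of_le_of_lt h2 h3.2.1
        · rw [F.out y hyt]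
          exact lt_of_lt_of_le hpp (hge x hxj)

theorem bump_lt_absurd {X : Finset (Fin n)} {m j j' : Fin n}
    {p q : Equiv.Perm (Fin n)} (h : Hy B r X m j p) (h' : Hy B r X m j' q)
    (e : bump B r X m j p = bump B r X m j' q) (hjj : j < j') : False := by
  have F := bump_facts h
  have G := bump_facts h'
  rw [← e] at G
  set z := bump B r X m j p with hz
  have hVV : (top B X m).image p = (top B X m).image q := by rw [← F.img, ← G.img]
  rw [← hVV] at G
  set V := (top B X m).image p with hV
  set v := vv r X V p j with hvdef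
  set v' := vv r X V q j' with hvdef'
  have hjT : j ∈ top B X m := mem_top.mpr ⟨h.hj, h.hBj⟩
  have hj'T : j' ∈ top B X m := mem_top.mpr ⟨h'.hj, h'.hBj⟩
  have h1 : v' ≤ v := by
    apply G.hmin v F.hv
    intro y hy hyj
    apply F.hvy y hy
    rw [Fin.lt_def] at hjj
    omega
  have h2 : v' ≠ v := by
    intro e2
    have : z j' = z j := by rw [F.zj, G.zj, e2]
    have := z.injective this
    exact absurd this hjj.ne'
  have h3 : v' < v := lt_of_le_of_ne h1 h2
  rcases G.ins j hjT hjj.ne with h4 | h4
  · rw [F.zj] at h4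
    have := h4.1
    rw [← h4.2] at this
    exact absurd this (not_lt.mpr h1)
  · rw [F.zj] at h4
    have h5 : v ≤ q j := by
      apply F.hmin (q j)
      · rw [hVV]
        exact mem_image_of_mem q hjT
      · intro y hy hyj
        have hyt : y ∉ top B X m := fun h6 => h.hR y hy hyj (mem_top.mp h6).2
        rw [G.out y hyt]
        apply h'.far j h.hj y hy hjj.ne
        · intro e3
          exact hyt (e3 ▸ hj'T)
        · exact hyj
    exact absurd h4.2.1 (not_lt.mpr h5)

theorem bump_inj {X : Finset (Fin n)} {m j j' : Fin n}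
    {p q : Equiv.Perm (Fin n)} (h : Hy B r X m j p) (h' : Hy B r X m j' q)
    (e : bump B r X m j p = bump B r X m j' q) : j = j' ∧ p = q := by
  have hjj : j = j' := by
    rcases lt_trichotomy j j' with h1 | h1 | h1
    · exact (bump_lt_absurd h h' e h1).elim
    · exact h1
    · exact (bump_lt_absurd h' h e.symm h1).elim
  subst hjj
  refine ⟨rfl, ?_⟩
  have F := bump_facts h
  have G := bump_facts h'
  have hVV : (top B X m).image p = (top B X m).image q := by
    rw [← F.img, ← G.img, e]
  have hvv : vv r X ((top B X m).image p) p j = vv r X ((top B X m).image q) q j := by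
    apply le_antisymm
    · apply F.hmin _ (by rw [hVV]; exact G.hv)
      intro y hy hyj
      rw [e]
      exact G.hvy y hy hyj
    · apply G.hmin _ (by rw [← hVV]; exact F.hv)
      intro y hy hyj
      rw [← e]
      exact F.hvy y hy hyj
  unfold bump at e
  rw [hvv, hVV] at e
  exact mul_left_cancel e

/-- The injection inside a class. -/
theorem main_inj (hB : Down B) : ∀ N : ℕ, ∀ X : Finset (Fin n), X.card = N →
    ∀ p0 : Equiv.Perm (Fin n), ∃ φ : Equiv.Perm (Fin n) → Equiv.Perm (Fin n),
      (∀ p, A21 B r X p0 p → A12 B r X p0 (φ p)) ∧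
      ∀ p q, A21 B r X p0 p → A21 B r X p0 q → φ p = φ q → p = q := by
  intro N
  induction N with
  | zero =>
    intro X hX p0
    rw [Finset.card_eq_zero] at hX
    subst hX
    refine ⟨id, fun p hp => ⟨hp.1, fun x hx => absurd hx (Finset.notMem_empty x)⟩,
      fun p q _ _ h => h⟩
  | succ N ih =>
    intro X hX p0
    have hne : (X.image p0).Nonempty := by
      rw [Finset.image_nonempty, ← Finset.card_pos]
      omega
    set m := (X.image p0).max' hne with hm
    have hmI : m ∈ X.image p0 := Finset.max'_mem _ hne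
    obtain ⟨x0, hx0, hx0m⟩ := mem_image.mp hmI
    have hx0' : p0.symm m = x0 := by rw [← hx0m, Equiv.symm_apply_apply]
    have hexi : ∀ j : Fin n, ∃ φ : Equiv.Perm (Fin n) → Equiv.Perm (Fin n), j ∈ X →
        (∀ p, A21 B r (X.erase j) (p0 * Equiv.swap j x0) p →
          A12 B r (X.erase j) (p0 * Equiv.swap j x0) (φ p)) ∧
        ∀ p q, A21 B r (X.erase j) (p0 * Equiv.swap j x0) p →
          A21 B r (X.erase j) (p0 * Equiv.swap j x0) q → φ p = φ q → p = q := by
      intro j
      by_cases hj : j ∈ X
      · obtain ⟨φ, h1⟩ := ih (X.erase j) (by rw [card_erase_of_mem hj]; omega)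
          (p0 * Equiv.swap j x0)
        exact ⟨φ, fun _ => h1⟩
      · exact ⟨id, fun h => absurd h hj⟩
    choose Φ hΦ using hexi
    have hleX : ∀ q : Equiv.Perm (Fin n), (∀ x, x ∉ X → q x = p0 x) → ∀ x ∈ X, q x ≤ m := by
      intro q hq x hx
      apply Finset.le_max'
      rw [mem_image]
      refine ⟨p0.symm (q x), ?_, by simp⟩
      by_contra hnot
      have h1 := hq _ hnot
      rw [Equiv.apply_symm_apply] at h1
      have h2 := q.injective h1
      rw [h2] at hnot
      exact hnot hx
    have hjX : ∀ q : Equiv.Perm (Fin n), (∀ x, x ∉ X → q x = p0 x) → q.symm m ∈ X := by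
      intro q hq
      by_contra hnot
      have h1 := hq _ hnot
      rw [Equiv.apply_symm_apply] at h1
      have h2 : x0 = q.symm m := p0.injective (hx0m.trans h1)
      rw [← h2] at hnot
      exact hnot hx0
    have hstep : ∀ p, A21 B r X p0 p → A21 B r (X.erase (p.symm m))
        (p0 * Equiv.swap (p.symm m) x0) p := by
      intro p hp
      refine ⟨⟨?_, fun x hx => hp.1.2 x (mem_of_mem_erase hx)⟩,
        fun x hx y hy => hp.2 x (mem_of_mem_erase hx) y (mem_of_mem_erase hy)⟩
      intro x hx
      rw [Equiv.Perm.mul_apply]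
      by_cases hxj : x = p.symm m
      · rw [← hxj, Equiv.swap_apply_left, hx0m, hxj, Equiv.apply_symm_apply]
      · have hxX : x ∉ X := fun h' => hx (mem_erase.mpr ⟨hxj, h'⟩)
        have hxx0 : x ≠ x0 := fun e => hxX (e ▸ hx0)
        rw [Equiv.swap_apply_of_ne_of_ne hxj hxx0]
        exact hp.1.1 x hxX
    have hmain : ∀ p, A21 B r X p0 p →
        Hy B r X m (p.symm m) (Φ (p.symm m) p) ∧
        (∀ x, x ∉ X → Φ (p.symm m) p x = p0 x) ∧
        (∀ x ∈ X, x ≠ p.symm m → B x (Φ (p.symm m) p x)) := by
      intro p hp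
      have hj := hjX p hp.1.1
      set j := p.symm m with hjdef
      have h1 := (hΦ j hj).1 p (hstep p hp)
      have hx0j : (p0 * Equiv.swap j x0) j = m := by
        rw [Equiv.Perm.mul_apply, Equiv.swap_apply_left, hx0m]
      have hqj : Φ j p j = m := by
        rw [h1.1.1 j (notMem_erase j X), hx0j]
      have hqX : ∀ x, x ∉ X → Φ j p x = p0 x := by
        intro x hx
        have hxj : x ≠ j := fun e => hx (e ▸ hj)
        have hxx0 : x ≠ x0 := fun e => hx (e ▸ hx0)
        rw [h1.1.1 x (fun h' => hx (mem_of_mem_erase h')), Equiv.Perm.mul_apply,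
          Equiv.swap_apply_of_ne_of_ne hxj hxx0]
      have hpj : p j = m := by rw [hjdef, Equiv.apply_symm_apply]
      refine ⟨⟨hj, hqj, hleX _ hqX, ?_, ?_, ?_⟩, hqX, ?_⟩
      · have := hp.1.2 j hj
        rw [hpj] at this
        exact this
      · intro y hy hyj hBy
        have h2 : p y < p j := by
          rw [hpj]
          refine lt_of_le_of_ne (hleX p hp.1.1 y hy) ?_
          intro e
          have : y = j := p.injective (e.trans hpj.symm)
          rw [this] at hyj
          omega
        have h3 := hp.2 j hj y hy hyj h2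
        rw [hpj] at h3
        exact h3 hBy
      · intro x hx y hy hxj hyj hxy
        exact h1.2 x (mem_erase.mpr ⟨hxj, hx⟩) y (mem_erase.mpr ⟨hyj, hy⟩) hxy
      · intro x hx hxj
        exact h1.1.2 x (mem_erase.mpr ⟨hxj, hx⟩)
    refine ⟨fun p => bump B r X m (p.symm m) (Φ (p.symm m) p), ?_, ?_⟩
    · intro p hp
      obtain ⟨h1, h2, h3⟩ := hmain p hp
      exact bump_mem hB h1 h2 h3
    · intro p q hp hq he
      obtain ⟨h1, -, -⟩ := hmain p hp
      obtain ⟨h1', -, -⟩ := hmain q hq
      obtain ⟨e1, e2⟩ := bump_inj h1 h1' he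
      rw [← e1] at e2
      have hj := hjX p hp.1.1
      apply (hΦ (p.symm m) hj).2 p q (hstep p hp) _ e2
      rw [e1]
      exact hstep q hq

end main

end Pool.Agent.R153.GP
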