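import Pool.Agent.R153.GP1

/-!
# Boards of a permutation and the global inequality
-/

namespace Pool.Agent.R153.GP

open Finset

variable {n s : ℕ}

/-- there is a copy of the suffix pattern `τ`, at positions `a` with `Q a`, more than `g` columns to
the right of `k` and above `v` -/
def D (τ : Fin s → ℕ) (Q : (Fin s → Fin n) → Prop) (g : ℕ) (π : Equiv.Perm (Fin n))
    (k v : Fin n) : Prop :=
  ∃ a : Fin s → Fin n, (∀ j, (k : ℕ) + g < a j) ∧ Q a ∧ (∀ j, v < π (a j)) ∧
    ∀ j j', π (a j) < π (a j') ↔ τ j < τ j'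

section

variable {τ : Fin s → ℕ} {Q : (Fin s → Fin n) → Prop} {g : ℕ}

theorem D_down (π : Equiv.Perm (Fin n)) : Down (D τ Q g π) := by
  rintro k v k' v' ⟨a, h1, h2, h3, h4⟩ hk hv
  refine ⟨a, fun j => ?_, h2, fun j => lt_of_le_of_lt hv (h3 j), h4⟩
  have := h1 j
  rw [Fin.le_def] at hk
  omega

theorem outside (π : Equiv.Perm (Fin n)) : ∀ N : ℕ, ∀ k v : Fin n, n - (k : ℕ) ≤ N →
    D τ Q g π k v → ∃ a : Fin s → Fin n, (∀ j, (k : ℕ) + g < a j) ∧ Q a ∧ (∀ j, v < π (a j)) ∧
    (∀ j j', π (a j) < π (a j') ↔ τ j < τ j') ∧ ∀ j, ¬ D τ Q g π (a j) (π (a j)) := by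
  intro N
  induction N with
  | zero =>
    intro k v hk
    exact absurd k.2 (by omega)
  | succ N ih =>
    rintro k v hk ⟨a, h1, h2, h3, h4⟩
    by_cases h : ∃ j, D τ Q g π (a j) (π (a j))
    · obtain ⟨j, hj⟩ := h
      have hkj := h1 j
      obtain ⟨a', b1, b2, b3, b4, b5⟩ := ih (a j) (π (a j)) (by have := (a j).2; omega) hj
      refine ⟨a', fun j' => ?_, b2, fun j' => lt_trans (h3 j) (b3 j'), b4, b5⟩
      have := b1 j'
      omega
    · push Not at h
      exact ⟨a, h1, h2, h3, h4, h⟩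

theorem D_eq {π π' : Equiv.Perm (Fin n)}
    (h1 : ∀ k, ¬ D τ Q g π k (π k) → π' k = π k)
    (h2 : ∀ k, D τ Q g π k (π k) → D τ Q g π k (π' k)) (k v : Fin n) :
    D τ Q g π' k v ↔ D τ Q g π k v := by
  constructor
  · rintro ⟨a, a1, a2, a3, a4⟩
    by_cases h : ∃ j, D τ Q g π (a j) (π (a j))
    · obtain ⟨j, hj⟩ := h
      refine D_down π (a j) (π' (a j)) k v (h2 _ hj) ?_ (a3 j).le
      rw [Fin.le_def]
      have := a1 j
      omega
    · push Not at h
      refine ⟨a, a1, a2, fun j => ?_, fun j j' => ?_⟩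
      · rw [← h1 _ (h j)]
        exact a3 j
      · rw [← h1 _ (h j), ← h1 _ (h j')]
        exact a4 j j'
  · intro hD
    obtain ⟨a, a1, a2, a3, a4, a5⟩ := outside π n k v (by omega) hD
    refine ⟨a, a1, a2, fun j => ?_, fun j j' => ?_⟩
    · rw [h1 _ (a5 j)]
      exact a3 j
    · rw [h1 _ (a5 j), h1 _ (a5 j')]
      exact a4 j j'

variable (τ Q g)

open Classical in
/-- the data of a class: the board and the dots outside -/
noncomputable def key (π : Equiv.Perm (Fin n)) :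
    (Fin n → Fin n → Prop) × (Fin n → Option (Fin n)) :=
  (D τ Q g π, fun x => if D τ Q g π x (π x) then none else some (π x))

theorem key_eq {π π' : Equiv.Perm (Fin n)}
    (h1 : ∀ k, ¬ D τ Q g π k (π k) → π' k = π k)
    (h2 : ∀ k, D τ Q g π k (π k) → D τ Q g π k (π' k)) : key τ Q g π' = key τ Q g π := by
  have hD : D τ Q g π' = D τ Q g π := by
    funext k v
    exact propext (D_eq h1 h2 k v)
  unfold key
  rw [hD]
  congr 1
  funext x
  by_cases hx : D τ Q g π x (π x)
  · rw [if_pos hx, if_pos (h2 x hx)]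
  · rw [if_neg hx, h1 x hx, if_neg hx]

theorem key_D {π π' : Equiv.Perm (Fin n)} (h : key τ Q g π' = key τ Q g π) :
    D τ Q g π' = D τ Q g π := congrArg Prod.fst h

theorem key_out {π π' : Equiv.Perm (Fin n)} (h : key τ Q g π' = key τ Q g π) {x : Fin n}
    (hx : ¬ D τ Q g π x (π x)) : π' x = π x := by
  have h2 := congrFun (congrArg Prod.snd h) x
  unfold key at h2
  simp only at h2
  rw [if_neg hx] at h2
  by_cases hx' : D τ Q g π' x (π' x)
  · rw [if_pos hx'] at h2
    exact absurd h2 (by simp)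
  · rw [if_neg hx'] at h2
    exact Option.some.inj h2

open Classical in
/-- the columns with a dot inside the board -/
noncomputable def ins (π : Equiv.Perm (Fin n)) : Finset (Fin n) :=
  univ.filter (fun x => D τ Q g π x (π x))

variable {τ Q g}

theorem mem_ins {π : Equiv.Perm (Fin n)} {x : Fin n} : x ∈ ins τ Q g π ↔ D τ Q g π x (π x) := by
  classical
  unfold ins
  rw [Finset.mem_filter]
  exact ⟨fun h => h.2, fun h => ⟨mem_univ _, h⟩⟩

theorem key_ins {π π' : Equiv.Perm (Fin n)} (h : key τ Q g π' = key τ Q g π) :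
    ins τ Q g π' = ins τ Q g π := by
  ext x
  rw [mem_ins, mem_ins]
  by_cases hx : D τ Q g π x (π x)
  · refine ⟨fun _ => hx, fun _ => ?_⟩
    by_contra hx'
    have h1 := key_out τ Q g h.symm hx'
    rw [key_D τ Q g h] at hx'
    rw [← h1] at hx'
    exact hx' hx
  · refine ⟨fun h' => ?_, fun h' => absurd h' hx⟩
    have h1 := key_out τ Q g h hx
    rw [key_D τ Q g h, h1] at h'
    exact absurd h' hx

variable (τ Q g)

/-- avoiding prefix `21` with gap `r` -/
def V21 (r : ℕ) (π : Equiv.Perm (Fin n)) : Prop :=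
  ∀ x y : Fin n, (x : ℕ) + r < y → π y < π x → ¬ D τ Q g π y (π x)

/-- avoiding prefix `12` with gap `r` -/
def V12 (r : ℕ) (π : Equiv.Perm (Fin n)) : Prop :=
  ∀ x y : Fin n, (x : ℕ) + r < y → π x < π y → ¬ D τ Q g π y (π y)

variable {τ Q g}

theorem exists_injection (r : ℕ) :
    ∃ Φ : Equiv.Perm (Fin n) → Equiv.Perm (Fin n), (∀ π, V21 τ Q g r π → V12 τ Q g r (Φ π)) ∧
      ∀ π π', V21 τ Q g r π → V21 τ Q g r π' → Φ π = Φ π' → π = π' := by
  classical
  have hex : ∀ (B : Fin n → Fin n → Prop) (X : Finset (Fin n)) (p0 : Equiv.Perm (Fin n)),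
      ∃ φ : Equiv.Perm (Fin n) → Equiv.Perm (Fin n), Down B →
      (∀ p, A21 B r X p0 p → A12 B r X p0 (φ p)) ∧
      ∀ p q, A21 B r X p0 p → A21 B r X p0 q → φ p = φ q → p = q := by
    intro B X p0
    by_cases hB : Down B
    · obtain ⟨φ, h1, h2⟩ := main_inj (r := r) hB X.card X rfl p0
      exact ⟨φ, fun _ => ⟨h1, h2⟩⟩
    · exact ⟨id, fun h => absurd h hB⟩
  choose φ hφ using hex
  set P : Equiv.Perm (Fin n) → Equiv.Perm (Fin n) :=
    fun π => Function.invFun (key τ Q g) (key τ Q g π) with hP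
  have hkP : ∀ π, key τ Q g (P π) = key τ Q g π := fun π =>
    Function.invFun_eq (f := key τ Q g) ⟨π, rfl⟩
  have hin : ∀ π, V21 τ Q g r π → A21 (D τ Q g π) r (ins τ Q g π) (P π) π := by
    intro π h
    refine ⟨⟨fun x hx => ?_, fun x hx => mem_ins.mp hx⟩, fun x _ y _ hxy hlt => h x y hxy hlt⟩
    rw [mem_ins] at hx
    exact (key_out τ Q g (hkP π) hx).symm
  set Φ : Equiv.Perm (Fin n) → Equiv.Perm (Fin n) :=
    fun π => φ (D τ Q g π) (ins τ Q g π) (P π) π with hΦ
  have hA : ∀ π, V21 τ Q g r π → A12 (D τ Q g π) r (ins τ Q g π) (P π) (Φ π) := by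
    intro π h
    exact (hφ _ _ _ (D_down π)).1 π (hin π h)
  have hk : ∀ π, V21 τ Q g r π → key τ Q g (Φ π) = key τ Q g π := by
    intro π h
    have h1 := hA π h
    apply key_eq
    · intro k hk
      have hk' : k ∉ ins τ Q g π := fun h' => hk (mem_ins.mp h')
      rw [h1.1.1 k hk']
      exact key_out τ Q g (hkP π) hk
    · intro k hk
      exact h1.1.2 k (mem_ins.mpr hk)
  refine ⟨Φ, ?_, ?_⟩
  · intro π h x y hxy hlt hD
    have h1 := hA π h
    rw [key_D τ Q g (hk π h)] at hD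
    have hy : y ∈ ins τ Q g (Φ π) := by
      rw [mem_ins, key_D τ Q g (hk π h)]
      exact hD
    have hx : x ∈ ins τ Q g (Φ π) := by
      rw [mem_ins, key_D τ Q g (hk π h)]
      refine D_down π y (Φ π y) x (Φ π x) hD ?_ hlt.le
      rw [Fin.le_def]
      omega
    rw [key_ins (hk π h)] at hx hy
    exact absurd (h1.2 x hx y hy hxy) (not_lt.mpr hlt.le)
  · intro π π' h h' e
    have hkk : key τ Q g π = key τ Q g π' := by rw [← hk π h, ← hk π' h', e]
    have e1 : D τ Q g π = D τ Q g π' := key_D τ Q g hkk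
    have e2 : ins τ Q g π = ins τ Q g π' := key_ins hkk
    have e3 : P π = P π' := by
      simp only [hP, hkk]
    have h3 := hin π' h'
    rw [← e1, ← e2, ← e3] at h3
    apply (hφ _ _ _ (D_down π)).2 π π' (hin π h) h3
    have e4 : Φ π' = φ (D τ Q g π) (ins τ Q g π) (P π) π' := by
      simp only [hΦ, e1, e2, e3]
    rw [← e4]
    exact e

/-- The global inequality. -/
theorem card_le (r : ℕ) :
    Nat.card {π : Equiv.Perm (Fin n) // V21 τ Q g r π} ≤
      Nat.card {π : Equiv.Perm (Fin n) // V12 τ Q g r π} := by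
  obtain ⟨Φ, h1, h2⟩ := exists_injection (τ := τ) (Q := Q) (g := g) (n := n) r
  exact Nat.card_le_card_of_injective
    (fun π : {π : Equiv.Perm (Fin n) // V21 τ Q g r π} =>
      (⟨Φ π.1, h1 π.1 π.2⟩ : {π : Equiv.Perm (Fin n) // V12 τ Q g r π}))
    (fun a b h => Subtype.ext (h2 a.1 b.1 a.2 b.2 (congrArg Subtype.val h)))

end

end Pool.Agent.R153.GP
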