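import Mathlib

set_option autoImplicit false

/-! Rectangular matrices all of whose square reindexings have determinant `-1`, `0` or `1`. -/

namespace Pool.Agent.R153.HK

open Finset

/-- every identification of the columns with the rows gives a determinant of absolute value at
most one -/
def Good {I J : Type} [Fintype J] [DecidableEq J] (A : Matrix I J ℤ) : Prop :=
  ∀ e : J ≃ I, |(A.submatrix e id).det| ≤ 1

section

variable {I J : Type} [Fintype J] [DecidableEq J]

theorem abs_permute (σ : Equiv.Perm J) (M : Matrix J J ℤ) :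
    |(M.submatrix σ id).det| = |M.det| := by
  rw [Matrix.det_permute, abs_mul]
  rcases Int.units_eq_one_or (Equiv.Perm.sign σ) with h | h <;> rw [h] <;> simp

theorem good_of_one {A : Matrix I J ℤ} (e0 : J ≃ I) (h : |(A.submatrix e0 id).det| ≤ 1) :
    Good A := by
  intro e
  have h1 : A.submatrix e id = (A.submatrix e0 id).submatrix (e.trans e0.symm) id := by
    ext i j
    simp
  rw [h1, abs_permute]
  exact h

theorem good_reindex {I' J' : Type} [Fintype J'] [DecidableEq J'] {A : Matrix I J ℤ}
    (r : I' ≃ I) (s : J' ≃ J) (h : Good A) : Good (A.submatrix r s) := by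
  intro e
  have h1 : (A.submatrix r s).submatrix e id =
      (A.submatrix ((s.symm.trans e).trans r) id).submatrix s s := by
    ext i j
    simp
  rw [h1, Matrix.det_submatrix_equiv_self]
  exact h _

theorem good_of_no {A : Matrix I J ℤ} (h : (J ≃ I) → False) : Good A := fun e => (h e).elim

end

theorem exists_perm {J : Type} [Fintype J] [DecidableEq J] {N : Matrix J J ℤ} (h : N.det ≠ 0) :
    ∃ σ : Equiv.Perm J, ∀ j, N (σ j) j ≠ 0 := by
  rw [Matrix.det_apply] at h
  obtain ⟨σ, -, hσ⟩ := Finset.exists_ne_zero_of_sum_ne_zero h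
  refine ⟨σ, fun j hj => hσ ?_⟩
  have : ∏ i, N (σ i) i = 0 := Finset.prod_eq_zero (Finset.mem_univ j) hj
  rw [this, smul_zero]

/-- a matrix which decomposes into blocks -/
theorem block {I J : Type} [Fintype J] [DecidableEq J] (A : Matrix I J ℤ) (f : I → ℕ) (g : J → ℕ)
    (h0 : ∀ i j, f i ≠ g j → A i j = 0)
    (hb : ∀ k, Good (A.submatrix (Subtype.val : {i // f i = k} → I)
      (Subtype.val : {j // g j = k} → J))) : Good A := by
  intro e
  by_cases hdet : (A.submatrix e id).det = 0
  · rw [hdet]; simp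
  obtain ⟨σ, hσ⟩ := exists_perm hdet
  have hfg : ∀ j, f (e (σ j)) = g j := by
    intro j
    by_contra hne
    apply hσ j
    rw [Matrix.submatrix_apply]
    exact h0 _ _ hne
  set N := (A.submatrix e id).submatrix σ id with hN
  have hdN : |(A.submatrix e id).det| = |N.det| := by
    rw [hN, abs_permute]
  have htri : N.BlockTriangular g := by
    intro i j hij
    rw [hN, Matrix.submatrix_apply, Matrix.submatrix_apply]
    apply h0
    rw [hfg i]
    simp only [id]
    exact ne_of_gt hij
  rw [hdN, htri.det, Finset.abs_prod]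
  apply Finset.prod_le_one
  · intro _ _
    exact abs_nonneg _
  · intro k _
    have ek : {j // g j = k} ≃ {i // f i = k} :=
      { toFun := fun j => ⟨e (σ j.1), by rw [hfg]; exact j.2⟩
        invFun := fun i => ⟨σ.symm (e.symm i.1), by
          rw [← hfg (σ.symm (e.symm i.1)), Equiv.apply_symm_apply, Equiv.apply_symm_apply]
          exact i.2⟩
        left_inv := fun j => by simp
        right_inv := fun i => by simp }
    have hk := hb k
      { toFun := fun j => ⟨e (σ j.1), by rw [hfg]; exact j.2⟩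
        invFun := fun i => ⟨σ.symm (e.symm i.1), by
          rw [← hfg (σ.symm (e.symm i.1)), Equiv.apply_symm_apply, Equiv.apply_symm_apply]
          exact i.2⟩
        left_inv := fun j => by simp
        right_inv := fun i => by simp }
    exact hk

theorem card_class {I J : Type} [Fintype I] [Fintype J] [DecidableEq J] {g f : J → ℕ}
    {h : I → ℕ} (e e' : J ≃ I) (h1 : ∀ j, h (e j) = g j) (h2 : ∀ j, h (e' j) = f j) (k : ℕ) :
    (∑ j, if g j = k then 1 else 0) = ∑ j, if f j = k then 1 else 0 := by
  have a1 : (∑ j, if g j = k then 1 else 0) = ∑ i : I, if h i = k then 1 else 0 := by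
    rw [← Equiv.sum_comp e]
    apply Finset.sum_congr rfl
    intro j _
    rw [h1]
  have a2 : (∑ j, if f j = k then 1 else 0) = ∑ i : I, if h i = k then 1 else 0 := by
    rw [← Equiv.sum_comp e']
    apply Finset.sum_congr rfl
    intro j _
    rw [h2]
  rw [a1, a2]

/-- the matrix with wild columns -/
def wildM {I J W : Type} (T : Matrix I J ℤ) (f : I → ℕ) (φ : W → ℕ → ℤ) : Matrix I (J ⊕ W) ℤ :=
  Matrix.of fun i => Sum.elim (fun j => T i j) (fun w => φ w (f i))

/-- the matrix with tamed columns -/
def tameM {I J W : Type} (T : Matrix I J ℤ) (f : I → ℕ) (φ : W → ℕ → ℤ) (κ : W → ℕ) :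
    Matrix I (J ⊕ W) ℤ :=
  Matrix.of fun i => Sum.elim (fun j => T i j) (fun w => if f i = κ w then φ w (κ w) else 0)

theorem wild {I J W : Type} [Fintype I] [Fintype J] [DecidableEq J] [Fintype W] [DecidableEq W]
    (T : Matrix I J ℤ) (f : I → ℕ) (g : J → ℕ) (φ : W → ℕ → ℤ)
    (h0 : ∀ i j, f i ≠ g j → T i j = 0)
    (hdisj : ∀ w w' k, φ w k ≠ 0 → φ w' k ≠ 0 → w = w')
    (hgood : ∀ κ, (∀ w, φ w (κ w) ≠ 0) → Good (tameM T f φ κ)) : Good (wildM T f φ) := by
  intro e
  by_cases hdet : ((wildM T f φ).submatrix e id).det = 0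
  · rw [hdet]; simp
  obtain ⟨σ₀, hσ₀⟩ := exists_perm hdet
  -- classes
  have hin : ∀ σ : Equiv.Perm (J ⊕ W), (∀ j, ((wildM T f φ).submatrix e id) (σ j) j ≠ 0) →
      (∀ j, f (e (σ (Sum.inl j))) = g j) ∧ ∀ w, φ w (f (e (σ (Sum.inr w)))) ≠ 0 := by
    intro σ hσ
    constructor
    · intro j
      by_contra hne
      apply hσ (Sum.inl j)
      rw [Matrix.submatrix_apply]
      exact h0 _ _ hne
    · intro w
      exact hσ (Sum.inr w)
  set κ : W → ℕ := fun w => f (e (σ₀ (Sum.inr w))) with hκ
  obtain ⟨ha0, hb0⟩ := hin σ₀ hσ₀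
  have huniq : ∀ σ : Equiv.Perm (J ⊕ W),
      (∀ j, ((wildM T f φ).submatrix e id) (σ j) j ≠ 0) →
      ∀ w, f (e (σ (Sum.inr w))) = κ w := by
    intro σ hσ w
    obtain ⟨ha, hb⟩ := hin σ hσ
    have hc := card_class (I := I) (J := J ⊕ W) (h := f)
      (g := Sum.elim g κ) (f := Sum.elim g (fun w => f (e (σ (Sum.inr w)))))
      (σ₀.trans e) (σ.trans e)
      (by rintro (j | w); exact ha0 j; rfl) (by rintro (j | w); exact ha j; rfl) (κ w)
    rw [Fintype.sum_sum_type, Fintype.sum_sum_type] at hc
    simp only [Sum.elim_inl, Sum.elim_inr] at hc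
    have hc2 := Nat.add_left_cancel hc
    have hpos : 0 < ∑ w', if f (e (σ (Sum.inr w'))) = κ w then 1 else 0 := by
      refine lt_of_lt_of_eq ?_ hc2
      apply Finset.sum_pos'
      · intro _ _; exact Nat.zero_le _
      · exact ⟨w, Finset.mem_univ _, by simp⟩
    obtain ⟨w', -, hw'⟩ := Finset.exists_ne_zero_of_sum_ne_zero hpos.ne'
    have hw2 : f (e (σ (Sum.inr w'))) = κ w := by
      by_contra hne
      exact hw' (if_neg hne)
    have h3 := hb w'
    rw [hw2] at h3
    have h4 := hdisj w' w (κ w) h3 (hb0 w)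
    rw [h4] at hw2
    exact hw2
  have heq : ((wildM T f φ).submatrix e id).det = ((tameM T f φ κ).submatrix e id).det := by
    rw [Matrix.det_apply, Matrix.det_apply]
    apply Finset.sum_congr rfl
    intro σ _
    congr 1
    by_cases hσ : ∀ j, ((wildM T f φ).submatrix e id) (σ j) j ≠ 0
    · apply Finset.prod_congr rfl
      rintro (j | w) _
      · rfl
      · have := huniq σ hσ w
        change φ w (f (e (σ (Sum.inr w)))) = if f (e (σ (Sum.inr w))) = κ w then φ w (κ w) else 0
        rw [if_pos this, this]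
    · push Not at hσ
      obtain ⟨j0, hj0⟩ := hσ
      have hz : ∏ i, ((wildM T f φ).submatrix e id) (σ i) i = 0 :=
        Finset.prod_eq_zero (Finset.mem_univ j0) hj0
      rw [hz]
      symm
      apply Finset.prod_eq_zero (Finset.mem_univ j0)
      rcases j0 with j | w
      · exact hj0
      · have h5 : φ w (f (e (σ (Sum.inr w)))) = 0 := hj0
        change (if f (e (σ (Sum.inr w))) = κ w then φ w (κ w) else 0) = 0
        split_ifs with h6
        · rw [← h6]; exact h5
        · rfl
  rw [heq]
  exact hgood κ hb0 e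

end Pool.Agent.R153.HK
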