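import Pool.Agent.R153.HK1

set_option autoImplicit false

/-! Hankel matrices of dilated sequences. -/

namespace Pool.Agent.R153.HK

open Finset

/-- Hankel matrix, with extra constant columns -/
def EH (a : ℕ → ℤ) (P m n : ℕ) (W : Type) (ψ : W → ℤ) : Matrix (Fin m) (Fin n ⊕ W) ℤ :=
  Matrix.of fun i => Sum.elim (fun j => a (P + i + j)) ψ

def HM (a : ℕ → ℤ) (P n : ℕ) : Matrix (Fin n) (Fin n) ℤ := Matrix.of fun i j => a (P + i + j)

def DM (a : ℕ → ℤ) (P n : ℕ) : Matrix (Fin (n + 1)) (Fin (n + 1)) ℤ :=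
  Matrix.of fun i j => if (j : ℕ) < n then a (P + i + j) else 1

def GH (a : ℕ → ℤ) (n : ℕ) : Prop := ∀ P, |(HM a P n).det| ≤ 1

def GD (a : ℕ → ℤ) (n : ℕ) : Prop := ∀ P, |(DM a P n).det| ≤ 1

theorem EH_good {a : ℕ → ℤ} {n : ℕ} (h1 : GH a n) (h2 : GD a n) (P m : ℕ) (W : Type) [Fintype W]
    [DecidableEq W] [Subsingleton W] (ψ : W → ℤ) (hψ : ∀ w, |ψ w| ≤ 1) :
    Good (EH a P m n W ψ) := by
  rcases isEmpty_or_nonempty W with hW | ⟨⟨w⟩⟩
  · intro e
    have hmn : n = m := by
      have := Fintype.card_congr e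
      simpa using this
    subst hmn
    revert e
    apply good_of_one (Equiv.sumEmpty (Fin n) W)
    have := h1 P
    rw [← Matrix.det_submatrix_equiv_self (Equiv.sumEmpty (Fin n) W).symm]
    exact this
  · intro e
    have hu : Unique W := { default := w, uniq := fun x => Subsingleton.elim x w }
    have hmn : n + 1 = m := by
      have := Fintype.card_congr e
      simpa using this
    subst hmn
    revert e
    set e0 : Fin n ⊕ W ≃ Fin (n + 1) :=
      (Equiv.sumCongr (Equiv.refl (Fin n)) (Equiv.ofUnique W (Fin 1))).trans finSumFinEquiv with he0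
    apply good_of_one e0
    rw [← Matrix.det_submatrix_equiv_self e0.symm]
    have h3 : ((EH a P (n + 1) n W ψ).submatrix e0 id).submatrix e0.symm e0.symm =
        Matrix.of fun i j : Fin (n + 1) => (if (j : ℕ) < n then 1 else ψ w) * DM a P n i j := by
      ext i j
      rw [Matrix.submatrix_apply, Matrix.submatrix_apply, Equiv.apply_symm_apply, Matrix.of_apply]
      obtain ⟨x, rfl⟩ := e0.surjective j
      rw [Equiv.symm_apply_apply]
      rcases x with j | w'
      · have hv : ((e0 (Sum.inl j) : Fin (n + 1)) : ℕ) = j := by simp [he0]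
        rw [hv, if_pos j.2, one_mul]
        unfold EH DM
        simp only [id, Matrix.of_apply, Sum.elim_inl]
        rw [hv, if_pos j.2]
      · have hw' : w' = w := Subsingleton.elim _ _
        have hv : ((e0 (Sum.inr w') : Fin (n + 1)) : ℕ) = n := by simp [he0]
        rw [hv, if_neg (lt_irrefl n)]
        unfold EH DM
        simp only [id, Matrix.of_apply, Sum.elim_inr]
        rw [hv, if_neg (lt_irrefl n), mul_one, hw']
    rw [h3, Matrix.det_mul_row, abs_mul]
    have h4 : |∏ i : Fin (n + 1), (if (i : ℕ) < n then (1 : ℤ) else ψ w)| ≤ 1 := by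
      rw [Fin.prod_univ_castSucc]
      simp only [Fin.val_castSucc, Fin.is_lt, if_true, Finset.prod_const_one, one_mul, Fin.val_last,
        lt_irrefl, if_false]
      exact hψ w
    have h5 := h2 P
    calc |∏ i : Fin (n + 1), (if (i : ℕ) < n then (1 : ℤ) else ψ w)| * |(DM a P n).det|
        ≤ 1 * 1 := mul_le_mul h4 h5 (abs_nonneg _) zero_le_one
      _ = 1 := one_mul 1

/-- arithmetic progressions in `Fin N` -/
def apEquiv (M N k : ℕ) (hM : 0 < M) (hk : k < M) :
    {i : Fin N // (i : ℕ) % M = k} ≃ Fin ((N + M - 1 - k) / M) where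
  toFun i := ⟨(i.1 : ℕ) / M, by
    have h1 := i.1.2
    have h2 := i.2
    have h3 := Nat.mod_add_div (i.1 : ℕ) M
    rw [h2] at h3
    rw [Nat.lt_iff_add_one_le, Nat.le_div_iff_mul_le hM, add_mul, one_mul, mul_comm]
    omega⟩
  invFun i := ⟨⟨k + M * i, by
    have h1 := i.2
    rw [Nat.lt_iff_add_one_le, Nat.le_div_iff_mul_le hM, add_mul, one_mul, mul_comm] at h1
    omega⟩, by
    simp only [Nat.add_mul_mod_self_left]
    exact Nat.mod_eq_of_lt hk⟩
  left_inv i := by
    have h2 := i.2
    have h3 := Nat.mod_add_div (i.1 : ℕ) M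
    rw [h2] at h3
    apply Subtype.ext
    apply Fin.ext
    simp only
    exact h3
  right_inv i := by
    apply Fin.ext
    simp only
    rw [Nat.add_mul_div_left _ _ hM, Nat.div_eq_of_lt hk, zero_add]

/-- the dilated sequence, shifted by one -/
def dil (M : ℕ) (a : ℕ → ℤ) (m : ℕ) : ℤ := if m % M = 1 then a (m / M) else 0

/-- class of a column -/
def cls (M P j : ℕ) : ℕ := (1 + (M - 1) * (P + j)) % M

theorem cls_iff {M : ℕ} (hM : M = 2 ∨ M = 4) (P i j : ℕ) :
    i % M = cls M P j ↔ (P + i + j) % M = 1 := by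
  unfold cls
  rcases hM with rfl | rfl <;> omega

theorem cls_swap {M : ℕ} (hM : M = 2 ∨ M = 4) (P k j : ℕ) (hk : k < M) :
    cls M P j = k ↔ j % M = cls M P k := by
  unfold cls
  rcases hM with rfl | rfl <;> omega

theorem tame_good {a : ℕ → ℤ} {M : ℕ} (hM : M = 2 ∨ M = 4) (n N P : ℕ)
    (ha : ∀ n', n' ≤ (n + M - 1) / M → GH a n' ∧ GD a n') {W : Type} [Fintype W] [DecidableEq W]
    (φ : W → ℕ → ℤ) (hφ : ∀ w k, |φ w k| ≤ 1) (κ : W → ℕ) (hκ : Function.Injective κ) :
    Good (tameM (Matrix.of fun (i : Fin N) (j : Fin n) => dil M a (P + i + j))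
      (fun i => (i : ℕ) % M) φ κ) := by
  have hM0 : 0 < M := by rcases hM with rfl | rfl <;> norm_num
  apply block _ (fun i : Fin N => (i : ℕ) % M) (Sum.elim (fun j : Fin n => cls M P j) κ)
  · rintro i (j | w) hne
    · simp only [Sum.elim_inl] at hne
      change dil M a (P + i + j) = 0
      unfold dil
      rw [if_neg]
      intro hcon
      exact hne ((cls_iff hM P i j).2 hcon)
    · simp only [Sum.elim_inr] at hne
      change (if (i : ℕ) % M = κ w then φ w (κ w) else 0) = 0
      rw [if_neg hne]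
  · intro k
    rcases Nat.lt_or_ge k M with hk | hk
    · -- the block is an extended Hankel matrix
      have hγ : cls M P k < M := Nat.mod_lt _ hM0
      set r := apEquiv M N k hM0 hk with hr
      set s0 := apEquiv M n (cls M P k) hM0 hγ with hs0
      have : Subsingleton {w // κ w = k} := ⟨fun x y => Subtype.ext (hκ (x.2.trans y.2.symm))⟩
      set s : {x : Fin n ⊕ W // Sum.elim (fun j : Fin n => cls M P j) κ x = k} ≃
          Fin ((n + M - 1 - cls M P k) / M) ⊕ {w // κ w = k} :=
        (Equiv.subtypeSum).trans (Equiv.sumCongr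
          ((Equiv.subtypeEquivRight (fun j : Fin n => cls_swap hM P k j hk)).trans s0)
          (Equiv.refl _)) with hs
      have hn : (n + M - 1 - cls M P k) / M ≤ (n + M - 1) / M :=
        Nat.div_le_div_right (Nat.sub_le _ _)
      obtain ⟨h1, h2⟩ := ha _ hn
      have hgood := EH_good h1 h2 ((P + k + cls M P k) / M) ((N + M - 1 - k) / M)
        {w // κ w = k} (fun w => φ w.1 k) (fun w => hφ w.1 k)
      have := good_reindex r s hgood
      convert this using 1
      ext i x
      obtain ⟨i, hi⟩ := i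
      obtain ⟨x, hx⟩ := x
      rcases x with j | w
      · have hj : (j : ℕ) % M = cls M P k := (cls_swap hM P k j hk).1 hx
        have e1 : (P + (i : ℕ) + j) % M = 1 := by
          rw [← cls_iff hM, hi]
          exact hx.symm
        have e2 : (P + (i : ℕ) + j) / M = (P + k + cls M P k) / M + (i : ℕ) / M + (j : ℕ) / M := by
          rw [← hj, ← hi]
          have e3 : (P + (i : ℕ) % M + (j : ℕ) % M) % M = 1 := by
            rcases hM with rfl | rfl <;> omega
          rcases hM with rfl | rfl <;> omega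
        change dil M a (P + i + j) = a ((P + k + cls M P k) / M + (i : ℕ) / M + (j : ℕ) / M)
        unfold dil
        rw [if_pos e1, e2]
      · have hw : κ w = k := hx
        change (if (i : ℕ) % M = κ w then φ w (κ w) else 0) = φ w k
        rw [if_pos (by rw [hw]; exact hi), hw]
    · intro e
      have hempty : IsEmpty {i : Fin N // (i : ℕ) % M = k} := by
        constructor
        rintro ⟨i, hi⟩
        have := Nat.mod_lt (i : ℕ) hM0
        omega
      have : IsEmpty {x : Fin n ⊕ W // Sum.elim (fun j : Fin n => cls M P j) κ x = k} :=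
        ⟨fun x => hempty.elim (e x)⟩
      rw [Matrix.det_isEmpty]
      simp

/-- adding consecutive rows -/
theorem Lred (n : ℕ) (Y : ℕ → ℕ → ℤ) (χ : ℕ → ℤ) (hχ : ∀ i, χ i + χ (i + 1) = 0)
    (hχ0 : |χ 0| = 1) :
    |(Matrix.of fun i j : Fin (n + 1) => if (j : ℕ) < n then Y i j else χ i).det| =
      |(Matrix.of fun i j : Fin n => Y i j + Y (i + 1) j).det| := by
  set Z : Matrix (Fin (n + 1)) (Fin (n + 1)) ℤ :=
    Matrix.of fun i j => if (j : ℕ) < n then Y i j else χ i with hZ
  set B : Matrix (Fin (n + 1)) (Fin (n + 1)) ℤ :=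
    Matrix.of fun i => Fin.cases (Z 0) (fun i' => fun j => Z i'.succ j + Z i'.castSucc j) i with hB
  have h1 : Z.det = B.det := by
    apply Matrix.det_eq_of_forall_row_eq_smul_add_pred (fun _ => (-1 : ℤ))
    · intro j
      rfl
    · intro i j
      have : B i.succ j = Z i.succ j + Z i.castSucc j := rfl
      rw [this]
      ring
  have hlast : ∀ i : Fin n, B i.succ (Fin.last n) = 0 := by
    intro i
    have : B i.succ (Fin.last n) = Z i.succ (Fin.last n) + Z i.castSucc (Fin.last n) := rfl
    rw [this, hZ]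
    simp only [Matrix.of_apply, Fin.val_last, lt_irrefl, if_false, Fin.val_succ, Fin.val_castSucc]
    have := hχ i
    linarith
  have h0 : B 0 (Fin.last n) = χ 0 := by
    have : B 0 (Fin.last n) = Z 0 (Fin.last n) := rfl
    rw [this, hZ]
    simp
  rw [h1, Matrix.det_succ_column B (Fin.last n), Fin.sum_univ_succ]
  have hz : ∑ i : Fin n, (-1 : ℤ) ^ ((i.succ : ℕ) + (Fin.last n : ℕ)) * B i.succ (Fin.last n) *
      (B.submatrix i.succ.succAbove (Fin.last n).succAbove).det = 0 := by
    apply Finset.sum_eq_zero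
    intro i _
    rw [hlast, mul_zero, zero_mul]
  rw [hz, add_zero, h0, abs_mul, abs_mul, abs_pow, abs_neg, abs_one, one_pow, one_mul, hχ0, one_mul]
  congr 2
  ext i j
  rw [Matrix.submatrix_apply, Fin.succAbove_zero, Fin.succAbove_last]
  have : B i.succ j.castSucc = Z i.succ j.castSucc + Z i.castSucc j.castSucc := rfl
  rw [this, hZ]
  simp only [Matrix.of_apply, Fin.val_castSucc, Fin.is_lt, if_true, Fin.val_succ]
  ring

/-- the doubled dilated sequence -/
def dd (M : ℕ) (a : ℕ → ℤ) (m : ℕ) : ℤ := if m % M < 2 then a (m / M) else 0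

theorem dd_eq {M : ℕ} (hM : M = 2 ∨ M = 4) (a : ℕ → ℤ) (m : ℕ) :
    dil M a m + dil M a (m + 1) = dd M a m := by
  unfold dil dd
  have e : (m + 1) % M = 1 → (m + 1) / M = m / M := by
    rcases hM with rfl | rfl <;> omega
  by_cases h1 : m % M = 1
  · have h2 : ¬ (m + 1) % M = 1 := by rcases hM with rfl | rfl <;> omega
    rw [if_pos h1, if_neg h2, if_pos (by omega), add_zero]
  · by_cases h2 : (m + 1) % M = 1
    · rw [if_neg h1, if_pos h2, e h2, if_pos (by rcases hM with rfl | rfl <;> omega), zero_add]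
    · rw [if_neg h1, if_neg h2, if_neg (by rcases hM with rfl | rfl <;> omega), add_zero]

theorem stepH {a : ℕ → ℤ} {M : ℕ} (hM : M = 2 ∨ M = 4) (n : ℕ)
    (ha : ∀ n', n' ≤ (n + M - 1) / M → GH a n' ∧ GD a n') : GH (dd M a) n := by
  intro P
  have h1 := Lred n (fun i j => dil M a (P + i + j)) (fun i => (-1) ^ i)
    (fun i => by rw [pow_succ]; ring) (by simp)
  have h2 : (HM (dd M a) P n) = Matrix.of fun i j : Fin n =>
      dil M a (P + i + j) + dil M a (P + (i + 1) + j) := by
    ext i j
    unfold HM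
    rw [Matrix.of_apply, Matrix.of_apply, ← dd_eq hM]
    congr 2
    ring
  rw [h2, ← h1]
  have hgood : Good (wildM (Matrix.of fun (i : Fin (n + 1)) (j : Fin n) => dil M a (P + i + j))
      (fun i => (i : ℕ) % M) (fun (_ : Fin 1) (k : ℕ) => (-1 : ℤ) ^ k)) := by
    apply wild _ _ (fun j : Fin n => cls M P j)
    · intro i j hne
      change dil M a (P + i + j) = 0
      unfold dil
      rw [if_neg]
      intro hcon
      exact hne ((cls_iff hM P i j).2 hcon)
    · intro w w' _ _ _
      exact Subsingleton.elim _ _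
    · intro κ _
      apply tame_good hM n (n + 1) P ha
      · intro _ k
        rw [abs_pow, abs_neg, abs_one, one_pow]
      · intro w w' _
        exact Subsingleton.elim _ _
  have h3 := hgood finSumFinEquiv
  rw [← Matrix.det_submatrix_equiv_self (finSumFinEquiv (m := n) (n := 1)).symm] at h3
  convert h3 using 3
  ext i j
  rw [Matrix.submatrix_apply, Matrix.submatrix_apply, Equiv.apply_symm_apply, Matrix.of_apply]
  obtain ⟨x, rfl⟩ := (finSumFinEquiv (m := n) (n := 1)).surjective j
  rw [Equiv.symm_apply_apply]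
  rcases x with j | w
  · have hv : ((finSumFinEquiv (Sum.inl j : Fin n ⊕ Fin 1) : Fin (n + 1)) : ℕ) = j := by simp
    rw [hv, if_pos j.2]
    rfl
  · have hv : ((finSumFinEquiv (Sum.inr w : Fin n ⊕ Fin 1) : Fin (n + 1)) : ℕ) = n := by simp
    rw [hv, if_neg (lt_irrefl n)]
    change (-1 : ℤ) ^ (i : ℕ) = (-1) ^ ((i : ℕ) % M)
    have h4 : (i : ℕ) = (i : ℕ) % M + M * ((i : ℕ) / M) := (Nat.mod_add_div _ _).symm
    have h5 : (-1 : ℤ) ^ M = 1 := by rcases hM with rfl | rfl <;> norm_num
    conv_lhs => rw [h4, pow_add, pow_mul, h5, one_pow, mul_one]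

theorem stepD {a : ℕ → ℤ} {M : ℕ} (hM : M = 2 ∨ M = 4) (n : ℕ)
    (ha : ∀ n', n' ≤ (n + M - 1) / M → GH a n' ∧ GD a n') : GD (dd M a) n := by
  intro P
  set Y : ℕ → ℕ → ℤ := fun i j => if j < n then dil M a (P + i + j) else
    if i % 2 = 0 then 1 else 0 with hY
  have h1 := Lred (n + 1) Y (fun i => (-1) ^ i) (fun i => by rw [pow_succ]; ring) (by simp)
  have h2 : (DM (dd M a) P n) = Matrix.of fun i j : Fin (n + 1) => Y i j + Y (i + 1) j := by
    ext i j
    unfold DM
    rw [Matrix.of_apply, Matrix.of_apply, hY]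
    simp only
    split_ifs with h3 h4 h5 h5
    · rw [← dd_eq hM]
      congr 2
      ring
    · omega
    · norm_num
    · norm_num
    · omega
  rw [h2, ← h1]
  set Z : Matrix (Fin (n + 1 + 1)) (Fin (n + 1 + 1)) ℤ :=
    Matrix.of fun i j => if (j : ℕ) < n + 1 then Y i j else (-1) ^ (i : ℕ) with hZ
  set cn : Fin (n + 1 + 1) := ⟨n, by omega⟩ with hcn
  have hne : Fin.last (n + 1) ≠ cn := by
    intro h
    have := congrArg Fin.val h
    simp [hcn] at this
  rw [← Matrix.det_updateCol_add_smul_self Z hne (-1)]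
  have hgood : Good (wildM (Matrix.of fun (i : Fin (n + 2)) (j : Fin n) => dil M a (P + i + j))
      (fun i => (i : ℕ) % M) (fun (w : Fin 2) (k : ℕ) =>
        if w = 0 then (if k % 2 = 0 then (1 : ℤ) else 0) else (if k % 2 = 0 then 0 else -1))) := by
    apply wild _ _ (fun j : Fin n => cls M P j)
    · intro i j hne
      change dil M a (P + i + j) = 0
      unfold dil
      rw [if_neg]
      intro hcon
      exact hne ((cls_iff hM P i j).2 hcon)
    · intro w w' k h3 h4
      have hw : w = 0 ∨ w = 1 := by omega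
      have hw' : w' = 0 ∨ w' = 1 := by omega
      rcases hw with rfl | rfl <;> rcases hw' with rfl | rfl
      · rfl
      · exfalso
        by_cases hk : k % 2 = 0
        · exact h4 (by simp [hk])
        · exact h3 (by simp [hk])
      · exfalso
        by_cases hk : k % 2 = 0
        · exact h3 (by simp [hk])
        · exact h4 (by simp [hk])
      · rfl
    · intro κ hκ0
      apply tame_good hM n (n + 2) P ha
      · intro w k
        split_ifs <;> norm_num
      · intro w w' hww
        have h3 := hκ0 w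
        have h4 := hκ0 w'
        rw [← hww] at h4
        have hw : w = 0 ∨ w = 1 := by omega
        have hw' : w' = 0 ∨ w' = 1 := by omega
        rcases hw with rfl | rfl <;> rcases hw' with rfl | rfl
        · rfl
        · exfalso
          by_cases hk : κ 0 % 2 = 0
          · exact h4 (by simp [hk])
          · exact h3 (by simp [hk])
        · exfalso
          by_cases hk : κ 1 % 2 = 0
          · exact h3 (by simp [hk])
          · exact h4 (by simp [hk])
        · rfl
  have h3 := hgood finSumFinEquiv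
  rw [← Matrix.det_submatrix_equiv_self (finSumFinEquiv (m := n) (n := 2)).symm] at h3
  convert h3 using 3
  ext i j
  rw [Matrix.submatrix_apply, Matrix.submatrix_apply, Equiv.apply_symm_apply]
  obtain ⟨x, rfl⟩ := (finSumFinEquiv (m := n) (n := 2)).surjective j
  rw [Equiv.symm_apply_apply]
  have hmod : ((i : ℕ) % M) % 2 = (i : ℕ) % 2 := by rcases hM with rfl | rfl <;> omega
  rcases x with j | w
  · have hv : ((finSumFinEquiv (Sum.inl j : Fin n ⊕ Fin 2) : Fin (n + 2)) : ℕ) = j := by simp
    have hjn := j.2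
    rw [Matrix.updateCol_ne, hZ, Matrix.of_apply, hv, if_pos (by omega), hY]
    · simp only
      rw [if_pos hjn]
      rfl
    · intro h
      have := congrArg Fin.val h
      rw [hv] at this
      simp at this
      omega
  · have hw : w = 0 ∨ w = 1 := by omega
    rcases hw with rfl | rfl
    · have hv : ((finSumFinEquiv (Sum.inr 0 : Fin n ⊕ Fin 2) : Fin (n + 2)) : ℕ) = n := by simp
      rw [Matrix.updateCol_ne, hZ, Matrix.of_apply, hv, if_pos (by omega), hY]
      · simp only [lt_irrefl, if_false]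
        change (if (i : ℕ) % 2 = 0 then (1 : ℤ) else 0) =
          if (0 : Fin 2) = 0 then (if ((i : ℕ) % M) % 2 = 0 then (1 : ℤ) else 0) else
            (if ((i : ℕ) % M) % 2 = 0 then (0 : ℤ) else -1)
        rw [if_pos rfl, hmod]
      · intro h
        have := congrArg Fin.val h
        rw [hv] at this
        simp at this
    · have hv : (finSumFinEquiv (Sum.inr 1 : Fin n ⊕ Fin 2) : Fin (n + 2)) = Fin.last (n + 1) := by
        apply Fin.ext
        simp
      rw [hv, Matrix.updateCol_self, hZ, hcn, hY]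
      simp only [Matrix.of_apply, Fin.val_last, lt_irrefl, if_false, Nat.lt_succ_self, if_true]
      change (-1 : ℤ) ^ (i : ℕ) + (-1) • (if (i : ℕ) % 2 = 0 then (1 : ℤ) else 0) =
          if (1 : Fin 2) = 0 then (if ((i : ℕ) % M) % 2 = 0 then (1 : ℤ) else 0) else
            (if ((i : ℕ) % M) % 2 = 0 then (0 : ℤ) else -1)
      have e10 : ¬ (1 : Fin 2) = 0 := by decide
      rw [if_neg e10, hmod]
      rcases Nat.even_or_odd (i : ℕ) with he | ho
      · rw [he.neg_one_pow, if_pos (Nat.even_iff.1 he), if_pos (Nat.even_iff.1 he)]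
        norm_num
      · have h4 : ¬ (i : ℕ) % 2 = 0 := by rw [Nat.odd_iff] at ho; omega
        rw [ho.neg_one_pow, if_neg h4, if_neg h4]
        norm_num

end Pool.Agent.R153.HK
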