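import Pool.Agent.R153.HK2

set_option autoImplicit false

/-! The indicator sequence of the sums of distinct powers of four. -/

namespace Pool.Agent.R153.HK

open Finset

/-- indicator of the numbers with base-four digits `0` and `1` -/
def v (j : ℕ) : ℤ := if ∀ d ∈ Nat.digits 4 j, d < 2 then 1 else 0

theorem v_rec (j : ℕ) : v j = dd 4 v j := by
  unfold dd
  rcases Nat.eq_zero_or_pos j with h | h
  · subst h; simp
  · unfold v
    rw [Nat.digits_def' (by norm_num) h]
    simp only [List.mem_cons, forall_eq_or_imp]
    by_cases h1 : j % 4 < 2
    · simp [h1]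
    · simp [h1]

theorem v_zero_or_one (j : ℕ) : v j = 0 ∨ v j = 1 := by
  unfold v
  split_ifs
  · right; rfl
  · left; rfl

theorem G_v (n : ℕ) : GH v n ∧ GD v n := by
  induction n using Nat.strong_induction_on with
  | _ n ih =>
    rcases Nat.lt_or_ge n 2 with h | h
    · interval_cases n
      · constructor
        · intro P
          rw [Matrix.det_isEmpty]; simp
        · intro P
          change |(DM v P 0 : Matrix (Fin 1) (Fin 1) ℤ).det| ≤ 1
          rw [Matrix.det_fin_one]
          unfold DM
          simp
      · constructor
        · intro P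
          rw [Matrix.det_unique]
          unfold HM
          simp only [Matrix.of_apply]
          rcases v_zero_or_one (P + ((default : Fin 1) : ℕ) + ((default : Fin 1) : ℕ)) with h1 | h1
            <;> rw [h1] <;> norm_num
        · intro P
          rw [Matrix.det_fin_two]
          unfold DM
          simp only [Matrix.of_apply]
          norm_num
          rcases v_zero_or_one P with h1 | h1 <;> rcases v_zero_or_one (P + 1) with h2 | h2 <;>
            rw [h1, h2] <;> norm_num
    · have h4 : (4 : ℕ) = 2 ∨ (4 : ℕ) = 4 := Or.inr rfl
      have hlt : ∀ n', n' ≤ (n + 4 - 1) / 4 → GH v n' ∧ GD v n' := by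
        intro n' hn'
        exact ih n' (by omega)
      have e : v = dd 4 v := funext v_rec
      constructor
      · have := stepH h4 n hlt
        rwa [← e] at this
      · have := stepD h4 n hlt
        rwa [← e] at this

/-- the sequence `u_j = v_{j/2}` -/
def u (j : ℕ) : ℤ := v (j / 2)

theorem u_eq : u = dd 2 v := by
  funext j
  unfold u dd
  rw [if_pos (Nat.mod_lt j (by norm_num))]

theorem G_u (n : ℕ) : GH u n := by
  rw [u_eq]
  exact stepH (Or.inl rfl) n (fun n' _ => G_v n')

end Pool.Agent.R153.HK
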