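import Pool.Agent.R153.HK3

set_option autoImplicit false

/-! The coefficients of the inverse of the Thue-Morse series. -/

namespace Pool.Agent.R153.HK

open Finset PowerSeries

/-- squaring over the field with two elements -/
theorem coeff_sq (f : PowerSeries (ZMod 2)) (n : ℕ) :
    coeff n (f ^ 2) = if 2 ∣ n then coeff (n / 2) f else 0 := by
  have h : (MvPowerSeries.expand 2 two_ne_zero f).map (frobenius (ZMod 2) 2) = f ^ 2 :=
    MvPowerSeries.map_frobenius_expand 2 two_ne_zero
  have h2 : f ^ 2 = PowerSeries.expand 2 two_ne_zero f := by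
    rw [← h, ZMod.frobenius_zmod]
    rw [MvPowerSeries.map_id]
    rfl
  rw [h2, PowerSeries.coeff_expand]

/-- the Thue-Morse series -/
noncomputable def F : PowerSeries (ZMod 2) :=
  PowerSeries.mk fun n => (((Nat.digits 2 n).sum : ℕ) : ZMod 2)

theorem coeff_F_even (n : ℕ) : coeff (2 * n) F = coeff n F := by
  unfold F
  rw [coeff_mk, coeff_mk]
  rcases Nat.eq_zero_or_pos n with h | h
  · subst h; rfl
  · rw [Nat.digits_def' (by norm_num) (by omega : 0 < 2 * n)]
    simp

theorem coeff_F_odd (n : ℕ) : coeff (2 * n + 1) F = coeff n F + 1 := by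
  unfold F
  rw [coeff_mk, coeff_mk, Nat.digits_def' (by norm_num) (by omega : 0 < 2 * n + 1)]
  have h1 : (2 * n + 1) % 2 = 1 := by omega
  have h2 : (2 * n + 1) / 2 = n := by omega
  rw [h1, h2, List.sum_cons]
  push_cast
  ring

theorem coeff_F_zero : coeff 0 F = 0 := by
  unfold F
  rw [coeff_mk]
  simp

theorem two_eq_zero' : (2 : PowerSeries (ZMod 2)) = 0 := by
  have : (2 : PowerSeries (ZMod 2)) = C (2 : ZMod 2) := by
    rw [map_ofNat]
  rw [this]
  have h : (2 : ZMod 2) = 0 := by decide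
  rw [h, map_zero]

theorem F_eq : F = (1 + X) * F ^ 2 + X * (PowerSeries.mk fun _ => (1 : ZMod 2)) ^ 2 := by
  ext n
  rcases n with _ | n
  · rw [add_mul, one_mul, map_add, map_add, coeff_zero_X_mul, coeff_zero_X_mul, coeff_sq,
      coeff_F_zero]
    simp
  · rw [add_mul, one_mul, map_add, map_add, coeff_succ_X_mul, coeff_succ_X_mul, coeff_sq, coeff_sq,
      coeff_sq]
    rcases Nat.even_or_odd' n with ⟨m, rfl | rfl⟩
    · rw [coeff_F_odd]
      rw [if_neg (by omega), if_pos (by omega), if_pos (by omega), coeff_mk,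
        Nat.mul_div_cancel_left m two_pos]
      ring
    · have e : 2 * m + 1 + 1 = 2 * (m + 1) := by ring
      rw [e, coeff_F_even, if_pos (by omega), if_neg (by omega), if_neg (by omega),
        Nat.mul_div_cancel_left _ two_pos]
      ring

theorem F_alg : (1 + X) ^ 3 * F ^ 2 + (1 + X) ^ 2 * F + X = 0 := by
  have h1 : (1 + X) * (PowerSeries.mk fun _ => (1 : ZMod 2)) = 1 := by
    ext n
    rcases n with _ | n
    · rw [add_mul, one_mul, map_add, coeff_zero_X_mul]
      simp
    · rw [add_mul, one_mul, map_add, coeff_succ_X_mul, coeff_mk, coeff_mk, coeff_one,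
        if_neg (Nat.succ_ne_zero n)]
      decide
  set A := (PowerSeries.mk fun _ => (1 : ZMod 2)) with hA
  have h2 := F_eq
  rw [← hA] at h2
  have h3 := two_eq_zero'
  have h4 : (1 + X) ^ 2 * F = (1 + X) ^ 3 * F ^ 2 + X * ((1 + X) * A) ^ 2 := by
    calc (1 + X) ^ 2 * F = (1 + X) ^ 2 * ((1 + X) * F ^ 2 + X * A ^ 2) := by rw [← h2]
      _ = _ := by ring
  rw [h4, h1]
  linear_combination ((1 + X) ^ 3 * F ^ 2 + X) * h3

/-- the series of the indicator sequence -/
noncomputable def V : PowerSeries (ZMod 2) := PowerSeries.mk fun n => ((v n : ℤ) : ZMod 2)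

theorem V_eq : V = (1 + X) * (V ^ 2) ^ 2 := by
  ext n
  rcases n with _ | n
  · rw [add_mul, one_mul, map_add, coeff_zero_X_mul, coeff_sq, coeff_sq]
    simp
  · rw [add_mul, one_mul, map_add, coeff_succ_X_mul, coeff_sq, coeff_sq, coeff_sq, coeff_sq]
    unfold V
    rw [coeff_mk, coeff_mk, coeff_mk, v_rec]
    unfold dd
    have h4 : n % 4 = 0 ∨ n % 4 = 1 ∨ n % 4 = 2 ∨ n % 4 = 3 := by omega
    rcases h4 with h | h | h | h
    · rw [if_pos (by omega), if_neg (by omega), if_pos (by omega), if_pos (by omega), zero_add]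
      have e : (n + 1) / 4 = n / 2 / 2 := by omega
      rw [e]
    · rw [if_neg (by omega), if_pos (by omega), if_neg (by omega), if_neg (by omega)]
      simp
    · rw [if_neg (by omega), if_neg (by omega), if_pos (by omega), if_neg (by omega)]
      simp
    · rw [if_pos (by omega), if_pos (by omega), if_pos (by omega), if_neg (by omega), add_zero]
      have e : (n + 1) / 4 = (n + 1) / 2 / 2 := by omega
      rw [e]

theorem V_alg : (1 + X) * V ^ 3 = 1 := by
  have h0 : V ≠ 0 := by
    intro h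
    have : coeff 0 V = 0 := by rw [h]; simp
    unfold V at this
    rw [coeff_mk] at this
    have h2 : v 0 = 1 := by unfold v; simp
    rw [h2] at this
    simp at this
  have h1 : V * ((1 + X) * V ^ 3) = V * 1 := by
    calc V * ((1 + X) * V ^ 3) = (1 + X) * (V ^ 2) ^ 2 := by ring
      _ = V * 1 := by rw [← V_eq, mul_one]
  exact mul_left_cancel₀ h0 h1

theorem coeff_U (n : ℕ) : coeff n ((1 + X) * V ^ 2) = ((u n : ℤ) : ZMod 2) := by
  rcases n with _ | n
  · rw [add_mul, one_mul, map_add, coeff_zero_X_mul, coeff_sq]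
    unfold V u
    simp
  · rw [add_mul, one_mul, map_add, coeff_succ_X_mul, coeff_sq, coeff_sq]
    unfold V u
    rw [coeff_mk, coeff_mk]
    rcases Nat.even_or_odd' n with ⟨m, rfl | rfl⟩
    · rw [if_neg (by omega), if_pos (by omega), zero_add]
      have e : (2 * m + 1) / 2 = 2 * m / 2 := by omega
      rw [e]
    · rw [if_pos (by omega), if_neg (by omega), add_zero]

/-- the inverse series -/
noncomputable def Gh : PowerSeries (ZMod 2) :=
  PowerSeries.mk fun n => if n = 0 then 0 else ((u (n + 1) : ℤ) : ZMod 2)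

theorem X_Gh : X * Gh = (1 + X) * V ^ 2 + 1 + X := by
  ext n
  rcases n with _ | n
  · rw [coeff_zero_X_mul, map_add, map_add, coeff_U]
    unfold u v
    simp
    decide
  · rw [coeff_succ_X_mul, map_add, map_add, coeff_U]
    unfold Gh
    rw [coeff_mk]
    rcases n with _ | n
    · unfold u v
      simp
      decide
    · rw [if_neg (by omega), coeff_one, if_neg (by omega), coeff_X, if_neg (by omega), add_zero,
        add_zero]

theorem Gh_alg : X ^ 2 * (1 + Gh) ^ 3 + X * (1 + Gh) ^ 2 + (1 + Gh) + 1 = 0 := by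
  have h2 := two_eq_zero'
  have hX : (X : PowerSeries (ZMod 2)) ≠ 0 := X_ne_zero
  apply mul_left_cancel₀ hX
  rw [mul_zero]
  have h1 := X_Gh
  have h3 : ((1 + X) * V ^ 2) ^ 3 = 1 + X := by
    calc ((1 + X) * V ^ 2) ^ 3 = (1 + X) * ((1 + X) * V ^ 3) ^ 2 := by ring
      _ = 1 + X := by rw [V_alg]; ring
  set U := (1 + X) * V ^ 2 with hU
  have h4 : X * (1 + Gh) = U + 1 := by
    linear_combination h1 + X * h2
  have h5 : X * (X ^ 2 * (1 + Gh) ^ 3 + X * (1 + Gh) ^ 2 + (1 + Gh) + 1) =
      (X * (1 + Gh)) ^ 3 + (X * (1 + Gh)) ^ 2 + X * (1 + Gh) + X := by ring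
  rw [h5, h4]
  linear_combination h3 + (2 * U ^ 2 + 3 * U + 2 + X) * h2

theorem root_unique (W W' : PowerSeries (ZMod 2))
    (h : X ^ 2 * W ^ 3 + X * W ^ 2 + W + 1 = 0)
    (h' : X ^ 2 * W' ^ 3 + X * W' ^ 2 + W' + 1 = 0) : W = W' := by
  have h1 : (W - W') * (X * (X * (W ^ 2 + W * W' + W' ^ 2) + (W + W')) + 1) = 0 := by
    linear_combination h - h'
  rcases mul_eq_zero.1 h1 with h2 | h2
  · exact sub_eq_zero.1 h2
  · exfalso
    have h3 := congrArg (coeff 0) h2
    rw [map_add, coeff_zero_X_mul] at h3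
    simp at h3

theorem eq_Gh (G : PowerSeries (ZMod 2)) (h0 : constantCoeff G = 0)
    (hG : PowerSeries.subst G F = (X : PowerSeries (ZMod 2))) : G = Gh := by
  have hs : HasSubst G := HasSubst.of_constantCoeff_zero' h0
  have h1 := congrArg (substAlgHom hs) F_alg
  simp only [map_add, map_mul, map_pow, map_one, map_zero, substAlgHom_X] at h1
  rw [coe_substAlgHom, hG] at h1
  have h2 : X ^ 2 * (1 + G) ^ 3 + X * (1 + G) ^ 2 + (1 + G) + 1 = 0 := by
    have h3 := two_eq_zero'
    linear_combination h1 + h3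
  have h4 := root_unique _ _ h2 Gh_alg
  exact add_left_cancel h4

end Pool.Agent.R153.HK
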