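import Pool.Agent.R153.HK4

set_option autoImplicit false

/-! Exact evaluation of Hankel determinants: splitting with respect to parity. -/

namespace Pool.Agent.R153.HK

open Finset

/-- the determinant of the square matrix with entries `g i j` -/
def dt (g : ℕ → ℕ → ℤ) (n : ℕ) : ℤ := (Matrix.of fun i j : Fin n => g i j).det

theorem dt_congr {g g' : ℕ → ℕ → ℤ} {n : ℕ} (h : ∀ i j, i < n → j < n → g i j = g' i j) :
    dt g n = dt g' n := by
  unfold dt
  congr 1
  ext i j
  exact h i j i.2 j.2

/-- separating even and odd indices -/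
noncomputable def sp (k l n : ℕ) (hk : k = (n + 1) / 2) (hl : l = n / 2) : Fin k ⊕ Fin l ≃ Fin n :=
  Equiv.ofBijective (Sum.elim (fun a => ⟨2 * a, by have := a.2; omega⟩)
    (fun b => ⟨2 * b + 1, by have := b.2; omega⟩)) (by
  constructor
  · rintro (a | a) (b | b) hab
    · have h := congrArg Fin.val hab
      simp only [Sum.elim_inl] at h
      congr 1
      apply Fin.ext
      omega
    · have h := congrArg Fin.val hab
      simp only [Sum.elim_inl, Sum.elim_inr] at h
      omega
    · have h := congrArg Fin.val hab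
      simp only [Sum.elim_inl, Sum.elim_inr] at h
      omega
    · have h := congrArg Fin.val hab
      simp only [Sum.elim_inr] at h
      congr 1
      apply Fin.ext
      omega
  · intro i
    have hi := i.2
    by_cases h : (i : ℕ) % 2 = 0
    · refine ⟨Sum.inl ⟨i / 2, by omega⟩, ?_⟩
      apply Fin.ext
      simp only [Sum.elim_inl]
      omega
    · refine ⟨Sum.inr ⟨i / 2, by omega⟩, ?_⟩
      apply Fin.ext
      simp only [Sum.elim_inr]
      omega)

theorem dt_split (g : ℕ → ℕ → ℤ) {k l n : ℕ} (hk : k = (n + 1) / 2) (hl : l = n / 2) :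
    dt g n = (Matrix.fromBlocks (Matrix.of fun a b : Fin k => g (2 * a) (2 * b))
      (Matrix.of fun (a : Fin k) (b : Fin l) => g (2 * a) (2 * b + 1))
      (Matrix.of fun (a : Fin l) (b : Fin k) => g (2 * a + 1) (2 * b))
      (Matrix.of fun a b : Fin l => g (2 * a + 1) (2 * b + 1))).det := by
  unfold dt
  rw [← Matrix.det_submatrix_equiv_self (sp k l n hk hl)]
  congr 1
  ext (i | i) (j | j) <;> rfl

theorem split_upper (g : ℕ → ℕ → ℤ) {k l n : ℕ} (hk : k = (n + 1) / 2) (hl : l = n / 2)
    (h : ∀ a b, a < k → b < l → g (2 * a) (2 * b + 1) = 0) :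
    dt g n = dt (fun a b => g (2 * a) (2 * b)) k * dt (fun a b => g (2 * a + 1) (2 * b + 1)) l := by
  rw [dt_split g hk hl]
  have h1 : (Matrix.of fun (a : Fin k) (b : Fin l) => g (2 * a) (2 * b + 1)) = 0 := by
    ext a b
    exact h a b a.2 b.2
  rw [h1, Matrix.det_fromBlocks_zero₁₂]
  rfl

theorem split_lower (g : ℕ → ℕ → ℤ) {k l n : ℕ} (hk : k = (n + 1) / 2) (hl : l = n / 2)
    (h : ∀ a b, a < l → b < k → g (2 * a + 1) (2 * b) = 0) :
    dt g n = dt (fun a b => g (2 * a) (2 * b)) k * dt (fun a b => g (2 * a + 1) (2 * b + 1)) l := by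
  rw [dt_split g hk hl]
  have h1 : (Matrix.of fun (a : Fin l) (b : Fin k) => g (2 * a + 1) (2 * b)) = 0 := by
    ext a b
    exact h a b a.2 b.2
  rw [h1, Matrix.det_fromBlocks_zero₂₁]
  rfl

theorem det_anti {m : ℕ} (B C D : Matrix (Fin m) (Fin m) ℤ) :
    (Matrix.fromBlocks 0 B C D).det = (-1) ^ m * (B.det * C.det) := by
  have h1 : Matrix.fromBlocks 0 B C D = Matrix.fromBlocks B 0 D C * Matrix.fromBlocks 0 1 1 0 := by
    rw [Matrix.fromBlocks_multiply]
    simp
  have h2 : (Matrix.fromBlocks 0 1 1 0 : Matrix (Fin m ⊕ Fin m) (Fin m ⊕ Fin m) ℤ).det =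
      (-1) ^ m := by
    have h3 : (Matrix.fromBlocks 0 1 1 0 : Matrix (Fin m ⊕ Fin m) (Fin m ⊕ Fin m) ℤ) *
        Matrix.fromBlocks 1 0 1 1 = Matrix.fromBlocks 1 1 1 0 := by
      rw [Matrix.fromBlocks_multiply]
      simp
    have h4 := congrArg Matrix.det h3
    rw [Matrix.det_mul, Matrix.det_fromBlocks_zero₁₂, Matrix.det_one, mul_one, mul_one,
      Matrix.det_fromBlocks_one₁₁, zero_sub, Matrix.one_mul, Matrix.det_neg, Matrix.det_one,
      mul_one, Fintype.card_fin] at h4
    exact h4
  rw [h1, Matrix.det_mul, Matrix.det_fromBlocks_zero₁₂, h2]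
  ring

theorem split_anti (g : ℕ → ℕ → ℤ) (m : ℕ)
    (h : ∀ a b, a < m → b < m → g (2 * a) (2 * b) = 0) :
    dt g (2 * m) = (-1) ^ m * (dt (fun a b => g (2 * a) (2 * b + 1)) m *
      dt (fun a b => g (2 * a + 1) (2 * b)) m) := by
  have hk : m = (2 * m + 1) / 2 := by omega
  have hl : m = 2 * m / 2 := by omega
  rw [dt_split g hk hl]
  have h1 : (Matrix.of fun (a : Fin m) (b : Fin m) => g (2 * a) (2 * b)) = 0 := by
    ext a b
    exact h a b a.2 b.2
  rw [h1, det_anti]
  rfl

theorem dt_rot (g : ℕ → ℕ → ℤ) (n : ℕ) :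
    dt g (n + 1) = (-1) ^ n * dt (fun i j => g i (if j = 0 then n else j - 1)) (n + 1) := by
  have h1 : dt (fun i j => g i (if j = 0 then n else j - 1)) (n + 1) =
      ((Matrix.of fun i j : Fin (n + 1) => g i j).submatrix id (finRotate (n + 1)).symm).det := by
    unfold dt
    congr 1
    ext i j
    rw [Matrix.submatrix_apply, Matrix.of_apply, Matrix.of_apply]
    have h2 : (((finRotate (n + 1)).symm j : Fin (n + 1)) : ℕ) = if (j : ℕ) = 0 then n
        else (j : ℕ) - 1 := by
      obtain ⟨x, rfl⟩ := (finRotate (n + 1)).surjective j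
      rw [Equiv.symm_apply_apply]
      rcases Nat.lt_or_ge x n with hx | hx
      · have h3 : ((finRotate (n + 1) x : Fin (n + 1)) : ℕ) = x + 1 := by
          rw [finRotate_apply, Fin.val_add_one_of_lt]
          exact hx
        rw [h3, if_neg (by omega)]
        omega
      · have h4 : x = Fin.last n := by
          apply Fin.ext
          have := x.2
          simp only [Fin.val_last]
          omega
        rw [h4, finRotate_last]
        simp
    rw [h2]
    rfl
  rw [h1, Matrix.det_permute']
  have h5 : Equiv.Perm.sign (finRotate (n + 1)).symm = (-1) ^ n := by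
    rw [Equiv.Perm.sign_symm, sign_finRotate, Nat.add_sub_cancel]
  rw [h5]
  unfold dt
  push_cast
  rw [← mul_assoc, ← mul_pow]
  norm_num

/-- the awkward antidiagonal case -/
theorem split_anti_odd (g : ℕ → ℕ → ℤ) (m : ℕ)
    (h : ∀ a b, a < m + 1 → b < m → g (2 * a) (2 * b) = 0) :
    dt g (2 * m + 1) = (-1) ^ m * (dt (fun a b => g (2 * a) (if b < m then 2 * b + 1 else 2 * m))
      (m + 1) * dt (fun a b => g (2 * a + 1) (2 * b)) m) := by
  rw [dt_rot g (2 * m), pow_mul, neg_one_sq, one_pow, one_mul]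
  rw [split_upper (k := m + 1) (l := m) _ (by omega) (by omega)]
  · have h1 : dt (fun a b => g (2 * a) (if b < m then 2 * b + 1 else 2 * m)) (m + 1) =
        (-1) ^ m * dt (fun a b => g (2 * a) (if 2 * b = 0 then 2 * m else 2 * b - 1)) (m + 1) := by
      rw [dt_rot _ m]
      congr 1
      apply dt_congr
      intro i j hi hj
      beta_reduce
      congr 1
      rcases Nat.eq_zero_or_pos j with h0 | h0
      · subst h0
        simp
      · rw [if_neg (by omega : ¬ j = 0), if_pos (by omega : j - 1 < m),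
          if_neg (by omega : ¬ 2 * j = 0)]
        omega
    have h2 : dt (fun a b => g (2 * a + 1) (if 2 * b + 1 = 0 then 2 * m else 2 * b + 1 - 1)) m =
        dt (fun a b => g (2 * a + 1) (2 * b)) m := by
      apply dt_congr
      intro i j hi hj
      simp
    rw [h1, h2]
    have h3 : ((-1 : ℤ) ^ m) * (-1) ^ m = 1 := by
      rw [← mul_pow]; norm_num
    linear_combination (-(dt (fun a b => g (2 * a) (if 2 * b = 0 then 2 * m else 2 * b - 1))
      (m + 1)) * dt (fun a b => g (2 * a + 1) (2 * b)) m) * h3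
  · intro a b ha hb
    simp only [Nat.add_eq_zero_iff, one_ne_zero, and_false, if_false, Nat.add_sub_cancel]
    exact h a b ha hb

/-- odd size, no room for the even rows -/
theorem split_zero (g : ℕ → ℕ → ℤ) (m : ℕ)
    (h : ∀ a b, a < m + 1 → b < m + 1 → g (2 * a) (2 * b) = 0) : dt g (2 * m + 1) = 0 := by
  rw [split_anti_odd g m (fun a b ha hb => h a b ha (by omega))]
  have h1 : dt (fun a b => g (2 * a) (if b < m then 2 * b + 1 else 2 * m)) (m + 1) = 0 := by
    unfold dt
    apply Matrix.det_eq_zero_of_column_eq_zero (Fin.last m)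
    intro i
    rw [Matrix.of_apply, Fin.val_last]
    beta_reduce
    rw [if_neg (lt_irrefl m)]
    exact h i m i.2 (by omega)
  rw [h1, zero_mul, mul_zero]

/-- Hankel determinant -/
def Hk (f : ℕ → ℤ) (n : ℕ) : ℤ := dt (fun i j => f (i + j)) n

/-- Hankel determinant with an extra column -/
def Ex (f c : ℕ → ℤ) (n : ℕ) : ℤ := dt (fun i j => if j < n then f (i + j) else c i) (n + 1)

theorem Ex_congr {f f' c c' : ℕ → ℤ} {n : ℕ} (h1 : ∀ i, f i = f' i) (h2 : ∀ i, c i = c' i) :
    Ex f c n = Ex f' c' n := by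
  rw [funext h1, funext h2]

section

variable {f f0 : ℕ → ℤ} (c : ℕ → ℤ) (m : ℕ)

theorem Hk_even_even (h0 : ∀ k, f (2 * k) = f0 k) (h1 : ∀ k, f (2 * k + 1) = 0) :
    Hk f (2 * m) = Hk f0 m * Hk (fun k => f0 (k + 1)) m := by
  unfold Hk
  rw [split_upper (k := m) (l := m) _ (by omega) (by omega)]
  · congr 1
    · apply dt_congr
      intro i j _ _
      beta_reduce
      rw [← h0]
      congr 1
      ring
    · apply dt_congr
      intro i j _ _
      beta_reduce
      rw [← h0]
      congr 1
      ring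
  · intro a b _ _
    beta_reduce
    rw [← h1 (a + b)]
    congr 1
    ring

theorem Hk_even_odd (h0 : ∀ k, f (2 * k) = f0 k) (h1 : ∀ k, f (2 * k + 1) = 0) :
    Hk f (2 * m + 1) = Hk f0 (m + 1) * Hk (fun k => f0 (k + 1)) m := by
  unfold Hk
  rw [split_upper (k := m + 1) (l := m) _ (by omega) (by omega)]
  · congr 1
    · apply dt_congr
      intro i j _ _
      beta_reduce
      rw [← h0]
      congr 1
      ring
    · apply dt_congr
      intro i j _ _
      beta_reduce
      rw [← h0]
      congr 1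
      ring
  · intro a b _ _
    beta_reduce
    rw [← h1 (a + b)]
    congr 1
    ring

theorem Ex_even_even (h0 : ∀ k, f (2 * k) = f0 k) (h1 : ∀ k, f (2 * k + 1) = 0) :
    Ex f c (2 * m) = Ex f0 (fun k => c (2 * k)) m * Hk (fun k => f0 (k + 1)) m := by
  unfold Hk Ex
  rw [split_upper (k := m + 1) (l := m) _ (by omega) (by omega)]
  · congr 1
    · apply dt_congr
      intro i j _ _
      beta_reduce
      by_cases hj : j < m
      · rw [if_pos hj, if_pos (by omega), ← h0]
        congr 1
        ring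
      · rw [if_neg hj, if_neg (by omega)]
    · apply dt_congr
      intro i j _ hj
      beta_reduce
      rw [if_pos (by omega), ← h0]
      congr 1
      ring
  · intro a b _ hb
    beta_reduce
    rw [if_pos (by omega), ← h1 (a + b)]
    congr 1
    ring

theorem Ex_even_odd (h0 : ∀ k, f (2 * k) = f0 k) (h1 : ∀ k, f (2 * k + 1) = 0) :
    Ex f c (2 * m + 1) = Hk f0 (m + 1) * Ex (fun k => f0 (k + 1)) (fun k => c (2 * k + 1)) m := by
  unfold Hk Ex
  rw [split_lower (k := m + 1) (l := m + 1) _ (by omega) (by omega)]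
  · congr 1
    · apply dt_congr
      intro i j _ _
      beta_reduce
      rw [if_pos (by omega), ← h0]
      congr 1
      ring
    · apply dt_congr
      intro i j _ hj
      beta_reduce
      by_cases hj : j < m
      · rw [if_pos hj, if_pos (by omega), ← h0]
        congr 1
        ring
      · rw [if_neg hj, if_neg (by omega)]
  · intro a b _ hb
    beta_reduce
    rw [if_pos (by omega), ← h1 (a + b)]
    congr 1
    ring

theorem Hk_odd_even (h0 : ∀ k, f (2 * k) = 0) (h1 : ∀ k, f (2 * k + 1) = f0 k) :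
    Hk f (2 * m) = (-1) ^ m * (Hk f0 m * Hk f0 m) := by
  unfold Hk
  rw [split_anti]
  · congr 2
    · apply dt_congr
      intro i j _ _
      beta_reduce
      rw [← h1]
      congr 1
      ring
    · apply dt_congr
      intro i j _ _
      beta_reduce
      rw [← h1]
      congr 1
      ring
  · intro a b _ _
    beta_reduce
    rw [← h0 (a + b)]
    congr 1
    ring

theorem Hk_odd_odd (h0 : ∀ k, f (2 * k) = 0) : Hk f (2 * m + 1) = 0 := by
  unfold Hk
  apply split_zero
  intro a b _ _
  beta_reduce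
  rw [← h0 (a + b)]
  congr 1
  ring

theorem Ex_odd_even (h0 : ∀ k, f (2 * k) = 0) (h1 : ∀ k, f (2 * k + 1) = f0 k) :
    Ex f c (2 * m) = (-1) ^ m * (Ex f0 (fun k => c (2 * k)) m * Hk f0 m) := by
  unfold Hk Ex
  rw [split_anti_odd]
  · congr 2
    · apply dt_congr
      intro i j _ _
      beta_reduce
      by_cases hj : j < m
      · rw [if_pos hj, if_pos hj, if_pos (by omega), ← h1]
        congr 1
        ring
      · rw [if_neg hj, if_neg hj, if_neg (by omega)]
    · apply dt_congr
      intro i j _ hj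
      beta_reduce
      rw [if_pos (by omega), ← h1]
      congr 1
      ring
  · intro a b _ hb
    beta_reduce
    rw [if_pos (by omega), ← h0 (a + b)]
    congr 1
    ring

theorem Ex_odd_odd (h0 : ∀ k, f (2 * k) = 0) (h1 : ∀ k, f (2 * k + 1) = f0 k) :
    Ex f c (2 * m + 1) = (-1) ^ (m + 1) * (Ex f0 (fun k => c (2 * k)) m * Hk f0 (m + 1)) := by
  unfold Hk Ex
  have e : 2 * m + 1 + 1 = 2 * (m + 1) := by ring
  rw [e, split_anti]
  · congr 2
    · apply dt_congr
      intro i j _ _
      beta_reduce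
      by_cases hj : j < m
      · rw [if_pos hj, if_pos (by omega), ← h1]
        congr 1
        ring
      · rw [if_neg hj, if_neg (by omega)]
    · apply dt_congr
      intro i j _ hj
      beta_reduce
      rw [if_pos (by omega), ← h1]
      congr 1
      ring
  · intro a b _ hb
    beta_reduce
    rw [if_pos (by omega), ← h0 (a + b)]
    congr 1
    ring

end

/-- eliminating a geometric column -/
theorem Ex_geom (f c : ℕ → ℤ) (r : ℤ) (n : ℕ) (h0 : c 0 = 1) (hc : ∀ i, c (i + 1) = r * c i) :
    Ex f c n = (-1) ^ n * Hk (fun k => f (k + 1) - r * f k) n := by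
  unfold Ex Hk dt
  set Z : Matrix (Fin (n + 1)) (Fin (n + 1)) ℤ :=
    Matrix.of fun i j => if (j : ℕ) < n then f (i + j) else c i with hZ
  set B : Matrix (Fin (n + 1)) (Fin (n + 1)) ℤ :=
    Matrix.of fun i => Fin.cases (Z 0) (fun i' => fun j => Z i'.succ j - r * Z i'.castSucc j) i
    with hB
  have h1 : Z.det = B.det := by
    apply Matrix.det_eq_of_forall_row_eq_smul_add_pred (fun _ => r)
    · intro j
      rfl
    · intro i j
      have : B i.succ j = Z i.succ j - r * Z i.castSucc j := rfl
      rw [this]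
      ring
  have hlast : ∀ i : Fin n, B i.succ (Fin.last n) = 0 := by
    intro i
    have : B i.succ (Fin.last n) = Z i.succ (Fin.last n) - r * Z i.castSucc (Fin.last n) := rfl
    rw [this, hZ]
    simp only [Matrix.of_apply, Fin.val_last, lt_irrefl, if_false, Fin.val_succ, Fin.val_castSucc]
    rw [hc]
    ring
  have h00 : B 0 (Fin.last n) = 1 := by
    have : B 0 (Fin.last n) = Z 0 (Fin.last n) := rfl
    rw [this, hZ]
    simp [h0]
  rw [h1, Matrix.det_succ_column B (Fin.last n), Fin.sum_univ_succ]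
  have hz : ∑ i : Fin n, (-1 : ℤ) ^ ((i.succ : ℕ) + (Fin.last n : ℕ)) * B i.succ (Fin.last n) *
      (B.submatrix i.succ.succAbove (Fin.last n).succAbove).det = 0 := by
    apply Finset.sum_eq_zero
    intro i _
    rw [hlast, mul_zero, zero_mul]
  rw [hz, add_zero, h00, mul_one, Fin.val_zero, zero_add, Fin.val_last]
  congr 2
  ext i j
  rw [Matrix.submatrix_apply, Fin.succAbove_zero, Fin.succAbove_last]
  have : B i.succ j.castSucc = Z i.succ j.castSucc - r * Z i.castSucc j.castSucc := rfl
  rw [this, hZ]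
  simp only [Matrix.of_apply, Fin.val_castSucc, Fin.is_lt, if_true, Fin.val_succ]
  congr 2
  ring

end Pool.Agent.R153.HK
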