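import Pool.Agent.R153.HK5

set_option autoImplicit false

/-! Exact evaluation of Hankel determinants: the recursion. -/

namespace Pool.Agent.R153.HK

open Finset

def hA (a : ℕ → ℤ) (P n : ℕ) : ℤ := Hk (fun k => a (P + k)) n

def hD (a : ℕ → ℤ) (P n : ℕ) : ℤ := Ex (fun k => a (P + k)) (fun _ => 1) n

/-- `a` at even places, zero at odd places -/
def W (a : ℕ → ℤ) (j : ℕ) : ℤ := if j % 2 = 0 then a (j / 2) else 0

/-- every term doubled -/
def E (a : ℕ → ℤ) (j : ℕ) : ℤ := a (j / 2)

/-- `a` at odd places, zero at even places -/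
def dl (a : ℕ → ℤ) (j : ℕ) : ℤ := if j % 2 = 1 then a (j / 2) else 0

theorem W_even {a : ℕ → ℤ} {j k : ℕ} (h : j = 2 * k) : W a j = a k := by
  unfold W
  rw [if_pos (by omega)]
  congr 1
  omega

theorem W_odd {a : ℕ → ℤ} {j k : ℕ} (h : j = 2 * k + 1) : W a j = 0 := by
  unfold W
  rw [if_neg (by omega)]

theorem dl_odd {a : ℕ → ℤ} {j k : ℕ} (h : j = 2 * k + 1) : dl a j = a k := by
  unfold dl
  rw [if_pos (by omega)]
  congr 1
  omega

theorem dl_even {a : ℕ → ℤ} {j k : ℕ} (h : j = 2 * k) : dl a j = 0 := by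
  unfold dl
  rw [if_neg (by omega)]

theorem E_of {a : ℕ → ℤ} {j k : ℕ} (h : j = 2 * k ∨ j = 2 * k + 1) : E a j = a k := by
  unfold E
  congr 1
  omega

theorem Hk_congr {f g : ℕ → ℤ} (h : ∀ k, f k = g k) (n : ℕ) : Hk f n = Hk g n := by
  rw [funext h]

section

variable (a : ℕ → ℤ) (s m : ℕ)

theorem W1 : hA (W a) (2 * s) (2 * m) = hA a s m * hA a (s + 1) m := by
  unfold hA
  rw [Hk_even_even (f := fun k => W a (2 * s + k))
    (f0 := fun k => a (s + k)) m (fun k => W_even (by ring))
    (fun k => W_odd (k := s + k) (by ring))]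
  congr 1
  exact Hk_congr (fun k => by congr 1; ring) _

theorem W2 : hA (W a) (2 * s) (2 * m + 1) = hA a s (m + 1) * hA a (s + 1) m := by
  unfold hA
  rw [Hk_even_odd (f := fun k => W a (2 * s + k))
    (f0 := fun k => a (s + k)) m (fun k => W_even (by ring))
    (fun k => W_odd (k := s + k) (by ring))]
  congr 1
  exact Hk_congr (fun k => by congr 1; ring) _

theorem W3 : hA (W a) (2 * s + 1) (2 * m) = (-1) ^ m * (hA a (s + 1) m * hA a (s + 1) m) := by
  unfold hA
  rw [Hk_odd_even (f := fun k => W a (2 * s + 1 + k))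
    (f0 := fun k => a (s + 1 + k)) m (fun k => W_odd (k := s + k) (by ring))
    (fun k => W_even (by ring))]

theorem W4 : hA (W a) (2 * s + 1) (2 * m + 1) = 0 := by
  unfold hA
  exact Hk_odd_odd m (fun k => W_odd (k := s + k) (by ring))

theorem W5 : hD (W a) (2 * s) (2 * m) = hD a s m * hA a (s + 1) m := by
  unfold hA hD
  rw [Ex_even_even (f := fun k => W a (2 * s + k))
    (f0 := fun k => a (s + k)) _ m (fun k => W_even (by ring))
    (fun k => W_odd (k := s + k) (by ring))]
  congr 1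
  exact Hk_congr (fun k => by congr 1; ring) _

theorem W6 : hD (W a) (2 * s) (2 * m + 1) = hA a s (m + 1) * hD a (s + 1) m := by
  unfold hA hD
  rw [Ex_even_odd (f := fun k => W a (2 * s + k))
    (f0 := fun k => a (s + k)) _ m (fun k => W_even (by ring))
    (fun k => W_odd (k := s + k) (by ring))]
  congr 1
  exact Ex_congr (fun k => by congr 1; ring) (fun _ => rfl)

theorem W7 : hD (W a) (2 * s + 1) (2 * m) = (-1) ^ m * (hD a (s + 1) m * hA a (s + 1) m) := by
  unfold hA hD
  rw [Ex_odd_even (f := fun k => W a (2 * s + 1 + k))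
    (f0 := fun k => a (s + 1 + k)) _ m (fun k => W_odd (k := s + k) (by ring))
    (fun k => W_even (by ring))]

theorem W8 : hD (W a) (2 * s + 1) (2 * m + 1) =
    (-1) ^ (m + 1) * (hD a (s + 1) m * hA a (s + 1) (m + 1)) := by
  unfold hA hD
  rw [Ex_odd_odd (f := fun k => W a (2 * s + 1 + k))
    (f0 := fun k => a (s + 1 + k)) _ m (fun k => W_odd (k := s + k) (by ring))
    (fun k => W_even (by ring))]

theorem E_alt (P n : ℕ) :
    hA (E a) P n = (-1) ^ n * Ex (fun k => dl a (P + k)) (fun k => (-1) ^ k) n := by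
  rw [Ex_geom _ _ (-1) n (pow_zero _) (fun i => by rw [pow_succ]; ring)]
  rw [← mul_assoc, ← mul_pow]
  norm_num
  unfold hA
  apply Hk_congr
  intro k
  rcases Nat.even_or_odd' (P + k) with ⟨j, h | h⟩
  · rw [E_of (k := j) (Or.inl h), dl_odd (k := j) (by omega), dl_even (k := j) h, add_zero]
  · rw [E_of (k := j) (Or.inr h), dl_even (k := j + 1) (by omega), dl_odd (k := j) h, zero_add]

theorem E_D (P n : ℕ) :
    hD a P n = (-1) ^ n * Hk (fun k => a (P + k + 1) - a (P + k)) n := by
  unfold hD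
  rw [Ex_geom _ _ 1 n rfl (fun i => by ring)]
  congr 1
  apply Hk_congr
  intro k
  rw [one_mul]
  rfl

theorem Ex_neg (f : ℕ → ℤ) (n : ℕ) : Ex f (fun _ => -1) n = - Ex f (fun _ => 1) n := by
  unfold Ex dt
  have h3 : (Matrix.of fun i j : Fin (n + 1) => if (j : ℕ) < n then f (i + j) else (-1 : ℤ)) =
      Matrix.of fun i j : Fin (n + 1) => (if (j : ℕ) < n then 1 else -1) *
        (Matrix.of fun i j : Fin (n + 1) => if (j : ℕ) < n then f (i + j) else (1 : ℤ)) i j := by
    ext i j
    simp only [Matrix.of_apply]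
    split_ifs <;> ring
  rw [h3, Matrix.det_mul_row]
  have h4 : ∏ i : Fin (n + 1), (if (i : ℕ) < n then (1 : ℤ) else -1) = -1 := by
    rw [Fin.prod_univ_castSucc]
    simp
  rw [h4]
  ring

theorem U1 : hA (E a) (2 * s + 1) (2 * m) = hD a s m * hA a (s + 1) m := by
  rw [E_alt, Ex_even_even (f := fun k => dl a (2 * s + 1 + k))
    (f0 := fun k => a (s + k)) _ m (fun k => dl_odd (by ring))
    (fun k => dl_even (k := s + k + 1) (by ring))]
  rw [pow_mul, neg_one_sq, one_pow, one_mul]
  unfold hA hD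
  congr 1
  · exact Ex_congr (fun _ => rfl) (fun k => by rw [pow_mul, neg_one_sq, one_pow])
  · exact Hk_congr (fun k => by congr 1; ring) _

theorem U2 : hA (E a) (2 * s + 1) (2 * m + 1) = hA a s (m + 1) * hD a (s + 1) m := by
  rw [E_alt, Ex_even_odd (f := fun k => dl a (2 * s + 1 + k))
    (f0 := fun k => a (s + k)) _ m (fun k => dl_odd (by ring))
    (fun k => dl_even (k := s + k + 1) (by ring))]
  rw [pow_succ, pow_mul, neg_one_sq, one_pow, one_mul]
  have h : Ex (fun k => a (s + (k + 1))) (fun k => (-1) ^ (2 * k + 1)) m = - hD a (s + 1) m := by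
    unfold hD
    rw [← Ex_neg]
    exact Ex_congr (fun k => by congr 1; ring)
      (fun k => by rw [pow_succ, pow_mul, neg_one_sq, one_pow, one_mul])
  rw [h]
  unfold hA
  ring

theorem U3 : hA (E a) (2 * s) (2 * m) = (-1) ^ m * (hD a s m * hA a s m) := by
  rw [E_alt, Ex_odd_even (f := fun k => dl a (2 * s + k))
    (f0 := fun k => a (s + k)) _ m (fun k => dl_even (k := s + k) (by ring))
    (fun k => dl_odd (by ring))]
  rw [pow_mul, neg_one_sq, one_pow, one_mul]
  unfold hA hD
  congr 2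
  exact Ex_congr (fun _ => rfl) (fun k => by rw [pow_mul, neg_one_sq, one_pow])

theorem U4 : hA (E a) (2 * s) (2 * m + 1) = (-1) ^ m * (hD a s m * hA a s (m + 1)) := by
  rw [E_alt, Ex_odd_odd (f := fun k => dl a (2 * s + k))
    (f0 := fun k => a (s + k)) _ m (fun k => dl_even (k := s + k) (by ring))
    (fun k => dl_odd (by ring))]
  have h : Ex (fun k => a (s + k)) (fun k => (-1) ^ (2 * k)) m = hD a s m :=
    Ex_congr (fun _ => rfl) (fun k => by rw [pow_mul, neg_one_sq, one_pow])
  rw [h, pow_succ, pow_mul, neg_one_sq, one_pow, one_mul]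
  unfold hA
  ring

theorem U5 : hD (E a) (2 * s + 1) (2 * m) = hD a s m * hD a (s + 1) m := by
  rw [E_D, E_D, E_D, Hk_even_even (f0 := fun k => a (s + k + 1) - a (s + k)) m
    (fun k => by rw [E_of (k := s + k + 1) (by omega), E_of (k := s + k) (by omega)])
    (fun k => by rw [E_of (k := s + k + 1) (by omega), E_of (k := s + k + 1) (by omega), sub_self])]
  rw [pow_mul, neg_one_sq, one_pow, one_mul]
  have h : Hk (fun k => a (s + (k + 1) + 1) - a (s + (k + 1))) m =
      Hk (fun k => a (s + 1 + k + 1) - a (s + 1 + k)) m :=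
    Hk_congr (fun k => by congr 2 <;> ring) _
  rw [h]
  have h3 : ((-1 : ℤ) ^ m) * (-1) ^ m = 1 := by
    rw [← mul_pow]; norm_num
  linear_combination (-(Hk (fun k => a (s + k + 1) - a (s + k)) m *
    Hk (fun k => a (s + 1 + k + 1) - a (s + 1 + k)) m)) * h3

theorem U6 : hD (E a) (2 * s + 1) (2 * m + 1) = hD a s (m + 1) * hD a (s + 1) m := by
  rw [E_D, E_D, E_D, Hk_even_odd (f0 := fun k => a (s + k + 1) - a (s + k)) m
    (fun k => by rw [E_of (k := s + k + 1) (by omega), E_of (k := s + k) (by omega)])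
    (fun k => by rw [E_of (k := s + k + 1) (by omega), E_of (k := s + k + 1) (by omega), sub_self])]
  rw [pow_succ, pow_mul, neg_one_sq, one_pow, one_mul]
  have h : Hk (fun k => a (s + (k + 1) + 1) - a (s + (k + 1))) m =
      Hk (fun k => a (s + 1 + k + 1) - a (s + 1 + k)) m :=
    Hk_congr (fun k => by congr 2 <;> ring) _
  rw [h]
  have h3 : ((-1 : ℤ) ^ m) * (-1) ^ m = 1 := by
    rw [← mul_pow]; norm_num
  linear_combination (Hk (fun k => a (s + k + 1) - a (s + k)) (m + 1) *
    Hk (fun k => a (s + 1 + k + 1) - a (s + 1 + k)) m) * h3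

theorem U7 : hD (E a) (2 * s) (2 * m) = (-1) ^ m * (hD a s m * hD a s m) := by
  rw [E_D, E_D, Hk_odd_even (f0 := fun k => a (s + k + 1) - a (s + k)) m
    (fun k => by rw [E_of (k := s + k) (by omega), E_of (k := s + k) (by omega), sub_self])
    (fun k => by rw [E_of (k := s + k + 1) (by omega), E_of (k := s + k) (by omega)])]
  rw [pow_mul, neg_one_sq, one_pow, one_mul]
  have h3 : ((-1 : ℤ) ^ m) * (-1) ^ m = 1 := by
    rw [← mul_pow]; norm_num
  linear_combination (-((-1) ^ m * Hk (fun k => a (s + k + 1) - a (s + k)) m *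
    Hk (fun k => a (s + k + 1) - a (s + k)) m)) * h3

theorem U8 : hD (E a) (2 * s) (2 * m + 1) = 0 := by
  rw [E_D, Hk_odd_odd m
    (fun k => by rw [E_of (k := s + k) (by omega), E_of (k := s + k) (by omega), sub_self]),
    mul_zero]

end

theorem v_EW : v = E (W v) := by
  funext j
  rw [v_rec]
  unfold dd E W
  by_cases h : j % 4 < 2
  · rw [if_pos h, if_pos (by omega)]
    congr 1
    omega
  · rw [if_neg h, if_neg (by omega)]

end Pool.Agent.R153.HK
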