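import Pool.Agent.R153.HK6

set_option autoImplicit false

/-! Exact evaluation of Hankel determinants: the induction. -/

namespace Pool.Agent.R153.HK

open Finset

/-- signed indicator -/
def sg (k : ℕ) : ℤ := (-1) ^ k * v k

structure TV (k : ℕ) : Prop where
  a1 : hA v (2 * k) (2 * k + 1) = sg k
  a2 : hA v (2 * k + 1) (2 * k + 2) = 0
  a3 : hA v (2 * k + 1) (2 * k + 1) = sg k
  a4 : hA v (2 * k) (2 * k) = if k = 0 then 1 else 0
  a4' : hA v (2 * k + 2) (2 * k + 2) = 0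
  a5 : hA v (2 * k + 1) (2 * k) = sg k
  a6 : hA v (2 * k + 2) (2 * k + 1) = 0
  a7 : hA v (2 * k + 2) (2 * k) = sg k
  a8 : hA v (2 * k + 3) (2 * k + 1) = 0
  d1 : hD v (2 * k) (2 * k) = sg k
  d2 : hD v (2 * k + 1) (2 * k + 1) = sg k
  d3 : hD v (2 * k + 1) (2 * k) = sg k
  d4 : hD v (2 * k + 2) (2 * k + 1) = 0
  d5 : hD v (2 * k + 2) (2 * k) = sg k
  d6 : hD v (2 * k + 3) (2 * k + 1) = sg (k + 1)

structure TW (k : ℕ) : Prop where
  a1 : hA (W v) k k = if k = 0 then 1 else 0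
  a2 : hA (W v) k (k + 1) = sg k
  a3 : hA (W v) (k + 1) k = v k
  d1 : hD (W v) k k = sg k
  d2 : hD (W v) k (k + 1) = sg k
  d3 : hD (W v) (k + 1) k = v k
  d4 : hD (W v) (k + 2) k = if k % 4 = 0 then v k else if k % 4 = 3 then v (k + 1) else 0

theorem v_sq (k : ℕ) : v k * v k = v k := by
  rcases v_zero_or_one k with h | h <;> rw [h] <;> rfl

theorem neg_sq' (k : ℕ) : ((-1 : ℤ) ^ k) * (-1) ^ k = 1 := by
  rw [← mul_pow]; norm_num

theorem sg_sg (k : ℕ) : sg k * sg k = v k := by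
  unfold sg
  have := neg_sq' k
  have h2 := v_sq k
  calc (-1) ^ k * v k * ((-1) ^ k * v k) = ((-1) ^ k * (-1) ^ k) * (v k * v k) := by ring
    _ = v k := by rw [this, h2, one_mul]

theorem sg_v (k : ℕ) : sg k * v k = sg k := by
  unfold sg
  rw [mul_assoc, v_sq]

theorem v0 (k : ℕ) : v (4 * k) = v k := by
  rw [v_rec (4 * k)]
  unfold dd
  rw [if_pos (by omega)]
  congr 1
  omega

theorem v1 (k : ℕ) : v (4 * k + 1) = v k := by
  rw [v_rec (4 * k + 1)]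
  unfold dd
  rw [if_pos (by omega)]
  congr 1
  omega

theorem v2 (k : ℕ) : v (4 * k + 2) = 0 := by
  rw [v_rec (4 * k + 2)]
  unfold dd
  rw [if_neg (by omega)]

theorem v3 (k : ℕ) : v (4 * k + 3) = 0 := by
  rw [v_rec (4 * k + 3)]
  unfold dd
  rw [if_neg (by omega)]

theorem p4 (k : ℕ) : ((-1 : ℤ) ^ (4 * k)) = 1 := by
  rw [pow_mul]; norm_num

theorem p2 (k : ℕ) : ((-1 : ℤ) ^ (2 * k)) = 1 := by
  rw [pow_mul]; norm_num

theorem sg0 (k : ℕ) : sg (4 * k) = v k := by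
  unfold sg
  rw [v0, p4, one_mul]

theorem sg1 (k : ℕ) : sg (4 * k + 1) = - v k := by
  unfold sg
  rw [v1, pow_succ, p4]
  ring

theorem sg2 (k : ℕ) : sg (4 * k + 2) = 0 := by
  unfold sg
  rw [v2, mul_zero]

theorem sg3 (k : ℕ) : sg (4 * k + 3) = 0 := by
  unfold sg
  rw [v3, mul_zero]

theorem TV_of_TW (k : ℕ) (h : TW k) (h' : TW (k + 1)) : TV k := by
  have e := v_EW
  have hs := sg_sg k
  have hv := sg_v k
  have hn := neg_sq' k
  have hvv := v_sq k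
  have hz : hA (W v) (k + 1) (k + 1) = 0 := by rw [h'.a1, if_neg (Nat.succ_ne_zero k)]
  refine ⟨?_, ?_, ?_, ?_, ?_, ?_, ?_, ?_, ?_, ?_, ?_, ?_, ?_, ?_, ?_⟩
  · rw [e, U4, h.d1, h.a2, hs]
    rfl
  · have e2 : 2 * k + 2 = 2 * (k + 1) := by ring
    rw [e, e2, U1, hz, mul_zero]
  · rw [e, U2, h.a2, h.d3, hv]
  · rw [e, U3, h.d1, h.a1]
    split_ifs with h0
    · subst h0
      unfold sg v
      simp
    · rw [mul_zero, mul_zero]
  · have e2 : 2 * k + 2 = 2 * (k + 1) := by ring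
    rw [e, e2, U3, hz, mul_zero, mul_zero]
  · rw [e, U1, h.d1, h.a3, hv]
  · have e2 : 2 * k + 2 = 2 * (k + 1) := by ring
    rw [e, e2, U4, hz, mul_zero, mul_zero]
  · have e2 : 2 * k + 2 = 2 * (k + 1) := by ring
    rw [e, e2, U3, h.d3, h.a3, hvv]
    rfl
  · have e2 : 2 * k + 3 = 2 * (k + 1) + 1 := by ring
    rw [e, e2, U2, hz, zero_mul]
  · rw [e, U7, h.d1, hs]
    rfl
  · rw [e, U6, h.d2, h.d3, hv]
  · rw [e, U5, h.d1, h.d3, hv]
  · have e2 : 2 * k + 2 = 2 * (k + 1) := by ring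
    rw [e, e2, U8]
  · have e2 : 2 * k + 2 = 2 * (k + 1) := by ring
    rw [e, e2, U7, h.d3, hvv]
    rfl
  · have e2 : 2 * k + 3 = 2 * (k + 1) + 1 := by ring
    rw [e, e2, U6, h'.d1, h.d4]
    obtain ⟨j, hj⟩ : ∃ j, k = 4 * j ∨ k = 4 * j + 1 ∨ k = 4 * j + 2 ∨ k = 4 * j + 3 :=
      ⟨k / 4, by omega⟩
    rcases hj with rfl | rfl | rfl | rfl
    · rw [if_pos (by omega), v0, sg1, neg_mul, v_sq]
    · rw [sg2, zero_mul]
    · rw [sg3, zero_mul]
    · rw [if_neg (by omega), if_pos (by omega), sg_v]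

theorem TW_of_TV (k : ℕ) (h : TV (k / 4)) (h' : TV ((k + 1) / 4)) : TW k := by
  obtain ⟨j, hj⟩ : ∃ j, k = 4 * j ∨ k = 4 * j + 1 ∨ k = 4 * j + 2 ∨ k = 4 * j + 3 :=
    ⟨k / 4, by omega⟩
  have hs := sg_sg j
  have hv := sg_v j
  have hn := neg_sq' j
  have hvv := v_sq j
  have q2 := p2 j
  rcases hj with rfl | rfl | rfl | rfl
  · have e1 : 4 * j / 4 = j := by omega
    rw [e1] at h
    refine ⟨?_, ?_, ?_, ?_, ?_, ?_, ?_⟩
    · have e2 : 4 * j = 2 * (2 * j) := by ring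
      rw [e2, W1, h.a4, h.a5]
      by_cases h0 : j = 0
      · subst h0
        unfold sg v
        simp
      · rw [if_neg h0, if_neg (by omega), zero_mul]
    · rw [sg0]
      have e2 : 4 * j = 2 * (2 * j) := by ring
      rw [e2, W2, h.a1, h.a5, hs]
    · rw [v0]
      have e2 : 4 * j = 2 * (2 * j) := by ring
      rw [e2, W3, h.a5, hs, q2, one_mul]
    · rw [sg0]
      have e2 : 4 * j = 2 * (2 * j) := by ring
      rw [e2, W5, h.d1, h.a5, hs]
    · rw [sg0]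
      have e2 : 4 * j = 2 * (2 * j) := by ring
      rw [e2, W6, h.a1, h.d3, hs]
    · rw [v0]
      have e2 : 4 * j = 2 * (2 * j) := by ring
      rw [e2, W7, h.d3, h.a5, hs, q2, one_mul]
    · rw [if_pos (by omega), v0]
      have e2 : 4 * j = 2 * (2 * j) := by ring
      have e3 : 4 * j + 2 = 2 * (2 * j + 1) := by ring
      rw [e3, e2, W5, h.d3, h.a7, hs]
  · have e1 : (4 * j + 1) / 4 = j := by omega
    rw [e1] at h
    have q3 : (-1 : ℤ) ^ (2 * j + 1) = -1 := by rw [pow_succ, q2]; ring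
    refine ⟨?_, ?_, ?_, ?_, ?_, ?_, ?_⟩
    · have e2 : 4 * j + 1 = 2 * (2 * j) + 1 := by ring
      rw [e2, W4, if_neg (by omega)]
    · rw [sg1]
      have e2 : 4 * j + 1 = 2 * (2 * j) + 1 := by ring
      have e3 : 4 * j + 1 + 1 = 2 * (2 * j + 1) := by ring
      rw [e3, e2, W3, h.a3, hs, q3]
      ring
    · rw [v1]
      have e2 : 4 * j + 1 = 2 * (2 * j) + 1 := by ring
      have e3 : 4 * j + 1 + 1 = 2 * (2 * j + 1) := by ring
      rw [e3, e2, W2, h.a3, h.a7, hs]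
    · rw [sg1]
      have e2 : 4 * j + 1 = 2 * (2 * j) + 1 := by ring
      rw [e2, W8, h.d3, h.a3, hs, q3]
      ring
    · rw [sg1]
      have e2 : 4 * j + 1 = 2 * (2 * j) + 1 := by ring
      have e3 : 4 * j + 1 + 1 = 2 * (2 * j + 1) := by ring
      rw [e3, e2, W7, h.d2, h.a3, hs, q3]
      ring
    · rw [v1]
      have e2 : 4 * j + 1 = 2 * (2 * j) + 1 := by ring
      have e3 : 4 * j + 1 + 1 = 2 * (2 * j + 1) := by ring
      rw [e3, e2, W6, h.a3, h.d5, hs]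
    · rw [if_neg (by omega), if_neg (by omega)]
      have e2 : 4 * j + 1 = 2 * (2 * j) + 1 := by ring
      have e3 : 4 * j + 1 + 2 = 2 * (2 * j + 1) + 1 := by ring
      rw [e3, e2, W8, h.a6, mul_zero, mul_zero]
  · have e1 : (4 * j + 2) / 4 = j := by omega
    rw [e1] at h
    have e2 : 4 * j + 2 = 2 * (2 * j + 1) := by ring
    refine ⟨?_, ?_, ?_, ?_, ?_, ?_, ?_⟩
    · rw [e2, W1, h.a6, mul_zero, if_neg (by omega)]
    · rw [sg2, e2, W2, h.a6, mul_zero]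
    · rw [v2, e2, W3, h.a6, mul_zero, mul_zero]
    · rw [sg2, e2, W5, h.a6, mul_zero]
    · rw [sg2, e2, W6, h.a2, zero_mul]
    · rw [v2, e2, W7, h.a6, mul_zero, mul_zero]
    · have e3 : 4 * j + 2 + 2 = 2 * (2 * j + 2) := by ring
      rw [if_neg (by omega), if_neg (by omega), e3, e2, W5, h.d4, zero_mul]
  · have e1 : (4 * j + 3) / 4 = j := by omega
    have e4 : (4 * j + 3 + 1) / 4 = j + 1 := by omega
    rw [e1] at h
    rw [e4] at h'
    have e2 : 4 * j + 3 = 2 * (2 * j + 1) + 1 := by ring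
    have e3 : 4 * j + 3 + 1 = 2 * (2 * j + 2) := by ring
    refine ⟨?_, ?_, ?_, ?_, ?_, ?_, ?_⟩
    · rw [e2, W4, if_neg (by omega)]
    · rw [sg3, e3, e2, W3, h.a4', mul_zero, mul_zero]
    · rw [v3, e3, e2, W2, h.a4', zero_mul]
    · rw [sg3, e2, W8, h.a4', mul_zero, mul_zero]
    · rw [sg3, e3, e2, W7, h.a4', mul_zero, mul_zero]
    · rw [v3, e3, e2, W6, h.a4', zero_mul]
    · have e5 : 4 * j + 3 + 1 = 4 * (j + 1) := by ring
      rw [if_neg (by omega), if_pos (by omega), e5, v0]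
      have e6 : 4 * j + 3 + 2 = 2 * (2 * j + 2) + 1 := by ring
      have e7 : hA v (2 * j + 2 + 1) (2 * j + 1 + 1) = sg (j + 1) := h'.a5
      rw [e6, e2, W8, h.d6, e7, sg_sg]
      have e8 : (-1 : ℤ) ^ (2 * j + 1 + 1) = 1 := p2 (j + 1)
      rw [e8, one_mul]

theorem TV_zero : TV 0 := by
  have w0 : v 0 = 1 := by unfold v; simp
  have w1 : v 1 = 1 := (v1 0).trans w0
  have w2 : v 2 = 0 := v2 0
  have w3 : v 3 = 0 := v3 0
  have w4 : v 4 = 1 := (v0 1).trans w1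
  have s0 : sg 0 = 1 := by unfold sg; rw [w0]; norm_num
  have s1 : sg (0 + 1) = -1 := by unfold sg; rw [w1]; norm_num
  refine ⟨?_, ?_, ?_, ?_, ?_, ?_, ?_, ?_, ?_, ?_, ?_, ?_, ?_, ?_, ?_⟩ <;>
    simp [hA, hD, Hk, Ex, dt, Matrix.det_fin_two, w0, w1, w2, w3, w4, s0, s1]

theorem TV_all (k : ℕ) : TV k := by
  induction k using Nat.strong_induction_on with
  | _ k ih =>
    rcases Nat.eq_zero_or_pos k with h | h
    · subst h
      exact TV_zero
    · exact TV_of_TW k (TW_of_TV k (ih _ (by omega)) (ih _ (by omega)))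
        (TW_of_TV (k + 1) (ih _ (by omega)) (ih _ (by omega)))

/-- the diagonal Hankel determinants -/
theorem diag (n : ℕ) : hA (E v) (n + 2) n = v n := by
  obtain ⟨j, hj⟩ : ∃ j, n = 4 * j ∨ n = 4 * j + 1 ∨ n = 4 * j + 2 ∨ n = 4 * j + 3 :=
    ⟨n / 4, by omega⟩
  have h := TV_all j
  rcases hj with rfl | rfl | rfl | rfl
  · rw [v0]
    have e3 : 4 * j + 2 = 2 * (2 * j + 1) := by ring
    have e2 : 4 * j = 2 * (2 * j) := by ring
    rw [e3, e2, U3, h.d3, h.a5, sg_sg, p2, one_mul]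
  · rw [v1]
    have e3 : 4 * j + 1 + 2 = 2 * (2 * j + 1) + 1 := by ring
    have e2 : 4 * j + 1 = 2 * (2 * j) + 1 := by ring
    rw [e3, e2, U2, h.a3, h.d5, sg_sg]
  · rw [v2]
    have e3 : 4 * j + 2 + 2 = 2 * (2 * j + 2) := by ring
    have e2 : 4 * j + 2 = 2 * (2 * j + 1) := by ring
    rw [e3, e2, U3, h.a6, mul_zero, mul_zero]
  · rw [v3]
    have e3 : 4 * j + 3 + 2 = 2 * (2 * j + 2) + 1 := by ring
    have e2 : 4 * j + 3 = 2 * (2 * j + 1) + 1 := by ring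
    rw [e3, e2, U2, h.a4', zero_mul]

end Pool.Agent.R153.HK
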