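import Mathlib

set_option autoImplicit false

/-! Partitions, their Young diagrams and the cells of hook length two. -/

namespace Pool.Agent.R153.Hook2

/-- The Young diagram of a partition of `n`: its row lengths are the parts, in decreasing order. -/
noncomputable def young {n : ℕ} (p : n.Partition) : YoungDiagram :=
  YoungDiagram.ofRowLens (p.parts.sort (· ≥ ·))
    ((Multiset.pairwise_sort p.parts (· ≥ ·)).sortedGE)

/-- The hook length of a cell `c` of a diagram `μ`. Cells are counted from `0`, so that `c` is the
cell in row `c.1 + 1` and column `c.2 + 1`. -/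
def hookLength (μ : YoungDiagram) (c : ℕ × ℕ) : ℤ :=
  (μ.rowLen c.1 : ℤ) + μ.colLen c.2 - (c.1 + 1) - (c.2 + 1) + 1

/-- The number of cells of hook length `2` in the diagram of `p`. -/
noncomputable def hooks2 {n : ℕ} (p : n.Partition) : ℕ :=
  ((young p).cells.filter (fun c => hookLength (young p) c = 2)).card

end Pool.Agent.R153.Hook2
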