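import Mathlib

set_option autoImplicit false

/-! Power series over the rationals with nonnegative coefficients, and the inequality
`O (S + X^3 H) ≥ X G D`. -/

namespace Pool.Agent.R153.QS

open PowerSeries Finset

/-- all coefficients nonnegative -/
def NN (f : PowerSeries ℚ) : Prop := ∀ n, 0 ≤ PowerSeries.coeff n f

theorem NN.add {f g : PowerSeries ℚ} (hf : NN f) (hg : NN g) : NN (f + g) := by
  intro n
  rw [map_add]
  exact add_nonneg (hf n) (hg n)

theorem NN.mul {f g : PowerSeries ℚ} (hf : NN f) (hg : NN g) : NN (f * g) := by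
  intro n
  rw [PowerSeries.coeff_mul]
  exact Finset.sum_nonneg (fun p _ => mul_nonneg (hf _) (hg _))

theorem NN.X_pow (k : ℕ) : NN (X ^ k) := by
  intro n
  rw [PowerSeries.coeff_X_pow]
  split_ifs <;> norm_num

theorem NN.zero : NN 0 := by
  intro n
  rw [map_zero]

theorem NN.one : NN 1 := by
  have := NN.X_pow 0
  rwa [pow_zero] at this

theorem NN.sum {ι : Type} {s : Finset ι} {f : ι → PowerSeries ℚ} (h : ∀ i ∈ s, NN (f i)) :
    NN (∑ i ∈ s, f i) := by
  intro n
  rw [map_sum]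
  exact Finset.sum_nonneg (fun i hi => h i hi n)

theorem NN.prod {ι : Type} {s : Finset ι} {f : ι → PowerSeries ℚ} (h : ∀ i ∈ s, NN (f i)) :
    NN (∏ i ∈ s, f i) := by
  classical
  induction s using Finset.induction_on with
  | empty => rw [Finset.prod_empty]; exact NN.one
  | insert a s ha ih =>
    rw [Finset.prod_insert ha]
    exact (h a (Finset.mem_insert_self a s)).mul
      (ih (fun i hi => h i (Finset.mem_insert_of_mem hi)))

/-- the geometric series -/
noncomputable def geo (k : ℕ) : PowerSeries ℚ := PowerSeries.mk fun n => if k ∣ n then 1 else 0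

theorem geo_mul {k : ℕ} (hk : 0 < k) : geo k * (1 - X ^ k) = 1 := by
  ext n
  rw [mul_sub, mul_one, map_sub, PowerSeries.coeff_mul_X_pow', PowerSeries.coeff_one]
  unfold geo
  simp only [PowerSeries.coeff_mk]
  rcases Nat.lt_or_ge n k with h | h
  · rw [if_neg (by omega : ¬ k ≤ n), sub_zero]
    by_cases h0 : n = 0
    · rw [if_pos h0, if_pos (h0 ▸ dvd_zero k)]
    · rw [if_neg h0, if_neg]
      intro hd
      exact absurd (Nat.le_of_dvd (by omega) hd) (by omega)
  · have hd : (k ∣ n - k ↔ k ∣ n) := by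
      constructor
      · intro hd
        have := Dvd.dvd.add hd (dvd_refl k)
        rwa [Nat.sub_add_cancel h] at this
      · intro hd
        exact Nat.dvd_sub hd (dvd_refl k)
    rw [if_pos h, if_neg (by omega : ¬ n = 0)]
    simp only [hd, sub_self]

theorem geo_nn (k : ℕ) : NN (geo k) := by
  intro n
  unfold geo
  rw [PowerSeries.coeff_mk]
  split_ifs <;> norm_num

theorem cc_one_sub {k : ℕ} (hk : 0 < k) : PowerSeries.constantCoeff (1 - X ^ k : PowerSeries ℚ) ≠ 0 := by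
  rw [map_sub, map_one, map_pow, PowerSeries.constantCoeff_X, zero_pow hk.ne', sub_zero]
  exact one_ne_zero

theorem inv_one_sub {k : ℕ} (hk : 0 < k) : (1 - X ^ k : PowerSeries ℚ)⁻¹ = geo k := by
  rw [eq_comm, PowerSeries.eq_inv_iff_mul_eq_one (cc_one_sub hk)]
  exact geo_mul hk

/-- `f ≤ g` coefficientwise -/
theorem nn_sub_iff {f g : PowerSeries ℚ} :
    NN (g - f) ↔ ∀ n, PowerSeries.coeff n f ≤ PowerSeries.coeff n g := by
  unfold NN
  simp only [map_sub, sub_nonneg]

/-- `(-q; q)_m` -/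
noncomputable def dq (m : ℕ) : PowerSeries ℚ := ∏ k ∈ range m, (1 + X ^ (k + 1))

theorem dq_nn (m : ℕ) : NN (dq m) := NN.prod (fun _ _ => NN.one.add (NN.X_pow _))

/-- `1 / (q; q^2)_L` -/
noncomputable def odd (L : ℕ) : PowerSeries ℚ := ∏ k ∈ range L, geo (2 * k + 1)

theorem odd_nn (L : ℕ) : NN (odd L) := NN.prod (fun _ _ => geo_nn _)

/-- `1 / (q^{L+1}; q)_L` -/
noncomputable def tail (L : ℕ) : PowerSeries ℚ := ∏ k ∈ range L, geo (L + 1 + k)

theorem tail_nn (L : ℕ) : NN (tail L) := NN.prod (fun _ _ => geo_nn _)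

theorem ne_zero_one_sub {k : ℕ} (hk : 0 < k) : (1 - X ^ k : PowerSeries ℚ) ≠ 0 := by
  intro h
  have := cc_one_sub hk
  rw [h] at this
  simp at this

theorem tail_succ (L : ℕ) : tail (L + 1) = tail L * (1 - X ^ (L + 1)) *
    geo (2 * L + 1) * geo (2 * L + 2) := by
  have h1 : tail (L + 1) * geo (L + 1) = tail L * geo (2 * L + 1) * geo (2 * L + 2) := by
    unfold tail
    have e1 : (∏ k ∈ range (L + 1), geo (L + 1 + 1 + k)) * geo (L + 1) =
        ∏ k ∈ range (L + 2), geo (L + 1 + k) := by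
      rw [Finset.prod_range_succ' (fun k => geo (L + 1 + k)) (L + 1)]
      congr 1
      apply Finset.prod_congr rfl
      intro k _
      congr 1
      omega
    rw [e1, Finset.prod_range_succ, Finset.prod_range_succ]
    have e2 : L + 1 + L = 2 * L + 1 := by omega
    have e3 : L + 1 + (L + 1) = 2 * L + 2 := by omega
    rw [e2, e3]
  have h2 := geo_mul (Nat.succ_pos L)
  calc tail (L + 1) = tail (L + 1) * (geo (L + 1) * (1 - X ^ (L + 1))) := by rw [h2, mul_one]
    _ = (tail (L + 1) * geo (L + 1)) * (1 - X ^ (L + 1)) := by ring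
    _ = _ := by rw [h1]; ring

/-- `1/(q;q^2)_L = (-q;q)_L / (q^{L+1};q)_L` -/
theorem odd_eq (L : ℕ) : odd L = dq L * tail L := by
  induction L with
  | zero => simp [odd, dq, tail]
  | succ L ih =>
    have e1 : odd (L + 1) = odd L * geo (2 * L + 1) := by
      unfold odd; rw [Finset.prod_range_succ]
    have e2 : dq (L + 1) = dq L * (1 + X ^ (L + 1)) := by
      unfold dq; rw [Finset.prod_range_succ]
    rw [e1, e2, ih, tail_succ]
    have h3 : (1 - X ^ (L + 1)) * (1 + X ^ (L + 1)) * geo (2 * L + 2) = (1 : PowerSeries ℚ) := by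
      have h4 := geo_mul (show 0 < 2 * L + 2 by omega)
      have e : (X : PowerSeries ℚ) ^ (2 * L + 2) = X ^ (L + 1) * X ^ (L + 1) := by
        rw [← pow_add]; congr 1; omega
      rw [e] at h4
      calc (1 - X ^ (L + 1)) * (1 + X ^ (L + 1)) * geo (2 * L + 2)
          = geo (2 * L + 2) * (1 - X ^ (L + 1) * X ^ (L + 1)) := by ring
        _ = 1 := h4
    calc dq L * tail L * geo (2 * L + 1) =
        dq L * tail L * geo (2 * L + 1) *
          ((1 - X ^ (L + 1)) * (1 + X ^ (L + 1)) * geo (2 * L + 2)) := by rw [h3, mul_one]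
      _ = _ := by ring

theorem nn_sub_one_geo {k : ℕ} (_hk : 0 < k) : NN (geo k - 1) := by
  intro n
  rw [map_sub, PowerSeries.coeff_one]
  unfold geo
  rw [PowerSeries.coeff_mk]
  split_ifs with h1 h2 h2
  · norm_num
  · norm_num
  · subst h2; exact absurd (dvd_zero k) h1
  · norm_num

/-- if `f ≥ 1` and `g ≥ 1` then `f g ≥ 1` -/
theorem nn_mul_sub_one {f g : PowerSeries ℚ} (hf : NN (f - 1)) (hg : NN (g - 1)) :
    NN (f * g - 1) := by
  have e : f * g - 1 = (f - 1) * (g - 1) + (f - 1) + (g - 1) := by ring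
  rw [e]
  exact ((hf.mul hg).add hf).add hg

theorem nn_prod_sub_one {ι : Type} {s : Finset ι} {f : ι → PowerSeries ℚ}
    (h : ∀ i ∈ s, NN (f i - 1)) : NN (∏ i ∈ s, f i - 1) := by
  classical
  induction s using Finset.induction_on with
  | empty => rw [Finset.prod_empty, sub_self]; exact NN.zero
  | insert a s ha ih =>
    rw [Finset.prod_insert ha]
    exact nn_mul_sub_one (h a (Finset.mem_insert_self a s))
      (ih (fun i hi => h i (Finset.mem_insert_of_mem hi)))

/-- `(-q;q)_m ≤ 1/(q;q^2)_L` for `m ≤ L` -/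
theorem dq_le_odd {m L : ℕ} (h : m ≤ L) : NN (odd L - dq m) := by
  obtain ⟨d, rfl⟩ := Nat.exists_eq_add_of_le h
  have e1 : dq (m + d) = dq m * ∏ k ∈ range d, (1 + X ^ (m + k + 1)) := by
    unfold dq; rw [Finset.prod_range_add]
  rw [odd_eq, e1]
  have h1 : NN ((∏ k ∈ range d, (1 + (X : PowerSeries ℚ) ^ (m + k + 1))) * tail (m + d) - 1) := by
    apply nn_mul_sub_one
    · apply nn_prod_sub_one
      intro i _
      have e : (1 + (X : PowerSeries ℚ) ^ (m + i + 1)) - 1 = X ^ (m + i + 1) := by ring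
      rw [e]
      exact NN.X_pow _
    · apply nn_prod_sub_one
      intro i _
      exact nn_sub_one_geo (by omega)
  have e2 : dq m * (∏ k ∈ range d, (1 + (X : PowerSeries ℚ) ^ (m + k + 1))) * tail (m + d) -
      dq m = dq m * ((∏ k ∈ range d, (1 + (X : PowerSeries ℚ) ^ (m + k + 1))) *
        tail (m + d) - 1) := by ring
  rw [e2]
  exact (dq_nn m).mul h1

/-- the Gaussian binomial `[m + 1, 2]` in the variable `q^2` -/
noncomputable def H (m : ℕ) : PowerSeries ℚ :=
  ∑ i ∈ range m, ∑ j ∈ Finset.Ico i m, X ^ (2 * (i + j))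

theorem H_nn (m : ℕ) : NN (H m) := NN.sum (fun _ _ => NN.sum (fun _ _ => NN.X_pow _))

theorem telescope (a d m i : ℕ) (h : i ≤ m) :
    (∑ j ∈ Finset.Ico i m, (X : PowerSeries ℚ) ^ (a + d * j)) * (1 - X ^ d) =
      X ^ (a + d * i) - X ^ (a + d * m) := by
  induction m, h using Nat.le_induction with
  | base => simp
  | succ m hm ih =>
    rw [Finset.sum_Ico_succ_top hm, add_mul, ih]
    have e : (X : PowerSeries ℚ) ^ (a + d * (m + 1)) = X ^ (a + d * m) * X ^ d := by
      rw [← pow_add]; congr 1; ring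
    rw [e]
    ring

/-- `(1 - q^2) H` -/
theorem H_mul (m : ℕ) : H m * (1 - X ^ 2) =
    ∑ i ∈ range m, ((X : PowerSeries ℚ) ^ (4 * i) - X ^ (2 * m + 2 * i)) := by
  unfold H
  rw [Finset.sum_mul]
  apply Finset.sum_congr rfl
  intro i hi
  rw [Finset.mem_range] at hi
  have h := telescope (2 * i) 2 m i hi.le
  have e1 : (∑ j ∈ Finset.Ico i m, (X : PowerSeries ℚ) ^ (2 * (i + j))) =
      ∑ j ∈ Finset.Ico i m, (X : PowerSeries ℚ) ^ (2 * i + 2 * j) := by
    apply Finset.sum_congr rfl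
    intro j _
    congr 1
    ring
  rw [e1, h]
  congr 2
  · ring
  · ring

theorem H_mul' (m : ℕ) : H m * ((1 - X ^ 2) * (1 - X ^ 4)) =
    (1 - X ^ (2 * m)) * (1 - X ^ (2 * m + 2)) := by
  rw [← mul_assoc, H_mul, Finset.sum_sub_distrib, sub_mul]
  have h1 := telescope 0 4 m 0 (Nat.zero_le m)
  have h2 := telescope (2 * m) 2 m 0 (Nat.zero_le m)
  rw [← Finset.range_eq_Ico] at h1 h2
  have e1 : (∑ i ∈ range m, (X : PowerSeries ℚ) ^ (4 * i)) =
      ∑ i ∈ range m, (X : PowerSeries ℚ) ^ (0 + 4 * i) := by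
    apply Finset.sum_congr rfl
    intro j _
    congr 1
    ring
  have e2 : (1 - (X : PowerSeries ℚ) ^ 4) = (1 - X ^ 2) * (1 + X ^ 2) := by ring
  have e3 : (∑ i ∈ range m, (X : PowerSeries ℚ) ^ (2 * m + 2 * i)) * (1 - X ^ 4) =
      (X ^ (2 * m + 2 * 0) - X ^ (2 * m + 2 * m)) * (1 + X ^ 2) := by
    rw [e2, ← mul_assoc, h2]
  rw [e1, h1, e3]
  ring

/-- `[L - 1]` in `q^2`, with `m = L - 3` -/
noncomputable def S (m : ℕ) : PowerSeries ℚ := ∑ i ∈ range (m + 2), X ^ (2 * i)

theorem S_mul (m : ℕ) : S m * (1 - X ^ 2) = 1 - X ^ (2 * m + 4) := by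
  have h1 := telescope 0 2 (m + 2) 0 (Nat.zero_le _)
  rw [← Finset.range_eq_Ico] at h1
  unfold S
  have e1 : (∑ i ∈ range (m + 2), (X : PowerSeries ℚ) ^ (2 * i)) =
      ∑ i ∈ range (m + 2), (X : PowerSeries ℚ) ^ (0 + 2 * i) := by
    apply Finset.sum_congr rfl
    intro j _
    congr 1
    ring
  rw [e1, h1]
  ring

theorem nn_sub_of_subset {A B : Finset ℕ} (h : A ⊆ B) :
    NN (∑ e ∈ B, (X : PowerSeries ℚ) ^ e - ∑ e ∈ A, X ^ e) := by
  rw [← Finset.sum_sdiff h, add_sub_cancel_right]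
  exact NN.sum (fun _ _ => NN.X_pow _)

/-- the key decomposition: `S - X (1 - X^2) H = (1 - X) T + R` with `T, R` nonnegative -/
theorem key (m : ℕ) : ∃ T R : PowerSeries ℚ, NN T ∧ NN R ∧
    S m - X * (H m * (1 - X ^ 2)) = (1 - X) * T + R := by
  obtain ⟨c, hc⟩ : ∃ c, c = (m + 1) / 2 := ⟨_, rfl⟩
  refine ⟨∑ i ∈ range c, X ^ (4 * i),
    (∑ i ∈ range (m + 2), X ^ (2 * i) - ∑ i ∈ range c, X ^ (4 * i)) +
    (∑ i ∈ range m, X ^ (2 * m + 2 * i + 1) - ∑ i ∈ Finset.Ico c m, X ^ (4 * i + 1)), ?_, ?_, ?_⟩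
  · exact NN.sum (fun _ _ => NN.X_pow _)
  · apply NN.add
    · have h1 : (∑ i ∈ range (m + 2), (X : PowerSeries ℚ) ^ (2 * i)) =
          ∑ e ∈ (range (m + 2)).image (fun i => 2 * i), X ^ e := by
        rw [Finset.sum_image (fun a _ b _ hab => by omega)]
      have h2 : (∑ i ∈ range c, (X : PowerSeries ℚ) ^ (4 * i)) =
          ∑ e ∈ (range c).image (fun i => 4 * i), X ^ e := by
        rw [Finset.sum_image (fun a _ b _ hab => by omega)]
      rw [h1, h2]
      apply nn_sub_of_subset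
      intro e he
      rw [Finset.mem_image] at he ⊢
      obtain ⟨i, hi, rfl⟩ := he
      rw [Finset.mem_range] at hi
      exact ⟨2 * i, by rw [Finset.mem_range]; omega, by ring⟩
    · have h1 : (∑ i ∈ range m, (X : PowerSeries ℚ) ^ (2 * m + 2 * i + 1)) =
          ∑ e ∈ (range m).image (fun i => 2 * m + 2 * i + 1), X ^ e := by
        rw [Finset.sum_image (fun a _ b _ hab => by omega)]
      have h2 : (∑ i ∈ Finset.Ico c m, (X : PowerSeries ℚ) ^ (4 * i + 1)) =
          ∑ e ∈ (Finset.Ico c m).image (fun i => 4 * i + 1), X ^ e := by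
        rw [Finset.sum_image (fun a _ b _ hab => by omega)]
      rw [h1, h2]
      apply nn_sub_of_subset
      intro e he
      rw [Finset.mem_image] at he ⊢
      obtain ⟨i, hi, rfl⟩ := he
      rw [Finset.mem_Ico] at hi
      exact ⟨2 * i - m, by rw [Finset.mem_range]; omega, by omega⟩
  · rw [H_mul]
    have hcm : c ≤ m := by omega
    have h3 : (∑ i ∈ range m, (X : PowerSeries ℚ) ^ (4 * i)) =
        ∑ i ∈ range c, X ^ (4 * i) + ∑ i ∈ Finset.Ico c m, X ^ (4 * i) := by
      simp only [Finset.range_eq_Ico]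
      exact (Finset.sum_Ico_consecutive _ (Nat.zero_le c) hcm).symm
    have h4 : (∑ i ∈ range m, (X : PowerSeries ℚ) ^ (2 * m + 2 * i + 1)) =
        X * ∑ i ∈ range m, X ^ (2 * m + 2 * i) := by
      rw [Finset.mul_sum]
      apply Finset.sum_congr rfl
      intro i _
      rw [pow_succ]; ring
    have h5 : (∑ i ∈ Finset.Ico c m, (X : PowerSeries ℚ) ^ (4 * i + 1)) =
        X * ∑ i ∈ Finset.Ico c m, X ^ (4 * i) := by
      rw [Finset.mul_sum]
      apply Finset.sum_congr rfl
      intro i _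
      rw [pow_succ]; ring
    rw [Finset.sum_sub_distrib, h3, h4, h5]
    unfold S
    ring

/-- the main inequality, `m = L - 3` -/
theorem main (m L : ℕ) (hL : L = m + 3) :
    NN (odd L * (S m + X ^ 3 * H m) - X * H m * dq (m - 1)) := by
  obtain ⟨T, R, hT, hR, hkey⟩ := key m
  have hodd : ∃ O', NN O' ∧ odd L * (1 - X) = O' := by
    refine ⟨∏ k ∈ range (L - 1), geo (2 * (k + 1) + 1), NN.prod (fun _ _ => geo_nn _), ?_⟩
    unfold odd
    obtain ⟨l, rfl⟩ : ∃ l, L = l + 1 := ⟨L - 1, by omega⟩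
    rw [Finset.prod_range_succ', mul_assoc]
    have := geo_mul (show 0 < 2 * 0 + 1 by norm_num)
    rw [pow_one] at this
    rw [this, mul_one, Nat.add_sub_cancel]
  obtain ⟨O', hO', hO'2⟩ := hodd
  have e : odd L * (S m + X ^ 3 * H m) - X * H m * dq (m - 1) =
      X * H m * (odd L - dq (m - 1)) + (O' * T + odd L * R) := by
    rw [← hO'2]
    have : odd L * (1 - X) * T + odd L * R = odd L * ((1 - X) * T + R) := by ring
    rw [this, ← hkey]
    ring
  rw [e]
  have hX : NN (X : PowerSeries ℚ) := by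
    have := NN.X_pow 1
    rwa [pow_one] at this
  exact ((hX.mul (H_nn m)).mul (dq_le_odd (by omega))).add ((hO'.mul hT).add ((odd_nn L).mul hR))

end Pool.Agent.R153.QS
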