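import Pool.Agent.R153.Hook2
import Pool.Agent.R153.QSeries

set_option autoImplicit false

/-! Generating function for distinct partitions. -/

namespace Pool.Agent.R153.Hook2

open Finset PowerSeries Pool.Agent.R153.QS

/-- number of gaps -/
def gap (T : Finset ℕ) : ℕ := (T.filter (fun x => 2 ≤ x ∧ x - 1 ∉ T)).card

theorem gap_insert {l : ℕ} {T : Finset ℕ} (hT : T ⊆ Finset.Icc 1 (l + 1)) :
    gap (insert (l + 2) T) = gap T + if l + 1 ∈ T then 0 else 1 := by
  have hnot : l + 2 ∉ T := fun h => by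
    have := hT h
    rw [Finset.mem_Icc] at this
    omega
  unfold gap
  have h1 : (insert (l + 2) T).filter (fun x => 2 ≤ x ∧ x - 1 ∉ insert (l + 2) T) =
      T.filter (fun x => 2 ≤ x ∧ x - 1 ∉ T) ∪ (if l + 1 ∈ T then ∅ else {l + 2}) := by
    ext x
    rw [Finset.mem_filter, Finset.mem_union, Finset.mem_filter, Finset.mem_insert]
    constructor
    · rintro ⟨rfl | hx, h2, h3⟩
      · right
        have : l + 1 ∉ T := by
          intro h
          apply h3
          rw [Finset.mem_insert]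
          right
          simpa using h
        rw [if_neg this]
        exact Finset.mem_singleton_self _
      · left
        refine ⟨hx, h2, fun h => h3 (Finset.mem_insert_of_mem h)⟩
    · rintro (⟨hx, h2, h3⟩ | hx)
      · refine ⟨Or.inr hx, h2, ?_⟩
        rw [Finset.mem_insert]
        rintro (h | h)
        · have := hT hx
          rw [Finset.mem_Icc] at this
          omega
        · exact h3 h
      · split_ifs at hx with h
        · simp at hx
        · rw [Finset.mem_singleton] at hx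
          subst hx
          refine ⟨Or.inl rfl, by omega, ?_⟩
          rw [Finset.mem_insert]
          rintro (h' | h')
          · omega
          · exact h (by simpa using h')
  rw [h1, Finset.card_union_of_disjoint]
  · split_ifs <;> simp
  · rw [Finset.disjoint_left]
    intro x hx hx'
    rw [Finset.mem_filter] at hx
    split_ifs at hx'
    · simp at hx'
    · rw [Finset.mem_singleton] at hx'
      exact hnot (hx' ▸ hx.1)

/-- the weighted generating function over the subsets of `[1, L]` -/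
noncomputable def W (k L : ℕ) : PowerSeries ℚ :=
  ∑ T ∈ (Finset.Icc 1 L).powerset, (((gap T).choose k : ℕ) : PowerSeries ℚ) * X ^ (∑ x ∈ T, x)

theorem Icc_succ (L : ℕ) : Finset.Icc 1 (L + 1) = insert (L + 1) (Finset.Icc 1 L) := by
  ext x
  rw [Finset.mem_insert, Finset.mem_Icc, Finset.mem_Icc]
  omega

theorem notMem_Icc (L : ℕ) : L + 1 ∉ Finset.Icc 1 L := by
  rw [Finset.mem_Icc]; omega

theorem W_zero (L : ℕ) : W 0 L = dq L := by
  induction L with
  | zero => simp [W, dq]
  | succ L ih =>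
    have e : dq (L + 1) = dq L * (1 + X ^ (L + 1)) := by
      unfold dq; rw [Finset.prod_range_succ]
    rw [e, ← ih]
    unfold W
    rw [Icc_succ, Finset.sum_powerset_insert (notMem_Icc L)]
    have h2 : ∀ T ∈ (Finset.Icc 1 L).powerset,
        (((gap (insert (L + 1) T)).choose 0 : ℕ) : PowerSeries ℚ) *
          X ^ (∑ x ∈ insert (L + 1) T, x) =
        ((((gap T).choose 0 : ℕ) : PowerSeries ℚ) * X ^ (∑ x ∈ T, x)) * X ^ (L + 1) := by
      intro T hT
      rw [Finset.mem_powerset] at hT
      rw [Finset.sum_insert (fun h => notMem_Icc L (hT h)), Nat.choose_zero_right,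
        Nat.choose_zero_right, pow_add]
      ring
    rw [Finset.sum_congr rfl h2, ← Finset.sum_mul]
    ring

theorem W_succ (k l : ℕ) : W (k + 1) (l + 2) =
    (1 + X ^ (l + 2)) * W (k + 1) (l + 1) + X ^ (l + 2) * W k l := by
  have h0 : W (k + 1) (l + 2) = W (k + 1) (l + 1) +
      ∑ T ∈ (Finset.Icc 1 (l + 1)).powerset,
        (((gap (insert (l + 2) T)).choose (k + 1) : ℕ) : PowerSeries ℚ) *
          X ^ (∑ x ∈ insert (l + 2) T, x) := by
    unfold W
    rw [Icc_succ (l + 1), Finset.sum_powerset_insert (notMem_Icc (l + 1))]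
  have h1 : ∀ T ∈ (Finset.Icc 1 (l + 1)).powerset,
      (((gap (insert (l + 2) T)).choose (k + 1) : ℕ) : PowerSeries ℚ) *
          X ^ (∑ x ∈ insert (l + 2) T, x) =
        X ^ (l + 2) * ((((gap T).choose (k + 1) : ℕ) : PowerSeries ℚ) * X ^ (∑ x ∈ T, x)) +
        X ^ (l + 2) * (if l + 1 ∈ T then 0 else
          (((gap T).choose k : ℕ) : PowerSeries ℚ) * X ^ (∑ x ∈ T, x)) := by
    intro T hT
    rw [Finset.mem_powerset] at hT
    rw [Finset.sum_insert (fun h => notMem_Icc (l + 1) (hT h)), gap_insert hT, pow_add]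
    split_ifs with h
    · rw [add_zero, mul_zero, add_zero]; ring
    · rw [Nat.choose_succ_succ']
      push_cast
      ring
  have h2 : ∑ T ∈ (Finset.Icc 1 (l + 1)).powerset, (if l + 1 ∈ T then (0 : PowerSeries ℚ) else
      (((gap T).choose k : ℕ) : PowerSeries ℚ) * X ^ (∑ x ∈ T, x)) = W k l := by
    rw [Icc_succ l, Finset.sum_powerset_insert (notMem_Icc l)]
    have h3 : ∀ T ∈ (Finset.Icc 1 l).powerset, (if l + 1 ∈ insert (l + 1) T then
        (0 : PowerSeries ℚ) else (((gap (insert (l + 1) T)).choose k : ℕ) : PowerSeries ℚ) *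
          X ^ (∑ x ∈ insert (l + 1) T, x)) = 0 := by
      intro T _
      rw [if_pos (Finset.mem_insert_self _ _)]
    rw [Finset.sum_congr rfl h3, Finset.sum_const_zero, add_zero]
    unfold W
    apply Finset.sum_congr rfl
    intro T hT
    rw [Finset.mem_powerset] at hT
    rw [if_neg (fun h => notMem_Icc l (hT h))]
  rw [h0, Finset.sum_congr rfl h1, Finset.sum_add_distrib, ← Finset.mul_sum, ← Finset.mul_sum, h2]
  unfold W
  ring

theorem gap_small {L : ℕ} (hL : L ≤ 1) {T : Finset ℕ} (hT : T ⊆ Finset.Icc 1 L) : gap T = 0 := by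
  unfold gap
  rw [Finset.card_eq_zero, Finset.filter_eq_empty_iff]
  rintro x hx ⟨h1, -⟩
  have := hT hx
  rw [Finset.mem_Icc] at this
  omega

theorem W_small (k : ℕ) {L : ℕ} (hL : L ≤ 1) : W (k + 1) L = 0 := by
  unfold W
  apply Finset.sum_eq_zero
  intro T hT
  rw [Finset.mem_powerset] at hT
  rw [gap_small hL hT]
  simp

theorem dq_succ (l : ℕ) : dq (l + 1) = dq l * (1 + X ^ (l + 1)) := by
  unfold dq; rw [Finset.prod_range_succ]

theorem W_one (l : ℕ) : W 1 (l + 1) * (1 - X ^ 2) = X ^ 2 * (1 - X ^ l) * dq l := by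
  induction l with
  | zero => rw [W_small 0 (by norm_num)]; simp
  | succ l ih =>
    have h := W_succ 0 l
    simp only [zero_add] at h
    rw [h, W_zero, dq_succ]
    have : ((1 + X ^ (l + 2)) * W 1 (l + 1) + X ^ (l + 2) * dq l) * (1 - X ^ 2) =
        (1 + X ^ (l + 2)) * (W 1 (l + 1) * (1 - X ^ 2)) + X ^ (l + 2) * dq l * (1 - X ^ 2) := by
      ring
    rw [this, ih]
    ring

theorem W_two (l : ℕ) : W 2 (l + 3) * ((1 - X ^ 2) * (1 - X ^ 4)) =
    X ^ 6 * (1 - X ^ l) * (1 - X ^ (l + 1)) * dq (l + 1) := by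
  induction l with
  | zero =>
    have h3 := W_succ 1 1
    have h2 := W_succ 1 0
    simp only [zero_add, Nat.reduceAdd] at h2 h3
    have a1 : W 2 1 = 0 := W_small 1 (by norm_num)
    have a2 : W 1 0 = 0 := W_small 0 (by norm_num)
    have a3 : W 1 1 = 0 := W_small 0 (by norm_num)
    rw [a1, a2] at h2
    rw [h2, a3] at h3
    simp only [zero_add]
    rw [h3]
    simp
  | succ l ih =>
    have h := W_succ 1 (l + 2)
    simp only [Nat.reduceAdd] at h
    have e1 : l + 2 + 2 = l + 1 + 3 := by omega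
    have e2 : l + 2 + 1 = l + 3 := by omega
    rw [e1, e2] at h
    rw [h, dq_succ (l + 1)]
    have hw1 := W_one (l + 1)
    have e3 : l + 1 + 1 = l + 2 := by omega
    rw [e3] at hw1
    have : ((1 + X ^ (l + 1 + 3)) * W 2 (l + 3) + X ^ (l + 1 + 3) * W 1 (l + 2)) *
        ((1 - X ^ 2) * (1 - X ^ 4)) =
        (1 + X ^ (l + 1 + 3)) * (W 2 (l + 3) * ((1 - X ^ 2) * (1 - X ^ 4))) +
          X ^ (l + 1 + 3) * (W 1 (l + 2) * (1 - X ^ 2)) * (1 - X ^ 4) := by ring
    rw [this, ih, hw1]
    ring

theorem W_two_small {L : ℕ} (hL : L ≤ 3) : W 2 L = 0 := by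
  have a1 : W 2 1 = 0 := W_small 1 (by norm_num)
  have a2 : W 1 0 = 0 := W_small 0 (by norm_num)
  have a3 : W 1 1 = 0 := W_small 0 (by norm_num)
  have h3 := W_succ 1 1
  have h2 := W_succ 1 0
  simp only [zero_add, Nat.reduceAdd] at h2 h3
  rw [a1, a2] at h2
  rw [h2, a3] at h3
  interval_cases L
  · exact W_small 1 (by norm_num)
  · exact a1
  · rw [h2]; simp
  · rw [h3]; simp

theorem W_two_eq (n : ℕ) : W 2 (n + 4) = X ^ 5 * (X * H (n + 1) * dq n) := by
  have h1 := W_two (n + 1)
  have h2 := H_mul' (n + 1)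
  have hne : ((1 - X ^ 2) * (1 - X ^ 4) : PowerSeries ℚ) ≠ 0 :=
    mul_ne_zero (ne_zero_one_sub (by norm_num)) (ne_zero_one_sub (by norm_num))
  apply mul_right_cancel₀ hne
  have e : n + 1 + 3 = n + 4 := by omega
  rw [e] at h1
  rw [h1]
  have e2 : X ^ 5 * (X * H (n + 1) * dq n) * ((1 - X ^ 2) * (1 - X ^ 4)) =
      X ^ 6 * (H (n + 1) * ((1 - X ^ 2) * (1 - X ^ 4))) * dq n := by ring
  rw [e2, h2, dq_succ, dq_succ]
  ring

/-- the sum over the distinct partitions -/
theorem coeff_W (L n : ℕ) : PowerSeries.coeff n (W 2 L) =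
    ((∑ p ∈ (Finset.univ : Finset n.Partition).filter (fun p => p.parts.Nodup ∧
      ∀ x ∈ p.parts, x ≤ L), (hooks2 p).choose 2 : ℕ) : ℚ) := by
  unfold W
  rw [map_sum]
  have h1 : ∀ T ∈ (Finset.Icc 1 L).powerset, PowerSeries.coeff n
      ((((gap T).choose 2 : ℕ) : PowerSeries ℚ) * X ^ (∑ x ∈ T, x)) =
      if ∑ x ∈ T, x = n then ((gap T).choose 2 : ℚ) else 0 := by
    intro T _
    have : (((gap T).choose 2 : ℕ) : PowerSeries ℚ) = PowerSeries.C (((gap T).choose 2 : ℕ) : ℚ) := by
      simp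
    rw [this, PowerSeries.coeff_C_mul, PowerSeries.coeff_X_pow]
    split_ifs with h h' h'
    · rw [mul_one]
    · exact absurd h.symm h'
    · exact absurd h'.symm h
    · rw [mul_zero]
  rw [Finset.sum_congr rfl h1, ← Finset.sum_filter]
  push_cast
  symm
  apply Finset.sum_bij (fun p _ => p.parts.toFinset)
  · intro p hp
    rw [Finset.mem_filter] at hp
    rw [Finset.mem_filter, Finset.mem_powerset]
    obtain ⟨-, hnd, hle⟩ := hp
    constructor
    · intro x hx
      rw [Multiset.mem_toFinset] at hx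
      rw [Finset.mem_Icc]
      exact ⟨p.parts_pos hx, hle x hx⟩
    · rw [Finset.sum_eq_multiset_sum, Multiset.toFinset_val, Multiset.dedup_eq_self.2 hnd,
        Multiset.map_id', p.parts_sum]
  · intro p hp q hq h
    rw [Finset.mem_filter] at hp hq
    have h2 := congrArg Finset.val h
    rw [Multiset.toFinset_val, Multiset.toFinset_val, Multiset.dedup_eq_self.2 hp.2.1,
      Multiset.dedup_eq_self.2 hq.2.1] at h2
    exact Nat.Partition.ext h2
  · intro T hT
    rw [Finset.mem_filter, Finset.mem_powerset] at hT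
    obtain ⟨hT1, hT2⟩ := hT
    refine ⟨⟨T.val, ?_, ?_⟩, ?_, ?_⟩
    · intro x hx
      have := hT1 hx
      rw [Finset.mem_Icc] at this
      omega
    · rw [Finset.sum_eq_multiset_sum, Multiset.map_id'] at hT2
      exact hT2
    · rw [Finset.mem_filter]
      refine ⟨Finset.mem_univ _, T.nodup, ?_⟩
      intro x hx
      have := hT1 hx
      rw [Finset.mem_Icc] at this
      omega
    · simp
  · intro p hp
    rw [Finset.mem_filter] at hp
    obtain ⟨-, hnd, -⟩ := hp
    rw [hooks2_eq]
    have h3 : (p.parts.toFinset.filter (fun x => 2 ≤ p.parts.count x)) = ∅ := by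
      rw [Finset.filter_eq_empty_iff]
      intro x _ h
      have := Multiset.nodup_iff_count_le_one.1 hnd x
      omega
    rw [h3, Finset.card_empty, add_zero]
    unfold gap
    simp only [Multiset.mem_toFinset]

end Pool.Agent.R153.Hook2
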