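import Pool.Agent.R153.Hook2
import Pool.Agent.R153.QSeries

set_option autoImplicit false

/-! Lower bound for the generating function for odd partitions. -/

namespace Pool.Agent.R153.Hook2

open Finset PowerSeries Pool.Agent.R153.QS
open scoped PowerSeries.WithPiTopology

/-- partitions of `n` into odd parts, all at most `2 L - 1` -/
def OP (L n : ℕ) : Finset n.Partition :=
  Nat.Partition.restricted n (fun x => Odd x ∧ x ≤ 2 * L - 1)

theorem mem_OP {L n : ℕ} {p : n.Partition} :
    p ∈ OP L n ↔ ∀ x ∈ p.parts, Odd x ∧ x ≤ 2 * L - 1 := by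
  unfold OP Nat.Partition.restricted
  rw [Finset.mem_filter]
  simp

theorem tsum_geo {k : ℕ} (hk : 0 < k) : (∑' j : ℕ, (X : PowerSeries ℚ) ^ (k * j)) = geo k := by
  have h1 : PowerSeries.constantCoeff (X ^ k : PowerSeries ℚ) = 0 := by
    rw [map_pow, PowerSeries.constantCoeff_X, zero_pow hk.ne']
  have h2 := PowerSeries.WithPiTopology.tsum_pow_mul_one_sub_of_constantCoeff_eq_zero h1
  have h3 : (∑' j : ℕ, (X : PowerSeries ℚ) ^ (k * j)) = ∑' j : ℕ, (X ^ k) ^ j := by
    simp only [pow_mul]
  rw [h3]
  have h4 := geo_mul hk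
  exact mul_right_cancel₀ (ne_zero_one_sub hk) (h2.trans h4.symm)

theorem card_OP (L n : ℕ) : ((OP L n).card : ℚ) = PowerSeries.coeff n (odd L) := by
  have h := Nat.Partition.hasProd_powerSeriesMk_card_restricted ℚ
    (fun x => Odd x ∧ x ≤ 2 * L - 1)
  have h2 : HasProd (fun i : ℕ => if Odd (i + 1) ∧ i + 1 ≤ 2 * L - 1 then
      ∑' j : ℕ, (X : PowerSeries ℚ) ^ ((i + 1) * j) else 1) (odd L) := by
    have h3 : odd L = ∏ i ∈ (range L).image (fun k => 2 * k),
        (if Odd (i + 1) ∧ i + 1 ≤ 2 * L - 1 then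
          ∑' j : ℕ, (X : PowerSeries ℚ) ^ ((i + 1) * j) else 1) := by
      rw [Finset.prod_image (fun a _ b _ hab => by omega)]
      unfold odd
      apply Finset.prod_congr rfl
      intro k hk
      rw [Finset.mem_range] at hk
      rw [if_pos ⟨odd_two_mul_add_one k, by omega⟩, tsum_geo (by omega)]
    rw [h3]
    apply hasProd_prod_of_ne_finset_one
    intro i hi
    rw [if_neg]
    rintro ⟨h4, h5⟩
    apply hi
    rw [Finset.mem_image]
    obtain ⟨k, hk⟩ := h4
    exact ⟨k, by rw [Finset.mem_range]; omega, by omega⟩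
  have h6 := h.unique h2
  have h7 := congrArg (PowerSeries.coeff n) h6
  rw [PowerSeries.coeff_mk] at h7
  exact h7

/-- the partitions which contain a given multiset of parts -/
theorem card_contain (L n : ℕ) (s : Multiset ℕ) (hs : ∀ x ∈ s, Odd x ∧ x ≤ 2 * L - 1) :
    PowerSeries.coeff n (X ^ s.sum * odd L) ≤
      (((OP L n).filter (fun p => s ≤ p.parts)).card : ℚ) := by
  rw [PowerSeries.coeff_X_pow_mul']
  split_ifs with h
  · rw [← card_OP]
    have : (OP L (n - s.sum)).card ≤ ((OP L n).filter (fun p => s ≤ p.parts)).card := by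
      apply Finset.card_le_card_of_injOn (fun q : (n - s.sum).Partition =>
        (⟨q.parts + s, by
          intro x hx
          rw [Multiset.mem_add] at hx
          rcases hx with hx | hx
          · exact q.parts_pos hx
          · exact (hs x hx).1.pos, by
          rw [Multiset.sum_add, q.parts_sum]; omega⟩ : n.Partition))
      · intro q hq
        rw [Finset.mem_coe, mem_OP] at hq
        rw [Finset.mem_coe, Finset.mem_filter, mem_OP]
        constructor
        · intro x hx
          simp only at hx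
          rw [Multiset.mem_add] at hx
          rcases hx with hx | hx
          · exact hq x hx
          · exact hs x hx
        · simp only
          exact Multiset.le_add_left s q.parts
      · intro q _ q' _ hqq
        rw [Nat.Partition.ext_iff] at hqq
        simp only at hqq
        exact Nat.Partition.ext (add_right_cancel hqq)
    exact_mod_cast this
  · positivity

/-- pairs -/
theorem pairs_le (Q : Finset ℕ) (m : ℕ) :
    ∑ i ∈ range m, ∑ j ∈ Finset.Ico i m, (if i ∈ Q ∧ j + 1 ∈ Q then 1 else 0) ≤ Q.card.choose 2 := by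
  rw [← Finset.card_powersetCard, Finset.sum_sigma', ← Finset.card_filter]
  apply Finset.card_le_card_of_injOn (fun x => {x.1, x.2 + 1})
  · rintro ⟨i, j⟩ hx
    rw [Finset.mem_coe, Finset.mem_filter, Finset.mem_sigma, Finset.mem_Ico] at hx
    obtain ⟨⟨-, h1, -⟩, h2, h3⟩ := hx
    rw [Finset.mem_coe, Finset.mem_powersetCard]
    simp only at h1 h2 h3 ⊢
    constructor
    · intro x hx
      rw [Finset.mem_insert, Finset.mem_singleton] at hx
      rcases hx with rfl | rfl
      · exact h2
      · exact h3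
    · exact Finset.card_pair (by omega)
  · rintro ⟨i, j⟩ hx ⟨i', j'⟩ hx' h
    rw [Finset.mem_coe, Finset.mem_filter, Finset.mem_sigma, Finset.mem_Ico] at hx hx'
    obtain ⟨⟨-, h1, -⟩, -⟩ := hx
    obtain ⟨⟨-, h1', -⟩, -⟩ := hx'
    simp only at h1 h1' h
    have a1 : i ∈ ({i', j' + 1} : Finset ℕ) := h ▸ Finset.mem_insert_self _ _
    have a2 : j + 1 ∈ ({i', j' + 1} : Finset ℕ) := by
      rw [← h]; exact Finset.mem_insert_of_mem (Finset.mem_singleton_self _)
    have a3 : i' ∈ ({i, j + 1} : Finset ℕ) := h ▸ Finset.mem_insert_self _ _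
    rw [Finset.mem_insert, Finset.mem_singleton] at a1 a2 a3
    have h4 : i = i' := by omega
    have h5 : j = j' := by omega
    rw [h4, h5]

theorem choose_two_add_le (u v e : ℕ) (hev : e ≤ v) (he : e ≤ 1) :
    u.choose 2 + u * e ≤ (u + v).choose 2 := by
  have h1 : (u + e).choose 2 ≤ (u + v).choose 2 := Nat.choose_le_choose 2 (by omega)
  refine le_trans ?_ h1
  interval_cases e
  · simp
  · have := Nat.choose_succ_succ' u 1
    rw [Nat.choose_one_right] at this
    simp only [Nat.reduceAdd] at this
    omega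

/-- lower bound for the number of pairs of hooks -/
theorem hooks_lower {L n : ℕ} (m : ℕ) (hm : m + 3 = L) (p : n.Partition) (hp : p ∈ OP L n) :
    ∑ i ∈ range m, ∑ j ∈ Finset.Ico i m,
      (if ({2 * i + 3, 2 * (j + 1) + 3} : Multiset ℕ) ≤ p.parts then 1 else 0) +
    ∑ i ∈ range (m + 2), (if ({1, 1, 2 * i + 3} : Multiset ℕ) ≤ p.parts then 1 else 0) ≤
    (hooks2 p).choose 2 := by
  rw [mem_OP] at hp
  set Q := (range (m + 2)).filter (fun i => 2 * i + 3 ∈ p.parts) with hQ
  have hu : (p.parts.toFinset.filter (fun x => 2 ≤ x ∧ x - 1 ∉ p.parts)).card = Q.card := by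
    symm
    apply Finset.card_bij (fun i _ => 2 * i + 3)
    · intro i hi
      rw [hQ, Finset.mem_filter] at hi
      rw [Finset.mem_filter, Multiset.mem_toFinset]
      refine ⟨hi.2, by omega, ?_⟩
      intro h
      have := (hp _ h).1
      obtain ⟨k, hk⟩ := this
      omega
    · intro a _ b _ h
      omega
    · intro x hx
      rw [Finset.mem_filter, Multiset.mem_toFinset] at hx
      obtain ⟨h1, h2, -⟩ := hx
      obtain ⟨⟨k, hk⟩, h4⟩ := hp x h1
      refine ⟨k - 1, ?_, by omega⟩
      rw [hQ, Finset.mem_filter, Finset.mem_range]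
      refine ⟨by omega, ?_⟩
      have e : 2 * (k - 1) + 3 = x := by omega
      rw [e]
      exact h1
  rw [hooks2_eq, hu]
  set v := (p.parts.toFinset.filter (fun x => 2 ≤ p.parts.count x)).card with hv
  set e := (if 2 ≤ p.parts.count 1 then 1 else 0) with he
  have hev : e ≤ v := by
    rw [he]
    split_ifs with h
    · rw [hv, Nat.one_le_iff_ne_zero, Finset.card_ne_zero]
      refine ⟨1, ?_⟩
      rw [Finset.mem_filter, Multiset.mem_toFinset]
      refine ⟨?_, h⟩
      rw [← Multiset.count_pos]
      omega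
    · exact Nat.zero_le _
  have he1 : e ≤ 1 := by rw [he]; split_ifs <;> norm_num
  refine le_trans (add_le_add ?_ ?_) (choose_two_add_le Q.card v e hev he1)
  · refine le_trans ?_ (pairs_le Q m)
    apply Finset.sum_le_sum
    intro i hi
    apply Finset.sum_le_sum
    intro j hj
    rw [Finset.mem_range] at hi
    rw [Finset.mem_Ico] at hj
    split_ifs with h1 h2 h2
    · exact le_rfl
    · exfalso
      apply h2
      constructor
      · rw [hQ, Finset.mem_filter, Finset.mem_range]
        exact ⟨by omega, Multiset.mem_of_le h1 (by simp)⟩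
      · rw [hQ, Finset.mem_filter, Finset.mem_range]
        exact ⟨by omega, Multiset.mem_of_le h1 (by simp)⟩
    · exact Nat.zero_le _
    · exact le_rfl
  · have hcard : Q.card * e = ∑ i ∈ range (m + 2), (if 2 * i + 3 ∈ p.parts then e else 0) := by
      rw [← Finset.sum_filter, Finset.sum_const, smul_eq_mul]
    rw [hcard]
    apply Finset.sum_le_sum
    intro i _
    split_ifs with h1 h2 h2
    · have : 2 ≤ p.parts.count 1 := by
        have h3 := Multiset.count_le_of_le 1 h1
        refine le_trans ?_ h3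
        have : ({1, 1, 2 * i + 3} : Multiset ℕ) = 1 ::ₘ 1 ::ₘ {2 * i + 3} := rfl
        rw [this, Multiset.count_cons_self, Multiset.count_cons_self]
        omega
      rw [he, if_pos this]
    · exfalso
      exact h2 (Multiset.mem_of_le h1 (by simp))
    · exact Nat.zero_le _
    · exact le_rfl

/-- lower bound of the sum over the odd partitions -/
theorem sum_lower (L n m : ℕ) (hm : m + 3 = L) :
    PowerSeries.coeff n (X ^ 5 * (odd L * (S m + X ^ 3 * H m))) ≤
      ((∑ p ∈ OP L n, (hooks2 p).choose 2 : ℕ) : ℚ) := by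
  have h1 : (∑ i ∈ range m, ∑ j ∈ Finset.Ico i m,
      ((OP L n).filter (fun p => ({2 * i + 3, 2 * (j + 1) + 3} : Multiset ℕ) ≤ p.parts)).card) +
      ∑ i ∈ range (m + 2),
        ((OP L n).filter (fun p => ({1, 1, 2 * i + 3} : Multiset ℕ) ≤ p.parts)).card ≤
      ∑ p ∈ OP L n, (hooks2 p).choose 2 := by
    refine le_trans (le_of_eq ?_) (Finset.sum_le_sum (fun p hp => hooks_lower m hm p hp))
    rw [Finset.sum_add_distrib]
    congr 1
    · rw [Finset.sum_comm]
      apply Finset.sum_congr rfl
      intro i _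
      rw [Finset.sum_comm]
      apply Finset.sum_congr rfl
      intro j _
      rw [Finset.card_filter]
    · rw [Finset.sum_comm]
      apply Finset.sum_congr rfl
      intro i _
      rw [Finset.card_filter]
  have h2 : ((∑ i ∈ range m, ∑ j ∈ Finset.Ico i m,
      ((OP L n).filter (fun p => ({2 * i + 3, 2 * (j + 1) + 3} : Multiset ℕ) ≤ p.parts)).card) +
      ∑ i ∈ range (m + 2),
        ((OP L n).filter (fun p => ({1, 1, 2 * i + 3} : Multiset ℕ) ≤ p.parts)).card : ℕ) ≤
      ((∑ p ∈ OP L n, (hooks2 p).choose 2 : ℕ) : ℚ) := by exact_mod_cast h1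
  refine le_trans ?_ h2
  have e1 : X ^ 5 * (odd L * (S m + X ^ 3 * H m)) =
      (∑ i ∈ range m, ∑ j ∈ Finset.Ico i m,
        X ^ (({2 * i + 3, 2 * (j + 1) + 3} : Multiset ℕ).sum) * odd L) +
      ∑ i ∈ range (m + 2), X ^ (({1, 1, 2 * i + 3} : Multiset ℕ).sum) * odd L := by
    have a1 : ∀ i j : ℕ, (({2 * i + 3, 2 * (j + 1) + 3} : Multiset ℕ).sum) =
        8 + 2 * (i + j) := by
      intro i j
      have : ({2 * i + 3, 2 * (j + 1) + 3} : Multiset ℕ) = (2 * i + 3) ::ₘ {2 * (j + 1) + 3} := rfl
      rw [this, Multiset.sum_cons, Multiset.sum_singleton]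
      ring
    have a2 : ∀ i : ℕ, (({1, 1, 2 * i + 3} : Multiset ℕ).sum) = 5 + 2 * i := by
      intro i
      have : ({1, 1, 2 * i + 3} : Multiset ℕ) = 1 ::ₘ 1 ::ₘ {2 * i + 3} := rfl
      rw [this, Multiset.sum_cons, Multiset.sum_cons, Multiset.sum_singleton]
      ring
    simp only [a1, a2]
    have b1 : (∑ i ∈ range m, ∑ j ∈ Finset.Ico i m, (X : PowerSeries ℚ) ^ (8 + 2 * (i + j)) *
        odd L) = X ^ 8 * H m * odd L := by
      unfold H
      rw [Finset.mul_sum, Finset.sum_mul]
      apply Finset.sum_congr rfl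
      intro i _
      rw [Finset.mul_sum, Finset.sum_mul]
      apply Finset.sum_congr rfl
      intro j _
      rw [pow_add]
    have b2 : (∑ i ∈ range (m + 2), (X : PowerSeries ℚ) ^ (5 + 2 * i) * odd L) =
        X ^ 5 * S m * odd L := by
      unfold S
      rw [Finset.mul_sum, Finset.sum_mul]
      apply Finset.sum_congr rfl
      intro i _
      rw [pow_add]
    rw [b1, b2]
    ring
  rw [e1, map_add, map_sum, map_sum]
  push_cast
  apply add_le_add
  · apply Finset.sum_le_sum
    intro i hi
    rw [map_sum]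
    apply Finset.sum_le_sum
    intro j hj
    rw [Finset.mem_range] at hi
    rw [Finset.mem_Ico] at hj
    apply card_contain
    intro x hx
    simp only [Multiset.insert_eq_cons, Multiset.mem_cons, Multiset.mem_singleton] at hx
    rcases hx with rfl | rfl
    · exact ⟨⟨i + 1, by ring⟩, by omega⟩
    · exact ⟨⟨j + 2, by ring⟩, by omega⟩
  · apply Finset.sum_le_sum
    intro i hi
    rw [Finset.mem_range] at hi
    apply card_contain
    intro x hx
    simp only [Multiset.insert_eq_cons, Multiset.mem_cons, Multiset.mem_singleton] at hx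
    rcases hx with rfl | rfl | rfl
    · exact ⟨odd_one, by omega⟩
    · exact ⟨odd_one, by omega⟩
    · exact ⟨⟨i + 1, by ring⟩, by omega⟩

end Pool.Agent.R153.Hook2
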