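import Mathlib

set_option autoImplicit false

namespace Pool.Agent.R153.LO

open Finset MeasureTheory ProbabilityTheory

/-- the binomial weight -/
noncomputable def bw (m l : ℕ) : ℝ := (m.choose l : ℝ) / 2 ^ m

theorem bw_nonneg (m l : ℕ) : 0 ≤ bw m l := by unfold bw; positivity

theorem cexp_mul_cos_pow (a θ : ℝ) (m : ℕ) :
    Complex.exp (a * Complex.I) * (Complex.cos θ) ^ m =
      ∑ l ∈ range (m + 1), (bw m l : ℂ) * Complex.exp (((a + (m - 2 * l) * θ : ℝ) : ℂ) * Complex.I) := by
  have h : Complex.cos θ = (Complex.exp (-(θ * Complex.I)) + Complex.exp (θ * Complex.I)) / 2 := by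
    rw [Complex.cos]
    ring_nf
  rw [h, div_pow, add_pow, Finset.sum_div, Finset.mul_sum]
  apply Finset.sum_congr rfl
  intro l hl
  have hl' : l ≤ m := Nat.lt_succ_iff.mp (Finset.mem_range.mp hl)
  rw [← Complex.exp_nat_mul, ← Complex.exp_nat_mul]
  unfold bw
  push_cast
  rw [show Complex.exp (↑l * -(↑θ * Complex.I)) * Complex.exp (((m - l : ℕ) : ℂ) * (↑θ * Complex.I))
    = Complex.exp (((m : ℂ) - 2 * l) * θ * Complex.I) by
      rw [← Complex.exp_add]; congr 1; push_cast [Nat.cast_sub hl']; ring]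
  rw [show ((a : ℂ) + (↑m - 2 * ↑l) * ↑θ) * Complex.I
    = (a : ℂ) * Complex.I + ((m : ℂ) - 2 * l) * θ * Complex.I by ring, Complex.exp_add]
  ring

theorem cos_mul_cos_pow (a θ : ℝ) (m : ℕ) :
    Real.cos a * (Real.cos θ) ^ m =
      ∑ l ∈ range (m + 1), bw m l * Real.cos (a + (m - 2 * l) * θ) := by
  have h := congrArg Complex.re (cexp_mul_cos_pow a θ m)
  rw [← Complex.ofReal_cos, ← Complex.ofReal_pow, Complex.re_mul_ofReal, Complex.exp_ofReal_mul_I_re,
    Complex.re_sum] at h
  rw [h]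
  apply Finset.sum_congr rfl
  intro l _
  rw [Complex.re_ofReal_mul, Complex.exp_ofReal_mul_I_re]

variable {E : Type*} [NormedAddCommGroup E] [InnerProductSpace ℝ E] [FiniteDimensional ℝ E]
  [MeasurableSpace E] [BorelSpace E]

theorem integral_cos (x : E) :
    ∫ ξ, Real.cos (inner ℝ ξ x) ∂(stdGaussian E) = Real.exp (-‖x‖ ^ 2 / 2) := by
  have h := congrArg Complex.re (charFun_stdGaussian (E := E) x)
  rw [charFun_apply] at h
  have hi : Integrable (fun ξ : E => Complex.exp ((inner ℝ ξ x : ℝ) * Complex.I))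
      (stdGaussian E) := by
    apply Integrable.of_bound (C := 1)
    · exact Continuous.aestronglyMeasurable (by fun_prop)
    · exact Filter.Eventually.of_forall fun ξ => by
        rw [Complex.norm_exp_ofReal_mul_I]
  have h2 : (∫ ξ, Complex.exp ((inner ℝ ξ x : ℝ) * Complex.I) ∂(stdGaussian E)).re
      = ∫ ξ, Real.cos (inner ℝ ξ x) ∂(stdGaussian E) := by
    have := integral_re hi
    rw [← RCLike.re_eq_complex_re, ← this]
    apply integral_congr_ae
    exact Filter.Eventually.of_forall fun ξ => by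
      show (Complex.exp ((inner ℝ ξ x : ℝ) * Complex.I)).re = _
      rw [Complex.exp_ofReal_mul_I_re]
  rw [h2] at h
  rw [h]
  have : (-(‖x‖ : ℂ) ^ 2 / 2) = ((-‖x‖ ^ 2 / 2 : ℝ) : ℂ) := by push_cast; ring
  rw [this, Complex.exp_ofReal_re]

/-- The average of the Gaussian kernel over the `k` blocks of `m` signs. -/
noncomputable def R (m : ℕ) (v : ℕ → E) : ℕ → E → ℝ
  | 0, x => Real.exp (-‖x‖ ^ 2 / 2)
  | k + 1, x => ∑ l ∈ range (m + 1), bw m l * R m v k (x + ((m : ℝ) - 2 * l) • v k)

theorem integrable_aux (m : ℕ) (v : ℕ → E) (k : ℕ) (x : E) :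
    Integrable (fun ξ : E => Real.cos (inner ℝ ξ x) *
      ∏ j ∈ range k, (Real.cos (inner ℝ ξ (v j))) ^ m) (stdGaussian E) := by
  apply Integrable.of_bound (C := 1)
  · exact Continuous.aestronglyMeasurable (by fun_prop)
  · refine Filter.Eventually.of_forall fun ξ => ?_
    rw [Real.norm_eq_abs, abs_mul, Finset.abs_prod]
    apply mul_le_one₀ (Real.abs_cos_le_one _) (Finset.prod_nonneg fun _ _ => abs_nonneg _)
    apply Finset.prod_le_one (fun _ _ => abs_nonneg _)
    intro j _
    rw [abs_pow]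
    exact pow_le_one₀ (abs_nonneg _) (Real.abs_cos_le_one _)

theorem integral_eq_R (m : ℕ) (v : ℕ → E) (k : ℕ) : ∀ x : E,
    ∫ ξ, Real.cos (inner ℝ ξ x) * ∏ j ∈ range k, (Real.cos (inner ℝ ξ (v j))) ^ m
      ∂(stdGaussian E) = R m v k x := by
  induction k with
  | zero => intro x; simp only [range_zero, prod_empty, mul_one]; exact integral_cos x
  | succ k ih =>
    intro x
    show _ = ∑ l ∈ range (m + 1), bw m l * R m v k (x + ((m : ℝ) - 2 * l) • v k)
    have h : ∀ ξ : E, Real.cos (inner ℝ ξ x) *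
        ∏ j ∈ range (k + 1), (Real.cos (inner ℝ ξ (v j))) ^ m =
        ∑ l ∈ range (m + 1), bw m l * (Real.cos (inner ℝ ξ (x + ((m : ℝ) - 2 * l) • v k)) *
          ∏ j ∈ range k, (Real.cos (inner ℝ ξ (v j))) ^ m) := by
      intro ξ
      rw [Finset.prod_range_succ, mul_comm (∏ j ∈ range k, _), ← mul_assoc, cos_mul_cos_pow,
        Finset.sum_mul]
      apply Finset.sum_congr rfl
      intro l _
      rw [inner_add_right, inner_smul_right, mul_assoc]
    simp_rw [h]
    rw [integral_finsetSum _ (fun l _ => (integrable_aux m v k _).const_mul _)]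
    apply Finset.sum_congr rfl
    intro l _
    rw [integral_const_mul, ih]

end Pool.Agent.R153.LO
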