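import Pool.Agent.R153.LO1

set_option autoImplicit false

namespace Pool.Agent.R153.LO

open Finset

/-! ### The one-dimensional estimate -/

theorem geom_part {g : ℝ} (hg : 0 < g) (T : Finset ℕ) (φ : ℕ → ℕ) (hφ : Set.InjOn φ T)
    (F : ℕ → ℝ) (hF : ∀ l ∈ T, F l ≤ (Real.exp (-g)) ^ (φ l)) :
    ∑ l ∈ T, F l ≤ (1 - Real.exp (-g))⁻¹ := by
  have h0 : 0 ≤ Real.exp (-g) := (Real.exp_pos _).le
  have h1 : Real.exp (-g) < 1 := by
    rw [← Real.exp_zero]; exact Real.exp_lt_exp.mpr (by linarith)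
  calc ∑ l ∈ T, F l ≤ ∑ l ∈ T, (Real.exp (-g)) ^ (φ l) := Finset.sum_le_sum hF
    _ = ∑ j ∈ T.image φ, (Real.exp (-g)) ^ j := (Finset.sum_image hφ).symm
    _ ≤ ∑' j : ℕ, (Real.exp (-g)) ^ j :=
        (summable_geometric_of_lt_one h0 h1).sum_le_tsum _ (fun j _ => pow_nonneg h0 j)
    _ = (1 - Real.exp (-g))⁻¹ := tsum_geometric_of_lt_one h0 h1

theorem sum_exp_abs {g : ℝ} (hg : 0 < g) (c : ℝ) (T : Finset ℕ) :
    ∑ l ∈ T, Real.exp (-|c - g * l|) ≤ 2 * (1 - Real.exp (-g))⁻¹ := by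
  obtain ⟨l0, hl0⟩ : ∃ l0 : ℤ, l0 = ⌊c / g⌋ := ⟨_, rfl⟩
  have hle : g * l0 ≤ c := by
    have := Int.floor_le (c / g)
    rw [← hl0, le_div_iff₀ hg] at this
    linarith
  have hlt : c < g * (l0 + 1) := by
    have := Int.lt_floor_add_one (c / g)
    rw [← hl0, div_lt_iff₀ hg] at this
    linarith
  rw [← Finset.sum_filter_add_sum_filter_not T (fun l : ℕ => (l : ℤ) ≤ l0), two_mul]
  apply add_le_add
  · apply geom_part hg _ (fun l => (l0 - l).toNat)
    · intro a ha b hb hab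
      simp only [Finset.coe_filter, Set.mem_ofPred_eq] at ha hb
      have h1 : l0 - (a : ℤ) = l0 - (b : ℤ) := by
        have h : ((l0 - (a : ℤ)).toNat : ℤ) = ((l0 - (b : ℤ)).toNat : ℤ) := by exact_mod_cast hab
        rwa [Int.toNat_of_nonneg (by omega), Int.toNat_of_nonneg (by omega)] at h
      omega
    · intro l hl
      rw [Finset.mem_filter] at hl
      rw [← Real.exp_nat_mul]
      apply Real.exp_le_exp.mpr
      have hcast : (((l0 - (l : ℤ)).toNat : ℕ) : ℝ) = (l0 : ℝ) - l := by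
        have : (((l0 - (l : ℤ)).toNat : ℤ)) = l0 - l := Int.toNat_of_nonneg (by omega)
        exact_mod_cast this
      rw [hcast]
      have : g * ((l0 : ℝ) - l) ≤ |c - g * l| := by
        refine le_trans ?_ (le_abs_self _)
        linarith
      linarith
  · apply geom_part hg _ (fun l => ((l : ℤ) - l0 - 1).toNat)
    · intro a ha b hb hab
      simp only [Finset.coe_filter, Set.mem_ofPred_eq, not_le] at ha hb
      have h1 : (a : ℤ) - l0 - 1 = (b : ℤ) - l0 - 1 := by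
        have h : (((a : ℤ) - l0 - 1).toNat : ℤ) = (((b : ℤ) - l0 - 1).toNat : ℤ) := by
          exact_mod_cast hab
        rwa [Int.toNat_of_nonneg (by omega), Int.toNat_of_nonneg (by omega)] at h
      omega
    · intro l hl
      rw [Finset.mem_filter, not_le] at hl
      rw [← Real.exp_nat_mul]
      apply Real.exp_le_exp.mpr
      have hcast : ((((l : ℤ) - l0 - 1).toNat : ℕ) : ℝ) = (l : ℝ) - l0 - 1 := by
        have : ((((l : ℤ) - l0 - 1).toNat : ℤ)) = l - l0 - 1 := Int.toNat_of_nonneg (by omega)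
        exact_mod_cast this
      rw [hcast]
      have : g * ((l : ℝ) - l0 - 1) ≤ |c - g * l| := by
        rw [abs_sub_comm]
        refine le_trans ?_ (le_abs_self _)
        linarith
      linarith

theorem inv_one_sub_exp {η : ℝ} (hη : 0 < η) :
    2 * (1 - Real.exp (-(2 * η)))⁻¹ ≤ 2 + 1 / η := by
  have h1 : 1 + 2 * η ≤ Real.exp (2 * η) := by
    have := Real.add_one_le_exp (2 * η); linarith
  have h2 : Real.exp (-(2 * η)) ≤ 1 / (1 + 2 * η) := by
    rw [Real.exp_neg, ← one_div]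
    exact one_div_le_one_div_of_le (by linarith) h1
  have h3 : 2 * η / (1 + 2 * η) ≤ 1 - Real.exp (-(2 * η)) := by
    have : 2 * η / (1 + 2 * η) = 1 - 1 / (1 + 2 * η) := by field_simp; ring
    rw [this]; linarith
  have h4 : 0 < 2 * η / (1 + 2 * η) := by positivity
  calc 2 * (1 - Real.exp (-(2 * η)))⁻¹ ≤ 2 * (2 * η / (1 + 2 * η))⁻¹ :=
        mul_le_mul_of_nonneg_left (inv_anti₀ h4 h3) (by norm_num)
    _ = 2 + 1 / η := by field_simp; ring

theorem centralBinom_bound (q : ℕ) : (Nat.centralBinom q) ^ 2 * (2 * q + 1) ≤ 16 ^ q := by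
  induction q with
  | zero => simp
  | succ q ih =>
    have h := Nat.succ_mul_centralBinom_succ q
    have h2 : ((q + 1) * Nat.centralBinom (q + 1)) ^ 2 = (2 * (2 * q + 1) * Nat.centralBinom q) ^ 2 := by
      rw [h]
    have h3 : (q + 1) ^ 2 * ((Nat.centralBinom (q + 1)) ^ 2 * (2 * (q + 1) + 1))
        = 4 * (2 * q + 1) * (2 * q + 3) * ((Nat.centralBinom q) ^ 2 * (2 * q + 1)) := by
      calc (q + 1) ^ 2 * ((Nat.centralBinom (q + 1)) ^ 2 * (2 * (q + 1) + 1))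
          = ((q + 1) * Nat.centralBinom (q + 1)) ^ 2 * (2 * q + 3) := by ring
        _ = _ := by rw [h2]; ring
    have h4 : (q + 1) ^ 2 * ((Nat.centralBinom (q + 1)) ^ 2 * (2 * (q + 1) + 1))
        ≤ (q + 1) ^ 2 * 16 ^ (q + 1) := by
      rw [h3]
      calc 4 * (2 * q + 1) * (2 * q + 3) * ((Nat.centralBinom q) ^ 2 * (2 * q + 1))
          ≤ 4 * (2 * q + 1) * (2 * q + 3) * 16 ^ q := Nat.mul_le_mul_left _ ih
        _ ≤ (q + 1) ^ 2 * 16 * 16 ^ q := Nat.mul_le_mul_right _ (by nlinarith)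
        _ = (q + 1) ^ 2 * 16 ^ (q + 1) := by ring
    exact Nat.le_of_mul_le_mul_left h4 (by positivity)

theorem bw_le (q l : ℕ) : bw (2 * q) l ≤ 1 / Real.sqrt (2 * q + 1) := by
  have h1 : ((2 * q).choose l : ℝ) ≤ Nat.centralBinom q := by
    exact_mod_cast Nat.choose_le_centralBinom l q
  have h2 : ((Nat.centralBinom q : ℝ)) ^ 2 * (2 * q + 1) ≤ 16 ^ q := by
    exact_mod_cast centralBinom_bound q
  have hs : 0 < Real.sqrt (2 * q + 1) := Real.sqrt_pos.mpr (by positivity)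
  unfold bw
  rw [div_le_div_iff₀ (by positivity) hs, one_mul]
  have h3 : (Nat.centralBinom q : ℝ) * Real.sqrt (2 * q + 1) ≤ 2 ^ (2 * q) := by
    refine (pow_le_pow_iff_left₀ (by positivity) (by positivity) two_ne_zero).mp ?_
    rw [mul_pow, Real.sq_sqrt (by positivity), ← pow_mul]
    calc (Nat.centralBinom q : ℝ) ^ 2 * (2 * q + 1) ≤ 16 ^ q := h2
      _ = 2 ^ (2 * q * 2) := by
        rw [show (16 : ℝ) = 2 ^ 4 by norm_num, ← pow_mul]; congr 1; ring
  exact (mul_le_mul_of_nonneg_right h1 hs.le).trans h3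

/-- the bound for one block direction -/
noncomputable def beta (m : ℕ) (h : ℝ) : ℝ :=
  Real.exp (1 / 2) * (2 + 1 / h) / Real.sqrt (m + 1)

theorem beta_bound (q : ℕ) {h η : ℝ} (hh : 0 < h) (hη : h ≤ η) (c : ℝ) :
    ∑ l ∈ range (2 * q + 1), bw (2 * q) l *
      Real.exp (-(c + (((2 * q : ℕ) : ℝ) - 2 * l) * η) ^ 2 / 2) ≤ beta (2 * q) h := by
  have hη0 : 0 < η := lt_of_lt_of_le hh hη
  have hs : 0 < Real.sqrt (2 * q + 1) := Real.sqrt_pos.mpr (by positivity)
  have h1 : ∀ l ∈ range (2 * q + 1), bw (2 * q) l *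
      Real.exp (-(c + (((2 * q : ℕ) : ℝ) - 2 * l) * η) ^ 2 / 2) ≤
      (1 / Real.sqrt (2 * q + 1)) * (Real.exp (1 / 2) *
        Real.exp (-|(c + 2 * q * η) - (2 * η) * l|)) := by
    intro l _
    apply mul_le_mul (bw_le q l) _ (Real.exp_pos _).le (by positivity)
    rw [← Real.exp_add]
    apply Real.exp_le_exp.mpr
    have e : c + (((2 * q : ℕ) : ℝ) - 2 * l) * η = (c + 2 * q * η) - (2 * η) * l := by
      push_cast; ring
    rw [e]
    generalize (c + 2 * q * η) - (2 * η) * (l : ℝ) = y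
    have : y ^ 2 = |y| ^ 2 := (sq_abs y).symm
    rw [this]
    nlinarith [sq_nonneg (|y| - 1)]
  refine (Finset.sum_le_sum h1).trans ?_
  rw [← Finset.mul_sum, ← Finset.mul_sum]
  have h2 := sum_exp_abs (g := 2 * η) (by linarith) (c + 2 * q * η) (range (2 * q + 1))
  have h3 := inv_one_sub_exp hη0
  have h4 : 1 / η ≤ 1 / h := one_div_le_one_div_of_le hh hη
  unfold beta
  have h5 : ∑ i ∈ range (2 * q + 1), Real.exp (-|c + 2 * q * η - 2 * η * i|) ≤ 2 + 1 / h := by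
    linarith
  have h6 : Real.exp (1 / 2) * ∑ i ∈ range (2 * q + 1), Real.exp (-|c + 2 * q * η - 2 * η * i|)
      ≤ Real.exp (1 / 2) * (2 + 1 / h) := mul_le_mul_of_nonneg_left h5 (Real.exp_pos _).le
  calc 1 / Real.sqrt (2 * q + 1) * (Real.exp (1 / 2) *
        ∑ i ∈ range (2 * q + 1), Real.exp (-|c + 2 * q * η - 2 * η * i|))
      ≤ 1 / Real.sqrt (2 * q + 1) * (Real.exp (1 / 2) * (2 + 1 / h)) :=
        mul_le_mul_of_nonneg_left h6 (by positivity)
    _ = Real.exp (1 / 2) * (2 + 1 / h) / Real.sqrt (((2 * q : ℕ) : ℝ) + 1) := by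
        push_cast; ring

theorem beta_pos (m : ℕ) {h : ℝ} (hh : 0 < h) : 0 < beta m h := by
  unfold beta
  have : 0 < Real.sqrt ((m : ℝ) + 1) := Real.sqrt_pos.mpr (by positivity)
  positivity

/-! ### The geometric step -/

variable {E : Type*} [NormedAddCommGroup E] [InnerProductSpace ℝ E] [FiniteDimensional ℝ E]

/-- distance to a subspace, through the orthogonal projection -/
noncomputable def nd (V : Submodule ℝ E) (x : E) : ℝ := ‖x - V.starProjection x‖

theorem nd_le (V : Submodule ℝ E) (x y : E) (hy : y ∈ V) : nd V x ≤ ‖x - y‖ := by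
  unfold nd
  have h1 : x - V.starProjection x ∈ Vᗮ := V.sub_starProjection_mem_orthogonal x
  have h2 : V.starProjection x - y ∈ V := V.sub_mem (V.starProjection_apply_mem x) hy
  have h3 : x - y = (x - V.starProjection x) + (V.starProjection x - y) := by abel
  have h4 : inner ℝ (x - V.starProjection x) (V.starProjection x - y) = 0 := by
    rw [real_inner_comm]; exact h1 _ h2
  have h5 : ‖x - y‖ ^ 2 = ‖x - V.starProjection x‖ ^ 2 + ‖V.starProjection x - y‖ ^ 2 := by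
    rw [h3, norm_add_sq_real, h4]; ring
  refine (pow_le_pow_iff_left₀ (norm_nonneg _) (norm_nonneg _) two_ne_zero).mp ?_
  rw [h5]; nlinarith [sq_nonneg ‖V.starProjection x - y‖]

theorem nd_step (V V' : Submodule ℝ E) (v : E) (hV : V ≤ V') (hv : v ∈ V') (hη : 0 < nd V v)
    (x : E) : ∃ c : ℝ, ∀ s : ℝ, nd V' x ^ 2 + (c + s * nd V v) ^ 2 ≤ nd V (x + s • v) ^ 2 := by
  obtain ⟨w, hw⟩ : ∃ w, w = v - V.starProjection v := ⟨_, rfl⟩
  obtain ⟨z, hz⟩ : ∃ z, z = x - V.starProjection x := ⟨_, rfl⟩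
  have hwn : nd V v = ‖w‖ := by rw [hw]; rfl
  have hw0 : 0 < ‖w‖ := hwn ▸ hη
  refine ⟨inner ℝ z w / ‖w‖, fun s => ?_⟩
  have h1 : nd V (x + s • v) = ‖z + s • w‖ := by
    unfold nd
    rw [map_add, map_smul, hz, hw]
    congr 1
    module
  have h2 : nd V' x ≤ ‖z - (inner ℝ z w / ‖w‖ ^ 2) • w‖ := by
    have h := nd_le V' x (V.starProjection x + (inner ℝ z w / ‖w‖ ^ 2) • w) (by
      apply V'.add_mem (hV (V.starProjection_apply_mem x))
      apply V'.smul_mem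
      rw [hw]
      exact V'.sub_mem hv (hV (V.starProjection_apply_mem v)))
    rwa [← sub_sub, ← hz] at h
  have h3 : ‖z - (inner ℝ z w / ‖w‖ ^ 2) • w‖ ^ 2 = ‖z‖ ^ 2 - (inner ℝ z w) ^ 2 / ‖w‖ ^ 2 := by
    rw [norm_sub_sq_real, inner_smul_right, norm_smul, mul_pow, Real.norm_eq_abs, sq_abs]
    field_simp
    ring
  have h4 : ‖z + s • w‖ ^ 2 = ‖z‖ ^ 2 + 2 * (s * inner ℝ z w) + s ^ 2 * ‖w‖ ^ 2 := by
    rw [norm_add_sq_real, inner_smul_right, norm_smul, mul_pow, Real.norm_eq_abs, sq_abs]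
  have h5 : nd V' x ^ 2 ≤ ‖z‖ ^ 2 - (inner ℝ z w) ^ 2 / ‖w‖ ^ 2 := by
    rw [← h3]
    exact pow_le_pow_left₀ (norm_nonneg _) h2 2
  rw [h1, hwn, h4]
  have h6 : (inner ℝ z w / ‖w‖ + s * ‖w‖) ^ 2 =
      (inner ℝ z w) ^ 2 / ‖w‖ ^ 2 + 2 * (s * inner ℝ z w) + s ^ 2 * ‖w‖ ^ 2 := by
    field_simp
    ring
  rw [h6]
  linarith

/-- The Gaussian average of `k` blocks of `2q` signs with directions `h`-far from the preceding
ones is at most `beta ^ k`. -/
theorem R_le (q : ℕ) {h : ℝ} (hh : 0 < h) (v : ℕ → E) (V : ℕ → Submodule ℝ E)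
    (hV : ∀ k, V k ≤ V (k + 1)) (hv : ∀ k, v k ∈ V (k + 1)) (k : ℕ)
    (hd : ∀ j < k, h ≤ nd (V j) (v j)) :
    ∀ x : E, R (2 * q) v k x ≤ beta (2 * q) h ^ k * Real.exp (-(nd (V k) x) ^ 2 / 2) := by
  induction k with
  | zero =>
    intro x
    rw [pow_zero, one_mul]
    apply Real.exp_le_exp.mpr
    have : nd (V 0) x ≤ ‖x‖ := by simpa using nd_le (V 0) x 0 (V 0).zero_mem
    have h0 : 0 ≤ nd (V 0) x := norm_nonneg _
    nlinarith
  | succ k ih =>
    intro x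
    have ih' := ih (fun j hj => hd j (by omega))
    have hη : h ≤ nd (V k) (v k) := hd k (by omega)
    obtain ⟨c, hc⟩ := nd_step (V k) (V (k + 1)) (v k) (hV k) (hv k) (lt_of_lt_of_le hh hη) x
    have hb := (beta_pos (2 * q) hh).le
    show ∑ l ∈ range (2 * q + 1), bw (2 * q) l *
      R (2 * q) v k (x + (((2 * q : ℕ) : ℝ) - 2 * l) • v k) ≤ _
    have h1 : ∀ l ∈ range (2 * q + 1), bw (2 * q) l *
        R (2 * q) v k (x + (((2 * q : ℕ) : ℝ) - 2 * l) • v k) ≤
        (beta (2 * q) h ^ k * Real.exp (-(nd (V (k + 1)) x) ^ 2 / 2)) * (bw (2 * q) l *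
          Real.exp (-(c + (((2 * q : ℕ) : ℝ) - 2 * l) * nd (V k) (v k)) ^ 2 / 2)) := by
      intro l _
      have e1 := ih' (x + (((2 * q : ℕ) : ℝ) - 2 * l) • v k)
      have e2 : Real.exp (-(nd (V k) (x + (((2 * q : ℕ) : ℝ) - 2 * l) • v k)) ^ 2 / 2) ≤
          Real.exp (-(nd (V (k + 1)) x) ^ 2 / 2) *
          Real.exp (-(c + (((2 * q : ℕ) : ℝ) - 2 * l) * nd (V k) (v k)) ^ 2 / 2) := by
        rw [← Real.exp_add]
        apply Real.exp_le_exp.mpr
        have := hc (((2 * q : ℕ) : ℝ) - 2 * l)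
        linarith
      calc bw (2 * q) l * R (2 * q) v k (x + (((2 * q : ℕ) : ℝ) - 2 * l) • v k)
          ≤ bw (2 * q) l * (beta (2 * q) h ^ k *
            (Real.exp (-(nd (V (k + 1)) x) ^ 2 / 2) *
            Real.exp (-(c + (((2 * q : ℕ) : ℝ) - 2 * l) * nd (V k) (v k)) ^ 2 / 2))) := by
            apply mul_le_mul_of_nonneg_left _ (bw_nonneg _ _)
            exact e1.trans (mul_le_mul_of_nonneg_left e2 (pow_nonneg hb k))
        _ = _ := by ring
    refine (Finset.sum_le_sum h1).trans ?_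
    rw [← Finset.mul_sum]
    have h2 := beta_bound q hh hη c
    calc (beta (2 * q) h ^ k * Real.exp (-(nd (V (k + 1)) x) ^ 2 / 2)) * _
        ≤ (beta (2 * q) h ^ k * Real.exp (-(nd (V (k + 1)) x) ^ 2 / 2)) * beta (2 * q) h :=
          mul_le_mul_of_nonneg_left h2 (mul_nonneg (pow_nonneg hb k) (Real.exp_pos _).le)
      _ = _ := by ring

end Pool.Agent.R153.LO
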