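import Pool.Agent.R153.LO2

set_option autoImplicit false

namespace Pool.Agent.R153.LO

open Finset MeasureTheory ProbabilityTheory

/-- the sign of a Boolean -/
def sg (b : Bool) : ℝ := if b then 1 else -1

theorem sum_cos {n : ℕ} (θ : Fin n → ℝ) (φ : ℝ) :
    ∑ s : Fin n → Bool, Real.cos (∑ i, sg (s i) * θ i - φ) =
      2 ^ n * (Real.cos φ * ∏ i, Real.cos (θ i)) := by
  have h : ∑ s : Fin n → Bool, Complex.exp (((∑ i, sg (s i) * θ i - φ : ℝ) : ℂ) * Complex.I) =
      Complex.exp ((-φ : ℝ) * Complex.I) * (((2 ^ n * ∏ i, Real.cos (θ i) : ℝ)) : ℂ) := by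
    have h1 : ∀ i, (∑ b : Bool, Complex.exp ((sg b * θ i : ℝ) * Complex.I)) =
        ((2 * Real.cos (θ i) : ℝ) : ℂ) := by
      intro i
      rw [Fintype.sum_bool]
      simp only [sg, if_true, Bool.false_eq_true, if_false, one_mul]
      push_cast
      rw [Complex.cos]
      ring_nf
    have h2 : ∏ i, (∑ b : Bool, Complex.exp ((sg b * θ i : ℝ) * Complex.I)) =
        ∑ s : Fin n → Bool, ∏ i, Complex.exp ((sg (s i) * θ i : ℝ) * Complex.I) := by
      rw [Finset.prod_univ_sum, Fintype.piFinset_univ]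
    have h3 : (((2 ^ n * ∏ i, Real.cos (θ i) : ℝ)) : ℂ) =
        ∏ i, (∑ b : Bool, Complex.exp ((sg b * θ i : ℝ) * Complex.I)) := by
      rw [Finset.prod_congr rfl (fun i _ => h1 i)]
      push_cast
      rw [Finset.prod_mul_distrib]
      simp
    rw [h3, h2, Finset.mul_sum]
    apply Finset.sum_congr rfl
    intro s _
    rw [← Complex.exp_sum, ← Complex.exp_add]
    congr 1
    push_cast
    rw [sub_mul, Finset.sum_mul]
    ring
  have h' := congrArg Complex.re h
  rw [Complex.re_sum, Complex.re_mul_ofReal, Complex.exp_ofReal_mul_I_re, Real.cos_neg] at h'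
  simp only [Complex.exp_ofReal_mul_I_re] at h'
  rw [h']
  ring

variable {E : Type*} [NormedAddCommGroup E] [InnerProductSpace ℝ E] [FiniteDimensional ℝ E]
  [MeasurableSpace E] [BorelSpace E]

/-- the signed sum -/
noncomputable def signSum {n : ℕ} (a : Fin n → E) (s : Fin n → Bool) : E := ∑ i, sg (s i) • a i

theorem sum_gauss {n : ℕ} (b : Fin n → E) (y : E) :
    ∑ s : Fin n → Bool, Real.exp (-‖signSum b s - y‖ ^ 2 / 2) =
      2 ^ n * ∫ ξ, Real.cos (inner ℝ ξ y) * ∏ i, Real.cos (inner ℝ ξ (b i)) ∂(stdGaussian E) := by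
  have h1 : ∀ s : Fin n → Bool, Real.exp (-‖signSum b s - y‖ ^ 2 / 2) =
      ∫ ξ, Real.cos (∑ i, sg (s i) * inner ℝ ξ (b i) - inner ℝ ξ y) ∂(stdGaussian E) := by
    intro s
    rw [← integral_cos]
    congr 1
    funext ξ
    congr 1
    unfold signSum
    rw [inner_sub_right, inner_sum]
    simp_rw [inner_smul_right]
  rw [Finset.sum_congr rfl (fun s _ => h1 s), ← integral_finsetSum]
  · rw [← integral_const_mul]
    congr 1
    funext ξ
    exact sum_cos _ _
  · intro s _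
    apply Integrable.of_bound (C := 1)
    · exact Continuous.aestronglyMeasurable (by fun_prop)
    · exact Filter.Eventually.of_forall fun ξ => by
        rw [Real.norm_eq_abs]; exact Real.abs_cos_le_one _

theorem holder_prod {m : ℕ} (hm : 0 < m) (g : Fin m → E → ℝ) (hg : ∀ t, Continuous (g t))
    (hg0 : ∀ t ξ, 0 ≤ g t ξ) (hg1 : ∀ t ξ, g t ξ ≤ 1) (B : ℝ) (hB : 0 ≤ B)
    (h : ∀ t, ∫ ξ, (g t ξ) ^ m ∂(stdGaussian E) ≤ B) :
    ∫ ξ, ∏ t, g t ξ ∂(stdGaussian E) ≤ B := by
  have hm0 : (m : ℝ) ≠ 0 := by positivity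
  have hint : ∀ t, Integrable (fun ξ => (g t ξ) ^ m) (stdGaussian E) := by
    intro t
    apply Integrable.of_bound (C := 1)
    · exact (hg t).pow m |>.aestronglyMeasurable
    · exact Filter.Eventually.of_forall fun ξ => by
        rw [Real.norm_eq_abs, abs_of_nonneg (pow_nonneg (hg0 t ξ) m)]
        exact pow_le_one₀ (hg0 t ξ) (hg1 t ξ)
  have hintP : Integrable (fun ξ => ∏ t, g t ξ) (stdGaussian E) := by
    apply Integrable.of_bound (C := 1)
    · exact (continuous_finsetProd _ fun t _ => hg t).aestronglyMeasurable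
    · exact Filter.Eventually.of_forall fun ξ => by
        rw [Real.norm_eq_abs, abs_of_nonneg (Finset.prod_nonneg fun t _ => hg0 t ξ)]
        exact Finset.prod_le_one (fun t _ => hg0 t ξ) (fun t _ => hg1 t ξ)
  have key := ENNReal.lintegral_prod_norm_pow_le (μ := stdGaussian E) (Finset.univ : Finset (Fin m))
    (f := fun t ξ => ENNReal.ofReal ((g t ξ) ^ m))
    (fun t _ => ((hg t).pow m).measurable.ennreal_ofReal.aemeasurable)
    (p := fun _ => (m : ℝ)⁻¹) (by simp [hm0]) (fun _ _ => by positivity)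
  have h1 : ∀ ξ, ∏ t, (ENNReal.ofReal ((g t ξ) ^ m)) ^ ((m : ℝ)⁻¹) =
      ENNReal.ofReal (∏ t, g t ξ) := by
    intro ξ
    rw [ENNReal.ofReal_prod_of_nonneg (fun t _ => hg0 t ξ)]
    apply Finset.prod_congr rfl
    intro t _
    rw [ENNReal.ofReal_rpow_of_nonneg (pow_nonneg (hg0 t ξ) m) (by positivity),
      Real.pow_rpow_inv_natCast (hg0 t ξ) hm.ne']
  simp_rw [h1] at key
  rw [← ofReal_integral_eq_lintegral_ofReal hintP
    (Filter.Eventually.of_forall fun ξ => Finset.prod_nonneg fun t _ => hg0 t ξ)] at key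
  have h2 : ∀ t : Fin m, (∫⁻ ξ, ENNReal.ofReal ((g t ξ) ^ m) ∂(stdGaussian E)) ^ ((m : ℝ)⁻¹) ≤
      (ENNReal.ofReal B) ^ ((m : ℝ)⁻¹) := by
    intro t
    apply ENNReal.rpow_le_rpow _ (by positivity)
    rw [← ofReal_integral_eq_lintegral_ofReal (hint t)
      (Filter.Eventually.of_forall fun ξ => pow_nonneg (hg0 t ξ) m)]
    exact ENNReal.ofReal_le_ofReal (h t)
  have h3 : ∏ t : Fin m, (∫⁻ ξ, ENNReal.ofReal ((g t ξ) ^ m) ∂(stdGaussian E)) ^ ((m : ℝ)⁻¹) ≤
      ENNReal.ofReal B := by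
    refine (Finset.prod_le_prod' fun t _ => h2 t).trans ?_
    rw [Finset.prod_const, Finset.card_univ, Fintype.card_fin, ← ENNReal.rpow_natCast,
      ← ENNReal.rpow_mul, inv_mul_cancel₀ hm0, ENNReal.rpow_one]
  exact (ENNReal.ofReal_le_ofReal_iff hB).mp (key.trans h3)

end Pool.Agent.R153.LO
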