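import Pool.Agent.R153.LO3

set_option autoImplicit false

namespace Pool.Agent.R153.LO

open Finset MeasureTheory ProbabilityTheory

variable {E : Type*} [NormedAddCommGroup E] [InnerProductSpace ℝ E] [FiniteDimensional ℝ E]
  [MeasurableSpace E] [BorelSpace E]

omit [MeasurableSpace E] [BorelSpace E] in
theorem nd_smul (V : Submodule ℝ E) (c : ℝ) (hc : 0 ≤ c) (x : E) : nd V (c • x) = c * nd V x := by
  unfold nd
  rw [map_smul, ← smul_sub, norm_smul, Real.norm_eq_abs, abs_of_nonneg hc]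

open Classical in
/-- The Fourier-analytic bound: an arbitrary family of `m` disjoint blocks of `k` of the vectors,
each block being `δ`-independent. -/
theorem concentration {n : ℕ} (a : Fin n → E) (x0 : E) {r δ : ℝ} (hr : 0 < r) (hδ : 0 < δ)
    (q k : ℕ) (hq : 0 < q) (f : Fin (2 * q) → ℕ → Fin n)
    (hf : ∀ t j t' j', j < k → j' < k → f t j = f t' j' → t = t' ∧ j = j')
    (hd : ∀ t, ∀ j < k, δ ≤ nd (Submodule.span ℝ ((fun l => a (f t l)) '' {l | l < j})) (a (f t j))) :
    ((Finset.univ.filter fun s : Fin n → Bool => signSum a s ∈ Metric.closedBall x0 r).card : ℝ)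
      / 2 ^ n ≤ Real.exp (1 / 2) * beta (2 * q) (δ / r) ^ k := by
  obtain ⟨b, hb⟩ : ∃ b : Fin n → E, b = fun i => r⁻¹ • a i := ⟨_, rfl⟩
  have hsb : ∀ s, signSum b s = r⁻¹ • signSum a s := by
    intro s
    unfold signSum
    rw [Finset.smul_sum]
    apply Finset.sum_congr rfl
    intro i _
    rw [hb, smul_comm]
  have hri : 0 < r⁻¹ := inv_pos.mpr hr
  -- counting is bounded by the Gaussian sum
  have h1 : ((Finset.univ.filter fun s : Fin n → Bool =>
      signSum a s ∈ Metric.closedBall x0 r).card : ℝ) ≤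
      Real.exp (1 / 2) * ∑ s : Fin n → Bool, Real.exp (-‖signSum b s - r⁻¹ • x0‖ ^ 2 / 2) := by
    rw [Finset.mul_sum, Finset.card_filter, Nat.cast_sum]
    apply Finset.sum_le_sum
    intro s _
    rw [← Real.exp_add]
    split_ifs with hs
    · rw [Nat.cast_one]
      apply Real.one_le_exp
      rw [Metric.mem_closedBall, dist_eq_norm] at hs
      have e : ‖signSum b s - r⁻¹ • x0‖ ≤ 1 := by
        rw [hsb, ← smul_sub, norm_smul, Real.norm_eq_abs, abs_of_pos hri, inv_mul_le_iff₀ hr, mul_one]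
        exact hs
      nlinarith [norm_nonneg (signSum b s - r⁻¹ • x0)]
    · rw [Nat.cast_zero]; exact (Real.exp_pos _).le
  rw [sum_gauss] at h1
  -- drop the phase and the unused vectors
  obtain ⟨g, hg⟩ : ∃ g : Fin (2 * q) → E → ℝ,
      g = fun t ξ => ∏ j ∈ range k, |Real.cos (inner ℝ ξ (b (f t j)))| := ⟨_, rfl⟩
  have hg0 : ∀ t ξ, 0 ≤ g t ξ := by
    intro t ξ; rw [hg]; exact Finset.prod_nonneg fun _ _ => abs_nonneg _
  have hg1 : ∀ t ξ, g t ξ ≤ 1 := by
    intro t ξ; rw [hg]
    exact Finset.prod_le_one (fun _ _ => abs_nonneg _) (fun _ _ => Real.abs_cos_le_one _)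
  have hgc : ∀ t, Continuous (g t) := by
    intro t; rw [hg]; fun_prop
  have hpt : ∀ ξ : E, Real.cos (inner ℝ ξ (r⁻¹ • x0)) * ∏ i, Real.cos (inner ℝ ξ (b i)) ≤
      ∏ t, g t ξ := by
    intro ξ
    have hprod : ∏ t, g t ξ = ∏ i ∈ (Finset.univ ×ˢ range k).image
        (fun p : Fin (2 * q) × ℕ => f p.1 p.2), |Real.cos (inner ℝ ξ (b i))| := by
      rw [Finset.prod_image, Finset.prod_product, hg]
      rintro ⟨t, j⟩ h ⟨t', j'⟩ h' hh
      simp only [Finset.coe_product, Set.mem_prod, Finset.mem_coe, Finset.mem_univ, true_and,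
        Finset.mem_range] at h h'
      obtain ⟨e1, e2⟩ := hf t j t' j' h h' hh
      rw [e1, e2]
    rw [hprod]
    calc Real.cos (inner ℝ ξ (r⁻¹ • x0)) * ∏ i, Real.cos (inner ℝ ξ (b i))
        ≤ |Real.cos (inner ℝ ξ (r⁻¹ • x0)) * ∏ i, Real.cos (inner ℝ ξ (b i))| := le_abs_self _
      _ = |Real.cos (inner ℝ ξ (r⁻¹ • x0))| * ∏ i, |Real.cos (inner ℝ ξ (b i))| := by
          rw [abs_mul, Finset.abs_prod]
      _ ≤ 1 * ∏ i, |Real.cos (inner ℝ ξ (b i))| :=
          mul_le_mul_of_nonneg_right (Real.abs_cos_le_one _)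
            (Finset.prod_nonneg fun _ _ => abs_nonneg _)
      _ = ∏ i, |Real.cos (inner ℝ ξ (b i))| := one_mul _
      _ ≤ _ := by
          exact Finset.prod_le_prod_of_subset_of_le_one (Finset.subset_univ _)
            (fun _ _ => abs_nonneg _) (fun _ _ _ => Real.abs_cos_le_one _)
  have hr1 : ∫ ξ, Real.cos (inner ℝ ξ (r⁻¹ • x0)) * ∏ i, Real.cos (inner ℝ ξ (b i))
      ∂(stdGaussian E) ≤ ∫ ξ, ∏ t, g t ξ ∂(stdGaussian E) := by
    apply integral_mono
    · apply Integrable.of_bound (C := 1)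
      · exact Continuous.aestronglyMeasurable (by fun_prop)
      · refine Filter.Eventually.of_forall fun ξ => ?_
        rw [Real.norm_eq_abs, abs_mul, Finset.abs_prod]
        exact mul_le_one₀ (Real.abs_cos_le_one _) (Finset.prod_nonneg fun _ _ => abs_nonneg _)
          (Finset.prod_le_one (fun _ _ => abs_nonneg _) (fun _ _ => Real.abs_cos_le_one _))
    · apply Integrable.of_bound (C := 1)
      · exact (continuous_finsetProd _ fun t _ => hgc t).aestronglyMeasurable
      · refine Filter.Eventually.of_forall fun ξ => ?_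
        rw [Real.norm_eq_abs, abs_of_nonneg (Finset.prod_nonneg fun t _ => hg0 t ξ)]
        exact Finset.prod_le_one (fun t _ => hg0 t ξ) (fun t _ => hg1 t ξ)
    · exact hpt
  -- the block bound
  have hh : 0 < δ / r := div_pos hδ hr
  have hB : 0 ≤ beta (2 * q) (δ / r) ^ k := pow_nonneg (beta_pos _ hh).le k
  have hblock : ∀ t, ∫ ξ, (g t ξ) ^ (2 * q) ∂(stdGaussian E) ≤ beta (2 * q) (δ / r) ^ k := by
    intro t
    obtain ⟨V, hV⟩ : ∃ V : ℕ → Submodule ℝ E,
      V = fun j => Submodule.span ℝ ((fun l => a (f t l)) '' {l | l < j}) := ⟨_, rfl⟩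
    have e1 : ∀ ξ : E, (g t ξ) ^ (2 * q) = Real.cos (inner ℝ ξ (0 : E)) *
        ∏ j ∈ range k, (Real.cos (inner ℝ ξ ((fun l => b (f t l)) j))) ^ (2 * q) := by
      intro ξ
      rw [inner_zero_right, Real.cos_zero, one_mul, hg, ← Finset.prod_pow]
      apply Finset.prod_congr rfl
      intro j _
      rw [pow_mul, pow_mul, sq_abs]
    simp_rw [e1]
    rw [integral_eq_R]
    refine (R_le q hh (fun l => b (f t l)) V ?_ ?_ k ?_ 0).trans ?_
    · intro j
      rw [hV]
      apply Submodule.span_mono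
      apply Set.image_mono
      intro l hl
      exact Nat.lt_succ_of_lt hl
    · intro j
      rw [hV, hb]
      apply Submodule.smul_mem
      apply Submodule.subset_span
      exact ⟨j, Nat.lt_succ_self j, rfl⟩
    · intro j hj
      rw [hV, hb, nd_smul _ _ hri.le]
      have := hd t j hj
      rw [div_eq_inv_mul]
      exact mul_le_mul_of_nonneg_left this hri.le
    · have : Real.exp (-(nd (V k) 0) ^ 2 / 2) ≤ 1 := by
        rw [← Real.exp_zero]
        apply Real.exp_le_exp.mpr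
        nlinarith [sq_nonneg (nd (V k) (0 : E))]
      calc beta (2 * q) (δ / r) ^ k * Real.exp (-(nd (V k) 0) ^ 2 / 2)
          ≤ beta (2 * q) (δ / r) ^ k * 1 := mul_le_mul_of_nonneg_left this hB
        _ = _ := mul_one _
  have hfin := holder_prod (by omega : 0 < 2 * q) g hgc hg0 hg1 _ hB hblock
  rw [div_le_iff₀ (by positivity)]
  calc ((Finset.univ.filter fun s : Fin n → Bool =>
      signSum a s ∈ Metric.closedBall x0 r).card : ℝ) ≤ _ := h1
    _ ≤ Real.exp (1 / 2) * (2 ^ n * beta (2 * q) (δ / r) ^ k) := by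
        apply mul_le_mul_of_nonneg_left _ (Real.exp_pos _).le
        exact mul_le_mul_of_nonneg_left (hr1.trans hfin) (by positivity)
    _ = Real.exp (1 / 2) * beta (2 * q) (δ / r) ^ k * 2 ^ n := by ring

end Pool.Agent.R153.LO
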