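import Pool.Agent.R153.LO4

set_option autoImplicit false

namespace Pool.Agent.R153.LO

open Finset

section greedy

variable {E : Type*} [NormedAddCommGroup E] [InnerProductSpace ℝ E] [FiniteDimensional ℝ E]

omit [FiniteDimensional ℝ E] in
open Classical in
/-- Greedy choice of `M` different vectors, in consecutive blocks of length `k`, each `δ`-far from
the span of the preceding ones of its block. -/
theorem greedy {n : ℕ} [Nonempty (Fin n)] (a : Fin n → E) (δ : ℝ) (k M : ℕ) (hk : 0 < k)
    (h : ∀ S : Submodule ℝ E, Module.finrank ℝ S < k →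
      M ≤ (Finset.univ.filter fun i => δ < Metric.infDist (a i) (S : Set E)).card)
    (p : ℕ) (hp : p ≤ M) : ∃ F : ℕ → Fin n, ∀ l < p, (∀ l' < l, F l' ≠ F l) ∧
      δ < Metric.infDist (a (F l)) (Submodule.span ℝ
        ((fun l' => a (F l')) '' {l' | k * (l / k) ≤ l' ∧ l' < l}) : Set E) := by
  induction p with
  | zero => exact ⟨fun _ => Classical.arbitrary _, fun l hl => absurd hl (Nat.not_lt_zero l)⟩
  | succ p ih =>
    obtain ⟨F, hF⟩ := ih (by omega)
    obtain ⟨S, hS⟩ : ∃ S : Submodule ℝ E, S = Submodule.span ℝ
        ((fun l' => a (F l')) '' {l' | k * (p / k) ≤ l' ∧ l' < p}) := ⟨_, rfl⟩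
    have hfr : Module.finrank ℝ S < k := by
      have e : (fun l' => a (F l')) '' {l' | k * (p / k) ≤ l' ∧ l' < p} =
          (((Finset.Ico (k * (p / k)) p).image (fun l' => a (F l')) : Finset E) : Set E) := by
        rw [Finset.coe_image]
        congr 1
        ext l
        simp
      rw [hS, e]
      refine lt_of_le_of_lt (finrank_span_finset_le_card _) ?_
      refine lt_of_le_of_lt Finset.card_image_le ?_
      rw [Nat.card_Ico]
      have h1 := Nat.div_add_mod p k
      have h2 := Nat.mod_lt p hk
      omega
    have hc := h S hfr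
    obtain ⟨i, hi, hi'⟩ : ∃ i ∈ Finset.univ.filter fun i => δ < Metric.infDist (a i) (S : Set E),
        i ∉ (Finset.range p).image F := by
      apply Finset.exists_mem_notMem_of_card_lt_card
      refine lt_of_le_of_lt Finset.card_image_le ?_
      rw [Finset.card_range]
      omega
    rw [Finset.mem_filter] at hi
    refine ⟨Function.update F p i, ?_⟩
    intro l hl
    rcases Nat.lt_succ_iff_lt_or_eq.mp hl with hlp | rfl
    · have e1 : ∀ l' ≤ l, Function.update F p i l' = F l' := fun l' hl' =>
        Function.update_of_ne (by omega) _ _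
      rw [e1 l le_rfl]
      refine ⟨fun l' hl' => by rw [e1 l' hl'.le]; exact (hF l hlp).1 l' hl', ?_⟩
      have e2 : (fun l' => a (Function.update F p i l')) '' {l' | k * (l / k) ≤ l' ∧ l' < l} =
          (fun l' => a (F l')) '' {l' | k * (l / k) ≤ l' ∧ l' < l} := by
        apply Set.image_congr
        intro l' hl'
        rw [e1 l' hl'.2.le]
      rw [e2]
      exact (hF l hlp).2
    · have e1 : ∀ l' < l, Function.update F l i l' = F l' := fun l' hl' =>
        Function.update_of_ne (by omega) _ _
      rw [Function.update_self]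
      refine ⟨?_, ?_⟩
      · intro l' hl' he
        rw [e1 l' hl'] at he
        exact hi' (Finset.mem_image.mpr ⟨l', Finset.mem_range.mpr hl', he⟩)
      · have e2 : (fun l' => a (Function.update F l i l')) '' {l' | k * (l / k) ≤ l' ∧ l' < l} =
            (fun l' => a (F l')) '' {l' | k * (l / k) ≤ l' ∧ l' < l} := by
          apply Set.image_congr
          intro l' hl'
          rw [e1 l' hl'.2]
        rw [e2, ← hS]
        exact hi.2

theorem infDist_le_nd (V : Submodule ℝ E) (x : E) : Metric.infDist x (V : Set E) ≤ nd V x := by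
  have := Metric.infDist_le_dist_of_mem (x := x) (V.starProjection_apply_mem x :
    V.starProjection x ∈ (V : Set E))
  rwa [dist_eq_norm] at this

end greedy

variable {E : Type*} [NormedAddCommGroup E] [InnerProductSpace ℝ E] [FiniteDimensional ℝ E]
  [MeasurableSpace E] [BorelSpace E]

open Classical in
/-- If every subspace of dimension less than `k` leaves `2 q k` of the vectors at distance more
than `δ`, then the concentration on balls of radius `r` is small. -/
theorem concentration' {n : ℕ} [Nonempty (Fin n)] (a : Fin n → E) (x0 : E) {r δ : ℝ} (hr : 0 < r)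
    (hδ : 0 < δ) (q k : ℕ) (hq : 0 < q) (hk : 0 < k)
    (h : ∀ S : Submodule ℝ E, Module.finrank ℝ S < k →
      (2 * q) * k ≤ (Finset.univ.filter fun i => δ < Metric.infDist (a i) (S : Set E)).card) :
    ((Finset.univ.filter fun s : Fin n → Bool => signSum a s ∈ Metric.closedBall x0 r).card : ℝ)
      / 2 ^ n ≤ Real.exp (1 / 2) * beta (2 * q) (δ / r) ^ k := by
  obtain ⟨F, hF⟩ := greedy a δ k ((2 * q) * k) hk h _ le_rfl
  have hlt : ∀ (t : Fin (2 * q)) (j : ℕ), j < k → t.val * k + j < (2 * q) * k := by
    intro t j hj
    calc t.val * k + j < t.val * k + k := by omega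
      _ = (t.val + 1) * k := by ring
      _ ≤ (2 * q) * k := Nat.mul_le_mul_right k t.2
  have hinj : ∀ x < (2 * q) * k, ∀ y < (2 * q) * k, F x = F y → x = y := by
    intro x hx y hy hxy
    rcases lt_trichotomy x y with h1 | h1 | h1
    · exact ((hF y hy).1 x h1 hxy).elim
    · exact h1
    · exact ((hF x hx).1 y h1 hxy.symm).elim
  apply concentration a x0 hr hδ q k hq (fun t j => F (t.val * k + j))
  · intro t j t' j' hj hj' he
    have := hinj _ (hlt t j hj) _ (hlt t' j' hj') he
    have h1 : (t.val * k + j) / k = t.val := by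
      rw [mul_comm, Nat.mul_add_div hk, Nat.div_eq_of_lt hj, add_zero]
    have h2 : (t'.val * k + j') / k = t'.val := by
      rw [mul_comm, Nat.mul_add_div hk, Nat.div_eq_of_lt hj', add_zero]
    have h3 : t.val = t'.val := by rw [← h1, ← h2, this]
    have h4 : j = j' := by rw [h3] at this; omega
    exact ⟨Fin.ext h3, h4⟩
  · intro t j hj
    have h1 := (hF _ (hlt t j hj)).2
    have h2 : (t.val * k + j) / k = t.val := by
      rw [mul_comm, Nat.mul_add_div hk, Nat.div_eq_of_lt hj, add_zero]
    have e : (fun l' => a (F l')) '' {l' | k * ((t.val * k + j) / k) ≤ l' ∧ l' < t.val * k + j} =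
        (fun l => a (F (t.val * k + l))) '' {l | l < j} := by
      rw [h2]
      ext y
      constructor
      · rintro ⟨l', ⟨h3, h4⟩, rfl⟩
        have h3' : t.val * k ≤ l' := by rw [mul_comm]; exact h3
        refine ⟨l' - t.val * k, ?_, ?_⟩
        · show l' - t.val * k < j
          omega
        · show a (F (t.val * k + (l' - t.val * k))) = a (F l')
          congr 2
          omega
      · rintro ⟨l, hl, rfl⟩
        refine ⟨t.val * k + l, ⟨?_, ?_⟩, rfl⟩
        · rw [mul_comm]; omega
        · have : l < j := hl
          omega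
    rw [e] at h1
    exact (h1.le).trans (infDist_le_nd _ _)

end Pool.Agent.R153.LO
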