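import Mathlib

/-!
# Mask lemma: a matrix close to a scaled sign matrix in the sum of absolute values has small row sums
-/

set_option autoImplicit false

namespace Pool.Agent.R153.LR

open Finset

/-- If `H` has entries `±1` and zero row sums, then every row sum of `X` is controlled by the
excess of `∑ |H - X|` over `m²` and the correlations of the rows of `X` with those of `H`. -/
theorem mask {m : ℕ} (H X : Fin m → Fin m → ℝ) (hs : ∀ a b, H a b = 1 ∨ H a b = -1)
    (hr : ∀ a, ∑ b, H a b = 0) (a : Fin m) :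
    |∑ b, X a b| + (m : ℝ) ^ 2 - m ≤
      ∑ a, ∑ b, |H a b - X a b| + ∑ a, |∑ b, H a b * X a b| := by
  have h1 : ∀ a', (m : ℝ) - |∑ b, H a' b * X a' b| ≤ ∑ b, |H a' b - X a' b| := by
    intro a'
    have hh : ∀ b, |H a' b| = 1 := by
      intro b; rcases hs a' b with h | h <;> rw [h] <;> norm_num
    have h2 : ∀ b, H a' b * (H a' b - X a' b) ≤ |H a' b - X a' b| := by
      intro b
      calc H a' b * (H a' b - X a' b) ≤ |H a' b * (H a' b - X a' b)| := le_abs_self _
        _ = |H a' b - X a' b| := by rw [abs_mul, hh, one_mul]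
    have h3 : ∑ b, H a' b * (H a' b - X a' b) ≤ ∑ b, |H a' b - X a' b| :=
      Finset.sum_le_sum fun b _ => h2 b
    have h4 : ∑ b, H a' b * (H a' b - X a' b) = (m : ℝ) - ∑ b, H a' b * X a' b := by
      have : ∀ b, H a' b * (H a' b - X a' b) = 1 - H a' b * X a' b := by
        intro b; rcases hs a' b with h | h <;> rw [h] <;> ring
      rw [Finset.sum_congr rfl fun b _ => this b, Finset.sum_sub_distrib]
      simp
    have h5 := le_abs_self (∑ b, H a' b * X a' b)
    linarith
  have h2 : |∑ b, X a b| ≤ ∑ b, |H a b - X a b| := by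
    have : ∑ b, X a b = -∑ b, (H a b - X a b) := by
      rw [Finset.sum_sub_distrib, hr]; ring
    rw [this, abs_neg]
    exact Finset.abs_sum_le_sum_abs _ _
  have h3 : ∑ a' ∈ univ.erase a, ((m : ℝ) - |∑ b, H a' b * X a' b|) ≤
      ∑ a' ∈ univ.erase a, ∑ b, |H a' b - X a' b| :=
    Finset.sum_le_sum fun a' _ => h1 a'
  have h4 : ∑ a' ∈ univ.erase a, ((m : ℝ) - |∑ b, H a' b * X a' b|) =
      ((m : ℝ) - 1) * m - ∑ a' ∈ univ.erase a, |∑ b, H a' b * X a' b| := by
    rw [Finset.sum_sub_distrib]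
    congr 1
    rw [Finset.sum_const, Finset.card_erase_of_mem (Finset.mem_univ a), Finset.card_univ,
      Fintype.card_fin, nsmul_eq_mul]
    have hm : 1 ≤ m := Nat.one_le_of_lt a.2
    push_cast [hm]
    ring
  have h5 : ∑ a' ∈ univ.erase a, ∑ b, |H a' b - X a' b| + ∑ b, |H a b - X a b| =
      ∑ a', ∑ b, |H a' b - X a' b| := Finset.sum_erase_add _ _ (Finset.mem_univ a)
  have h6 : ∑ a' ∈ univ.erase a, |∑ b, H a' b * X a' b| + |∑ b, H a b * X a b| =
      ∑ a', |∑ b, H a' b * X a' b| := Finset.sum_erase_add _ _ (Finset.mem_univ a)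
  have h7 : 0 ≤ |∑ b, H a b * X a b| := abs_nonneg _
  nlinarith

end Pool.Agent.R153.LR
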