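import Pool.Agent.R537.LR.Stm
import Pool.Agent.R153.LRMask

/-!
# Low-rank approximation: a priori bounds, second step
-/

set_option autoImplicit false

namespace Pool.Agent.NPC.R537LR

open Finset

section

variable {R C : Type}

theorem nob2_rowsum {P : Pt R C} {m : ℕ} {p : R → Fin m → Fin 3 → ℝ} {l : C → Fin m → Fin 3 → ℝ}
    (hm : 0 < m) (hl : ∀ j s, mean l (P.ac j) s = if j = s then 1 else 0) (r : R) (a : Fin m)
    (j : Fin 3) : ∑ b, ∑ s, p r a s * l (P.ac j) b s = m * p r a j := by
  have hm' : (m : ℝ) ≠ 0 := by exact_mod_cast hm.ne'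
  have h1 : ∀ s, ∑ b, l (P.ac j) b s = m * (if j = s then 1 else 0) := by
    intro s
    rw [← hl j s, mean]
    field_simp
  rw [Finset.sum_comm]
  calc ∑ s, ∑ b, p r a s * l (P.ac j) b s = ∑ s, p r a s * (m * (if j = s then 1 else 0)) := by
        refine Finset.sum_congr rfl fun s _ => ?_
        rw [← Finset.mul_sum, h1]
    _ = m * p r a j := by
        simp [mul_comm]

theorem nob2_colsum {P : Pt R C} {m : ℕ} {p : R → Fin m → Fin 3 → ℝ} {l : C → Fin m → Fin 3 → ℝ}
    (hm : 0 < m) (c : C) (b : Fin m) (i : Fin 3) :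
    ∑ a, ∑ s, p (P.ar i) a s * l c b s = m * P.q p l c b i := by
  have hm' : (m : ℝ) ≠ 0 := by exact_mod_cast hm.ne'
  rw [Finset.sum_comm, Pt.q, Finset.mul_sum]
  refine Finset.sum_congr rfl fun s _ => ?_
  rw [← Finset.sum_mul, mean]
  field_simp

/-- From the weighted bound to the unweighted one. -/
theorem nob2_small {m n : ℕ} {W Q w S : ℝ} (hB : Big n m W Q) (hw : W ≤ w)
    (h : w * S ≤ 256 * n ^ 3 * m ^ 2 * Q) : S ≤ m / 4096 := by
  have hn : (1 : ℝ) ≤ n := by exact_mod_cast hB.hn
  have hQ := hB.hQ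
  have hW := hB.hW
  have hm : 0 < m := lt_of_lt_of_le (by have := hB.hn; positivity) hB.hm
  have hm' : (0 : ℝ) < m := by exact_mod_cast hm
  have hn3 : (0 : ℝ) < (n : ℝ) ^ 3 := by positivity
  have hW0 : 0 < W := lt_of_lt_of_le (by positivity) hW
  by_contra hS
  push Not at hS
  have hS0 : 0 < S := lt_trans (by positivity) hS
  have h1 : W * (m / 4096) < w * S := by
    calc W * (m / 4096) < W * S := mul_lt_mul_of_pos_left hS hW0
      _ ≤ w * S := mul_le_mul_of_nonneg_right hw hS0.le
  have h2 : 2 ^ 20 * (n : ℝ) ^ 3 * m * Q * (m / 4096) ≤ W * (m / 4096) :=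
    mul_le_mul_of_nonneg_right hW (by positivity)
  have h3 : 2 ^ 20 * (n : ℝ) ^ 3 * m * Q * (m / 4096) = 256 * n ^ 3 * m ^ 2 * Q := by ring
  linarith

theorem nob2_T {m n : ℕ} {W Q : ℝ} (hB : Big n m W Q) :
    256 * (n : ℝ) ^ 2 * m ^ 2 / W ≤ m / 4096 := by
  have hn : (1 : ℝ) ≤ n := by exact_mod_cast hB.hn
  have hQ := hB.hQ
  have hW := hB.hW
  have hm : 0 < m := lt_of_lt_of_le (by have := hB.hn; positivity) hB.hm
  have hm' : (0 : ℝ) < m := by exact_mod_cast hm
  have hW0 : 0 < W := lt_of_lt_of_le (by positivity) hW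
  rw [div_le_iff₀ hW0]
  have h1 : 2 ^ 20 * (n : ℝ) ^ 2 * m ≤ W := by
    refine le_trans ?_ hW
    have : (1 : ℝ) ≤ n * Q := by nlinarith
    calc 2 ^ 20 * (n : ℝ) ^ 2 * m = 2 ^ 20 * (n : ℝ) ^ 2 * m * 1 := by ring
      _ ≤ 2 ^ 20 * (n : ℝ) ^ 2 * m * (n * Q) := mul_le_mul_of_nonneg_left this (by positivity)
      _ = 2 ^ 20 * (n : ℝ) ^ 3 * m * Q := by ring
  calc 256 * (n : ℝ) ^ 2 * m ^ 2 = (m / 4096) * (2 ^ 20 * (n : ℝ) ^ 2 * m) := by ring
    _ ≤ (m / 4096) * W := mul_le_mul_of_nonneg_left h1 (by positivity)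

/-- A block close to the constant `x` has row means close to `x`. -/
theorem nob2_known {m : ℕ} (hm : 0 < m) (X : Fin m → Fin m → ℝ) (x : ℝ)
    (h : ∑ a, ∑ b, |x - X a b| ≤ m / 4096) (a : Fin m) (y : ℝ) (hy : ∑ b, X a b = m * y) :
    |x - y| ≤ 1 / 4096 := by
  have hm' : (0 : ℝ) < m := by exact_mod_cast hm
  have h1 : |∑ b, (x - X a b)| ≤ ∑ b, |x - X a b| := Finset.abs_sum_le_sum_abs _ _
  have h2 : ∑ b, |x - X a b| ≤ ∑ a, ∑ b, |x - X a b| :=
    Finset.single_le_sum (f := fun a => ∑ b, |x - X a b|)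
      (fun a _ => Finset.sum_nonneg fun b _ => abs_nonneg _) (Finset.mem_univ a)
  have h3 : ∑ b, (x - X a b) = m * (x - y) := by
    rw [Finset.sum_sub_distrib, hy]
    simp
    ring
  rw [h3, abs_mul, abs_of_pos hm'] at h1
  have h4 : (m : ℝ) * |x - y| ≤ m * (1 / 4096) := by linarith
  exact le_of_mul_le_mul_left h4 hm'

/-- A block close to the mask has row means of absolute value at most `1` (nearly). -/
theorem nob2_mask {m : ℕ} (hm : 0 < m) (H X : Fin m → Fin m → ℝ)
    (hs : ∀ a b, H a b = 1 ∨ H a b = -1) (hr : ∀ a, ∑ b, H a b = 0)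
    (h : ∑ a, ∑ b, |H a b - X a b| - (m : ℝ) ^ 2 ≤ m / 4096)
    (h' : ∑ a, |∑ b, H a b * X a b| ≤ m / 4096) (a : Fin m) (y : ℝ) (hy : ∑ b, X a b = m * y) :
    |y| ≤ 1 + 2 / 4096 := by
  have hm' : (0 : ℝ) < m := by exact_mod_cast hm
  have h1 := Pool.Agent.R153.LR.mask H X hs hr a
  rw [hy, abs_mul, abs_of_pos hm'] at h1
  have h4 : (m : ℝ) * |y| ≤ m * (1 + 2 / 4096) := by linarith
  exact le_of_mul_le_mul_left h4 hm'

end

theorem t_NOB2 : S_NOB2 := by
  intro R C _ _ _ _ P m n H W Q p l ok hH hB hl h1 h2 h3 h4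
  have hn : (1 : ℝ) ≤ n := by exact_mod_cast hB.hn
  have hQ := hB.hQ
  have hm : 0 < m := lt_of_lt_of_le (by have := hB.hn; positivity) hB.hm
  have hm' : (0 : ℝ) < m := by exact_mod_cast hm
  have hW1 : 1 ≤ W := by
    refine le_trans ?_ hB.hW
    have hm1 : (1 : ℝ) ≤ m := by exact_mod_cast hm
    have hn3 : (1 : ℝ) ≤ (n : ℝ) ^ 3 := one_le_pow₀ hn
    have : (1 : ℝ) ≤ (n : ℝ) ^ 3 * m * Q := by
      have := mul_le_mul hn3 hm1 zero_le_one (by positivity)
      have h5 := mul_le_mul this hQ zero_le_one (by positivity)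
      linarith
    nlinarith
  have hT := nob2_T hB
  have hHs : ∀ a b : Fin m, H a b = 1 ∨ H a b = -1 := fun a b => hH.sign a b
  have hHr : ∀ a : Fin m, ∑ b : Fin m, H a b = 0 := by
    intro a
    have := hH.row a a.2
    rwa [Finset.sum_range (fun b => H a b)] at this
  have hHc : ∀ b : Fin m, ∑ a : Fin m, H a b = 0 := by
    intro b
    have := hH.col b b.2
    rwa [Finset.sum_range (fun a => H a b)] at this
  -- basic facts on the pattern
  have htC : ∀ j, P.tC (P.ac j) = some j := fun j => (ok.tC_iff _ _).2 rfl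
  have htR : ∀ i, P.tR (P.ar i) = some i := fun i => (ok.tR_iff _ _).2 rfl
  have hco : ∀ j, P.ac j ≠ P.co := by
    intro j h
    have := htC j
    rw [h, ok.co_none] at this
    cases this
  have hro : ∀ i, P.ar i ≠ P.ro := by
    intro i h
    have := htR i
    rw [h, ok.ro_none] at this
    cases this
  have hEac : ∀ r j, P.E r (P.ac j) = P.rv r j := by
    intro r j
    unfold Pt.E
    rw [htC j]
  have hEar : ∀ i c, P.tC c = none → P.E (P.ar i) c = P.cv c i := by
    intro i c hc
    unfold Pt.E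
    rw [hc, htR i]
  have hWQ : W ≤ W * Q := by nlinarith
  have hwac : ∀ r j, W ≤ P.w W Q r (P.ac j) := by
    intro r j
    unfold Pt.w
    rw [htC j]
    rcases h : P.tR r with _ | i
    · simp only [one_mul]; exact hWQ
    · simp only
      calc W ≤ W * Q := hWQ
        _ ≤ W * (W * Q) := by
          have : 0 ≤ W * Q := by positivity
          nlinarith
  have hwar : ∀ i c, W ≤ P.w W Q (P.ar i) c := by
    intro i c
    unfold Pt.w
    rw [htR i]
    rcases h : P.tC c with _ | j
    · simp only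
      split_ifs
      · simp
      · exact hWQ
    · simp only
      calc W ≤ W * Q := hWQ
        _ ≤ W * (W * Q) := by
          have : 0 ≤ W * Q := by positivity
          nlinarith
  -- rows
  have hpk : ∀ r a s x, P.rv r s = some x → |x - p r a s| ≤ 1 / 4096 := by
    intro r a s x hx
    have h5 := h1 r (P.ac s) x (fun h => hco s h.2) (by rw [hEac]; exact hx)
    have h6 := nob2_small hB (hwac r s) h5
    exact nob2_known hm (fun a b => ∑ s', p r a s' * l (P.ac s) b s') x h6 a _
      (nob2_rowsum hm hl r a s)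
  have hpm : ∀ r a s, P.rv r s = none → |p r a s| ≤ 1 + 2 / 4096 := by
    intro r a s hx
    have h5 := h2 r (P.ac s) (by rw [hEac]; exact hx)
    have h6 := nob2_small hB (hwac r s) h5
    have hN : P.N r (P.ac s) = 1 := by
      unfold Pt.N
      rw [htC s]
    rw [hN] at h6
    simp only [one_mul] at h6
    exact nob2_mask hm (fun a b => H a b) (fun a b => ∑ s', p r a s' * l (P.ac s) b s') hHs hHr h6
      ((h3 r s).trans hT) a _ (nob2_rowsum hm hl r a s)
  have hp2 : ∀ r a s, |p r a s| ≤ 1 + 2 / 4096 := by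
    intro r a s
    rcases h : P.rv r s with _ | x
    · exact hpm r a s h
    · have h5 := hpk r a s x h
      have h6 := ok.rv_le r s x h
      have h7 : |p r a s| ≤ |x| + |x - p r a s| := by
        have := abs_sub_abs_le_abs_sub (p r a s) x
        rw [abs_sub_comm] at this
        linarith
      linarith
  have hy : ∀ i j, |mean p (P.ar i) j - if i = j then 1 else 0| ≤ 1 / 4096 := by
    intro i j
    set x : ℝ := if i = j then 1 else 0 with hx
    have h5 : ∀ a, |x - p (P.ar i) a j| ≤ 1 / 4096 := fun a =>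
      hpk _ a j x (ok.rv_ar i j)
    have h6 : mean p (P.ar i) j - x = (∑ a, (p (P.ar i) a j - x)) / m := by
      rw [mean, Finset.sum_sub_distrib]
      simp
      field_simp
    rw [h6, abs_div, abs_of_pos hm', div_le_iff₀ hm']
    calc |∑ a, (p (P.ar i) a j - x)| ≤ ∑ a, |p (P.ar i) a j - x| :=
          Finset.abs_sum_le_sum_abs _ _
      _ ≤ ∑ _a : Fin m, (1 / 4096 : ℝ) := Finset.sum_le_sum fun a _ => by
          rw [abs_sub_comm]; exact h5 a
      _ = 1 / 4096 * m := by simp; ring
  -- columns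
  have hqk' : ∀ c b i x, P.E (P.ar i) c = some x → |x - P.q p l c b i| ≤ 1 / 4096 := by
    intro c b i x hx
    have h5 := h1 (P.ar i) c x (fun h => hro i h.1) hx
    have h6 := nob2_small hB (hwar i c) h5
    rw [Finset.sum_comm] at h6
    exact nob2_known hm (fun b a => ∑ s', p (P.ar i) a s' * l c b s') x h6 b _
      (nob2_colsum hm c b i)
  have hqk : ∀ c b i x, P.cv c i = some x → |x - P.q p l c b i| ≤ 1 / 4096 := by
    intro c b i x hx
    rcases h : P.tC c with _ | j
    · exact hqk' c b i x (by rw [hEar i c h]; exact hx)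
    · have hc := (ok.tC_iff c j).1 h
      subst hc
      refine hqk' _ b i x ?_
      rw [hEac, ok.rv_ar, ← hx, ok.cv_ac]
      simp only [eq_comm]
  have hqm : ∀ c b i, P.cv c i = none → |P.q p l c b i| ≤ 1 + 2 / 4096 := by
    intro c b i hx
    have hc : P.tC c = none := by
      rcases h : P.tC c with _ | j
      · rfl
      · have hc := (ok.tC_iff c j).1 h
        rw [hc, ok.cv_ac] at hx
        cases hx
    have hcc : c ≠ P.co := by
      intro h
      rw [h, ok.cv_co] at hx
      cases hx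
    have h5 := h2 (P.ar i) c (by rw [hEar i c hc]; exact hx)
    have h6 := nob2_small hB (hwar i c) h5
    have hN : P.N (P.ar i) c = 1 := by
      unfold Pt.N
      rw [hc, htR i]
    rw [hN] at h6
    simp only [one_mul] at h6
    rw [Finset.sum_comm] at h6
    exact nob2_mask hm (fun b a => H a b) (fun b a => ∑ s', p (P.ar i) a s' * l c b s')
      (fun b a => hHs a b) hHc h6 ((h4 i c hc hcc).trans hT) b _ (nob2_colsum hm c b i)
  have hq2 : ∀ c b i, |P.q p l c b i| ≤ 1 + 2 / 4096 := by
    intro c b i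
    rcases h : P.cv c i with _ | x
    · exact hqm c b i h
    · have h5 := hqk c b i x h
      have h6 := ok.cv_le c i x h
      have h7 : |P.q p l c b i| ≤ |x| + |x - P.q p l c b i| := by
        have := abs_sub_abs_le_abs_sub (P.q p l c b i) x
        rw [abs_sub_comm] at this
        linarith
      linarith
  have hl1 : ∀ c b i, |l c b i| ≤ |P.q p l c b i| + 1 / 4096 * ∑ s, |l c b s| := by
    intro c b i
    have h5 : l c b i = P.q p l c b i -
        ∑ s, (mean p (P.ar i) s - if i = s then 1 else 0) * l c b s := by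
      rw [Pt.q, ← Finset.sum_sub_distrib]
      have : ∀ s, mean p (P.ar i) s * l c b s -
          (mean p (P.ar i) s - if i = s then 1 else 0) * l c b s =
            (if i = s then 1 else 0) * l c b s := by intro s; ring
      rw [Finset.sum_congr rfl fun s _ => this s]
      simp
    have h6 : |∑ s, (mean p (P.ar i) s - if i = s then 1 else 0) * l c b s| ≤
        1 / 4096 * ∑ s, |l c b s| := by
      rw [Finset.mul_sum]
      refine (Finset.abs_sum_le_sum_abs _ _).trans (Finset.sum_le_sum fun s _ => ?_)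
      rw [abs_mul]
      exact mul_le_mul_of_nonneg_right (hy i s) (abs_nonneg _)
    calc |l c b i| = |P.q p l c b i -
        ∑ s, (mean p (P.ar i) s - if i = s then 1 else 0) * l c b s| := by rw [← h5]
      _ ≤ |P.q p l c b i| + |∑ s, (mean p (P.ar i) s - if i = s then 1 else 0) * l c b s| :=
          abs_sub _ _
      _ ≤ _ := by linarith
  refine ⟨hl, ?_, ?_, ?_, ?_, ?_⟩
  · intro r a s
    have := hp2 r a s
    linarith
  · intro c b s
    have e0 := hl1 c b 0
    have e1 := hl1 c b 1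
    have e2 := hl1 c b 2
    have e := hl1 c b s
    have f0 := hq2 c b 0
    have f1 := hq2 c b 1
    have f2 := hq2 c b 2
    have f := hq2 c b s
    have hS : ∑ s, |l c b s| = |l c b 0| + |l c b 1| + |l c b 2| := by
      rw [Fin.sum_univ_three]
    rw [hS] at e0 e1 e2 e
    linarith
  · intro i j
    exact (hy i j).trans (by norm_num)
  · intro r a s x hx
    rw [abs_sub_comm]
    exact (hpk r a s x hx).trans (by norm_num)
  · intro c b i x hx
    rw [abs_sub_comm]
    exact (hqk c b i x hx).trans (by norm_num)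

end Pool.Agent.NPC.R537LR
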