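import Mathlib

set_option autoImplicit false

namespace Pool.Agent.R153.Maehara

open Finset

variable (p c : Fin 5 → Fin 3 → ℝ)

/-- the excess `|p i - c i|^2 - 1` -/
noncomputable def t (i : Fin 5) : ℝ := ∑ k, (p i k - c i k) ^ 2 - 1

/-- The configuration: `p i` is at distance one from all `c j` with `j ≠ i`, but not from `c i`. -/
structure Config : Prop where
  one : ∀ i j, i ≠ j → ∑ k, (p i k - c j k) ^ 2 = 1
  ne : ∀ i, t p c i ≠ 0

noncomputable def U : Matrix (Fin 5) (Fin 5) ℝ := Matrix.of fun i =>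
  ![p i 0, p i 1, p i 2, p i 0 ^ 2 + p i 1 ^ 2 + p i 2 ^ 2 - 1 / 2, 1]

noncomputable def W : Matrix (Fin 5) (Fin 5) ℝ := Matrix.of fun i =>
  ![-2 * c i 0, -2 * c i 1, -2 * c i 2, 1, c i 0 ^ 2 + c i 1 ^ 2 + c i 2 ^ 2 - 1 / 2]

variable {p c}

theorem UW (h : Config p c) : U p * (W c).transpose = Matrix.diagonal (t p c) := by
  ext i j
  rw [Matrix.mul_apply, Matrix.diagonal_apply]
  have hh : ∑ k, U p i k * (W c).transpose k j = ∑ k, (p i k - c j k) ^ 2 - 1 := by
    simp [U, W, Fin.sum_univ_succ]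
    ring
  rw [hh]
  split_ifs with hij
  · subst hij; rfl
  · rw [h.one i j hij]; ring

theorem WU (h : Config p c) :
    (W c).transpose * (Matrix.diagonal (fun i => (t p c i)⁻¹) * U p) = 1 := by
  have h1 : (Matrix.diagonal (fun i => (t p c i)⁻¹) * U p) * (W c).transpose = 1 := by
    rw [Matrix.mul_assoc, UW h, Matrix.diagonal_mul_diagonal]
    ext i j
    rw [Matrix.diagonal_apply, Matrix.one_apply]
    split_ifs with hij
    · exact inv_mul_cancel₀ (h.ne i)
    · rfl
  exact mul_eq_one_comm.mp h1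

theorem entry (h : Config p c) (a b : Fin 5) :
    ∑ i, W c i a * ((t p c i)⁻¹ * U p i b) = if a = b then 1 else 0 := by
  have := congrFun (congrFun (WU h) a) b
  rw [Matrix.mul_apply, Matrix.one_apply] at this
  rw [← this]
  apply Finset.sum_congr rfl
  intro i _
  rw [Matrix.diagonal_mul, Matrix.transpose_apply]

/-- All the moment identities in one generating form. -/
theorem gen (h : Config p c) (a b : Fin 3 → ℝ) (α β : ℝ) :
    ∑ l, (t p c l)⁻¹ * (α * (∑ x, (a x - p l x) ^ 2) * (∑ x, (b x - c l x) ^ 2)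
      + β * (∑ x, (a x - p l x) ^ 2)) = α * (∑ x, (a x - b x) ^ 2 + 1) + β := by
  have e := entry h
  have M0 := (e 3 4).trans (if_neg (by decide))
  have Mp0 := (e 3 0).trans (if_neg (by decide))
  have Mp1 := (e 3 1).trans (if_neg (by decide))
  have Mp2 := (e 3 2).trans (if_neg (by decide))
  have MP := (e 3 3).trans (if_pos rfl)
  have Mc0 := (e 0 4).trans (if_neg (by decide))
  have Mc1 := (e 1 4).trans (if_neg (by decide))
  have Mc2 := (e 2 4).trans (if_neg (by decide))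
  have MC := (e 4 4).trans (if_pos rfl)
  have M00 := (e 0 0).trans (if_pos rfl)
  have M01 := (e 0 1).trans (if_neg (by decide))
  have M02 := (e 0 2).trans (if_neg (by decide))
  have M10 := (e 1 0).trans (if_neg (by decide))
  have M11 := (e 1 1).trans (if_pos rfl)
  have M12 := (e 1 2).trans (if_neg (by decide))
  have M20 := (e 2 0).trans (if_neg (by decide))
  have M21 := (e 2 1).trans (if_neg (by decide))
  have M22 := (e 2 2).trans (if_pos rfl)
  have MPc0 := (e 0 3).trans (if_neg (by decide))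
  have MCp0 := (e 4 0).trans (if_neg (by decide))
  have MPc1 := (e 1 3).trans (if_neg (by decide))
  have MCp1 := (e 4 1).trans (if_neg (by decide))
  have MPc2 := (e 2 3).trans (if_neg (by decide))
  have MCp2 := (e 4 2).trans (if_neg (by decide))
  have MPC := (e 4 3).trans (if_neg (by decide))
  generalize hτ : (fun i => (t p c i)⁻¹) = τ at *
  have hτ' : ∀ i, (t p c i)⁻¹ = τ i := fun i => congrFun hτ i
  simp only [hτ'] at *
  simp only [U, W, Fin.sum_univ_five, Matrix.of_apply, Matrix.cons_val] at M0 Mp0 Mp1 Mp2 MP Mc0 Mc1 Mc2 MC M00 M01 M02 M10 M11 M12 M20 M21 M22 MPc0 MCp0 MPc1 MCp1 MPc2 MCp2 MPC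
  simp only [Fin.sum_univ_five, Fin.sum_univ_three]
  linear_combination
    (α * (a 0 ^ 2 + a 1 ^ 2 + a 2 ^ 2 + 1 / 2) * (b 0 ^ 2 + b 1 ^ 2 + b 2 ^ 2 + 1 / 2)
      + β * (a 0 ^ 2 + a 1 ^ 2 + a 2 ^ 2 + 1 / 2)) * M0
    + α * (a 0 ^ 2 + a 1 ^ 2 + a 2 ^ 2 + 1 / 2) * (b 0 * Mc0 + b 1 * Mc1 + b 2 * Mc2 + MC)
    - 2 * (α * (b 0 ^ 2 + b 1 ^ 2 + b 2 ^ 2 + 1 / 2) + β) * (a 0 * Mp0 + a 1 * Mp1 + a 2 * Mp2)
    - 2 * α * (a 0 * b 0 * M00 + a 0 * b 1 * M10 + a 0 * b 2 * M20
      + a 1 * b 0 * M01 + a 1 * b 1 * M11 + a 1 * b 2 * M21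
      + a 2 * b 0 * M02 + a 2 * b 1 * M12 + a 2 * b 2 * M22)
    - 2 * α * (a 0 * MCp0 + a 1 * MCp1 + a 2 * MCp2)
    + (α * (b 0 ^ 2 + b 1 ^ 2 + b 2 ^ 2 + 1 / 2) + β) * MP
    + α * (b 0 * MPc0 + b 1 * MPc1 + b 2 * MPc2) + α * MPC

/-- The moment identity for `|b - c l|^2` alone. -/
theorem gen' (h : Config p c) (b : Fin 3 → ℝ) :
    ∑ l, (t p c l)⁻¹ * (∑ x, (b x - c l x) ^ 2) = 1 := by
  have e := entry h
  have M0 := (e 3 4).trans (if_neg (by decide))
  have Mp0 := (e 3 0).trans (if_neg (by decide))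
  have Mp1 := (e 3 1).trans (if_neg (by decide))
  have Mp2 := (e 3 2).trans (if_neg (by decide))
  have MP := (e 3 3).trans (if_pos rfl)
  have Mc0 := (e 0 4).trans (if_neg (by decide))
  have Mc1 := (e 1 4).trans (if_neg (by decide))
  have Mc2 := (e 2 4).trans (if_neg (by decide))
  have MC := (e 4 4).trans (if_pos rfl)
  have M00 := (e 0 0).trans (if_pos rfl)
  have M01 := (e 0 1).trans (if_neg (by decide))
  have M02 := (e 0 2).trans (if_neg (by decide))
  have M10 := (e 1 0).trans (if_neg (by decide))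
  have M11 := (e 1 1).trans (if_pos rfl)
  have M12 := (e 1 2).trans (if_neg (by decide))
  have M20 := (e 2 0).trans (if_neg (by decide))
  have M21 := (e 2 1).trans (if_neg (by decide))
  have M22 := (e 2 2).trans (if_pos rfl)
  have MPc0 := (e 0 3).trans (if_neg (by decide))
  have MCp0 := (e 4 0).trans (if_neg (by decide))
  have MPc1 := (e 1 3).trans (if_neg (by decide))
  have MCp1 := (e 4 1).trans (if_neg (by decide))
  have MPc2 := (e 2 3).trans (if_neg (by decide))
  have MCp2 := (e 4 2).trans (if_neg (by decide))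
  have MPC := (e 4 3).trans (if_neg (by decide))
  generalize hτ : (fun i => (t p c i)⁻¹) = τ at *
  have hτ' : ∀ i, (t p c i)⁻¹ = τ i := fun i => congrFun hτ i
  simp only [hτ'] at *
  simp only [U, W, Fin.sum_univ_five, Matrix.of_apply, Matrix.cons_val] at M0 Mp0 Mp1 Mp2 MP Mc0 Mc1 Mc2 MC M00 M01 M02 M10 M11 M12 M20 M21 M22 MPc0 MCp0 MPc1 MCp1 MPc2 MCp2 MPC
  simp only [Fin.sum_univ_five, Fin.sum_univ_three]
  linear_combination (b 0 ^ 2 + b 1 ^ 2 + b 2 ^ 2 + 1 / 2) * M0
    + (b 0 * Mc0 + b 1 * Mc1 + b 2 * Mc2 + MC)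

theorem sum_inv (h : Config p c) : ∑ l, (t p c l)⁻¹ = 0 := by
  have e := (entry h 3 4).trans (if_neg (by decide))
  simpa [U, W] using e

/-- The square sum used to exclude a single negative weight. -/
theorem trace (h : Config p c) (i : Fin 5) :
    ∑ l, (t p c l)⁻¹ * (∑ x, ((p l x - p i x) + (c l x - c i x)) ^ 2) = -1 := by
  have e := entry h
  have M0 := (e 3 4).trans (if_neg (by decide))
  have Mp0 := (e 3 0).trans (if_neg (by decide))
  have Mp1 := (e 3 1).trans (if_neg (by decide))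
  have Mp2 := (e 3 2).trans (if_neg (by decide))
  have MP := (e 3 3).trans (if_pos rfl)
  have Mc0 := (e 0 4).trans (if_neg (by decide))
  have Mc1 := (e 1 4).trans (if_neg (by decide))
  have Mc2 := (e 2 4).trans (if_neg (by decide))
  have MC := (e 4 4).trans (if_pos rfl)
  have M00 := (e 0 0).trans (if_pos rfl)
  have M01 := (e 0 1).trans (if_neg (by decide))
  have M02 := (e 0 2).trans (if_neg (by decide))
  have M10 := (e 1 0).trans (if_neg (by decide))
  have M11 := (e 1 1).trans (if_pos rfl)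
  have M12 := (e 1 2).trans (if_neg (by decide))
  have M20 := (e 2 0).trans (if_neg (by decide))
  have M21 := (e 2 1).trans (if_neg (by decide))
  have M22 := (e 2 2).trans (if_pos rfl)
  have MPc0 := (e 0 3).trans (if_neg (by decide))
  have MCp0 := (e 4 0).trans (if_neg (by decide))
  have MPc1 := (e 1 3).trans (if_neg (by decide))
  have MCp1 := (e 4 1).trans (if_neg (by decide))
  have MPc2 := (e 2 3).trans (if_neg (by decide))
  have MCp2 := (e 4 2).trans (if_neg (by decide))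
  have MPC := (e 4 3).trans (if_neg (by decide))
  generalize hτ : (fun i => (t p c i)⁻¹) = τ at *
  have hτ' : ∀ i, (t p c i)⁻¹ = τ i := fun i => congrFun hτ i
  simp only [hτ'] at *
  simp only [U, W, Fin.sum_univ_five, Matrix.of_apply, Matrix.cons_val] at M0 Mp0 Mp1 Mp2 MP Mc0 Mc1 Mc2 MC M00 M01 M02 M10 M11 M12 M20 M21 M22 MPc0 MCp0 MPc1 MCp1 MPc2 MCp2 MPC
  simp only [Fin.sum_univ_five, Fin.sum_univ_three]
  linear_combination ((p i 0 + c i 0) ^ 2 + (p i 1 + c i 1) ^ 2 + (p i 2 + c i 2) ^ 2 + 1) * M0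
    + MP + MC - M00 - M11 - M22
    + (p i 0 + c i 0) * Mc0 + (p i 1 + c i 1) * Mc1 + (p i 2 + c i 2) * Mc2
    - 2 * (p i 0 + c i 0) * Mp0 - 2 * (p i 1 + c i 1) * Mp1 - 2 * (p i 2 + c i 2) * Mp2

end Pool.Agent.R153.Maehara
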