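import Pool.Agent.R153.Maehara

set_option autoImplicit false

namespace Pool.Agent.R153.Maehara

open Finset

/-- The algebraic identity behind the pair relation: two hollow symmetric `3 x 3` matrices. -/
theorem pair_alg (n01 n02 n12 m01 m02 m12 a0 a1 a2 u0 u1 u2 b0 b1 b2 v0 v1 v2 E F
    τ0 τ1 τ2 τ3 τ4 t0 t1 t2 t3 t4 : ℝ)
    (e00 : τ1 * n01 * m01 + τ2 * n02 * m02 + τ3 * a0 * b0 + τ4 * u0 * v0 = 2 + t0)
    (e11 : τ0 * n01 * m01 + τ2 * n12 * m12 + τ3 * a1 * b1 + τ4 * u1 * v1 = 2 + t1)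
    (e22 : τ0 * n02 * m02 + τ1 * n12 * m12 + τ3 * a2 * b2 + τ4 * u2 * v2 = 2 + t2)
    (e01 : τ2 * n02 * m12 + τ3 * a0 * b1 + τ4 * u0 * v1 = 2)
    (e10 : τ2 * n12 * m02 + τ3 * a1 * b0 + τ4 * u1 * v0 = 2)
    (e02 : τ1 * n01 * m12 + τ3 * a0 * b2 + τ4 * u0 * v2 = 2)
    (e20 : τ1 * n12 * m01 + τ3 * a2 * b0 + τ4 * u2 * v0 = 2)
    (e12 : τ0 * n01 * m02 + τ3 * a1 * b2 + τ4 * u1 * v2 = 2)
    (e21 : τ0 * n02 * m01 + τ3 * a2 * b1 + τ4 * u2 * v1 = 2)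
    (f33 : τ0 * a0 * b0 + τ1 * a1 * b1 + τ2 * a2 * b2 + τ4 * E * F = 2 + t3)
    (f44 : τ0 * u0 * v0 + τ1 * u1 * v1 + τ2 * u2 * v2 + τ3 * E * F = 2 + t4)
    (f34 : τ0 * a0 * v0 + τ1 * a1 * v1 + τ2 * a2 * v2 = 2)
    (f43 : τ0 * u0 * b0 + τ1 * u1 * b1 + τ2 * u2 * b2 = 2)
    (g3 : τ0 * a0 + τ1 * a1 + τ2 * a2 + τ4 * E = 1)
    (g4 : τ0 * u0 + τ1 * u1 + τ2 * u2 + τ3 * E = 1)
    (h3 : τ0 * b0 + τ1 * b1 + τ2 * b2 + τ4 * F = 1)
    (h4 : τ0 * v0 + τ1 * v1 + τ2 * v2 + τ3 * F = 1)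
    (s : τ0 + τ1 + τ2 + τ3 + τ4 = 0)
    (k0 : τ0 * t0 = 1) (k1 : τ1 * t1 = 1) (k2 : τ2 * t2 = 1) (k3 : τ3 * t3 = 1)
    (k4 : τ4 * t4 = 1) :
    1 - 8 * (τ3 + τ4) - 4 * τ3 * τ4 * E * F + 16 * τ3 * τ4 * (E + F) = 0 := by
  obtain ⟨x00, hx00⟩ : ∃ x, x = τ0 * (τ1 * n01 * m01 + τ2 * n02 * m02) := ⟨_, rfl⟩
  obtain ⟨x11, hx11⟩ : ∃ x, x = τ1 * (τ0 * n01 * m01 + τ2 * n12 * m12) := ⟨_, rfl⟩
  obtain ⟨x22, hx22⟩ : ∃ x, x = τ2 * (τ0 * n02 * m02 + τ1 * n12 * m12) := ⟨_, rfl⟩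
  obtain ⟨x01, hx01⟩ : ∃ x, x = τ0 * (τ2 * n02 * m12) := ⟨_, rfl⟩
  obtain ⟨x10, hx10⟩ : ∃ x, x = τ1 * (τ2 * n12 * m02) := ⟨_, rfl⟩
  obtain ⟨x02, hx02⟩ : ∃ x, x = τ0 * (τ1 * n01 * m12) := ⟨_, rfl⟩
  obtain ⟨x20, hx20⟩ : ∃ x, x = τ2 * (τ1 * n12 * m01) := ⟨_, rfl⟩
  obtain ⟨x12, hx12⟩ : ∃ x, x = τ1 * (τ0 * n01 * m02) := ⟨_, rfl⟩
  obtain ⟨x21, hx21⟩ : ∃ x, x = τ2 * (τ0 * n02 * m01) := ⟨_, rfl⟩
  have key : 2 * (x00 ^ 2 + x11 ^ 2 + x22 ^ 2 + 2 * (x01 * x10 + x02 * x20 + x12 * x21))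
      = (x00 + x11 + x22) ^ 2 := by
    subst hx00 hx11 hx22 hx01 hx10 hx02 hx20 hx12 hx21
    ring
  have y00 : x00 = 1 + 2 * τ0 - τ3 * (τ0 * a0 * b0) - τ4 * (τ0 * u0 * v0) := by
    linear_combination hx00 + τ0 * e00 + k0
  have y11 : x11 = 1 + 2 * τ1 - τ3 * (τ1 * a1 * b1) - τ4 * (τ1 * u1 * v1) := by
    linear_combination hx11 + τ1 * e11 + k1
  have y22 : x22 = 1 + 2 * τ2 - τ3 * (τ2 * a2 * b2) - τ4 * (τ2 * u2 * v2) := by
    linear_combination hx22 + τ2 * e22 + k2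
  have y01 : x01 = 2 * τ0 - τ3 * (τ0 * a0 * b1) - τ4 * (τ0 * u0 * v1) := by
    linear_combination hx01 + τ0 * e01
  have y10 : x10 = 2 * τ1 - τ3 * (τ1 * a1 * b0) - τ4 * (τ1 * u1 * v0) := by
    linear_combination hx10 + τ1 * e10
  have y02 : x02 = 2 * τ0 - τ3 * (τ0 * a0 * b2) - τ4 * (τ0 * u0 * v2) := by
    linear_combination hx02 + τ0 * e02
  have y20 : x20 = 2 * τ2 - τ3 * (τ2 * a2 * b0) - τ4 * (τ2 * u2 * v0) := by
    linear_combination hx20 + τ2 * e20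
  have y12 : x12 = 2 * τ1 - τ3 * (τ1 * a1 * b2) - τ4 * (τ1 * u1 * v2) := by
    linear_combination hx12 + τ1 * e12
  have y21 : x21 = 2 * τ2 - τ3 * (τ2 * a2 * b1) - τ4 * (τ2 * u2 * v1) := by
    linear_combination hx21 + τ2 * e21
  -- the sums
  obtain ⟨S, hS⟩ : ∃ x, x = τ0 + τ1 + τ2 := ⟨_, rfl⟩
  obtain ⟨AB, hAB⟩ : ∃ x, x = τ0 * a0 * b0 + τ1 * a1 * b1 + τ2 * a2 * b2 := ⟨_, rfl⟩
  obtain ⟨UV, hUV⟩ : ∃ x, x = τ0 * u0 * v0 + τ1 * u1 * v1 + τ2 * u2 * v2 := ⟨_, rfl⟩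
  obtain ⟨AV, hAV⟩ : ∃ x, x = τ0 * a0 * v0 + τ1 * a1 * v1 + τ2 * a2 * v2 := ⟨_, rfl⟩
  obtain ⟨UB, hUB⟩ : ∃ x, x = τ0 * u0 * b0 + τ1 * u1 * b1 + τ2 * u2 * b2 := ⟨_, rfl⟩
  obtain ⟨A, hA⟩ : ∃ x, x = τ0 * a0 + τ1 * a1 + τ2 * a2 := ⟨_, rfl⟩
  obtain ⟨U, hU⟩ : ∃ x, x = τ0 * u0 + τ1 * u1 + τ2 * u2 := ⟨_, rfl⟩
  obtain ⟨B, hB⟩ : ∃ x, x = τ0 * b0 + τ1 * b1 + τ2 * b2 := ⟨_, rfl⟩
  obtain ⟨V, hV⟩ : ∃ x, x = τ0 * v0 + τ1 * v1 + τ2 * v2 := ⟨_, rfl⟩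
  have T1 : x00 + x11 + x22 = 3 + 2 * S - τ3 * AB - τ4 * UV := by
    rw [y00, y11, y22, hS, hAB, hUV]; ring
  have T2 : x00 ^ 2 + x11 ^ 2 + x22 ^ 2 + 2 * (x01 * x10 + x02 * x20 + x12 * x21)
      = 3 + 2 * (2 * S - τ3 * AB - τ4 * UV) + 4 * S ^ 2 + (τ3 * AB) ^ 2 + (τ4 * UV) ^ 2
        - 4 * τ3 * A * B - 4 * τ4 * U * V + 2 * τ3 * τ4 * AV * UB := by
    rw [y00, y11, y22, y01, y10, y02, y20, y12, y21, hS, hAB, hUV, hAV, hUB, hA, hU, hB, hV]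
    ring
  have S' : S = -(τ3 + τ4) := by linear_combination hS + s
  have AB' : τ3 * AB = 2 * τ3 + 1 - τ3 * τ4 * E * F := by
    linear_combination τ3 * hAB + τ3 * f33 + k3
  have UV' : τ4 * UV = 2 * τ4 + 1 - τ3 * τ4 * E * F := by
    linear_combination τ4 * hUV + τ4 * f44 + k4
  have AV' : AV = 2 := by linear_combination hAV + f34
  have UB' : UB = 2 := by linear_combination hUB + f43
  have A' : A = 1 - τ4 * E := by linear_combination hA + g3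
  have U' : U = 1 - τ3 * E := by linear_combination hU + g4
  have B' : B = 1 - τ4 * F := by linear_combination hB + h3
  have V' : V = 1 - τ3 * F := by linear_combination hV + h4
  rw [T1, T2, AB', UV', S', AV', UB', A', U', B', V'] at key
  linear_combination key

set_option linter.unusedSimpArgs false in
theorem pair34 {p c : Fin 5 → Fin 3 → ℝ} (h : Config p c) :
    1 - 8 * ((t p c 3)⁻¹ + (t p c 4)⁻¹)
      - 4 * (t p c 3)⁻¹ * (t p c 4)⁻¹ * (∑ x, (p 3 x - p 4 x) ^ 2) * (∑ x, (c 3 x - c 4 x) ^ 2)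
      + 16 * (t p c 3)⁻¹ * (t p c 4)⁻¹ *
        ((∑ x, (p 3 x - p 4 x) ^ 2) + (∑ x, (c 3 x - c 4 x) ^ 2)) = 0 := by
  have hN : ∀ k m, ∑ l, (t p c l)⁻¹ * ((∑ x, (p k x - p l x) ^ 2) * (∑ x, (c m x - c l x) ^ 2))
      = ∑ x, (p k x - c m x) ^ 2 + 1 := by
    intro k m
    have := gen h (p k) (c m) 1 0
    simpa using this
  have hP : ∀ k, ∑ l, (t p c l)⁻¹ * (∑ x, (p k x - p l x) ^ 2) = 1 := by
    intro k
    have := gen h (p k) (c k) 0 1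
    simpa using this
  have hC : ∀ k, ∑ l, (t p c l)⁻¹ * (∑ x, (c k x - c l x) ^ 2) = 1 := fun k => gen' h (c k)
  have hs := sum_inv h
  have hN' : ∀ k m, ∑ l, (t p c l)⁻¹ * ((∑ x, (p k x - p l x) ^ 2) * (∑ x, (c m x - c l x) ^ 2))
      = 2 + if k = m then t p c k else 0 := by
    intro k m
    rw [hN]
    split_ifs with hkm
    · subst hkm; unfold t; ring
    · rw [h.one k m hkm]; ring
  have hNsymm : ∀ k l, (∑ x, (p k x - p l x) ^ 2) = ∑ x, (p l x - p k x) ^ 2 := by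
    intro k l; apply Finset.sum_congr rfl; intro x _; ring
  have hCsymm : ∀ k l, (∑ x, (c k x - c l x) ^ 2) = ∑ x, (c l x - c k x) ^ 2 := by
    intro k l; apply Finset.sum_congr rfl; intro x _; ring
  have hN0 : ∀ k, (∑ x, (p k x - p k x) ^ 2) = 0 := by intro k; simp
  have hC0 : ∀ k, (∑ x, (c k x - c k x) ^ 2) = 0 := by intro k; simp
  generalize hNN : (fun k l => ∑ x, (p k x - p l x) ^ 2) = N at *
  generalize hCC : (fun k l => ∑ x, (c k x - c l x) ^ 2) = C at *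
  have e1 : ∀ k l, ∑ x, (p k x - p l x) ^ 2 = N k l := fun k l => congrFun (congrFun hNN k) l
  have e2 : ∀ k l, ∑ x, (c k x - c l x) ^ 2 = C k l := fun k l => congrFun (congrFun hCC k) l
  simp only [e1, e2] at hN' hP hC hNsymm hCsymm hN0 hC0 ⊢
  have inv : ∀ i, (t p c i)⁻¹ * t p c i = 1 := fun i => inv_mul_cancel₀ (h.ne i)
  have i0 := inv 0
  have i1 := inv 1
  have i2 := inv 2
  have i3 := inv 3
  have i4 := inv 4
  have q00 := hN' 0 0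
  have q01 := hN' 0 1
  have q02 := hN' 0 2
  have q03 := hN' 0 3
  have q04 := hN' 0 4
  have q10 := hN' 1 0
  have q11 := hN' 1 1
  have q12 := hN' 1 2
  have q13 := hN' 1 3
  have q14 := hN' 1 4
  have q20 := hN' 2 0
  have q21 := hN' 2 1
  have q22 := hN' 2 2
  have q23 := hN' 2 3
  have q24 := hN' 2 4
  have q30 := hN' 3 0
  have q31 := hN' 3 1
  have q32 := hN' 3 2
  have q33 := hN' 3 3
  have q34 := hN' 3 4
  have q40 := hN' 4 0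
  have q41 := hN' 4 1
  have q42 := hN' 4 2
  have q43 := hN' 4 3
  have q44 := hN' 4 4
  simp only [Fin.sum_univ_five, hN0, hC0, hNsymm 1 0, hCsymm 1 0, hNsymm 2 0, hCsymm 2 0, hNsymm 2 1, hCsymm 2 1, hNsymm 3 0, hCsymm 3 0, hNsymm 3 1, hCsymm 3 1, hNsymm 3 2, hCsymm 3 2, hNsymm 4 0, hCsymm 4 0, hNsymm 4 1, hCsymm 4 1, hNsymm 4 2, hCsymm 4 2, hNsymm 4 3, hCsymm 4 3] at q00 q01 q02 q03 q04 q10 q11 q12 q13 q14 q20 q21 q22 q23 q24 q30 q31 q32 q33 q34 q40 q41 q42 q43 q44 hP hC hs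
  have gP3 := hP 3
  have gC3 := hC 3
  have gP4 := hP 4
  have gC4 := hC 4
  simp only [Fin.sum_univ_five, hN0, hC0, hNsymm 1 0, hCsymm 1 0, hNsymm 2 0, hCsymm 2 0, hNsymm 2 1, hCsymm 2 1, hNsymm 3 0, hCsymm 3 0, hNsymm 3 1, hCsymm 3 1, hNsymm 3 2, hCsymm 3 2, hNsymm 4 0, hCsymm 4 0, hNsymm 4 1, hCsymm 4 1, hNsymm 4 2, hCsymm 4 2, hNsymm 4 3, hCsymm 4 3] at gP3 gP4 gC3 gC4
  rw [if_pos trivial] at q00
  rw [if_neg (by decide)] at q01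
  rw [if_neg (by decide)] at q02
  rw [if_neg (by decide)] at q03
  rw [if_neg (by decide)] at q04
  rw [if_neg (by decide)] at q10
  rw [if_pos trivial] at q11
  rw [if_neg (by decide)] at q12
  rw [if_neg (by decide)] at q13
  rw [if_neg (by decide)] at q14
  rw [if_neg (by decide)] at q20
  rw [if_neg (by decide)] at q21
  rw [if_pos trivial] at q22
  rw [if_neg (by decide)] at q23
  rw [if_neg (by decide)] at q24
  rw [if_neg (by decide)] at q30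
  rw [if_neg (by decide)] at q31
  rw [if_neg (by decide)] at q32
  rw [if_pos trivial] at q33
  rw [if_neg (by decide)] at q34
  rw [if_neg (by decide)] at q40
  rw [if_neg (by decide)] at q41
  rw [if_neg (by decide)] at q42
  rw [if_neg (by decide)] at q43
  rw [if_pos trivial] at q44
  exact pair_alg (N 0 1) (N 0 2) (N 1 2) (C 0 1) (C 0 2) (C 1 2) (N 0 3) (N 1 3) (N 2 3) (N 0 4) (N 1 4) (N 2 4) (C 0 3) (C 1 3) (C 2 3) (C 0 4) (C 1 4) (C 2 4) (N 3 4) (C 3 4) (t p c 0)⁻¹ (t p c 1)⁻¹ (t p c 2)⁻¹ (t p c 3)⁻¹ (t p c 4)⁻¹ (t p c 0) (t p c 1) (t p c 2) (t p c 3) (t p c 4)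
    (by linear_combination q00)
    (by linear_combination q11)
    (by linear_combination q22)
    (by linear_combination q01)
    (by linear_combination q10)
    (by linear_combination q02)
    (by linear_combination q20)
    (by linear_combination q12)
    (by linear_combination q21)
    (by linear_combination q33)
    (by linear_combination q44)
    (by linear_combination q34)
    (by linear_combination q43)
    (by linear_combination gP3) (by linear_combination gP4) (by linear_combination gC3) (by linear_combination gC4)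
    (by linear_combination hs) i0 i1 i2 i3 i4

/-- permuting the indices of a configuration -/
theorem Config.perm {p c : Fin 5 → Fin 3 → ℝ} (h : Config p c) (e : Equiv.Perm (Fin 5)) :
    Config (fun i => p (e i)) (fun i => c (e i)) :=
  ⟨fun i j hij => h.one (e i) (e j) (fun hh => hij (e.injective hh)), fun i => h.ne (e i)⟩

theorem t_perm (p c : Fin 5 → Fin 3 → ℝ) (e : Equiv.Perm (Fin 5)) (i : Fin 5) :
    t (fun i => p (e i)) (fun i => c (e i)) i = t p c (e i) := rfl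

theorem sq_dist_le_four (x y z : Fin 3 → ℝ) (h1 : ∑ k, (x k - z k) ^ 2 = 1)
    (h2 : ∑ k, (y k - z k) ^ 2 = 1) : ∑ k, (x k - y k) ^ 2 ≤ 4 := by
  rw [Fin.sum_univ_three] at *
  nlinarith [sq_nonneg (x 0 - z 0 + (y 0 - z 0)), sq_nonneg (x 1 - z 1 + (y 1 - z 1)),
    sq_nonneg (x 2 - z 2 + (y 2 - z 2))]

theorem not_both_neg34 {p c : Fin 5 → Fin 3 → ℝ} (h : Config p c) (h3 : t p c 3 < 0)
    (h4 : t p c 4 < 0) : False := by
  have key := pair34 h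
  have a3 : (t p c 3)⁻¹ < 0 := inv_lt_zero.mpr h3
  have a4 : (t p c 4)⁻¹ < 0 := inv_lt_zero.mpr h4
  have hE : ∑ x, (p 3 x - p 4 x) ^ 2 ≤ 4 :=
    sq_dist_le_four _ _ (c 0) (h.one 3 0 (by decide)) (h.one 4 0 (by decide))
  have hF : ∑ x, (c 3 x - c 4 x) ^ 2 ≤ 4 := by
    apply sq_dist_le_four _ _ (p 0)
    · rw [← h.one 0 3 (by decide)]; apply Finset.sum_congr rfl; intro x _; ring
    · rw [← h.one 0 4 (by decide)]; apply Finset.sum_congr rfl; intro x _; ring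
  have hE0 : 0 ≤ ∑ x, (p 3 x - p 4 x) ^ 2 := Finset.sum_nonneg fun x _ => sq_nonneg _
  have hF0 : 0 ≤ ∑ x, (c 3 x - c 4 x) ^ 2 := Finset.sum_nonneg fun x _ => sq_nonneg _
  generalize (t p c 3)⁻¹ = α at *
  generalize (t p c 4)⁻¹ = β at *
  generalize ∑ x, (p 3 x - p 4 x) ^ 2 = E at *
  generalize ∑ x, (c 3 x - c 4 x) ^ 2 = F at *
  have hab : 0 < α * β := mul_pos_of_neg_of_neg a3 a4
  have hEF : 0 ≤ 4 * (E + F) - E * F := by nlinarith [mul_nonneg hE0 (sub_nonneg.mpr hF)]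
  nlinarith [mul_nonneg hab.le hEF]

theorem not_both_neg {p c : Fin 5 → Fin 3 → ℝ} (h : Config p c) (i j : Fin 5) (hij : i ≠ j)
    (hi : t p c i < 0) (hj : t p c j < 0) : False := by
  obtain ⟨e, he3, he4⟩ : ∃ e : Equiv.Perm (Fin 5), e 3 = i ∧ e 4 = j := by
    have hk : i ≠ Equiv.swap 3 i 4 := by
      intro hh
      have h2 : Equiv.swap 3 i 3 = Equiv.swap 3 i 4 := by rw [Equiv.swap_apply_left]; exact hh
      exact absurd ((Equiv.swap (3 : Fin 5) i).injective h2) (by decide)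
    refine ⟨Equiv.swap (Equiv.swap 3 i 4) j * Equiv.swap 3 i, ?_, ?_⟩
    · rw [Equiv.Perm.mul_apply, Equiv.swap_apply_left, Equiv.swap_apply_of_ne_of_ne hk hij]
    · rw [Equiv.Perm.mul_apply, Equiv.swap_apply_left]
  exact not_both_neg34 (h.perm e) (by rw [t_perm, he3]; exact hi) (by rw [t_perm, he4]; exact hj)

theorem core {p c : Fin 5 → Fin 3 → ℝ} (h : Config p c) : False := by
  have hs := sum_inv h
  -- some weight is negative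
  have hex : ∃ i, t p c i < 0 := by
    by_contra hcon
    push Not at hcon
    have : 0 < ∑ l, (t p c l)⁻¹ := by
      apply Finset.sum_pos
      · intro i _
        exact inv_pos.mpr (lt_of_le_of_ne (hcon i) (Ne.symm (h.ne i)))
      · exact ⟨0, Finset.mem_univ _⟩
    linarith
  obtain ⟨i, hi⟩ := hex
  have hpos : ∀ j, j ≠ i → 0 < t p c j := by
    intro j hj
    rcases lt_trichotomy (t p c j) 0 with h1 | h1 | h1
    · exact (not_both_neg h j i hj h1 hi).elim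
    · exact (h.ne j h1).elim
    · exact h1
  have htr := trace h i
  have : 0 ≤ ∑ l, (t p c l)⁻¹ * (∑ x, ((p l x - p i x) + (c l x - c i x)) ^ 2) := by
    apply Finset.sum_nonneg
    intro l _
    by_cases hl : l = i
    · subst hl; simp
    · exact mul_nonneg (inv_nonneg.mpr (hpos l hl).le)
        (Finset.sum_nonneg fun x _ => sq_nonneg _)
  linarith

end Pool.Agent.R153.Maehara
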