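import Mathlib

set_option autoImplicit false

namespace Pool.Agent.R153.Maehara

theorem zero3 (x y z : ℝ) (h : x ^ 2 + y ^ 2 + z ^ 2 = 0) : x = 0 ∧ y = 0 ∧ z = 0 := by
  have hx : x ^ 2 = 0 := by nlinarith [sq_nonneg x, sq_nonneg y, sq_nonneg z]
  have hy : y ^ 2 = 0 := by nlinarith [sq_nonneg x, sq_nonneg y, sq_nonneg z]
  have hz : z ^ 2 = 0 := by nlinarith [sq_nonneg x, sq_nonneg y, sq_nonneg z]
  exact ⟨pow_eq_zero_iff (two_ne_zero) |>.mp hx, pow_eq_zero_iff (two_ne_zero) |>.mp hy,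
    pow_eq_zero_iff (two_ne_zero) |>.mp hz⟩

theorem parallel (w0 w1 w2 u0 u1 u2 v0 v1 v2 : ℝ)
    (eu : 2 * (w0 * u0 + w1 * u1 + w2 * u2) + (u0 ^ 2 + u1 ^ 2 + u2 ^ 2) = 0)
    (ev : 2 * (w0 * v0 + w1 * v1 + w2 * v2) + (v0 ^ 2 + v1 ^ 2 + v2 ^ 2) = 0)
    (n0 : u1 * v2 - u2 * v1 = 0) (n1 : u2 * v0 - u0 * v2 = 0) (n2 : u0 * v1 - u1 * v0 = 0) :
    (u0 = 0 ∧ u1 = 0 ∧ u2 = 0) ∨ (v0 = 0 ∧ v1 = 0 ∧ v2 = 0) ∨
      (u0 - v0 = 0 ∧ u1 - v1 = 0 ∧ u2 - v2 = 0) := by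
  have k1 : (u0 ^ 2 + u1 ^ 2 + u2 ^ 2) *
      ((v0 ^ 2 + v1 ^ 2 + v2 ^ 2) - (u0 * v0 + u1 * v1 + u2 * v2)) = 0 := by
    linear_combination (u0 ^ 2 + u1 ^ 2 + u2 ^ 2) * ev - (u0 * v0 + u1 * v1 + u2 * v2) * eu
      - 2 * (w0 * (u2 * n1 - u1 * n2) + w1 * (u0 * n2 - u2 * n0) + w2 * (u1 * n0 - u0 * n1))
  have k2 : (v0 ^ 2 + v1 ^ 2 + v2 ^ 2) *
      ((u0 ^ 2 + u1 ^ 2 + u2 ^ 2) - (u0 * v0 + u1 * v1 + u2 * v2)) = 0 := by
    linear_combination (v0 ^ 2 + v1 ^ 2 + v2 ^ 2) * eu - (u0 * v0 + u1 * v1 + u2 * v2) * ev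
      + 2 * (w0 * (v2 * n1 - v1 * n2) + w1 * (v0 * n2 - v2 * n0) + w2 * (v1 * n0 - v0 * n1))
  rcases mul_eq_zero.mp k1 with h | h
  · exact Or.inl (zero3 _ _ _ h)
  · rcases mul_eq_zero.mp k2 with h' | h'
    · exact Or.inr (Or.inl (zero3 _ _ _ h'))
    · exact Or.inr (Or.inr (zero3 _ _ _ (by linear_combination h + h')))

/-- Three points of a unit sphere whose difference vectors are parallel are not all distinct. -/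
theorem collinear_sphere (a b c o : Fin 3 → ℝ)
    (ha : ∑ k, (a k - o k) ^ 2 = 1) (hb : ∑ k, (b k - o k) ^ 2 = 1)
    (hc : ∑ k, (c k - o k) ^ 2 = 1)
    (n0 : (b 1 - a 1) * (c 2 - a 2) - (b 2 - a 2) * (c 1 - a 1) = 0)
    (n1 : (b 2 - a 2) * (c 0 - a 0) - (b 0 - a 0) * (c 2 - a 2) = 0)
    (n2 : (b 0 - a 0) * (c 1 - a 1) - (b 1 - a 1) * (c 0 - a 0) = 0) :
    a = b ∨ a = c ∨ b = c := by
  rw [Fin.sum_univ_three] at ha hb hc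
  rcases parallel (a 0 - o 0) (a 1 - o 1) (a 2 - o 2) _ _ _ _ _ _
    (by linear_combination hb - ha) (by linear_combination hc - ha) n0 n1 n2 with h | h | h
  · left
    funext k
    fin_cases k
    · change a 0 = b 0; linarith [h.1]
    · change a 1 = b 1; linarith [h.2.1]
    · change a 2 = b 2; linarith [h.2.2]
  · right; left
    funext k
    fin_cases k
    · change a 0 = c 0; linarith [h.1]
    · change a 1 = c 1; linarith [h.2.1]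
    · change a 2 = c 2; linarith [h.2.2]
  · right; right
    funext k
    fin_cases k
    · change b 0 = c 0; linarith [h.1]
    · change b 1 = c 1; linarith [h.2.1]
    · change b 2 = c 2; linarith [h.2.2]

theorem cross_zero (a0 a1 a2 b0 b1 b2 v0 v1 v2 w0 w1 w2 : ℝ)
    (hn : ¬ (a1 * b2 - a2 * b1 = 0 ∧ a2 * b0 - a0 * b2 = 0 ∧ a0 * b1 - a1 * b0 = 0))
    (av : a0 * v0 + a1 * v1 + a2 * v2 = 0) (bv : b0 * v0 + b1 * v1 + b2 * v2 = 0)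
    (aw : a0 * w0 + a1 * w1 + a2 * w2 = 0) (bw : b0 * w0 + b1 * w1 + b2 * w2 = 0) :
    v1 * w2 - v2 * w1 = 0 ∧ v2 * w0 - v0 * w2 = 0 ∧ v0 * w1 - v1 * w0 = 0 := by
  obtain ⟨n0, hn0⟩ : ∃ n, n = a1 * b2 - a2 * b1 := ⟨_, rfl⟩
  obtain ⟨n1, hn1⟩ : ∃ n, n = a2 * b0 - a0 * b2 := ⟨_, rfl⟩
  obtain ⟨n2, hn2⟩ : ∃ n, n = a0 * b1 - a1 * b0 := ⟨_, rfl⟩
  have hN : n0 ^ 2 + n1 ^ 2 + n2 ^ 2 ≠ 0 := by
    intro h
    obtain ⟨h0, h1, h2⟩ := zero3 _ _ _ h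
    exact hn ⟨by rw [← hn0]; exact h0, by rw [← hn1]; exact h1, by rw [← hn2]; exact h2⟩
  -- v and w are parallel to n
  have pv0 : v1 * n2 - v2 * n1 = 0 := by rw [hn1, hn2]; linear_combination a0 * bv - b0 * av
  have pv1 : v2 * n0 - v0 * n2 = 0 := by rw [hn0, hn2]; linear_combination a1 * bv - b1 * av
  have pv2 : v0 * n1 - v1 * n0 = 0 := by rw [hn0, hn1]; linear_combination a2 * bv - b2 * av
  have pw0 : w1 * n2 - w2 * n1 = 0 := by rw [hn1, hn2]; linear_combination a0 * bw - b0 * aw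
  have pw1 : w2 * n0 - w0 * n2 = 0 := by rw [hn0, hn2]; linear_combination a1 * bw - b1 * aw
  have pw2 : w0 * n1 - w1 * n0 = 0 := by rw [hn0, hn1]; linear_combination a2 * bw - b2 * aw
  have fin : ∀ x : ℝ, (n0 ^ 2 + n1 ^ 2 + n2 ^ 2) * x = 0 → x = 0 := fun x hx =>
    (mul_eq_zero.mp hx).resolve_left hN
  refine ⟨fin _ ?_, fin _ ?_, fin _ ?_⟩
  · linear_combination -(n0 * v0 + n1 * v1 + n2 * v2) * pw0
      + w2 * (n2 * pv0 - n0 * pv2) - w1 * (n0 * pv1 - n1 * pv0)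
  · linear_combination -(n0 * v0 + n1 * v1 + n2 * v2) * pw1
      + w0 * (n0 * pv1 - n1 * pv0) - w2 * (n1 * pv2 - n2 * pv1)
  · linear_combination -(n0 * v0 + n1 * v1 + n2 * v2) * pw2
      + w1 * (n1 * pv2 - n2 * pv1) - w0 * (n2 * pv0 - n0 * pv2)

/-- Three distinct unit spheres of three-space have at most two common points. -/
theorem three (c0 c1 c2 x y z : Fin 3 → ℝ) (h01 : c0 ≠ c1) (h02 : c0 ≠ c2) (h12 : c1 ≠ c2)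
    (hx0 : ∑ k, (x k - c0 k) ^ 2 = 1) (hx1 : ∑ k, (x k - c1 k) ^ 2 = 1)
    (hx2 : ∑ k, (x k - c2 k) ^ 2 = 1)
    (hy0 : ∑ k, (y k - c0 k) ^ 2 = 1) (hy1 : ∑ k, (y k - c1 k) ^ 2 = 1)
    (hy2 : ∑ k, (y k - c2 k) ^ 2 = 1)
    (hz0 : ∑ k, (z k - c0 k) ^ 2 = 1) (hz1 : ∑ k, (z k - c1 k) ^ 2 = 1)
    (hz2 : ∑ k, (z k - c2 k) ^ 2 = 1) :
    x = y ∨ x = z ∨ y = z := by
  have sw : ∀ a b : Fin 3 → ℝ, ∑ k, (a k - b k) ^ 2 = ∑ k, (b k - a k) ^ 2 := by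
    intro a b; apply Finset.sum_congr rfl; intro k _; ring
  have hn : ¬ ((c1 1 - c0 1) * (c2 2 - c0 2) - (c1 2 - c0 2) * (c2 1 - c0 1) = 0 ∧
      (c1 2 - c0 2) * (c2 0 - c0 0) - (c1 0 - c0 0) * (c2 2 - c0 2) = 0 ∧
      (c1 0 - c0 0) * (c2 1 - c0 1) - (c1 1 - c0 1) * (c2 0 - c0 0) = 0) := by
    rintro ⟨n0, n1, n2⟩
    rcases collinear_sphere c0 c1 c2 x (by rw [sw]; exact hx0) (by rw [sw]; exact hx1)
      (by rw [sw]; exact hx2) n0 n1 n2 with h' | h' | h'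
    · exact h01 h'
    · exact h02 h'
    · exact h12 h'
  have hxs := hx0
  have hys := hy0
  have hzs := hz0
  rw [Fin.sum_univ_three] at hx0 hx1 hx2 hy0 hy1 hy2 hz0 hz1 hz2
  obtain ⟨n0, n1, n2⟩ := cross_zero (c1 0 - c0 0) (c1 1 - c0 1) (c1 2 - c0 2) (c2 0 - c0 0)
    (c2 1 - c0 1) (c2 2 - c0 2) (y 0 - x 0) (y 1 - x 1) (y 2 - x 2)
    (z 0 - x 0) (z 1 - x 1) (z 2 - x 2) hn
    (by linear_combination (1 / 2 : ℝ) * (hx1 - hx0 - hy1 + hy0))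
    (by linear_combination (1 / 2 : ℝ) * (hx2 - hx0 - hy2 + hy0))
    (by linear_combination (1 / 2 : ℝ) * (hx1 - hx0 - hz1 + hz0))
    (by linear_combination (1 / 2 : ℝ) * (hx2 - hx0 - hz2 + hz0))
  exact collinear_sphere x y z c0 hxs hys hzs n0 n1 n2

end Pool.Agent.R153.Maehara
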