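import Mathlib

set_option autoImplicit false

/-! Sums of multiplicative weights over partitions: recursions. -/

namespace Pool.Agent.R153.SN

open Finset

/-- weight of a multiset -/
noncomputable def wt (r : ℕ → ℝ) (s : Multiset ℕ) : ℝ := (s.map r).prod

theorem wt_cons (r : ℕ → ℝ) (a : ℕ) (s : Multiset ℕ) : wt r (a ::ₘ s) = r a * wt r s := by
  unfold wt
  rw [Multiset.map_cons, Multiset.prod_cons]

theorem wt_nonneg {r : ℕ → ℝ} (hr : ∀ k, 0 ≤ r k) (s : Multiset ℕ) : 0 ≤ wt r s := by
  unfold wt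
  apply Multiset.prod_nonneg
  intro a ha
  rw [Multiset.mem_map] at ha
  obtain ⟨x, -, rfl⟩ := ha
  exact hr x

/-- the sum of the weights over all partitions of `n` -/
noncomputable def w (r : ℕ → ℝ) (n : ℕ) : ℝ := ∑ p : n.Partition, wt r p.parts

theorem sum_with_part {n d : ℕ} (h1 : 1 ≤ d) (h2 : d ≤ n) (f : Multiset ℕ → ℝ) :
    ∑ p ∈ (univ : Finset n.Partition).filter (fun p => d ∈ p.parts), f p.parts =
      ∑ q : (n - d).Partition, f (d ::ₘ q.parts) := by
  symm
  apply Finset.sum_bij (fun (q : (n - d).Partition) _ =>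
    (⟨d ::ₘ q.parts, by
      intro x hx
      rw [Multiset.mem_cons] at hx
      rcases hx with rfl | hx
      · omega
      · exact q.parts_pos hx, by
      rw [Multiset.sum_cons, q.parts_sum]; omega⟩ : n.Partition))
  · intro q _
    rw [Finset.mem_filter]
    exact ⟨Finset.mem_univ _, Multiset.mem_cons_self d q.parts⟩
  · intro q _ q' _ h
    rw [Nat.Partition.ext_iff] at h
    simp only at h
    exact Nat.Partition.ext ((Multiset.cons_inj_right d).1 h)
  · intro p hp
    rw [Finset.mem_filter] at hp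
    have hd := hp.2
    refine ⟨⟨p.parts.erase d, ?_, ?_⟩, Finset.mem_univ _, ?_⟩
    · intro x hx
      exact p.parts_pos (Multiset.mem_of_mem_erase hx)
    · have := congrArg Multiset.sum (Multiset.cons_erase hd)
      rw [Multiset.sum_cons, p.parts_sum] at this
      omega
    · apply Nat.Partition.ext
      exact Multiset.cons_erase hd
  · intro q _
    rfl

/-- weighted multiplicity sums -/
noncomputable def a (r : ℕ → ℝ) (d n : ℕ) : ℝ :=
  ∑ p : n.Partition, (p.parts.count d : ℝ) * wt r p.parts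

theorem a_lt (r : ℕ → ℝ) {d n : ℕ} (h : n < d) : a r d n = 0 := by
  unfold a
  apply Finset.sum_eq_zero
  intro p _
  have : d ∉ p.parts := by
    intro hd
    have := Nat.Partition.le_of_mem_parts hd
    omega
  rw [Multiset.count_eq_zero_of_notMem this]
  simp

theorem a_rec (r : ℕ → ℝ) {d n : ℕ} (h1 : 1 ≤ d) (h2 : d ≤ n) :
    a r d n = r d * (w r (n - d) + a r d (n - d)) := by
  have h3 : a r d n = ∑ p ∈ (univ : Finset n.Partition).filter (fun p => d ∈ p.parts),
      (p.parts.count d : ℝ) * wt r p.parts := by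
    unfold a
    symm
    apply Finset.sum_filter_of_ne
    intro p _ hne
    by_contra hd
    apply hne
    rw [Multiset.count_eq_zero_of_notMem hd]
    simp
  rw [h3, sum_with_part h1 h2 (fun s => (s.count d : ℝ) * wt r s)]
  unfold a w
  rw [← Finset.sum_add_distrib, Finset.mul_sum]
  apply Finset.sum_congr rfl
  intro q _
  rw [wt_cons, Multiset.count_cons_self]
  push_cast
  ring

theorem a_eq (r : ℕ → ℝ) {d : ℕ} (hd : 1 ≤ d) (n : ℕ) :
    a r d n = ∑ j ∈ Finset.Icc 1 (n / d), r d ^ j * w r (n - d * j) := by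
  induction n using Nat.strong_induction_on with
  | _ n ih =>
    rcases Nat.lt_or_ge n d with h | h
    · rw [a_lt r h, Nat.div_eq_of_lt h]
      simp
    · rw [a_rec r hd h, ih (n - d) (by omega)]
      have hdiv : n / d = (n - d) / d + 1 := by
        rw [Nat.div_eq_sub_div (by omega) h]
      rw [hdiv]
      have hI : Finset.Icc 1 ((n - d) / d + 1) = insert 1 ((Finset.Icc 1 ((n - d) / d)).image
          (fun j => j + 1)) := by
        ext x
        rw [Finset.mem_insert, Finset.mem_image, Finset.mem_Icc]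
        constructor
        · intro hx
          rcases Nat.lt_or_ge x 2 with h2 | h2
          · left; omega
          · right; exact ⟨x - 1, by rw [Finset.mem_Icc]; omega, by omega⟩
        · rintro (rfl | ⟨y, hy, rfl⟩)
          · exact ⟨le_rfl, Nat.le_add_left 1 _⟩
          · rw [Finset.mem_Icc] at hy; omega
      rw [hI, Finset.sum_insert, Finset.sum_image (fun a _ b _ hab => by omega), mul_add,
        pow_one, mul_one, Finset.mul_sum]
      · congr 1
        apply Finset.sum_congr rfl
        intro j _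
        have e : n - d - d * j = n - d * (j + 1) := by
          rw [mul_add, mul_one]; omega
        rw [e, pow_succ]
        ring
      · rw [Finset.mem_image]
        rintro ⟨y, hy, hy2⟩
        rw [Finset.mem_Icc] at hy
        omega

/-- `σ(k)` -/
noncomputable def sg (r : ℕ → ℝ) (k : ℕ) : ℝ := ∑ d ∈ k.divisors, (d : ℝ) * r d ^ (k / d)

/-- the recursion `n w(n) = Σ σ(k) w(n - k)` -/
theorem main_rec (r : ℕ → ℝ) (n : ℕ) :
    (n : ℝ) * w r n = ∑ k ∈ Finset.Icc 1 n, sg r k * w r (n - k) := by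
  have h1 : (n : ℝ) * w r n = ∑ d ∈ Finset.Icc 1 n, (d : ℝ) * a r d n := by
    unfold w a
    rw [Finset.mul_sum]
    simp_rw [Finset.mul_sum]
    rw [Finset.sum_comm]
    apply Finset.sum_congr rfl
    intro p _
    have h2 : (n : ℝ) = ∑ d ∈ Finset.Icc 1 n, (d : ℝ) * (p.parts.count d : ℝ) := by
      have h3 := Finset.sum_multiset_count_of_subset p.parts (Finset.Icc 1 n) (by
        intro x hx
        rw [Multiset.mem_toFinset] at hx
        rw [Finset.mem_Icc]
        exact ⟨p.parts_pos hx, Nat.Partition.le_of_mem_parts hx⟩)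
      rw [p.parts_sum] at h3
      have h4 := congrArg (Nat.cast : ℕ → ℝ) h3
      rw [h4]
      push_cast
      apply Finset.sum_congr rfl
      intro x _
      rw [smul_eq_mul]
      push_cast
      ring
    nth_rewrite 1 [h2]
    rw [Finset.sum_mul]
    apply Finset.sum_congr rfl
    intro d _
    ring
  rw [h1]
  have h5 : ∀ d ∈ Finset.Icc 1 n, (d : ℝ) * a r d n =
      ∑ j ∈ Finset.Icc 1 (n / d), (d : ℝ) * r d ^ j * w r (n - d * j) := by
    intro d hd
    rw [Finset.mem_Icc] at hd
    rw [a_eq r hd.1, Finset.mul_sum]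
    apply Finset.sum_congr rfl
    intro j _
    ring
  rw [Finset.sum_congr rfl h5]
  unfold sg
  simp_rw [Finset.sum_mul]
  rw [Finset.sum_sigma', Finset.sum_sigma']
  apply Finset.sum_bij' (fun x _ => (⟨x.1 * x.2, x.1⟩ : Σ _ : ℕ, ℕ))
    (fun x _ => (⟨x.2, x.1 / x.2⟩ : Σ _ : ℕ, ℕ))
  · rintro ⟨d, j⟩ hx
    rw [Finset.mem_sigma, Finset.mem_Icc, Finset.mem_Icc] at hx
    rw [Finset.mem_sigma, Finset.mem_Icc, Nat.mem_divisors]
    simp only at hx ⊢
    obtain ⟨⟨h6, h7⟩, h8, h9⟩ := hx
    have h10 : d * j ≤ n := by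
      calc d * j ≤ d * (n / d) := Nat.mul_le_mul_left d h9
        _ ≤ n := Nat.mul_div_le n d
    refine ⟨⟨Nat.mul_pos h6 h8, h10⟩, dvd_mul_right d j, ?_⟩
    have := Nat.mul_pos h6 h8
    omega
  · rintro ⟨k, d⟩ hx
    rw [Finset.mem_sigma, Finset.mem_Icc, Nat.mem_divisors] at hx
    rw [Finset.mem_sigma, Finset.mem_Icc, Finset.mem_Icc]
    simp only at hx ⊢
    obtain ⟨⟨h6, h7⟩, h8, h9⟩ := hx
    have hdpos : 0 < d := Nat.pos_of_dvd_of_pos h8 h6
    have hdk : d ≤ k := Nat.le_of_dvd h6 h8
    refine ⟨⟨hdpos, by omega⟩, Nat.div_pos hdk hdpos, Nat.div_le_div_right h7⟩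
  · rintro ⟨d, j⟩ hx
    rw [Finset.mem_sigma, Finset.mem_Icc, Finset.mem_Icc] at hx
    simp only at hx ⊢
    rw [Nat.mul_div_cancel_left j (by omega)]
  · rintro ⟨k, d⟩ hx
    rw [Finset.mem_sigma, Finset.mem_Icc, Nat.mem_divisors] at hx
    simp only at hx ⊢
    rw [Nat.mul_div_cancel' hx.2.1]
  · rintro ⟨d, j⟩ hx
    rw [Finset.mem_sigma, Finset.mem_Icc, Finset.mem_Icc] at hx
    simp only at hx ⊢
    rw [Nat.mul_div_cancel_left j (by omega)]

/-! ### Restricted sums -/

open Classical in
/-- the sum of the weights over the partitions of `n` with parts at most `N` -/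
noncomputable def wN (r : ℕ → ℝ) (N n : ℕ) : ℝ :=
  ∑ p : n.Partition, if ∀ x ∈ p.parts, x ≤ N then wt r p.parts else 0

theorem wN_nonneg {r : ℕ → ℝ} (hr : ∀ k, 0 ≤ r k) (N n : ℕ) : 0 ≤ wN r N n := by
  unfold wN
  apply Finset.sum_nonneg
  intro p _
  split_ifs
  · exact wt_nonneg hr _
  · exact le_rfl

theorem wN_eq (r : ℕ → ℝ) {N n : ℕ} (h : n ≤ N) : wN r N n = w r n := by
  unfold wN w
  apply Finset.sum_congr rfl
  intro p _
  rw [if_pos]
  intro x hx
  exact (Nat.Partition.le_of_mem_parts hx).trans h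

theorem wN_zero_zero (r : ℕ → ℝ) : wN r 0 0 = 1 := by
  rw [wN_eq r le_rfl]
  unfold w
  rw [Fintype.sum_unique]
  simp [wt]

theorem wN_zero_pos (r : ℕ → ℝ) {n : ℕ} (hn : 0 < n) : wN r 0 n = 0 := by
  unfold wN
  apply Finset.sum_eq_zero
  intro p _
  rw [if_neg]
  intro h
  have : p.parts = 0 := by
    rw [Multiset.eq_zero_iff_forall_notMem]
    intro x hx
    have h1 := h x hx
    have h2 := p.parts_pos hx
    omega
  have h3 := p.parts_sum
  rw [this] at h3
  simp at h3
  omega

theorem wN_rec (r : ℕ → ℝ) (N n : ℕ) : wN r (N + 1) n =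
    wN r N n + if N + 1 ≤ n then r (N + 1) * wN r (N + 1) (n - (N + 1)) else 0 := by
  classical
  have hsplit : wN r (N + 1) n =
      ∑ p ∈ (univ : Finset n.Partition).filter (fun p => ¬ N + 1 ∈ p.parts),
        (if ∀ x ∈ p.parts, x ≤ N + 1 then wt r p.parts else 0) +
      ∑ p ∈ (univ : Finset n.Partition).filter (fun p => N + 1 ∈ p.parts),
        (if ∀ x ∈ p.parts, x ≤ N + 1 then wt r p.parts else 0) := by
    unfold wN
    rw [add_comm (∑ p ∈ _, _), Finset.sum_filter_add_sum_filter_not]
  rw [hsplit]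
  congr 1
  · unfold wN
    rw [Finset.sum_filter]
    apply Finset.sum_congr rfl
    intro p _
    by_cases h1 : N + 1 ∈ p.parts
    · rw [if_neg (by simpa using h1), if_neg]
      intro h2
      have := h2 _ h1
      omega
    · rw [if_pos h1]
      apply if_congr _ rfl rfl
      constructor
      · intro h2 x hx
        have h3 := h2 x hx
        have h4 : x ≠ N + 1 := fun h => h1 (h ▸ hx)
        omega
      · intro h2 x hx
        have := h2 x hx
        omega
  · split_ifs with h
    · rw [sum_with_part (by omega) h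
        (fun s => if ∀ x ∈ s, x ≤ N + 1 then wt r s else 0)]
      unfold wN
      rw [Finset.mul_sum]
      apply Finset.sum_congr rfl
      intro q _
      simp only [Multiset.mem_cons, forall_eq_or_imp, le_refl, true_and]
      split_ifs
      · rw [wt_cons]
      · rw [mul_zero]
    · apply Finset.sum_eq_zero
      intro p hp
      rw [Finset.mem_filter] at hp
      have := Nat.Partition.le_of_mem_parts hp.2
      omega

end Pool.Agent.R153.SN
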