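import Pool.Agent.R153.SN1

set_option autoImplicit false

/-! Cumulative sums of the restricted sums. -/

namespace Pool.Agent.R153.SN

open Finset Filter Topology

theorem sum_shift (f : ℕ → ℝ) (a K : ℕ) :
    ∑ m ∈ range K, (if a ≤ m then f (m - a) else 0) = ∑ m ∈ range (K - a), f m := by
  induction K with
  | zero => simp
  | succ K ih =>
    rw [Finset.sum_range_succ, ih]
    split_ifs with h
    · have e : K + 1 - a = (K - a) + 1 := by omega
      rw [e, Finset.sum_range_succ]
    · have e1 : K + 1 - a = 0 := by omega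
      have e2 : K - a = 0 := by omega
      rw [e1, e2]
      simp

noncomputable def cN (r : ℕ → ℝ) (N M : ℕ) : ℝ := ∑ m ∈ range (M + 1), wN r N m

noncomputable def dN (r : ℕ → ℝ) (N M : ℕ) : ℝ := ∑ m ∈ range (M + 1), (m : ℝ) * wN r N m

noncomputable def T (r : ℕ → ℝ) (N : ℕ) : ℝ := ∏ k ∈ range N, (1 - r (k + 1))⁻¹

noncomputable def E (r : ℕ → ℝ) (N : ℕ) : ℝ :=
  ∑ k ∈ range N, ((k : ℝ) + 1) * r (k + 1) * (1 - r (k + 1))⁻¹

variable {r : ℕ → ℝ} (hr : ∀ k, 0 ≤ r k) (hr2 : ∀ k, r k ≤ 1 / 2)

include hr hr2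

omit hr in
theorem T_pos (N : ℕ) : 0 < T r N := by
  unfold T
  apply Finset.prod_pos
  intro k _
  have := hr2 (k + 1)
  rw [inv_pos]
  linarith

omit hr in
theorem T_succ (N : ℕ) : T r (N + 1) * (1 - r (N + 1)) = T r N := by
  unfold T
  rw [Finset.prod_range_succ, mul_assoc, inv_mul_cancel₀, mul_one]
  have := hr2 (N + 1)
  linarith

theorem E_nonneg (N : ℕ) : 0 ≤ E r N := by
  unfold E
  apply Finset.sum_nonneg
  intro k _
  have h1 := hr2 (k + 1)
  have h2 := hr (k + 1)
  have h3 : 0 ≤ (1 - r (k + 1))⁻¹ := by rw [inv_nonneg]; linarith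
  positivity

omit hr hr2 in
theorem cN_rec (N M : ℕ) : cN r (N + 1) M =
    cN r N M + r (N + 1) * ∑ m ∈ range (M + 1 - (N + 1)), wN r (N + 1) m := by
  unfold cN
  rw [← sum_shift, Finset.mul_sum, ← Finset.sum_add_distrib]
  apply Finset.sum_congr rfl
  intro m _
  rw [wN_rec, mul_ite, mul_zero]

omit hr2 in
theorem cN_mono (N : ℕ) : Monotone (cN r N) := by
  intro a b hab
  unfold cN
  apply Finset.sum_le_sum_of_subset_of_nonneg
  · intro x hx
    rw [Finset.mem_range] at hx ⊢
    omega
  · intro m _ _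
    exact wN_nonneg hr N m

omit hr2 in
theorem sum_range_le (N M K : ℕ) (h : K ≤ M + 1) :
    ∑ m ∈ range K, wN r N m ≤ cN r N M := by
  unfold cN
  apply Finset.sum_le_sum_of_subset_of_nonneg
  · intro x hx
    rw [Finset.mem_range] at hx ⊢
    omega
  · intro m _ _
    exact wN_nonneg hr N m

omit hr2 in
theorem cN_nonneg (N M : ℕ) : 0 ≤ cN r N M := by
  unfold cN
  exact Finset.sum_nonneg (fun m _ => wN_nonneg hr N m)

omit hr hr2 in
theorem cN_zero (M : ℕ) : cN r 0 M = 1 := by
  unfold cN
  rw [Finset.sum_range_succ', wN_zero_zero, Finset.sum_eq_zero, zero_add]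
  intro m _
  exact wN_zero_pos r (Nat.succ_pos m)

theorem cN_le (N M : ℕ) : cN r N M ≤ T r N := by
  induction N with
  | zero => rw [cN_zero]; simp [T]
  | succ N ih =>
    have h1 := cN_rec (r := r) N M
    have h2 := sum_range_le hr (N + 1) M (M + 1 - (N + 1)) (by omega)
    have h3 := mul_le_mul_of_nonneg_left h2 (hr (N + 1))
    have h4 : cN r (N + 1) M * (1 - r (N + 1)) ≤ T r (N + 1) * (1 - r (N + 1)) := by
      rw [T_succ hr2]
      linarith
    have h5 := hr2 (N + 1)
    exact le_of_mul_le_mul_right h4 (by linarith)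

omit hr hr2 in
theorem dN_rec (N M : ℕ) : dN r (N + 1) M = dN r N M +
    r (N + 1) * ∑ m ∈ range (M + 1 - (N + 1)), ((m : ℝ) + (N + 1)) * wN r (N + 1) m := by
  unfold dN
  rw [← sum_shift (fun m => ((m : ℝ) + (N + 1)) * wN r (N + 1) m), Finset.mul_sum,
    ← Finset.sum_add_distrib]
  apply Finset.sum_congr rfl
  intro m _
  rw [wN_rec, mul_ite, mul_zero, mul_add]
  congr 1
  split_ifs with h
  · have e : ((m - (N + 1) : ℕ) : ℝ) = (m : ℝ) - (N + 1) := by
      rw [Nat.cast_sub h]; push_cast; ring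
    rw [e]
    ring
  · rw [mul_zero]

theorem dN_le (N M : ℕ) : dN r N M ≤ T r N * E r N := by
  induction N with
  | zero =>
    unfold dN
    rw [Finset.sum_eq_zero]
    · simp [T, E]
    · intro m _
      rcases Nat.eq_zero_or_pos m with h | h
      · rw [h]; simp
      · rw [wN_zero_pos r h, mul_zero]
  | succ N ih =>
    have h1 := dN_rec (r := r) N M
    have h2 : ∑ m ∈ range (M + 1 - (N + 1)), ((m : ℝ) + (N + 1)) * wN r (N + 1) m ≤
        dN r (N + 1) M + (N + 1) * cN r (N + 1) M := by
      have e : dN r (N + 1) M + (N + 1) * cN r (N + 1) M =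
          ∑ m ∈ range (M + 1), ((m : ℝ) + (N + 1)) * wN r (N + 1) m := by
        unfold dN cN
        rw [Finset.mul_sum, ← Finset.sum_add_distrib]
        apply Finset.sum_congr rfl
        intro m _
        ring
      rw [e]
      apply Finset.sum_le_sum_of_subset_of_nonneg
      · intro x hx
        rw [Finset.mem_range] at hx ⊢
        omega
      · intro m _ _
        exact mul_nonneg (by positivity) (wN_nonneg hr _ m)
    have h3 := mul_le_mul_of_nonneg_left h2 (hr (N + 1))
    have h4 := cN_le hr hr2 (N + 1) M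
    have h5 : r (N + 1) * ((N + 1) * cN r (N + 1) M) ≤ r (N + 1) * ((N + 1) * T r (N + 1)) := by
      apply mul_le_mul_of_nonneg_left _ (hr (N + 1))
      apply mul_le_mul_of_nonneg_left h4 (by positivity)
    have h6 := hr2 (N + 1)
    have hE : E r (N + 1) = E r N + ((N : ℝ) + 1) * r (N + 1) * (1 - r (N + 1))⁻¹ := by
      unfold E; rw [Finset.sum_range_succ]
    have hT := T_succ hr2 N
    have h7 : dN r (N + 1) M * (1 - r (N + 1)) ≤
        (T r (N + 1) * E r (N + 1)) * (1 - r (N + 1)) := by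
      have e : (T r (N + 1) * E r (N + 1)) * (1 - r (N + 1)) =
          T r N * E r N + r (N + 1) * ((N + 1) * T r (N + 1)) := by
        rw [hE, mul_add, add_mul]
        congr 1
        · rw [← hT]; ring
        · have : (1 - r (N + 1))⁻¹ * (1 - r (N + 1)) = 1 := inv_mul_cancel₀ (by linarith)
          calc T r (N + 1) * (((N : ℝ) + 1) * r (N + 1) * (1 - r (N + 1))⁻¹) * (1 - r (N + 1))
              = T r (N + 1) * (((N : ℝ) + 1) * r (N + 1)) *
                ((1 - r (N + 1))⁻¹ * (1 - r (N + 1))) := by ring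
            _ = _ := by rw [this]; ring
      rw [e]
      nlinarith
    exact le_of_mul_le_mul_right h7 (by linarith)

theorem cN_tendsto (N : ℕ) : Tendsto (cN r N) atTop (𝓝 (T r N)) := by
  induction N with
  | zero =>
    have : cN r 0 = fun _ => (1 : ℝ) := by ext M; exact cN_zero M
    rw [this]
    simp [T]
  | succ N ih =>
    have hbdd : BddAbove (Set.range (cN r (N + 1))) := by
      refine ⟨T r (N + 1), ?_⟩
      rintro _ ⟨M, rfl⟩
      exact cN_le hr hr2 (N + 1) M
    have hlim := tendsto_atTop_ciSup (cN_mono hr (N + 1)) hbdd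
    set L := ⨆ i, cN r (N + 1) i with hL
    have h1 : Tendsto (fun M => cN r (N + 1) (M + (N + 1))) atTop (𝓝 L) :=
      hlim.comp (tendsto_add_atTop_nat (N + 1))
    have h2 : Tendsto (fun M => cN r N (M + (N + 1)) + r (N + 1) * cN r (N + 1) M) atTop
        (𝓝 (T r N + r (N + 1) * L)) :=
      (ih.comp (tendsto_add_atTop_nat (N + 1))).add (hlim.const_mul _)
    have h3 : (fun M => cN r (N + 1) (M + (N + 1))) =
        fun M => cN r N (M + (N + 1)) + r (N + 1) * cN r (N + 1) M := by
      ext M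
      rw [cN_rec]
      have e : M + (N + 1) + 1 - (N + 1) = M + 1 := by omega
      rw [e]
      rfl
    rw [h3] at h1
    have h4 := tendsto_nhds_unique h1 h2
    have h5 := hr2 (N + 1)
    have h6 : L = T r (N + 1) := by
      have h7 : L * (1 - r (N + 1)) = T r (N + 1) * (1 - r (N + 1)) := by
        rw [T_succ hr2]; linarith
      have h8 : (1 - r (N + 1)) ≠ 0 := ne_of_gt (by linarith)
      exact mul_right_cancel₀ h8 h7
    rw [← h6]
    exact hlim

theorem lower (N : ℕ) (hN : 0 < N) : T r N - T r N * E r N / N ≤ cN r N N := by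
  have hN' : (0 : ℝ) < N := by exact_mod_cast hN
  have h1 : ∀ M, N ≤ M → cN r N M - T r N * E r N / N ≤ cN r N N := by
    intro M hM
    have h2 : cN r N M - cN r N N ≤ dN r N M / N := by
      have h3 : cN r N M = cN r N N + ∑ m ∈ Finset.Ico (N + 1) (M + 1), wN r N m := by
        unfold cN
        rw [Finset.sum_range_add_sum_Ico _ (by omega)]
      have h4 : (∑ m ∈ Finset.Ico (N + 1) (M + 1), wN r N m) * N ≤ dN r N M := by
        unfold dN
        rw [Finset.sum_mul, ← Finset.sum_range_add_sum_Ico (fun m => (m : ℝ) * wN r N m)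
          (show N + 1 ≤ M + 1 by omega)]
        have h5 : 0 ≤ ∑ m ∈ range (N + 1), (m : ℝ) * wN r N m :=
          Finset.sum_nonneg (fun m _ => mul_nonneg (by positivity) (wN_nonneg hr N m))
        have h6 : ∑ m ∈ Finset.Ico (N + 1) (M + 1), wN r N m * N ≤
            ∑ m ∈ Finset.Ico (N + 1) (M + 1), (m : ℝ) * wN r N m := by
          apply Finset.sum_le_sum
          intro m hm
          rw [Finset.mem_Ico] at hm
          rw [mul_comm]
          apply mul_le_mul_of_nonneg_right _ (wN_nonneg hr N m)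
          exact_mod_cast (by omega : N ≤ m)
        linarith
      rw [h3, add_sub_cancel_left, le_div_iff₀ hN']
      exact h4
    have h7 : dN r N M / N ≤ T r N * E r N / N :=
      div_le_div_of_nonneg_right (dN_le hr hr2 N M) hN'.le
    linarith
  have h8 : Tendsto (fun M => cN r N M - T r N * E r N / N) atTop
      (𝓝 (T r N - T r N * E r N / N)) := (cN_tendsto hr hr2 N).sub_const _
  exact le_of_tendsto h8 (eventually_atTop.2 ⟨N, h1⟩)

end Pool.Agent.R153.SN
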