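import Mathlib

set_option autoImplicit false

/-! An elementary Tauberian argument. -/

namespace Pool.Agent.R153.SN

open Finset Filter Topology

section

variable {w σ : ℕ → ℝ} {κ : ℝ} (hw : ∀ n, 0 ≤ w n) (hσ : ∀ n, 0 ≤ σ n)
  (hrec : ∀ n : ℕ, (n : ℝ) * w n = ∑ k ∈ Finset.Icc 1 n, σ k * w (n - k))
  (hC : Tendsto (fun n : ℕ => (∑ m ∈ range (n + 1), w m) / Real.log n) atTop (𝓝 κ))
  (hs : Tendsto (fun k : ℕ => σ k * Real.log k) atTop (𝓝 1))

include hrec in
theorem rec' (n : ℕ) : (n : ℝ) * w n = ∑ m ∈ range n, σ (n - m) * w m := by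
  rw [hrec]
  apply Finset.sum_bij' (fun k _ => n - k) (fun m _ => n - m)
  · intro k hk
    rw [Finset.mem_Icc] at hk
    rw [Finset.mem_range]
    omega
  · intro m hm
    rw [Finset.mem_range] at hm
    rw [Finset.mem_Icc]
    omega
  · intro k hk
    rw [Finset.mem_Icc] at hk
    omega
  · intro m hm
    rw [Finset.mem_range] at hm
    omega
  · intro k hk
    rw [Finset.mem_Icc] at hk
    have e : n - (n - k) = k := by omega
    rw [e]

theorem log_tendsto : Tendsto (fun n : ℕ => Real.log n) atTop atTop :=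
  Real.tendsto_log_atTop.comp tendsto_natCast_atTop_atTop

include hs in
theorem sigma_zero : Tendsto σ atTop (𝓝 0) := by
  have h1 : Tendsto (fun n : ℕ => (Real.log n)⁻¹) atTop (𝓝 0) :=
    tendsto_inv_atTop_zero.comp log_tendsto
  have h2 := hs.mul h1
  rw [mul_zero] at h2
  refine h2.congr' ?_
  filter_upwards [log_tendsto.eventually_gt_atTop 0] with n hn
  rw [mul_assoc, mul_inv_cancel₀ hn.ne', mul_one]

include hs in
theorem avg_zero : Tendsto (fun n : ℕ => (n : ℝ)⁻¹ * ∑ i ∈ range n, σ i) atTop (𝓝 0) :=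
  (sigma_zero hs).cesaro

include hσ in
theorem sum_sigma_le (n h : ℕ) : ∑ m ∈ Finset.Ico (h + 1) n, σ (n - m) ≤ ∑ i ∈ range n, σ i := by
  have h1 : ∑ m ∈ Finset.Ico (h + 1) n, σ (n - m) =
      ∑ i ∈ (Finset.Ico (h + 1) n).image (fun m => n - m), σ i := by
    rw [Finset.sum_image]
    intro a ha b hb hab
    rw [Finset.mem_coe, Finset.mem_Ico] at ha hb
    simp only at hab
    omega
  rw [h1]
  apply Finset.sum_le_sum_of_subset_of_nonneg
  · intro x hx
    rw [Finset.mem_image] at hx
    obtain ⟨m, hm, rfl⟩ := hx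
    rw [Finset.mem_Ico] at hm
    rw [Finset.mem_range]
    omega
  · intro i _ _
    exact hσ i

include hrec in
theorem split (n : ℕ) (hn : 1 ≤ n) : (n : ℝ) * w n =
    ∑ m ∈ range (n / 2 + 1), σ (n - m) * w m +
      ∑ m ∈ Finset.Ico (n / 2 + 1) n, σ (n - m) * w m := by
  rw [rec' hrec, Finset.sum_range_add_sum_Ico _ (by omega)]

include hσ in
theorem second_le (n : ℕ) (hn : 1 ≤ n) (A : ℝ) (hA : 0 ≤ A)
    (h : ∀ m, n / 2 + 1 ≤ m → m < n → (m : ℝ) * w m ≤ A) :
    ∑ m ∈ Finset.Ico (n / 2 + 1) n, σ (n - m) * w m ≤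
      2 * A * ((n : ℝ)⁻¹ * ∑ i ∈ range n, σ i) := by
  have hn' : (0 : ℝ) < n := by exact_mod_cast hn
  have h1 : ∀ m ∈ Finset.Ico (n / 2 + 1) n, σ (n - m) * w m ≤ σ (n - m) * (2 * A / n) := by
    intro m hm
    rw [Finset.mem_Ico] at hm
    apply mul_le_mul_of_nonneg_left _ (hσ _)
    have h2 := h m hm.1 hm.2
    have h3 : (n : ℝ) ≤ 2 * m := by exact_mod_cast (by omega : n ≤ 2 * m)
    have hm' : (0 : ℝ) < m := by linarith
    rw [le_div_iff₀ hn']
    rcases le_total 0 (w m) with hw | hw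
    · nlinarith
    · nlinarith
  refine (Finset.sum_le_sum h1).trans ?_
  rw [← Finset.sum_mul]
  have h4 := sum_sigma_le hσ n (n / 2)
  have h5 : 0 ≤ 2 * A / n := by positivity
  calc (∑ i ∈ Finset.Ico (n / 2 + 1) n, σ (n - i)) * (2 * A / n)
      ≤ (∑ i ∈ range n, σ i) * (2 * A / n) := mul_le_mul_of_nonneg_right h4 h5
    _ = _ := by rw [div_eq_mul_inv]; ring

theorem log_half {n k : ℕ} (hk : 1 ≤ k) (h : n ≤ 2 * k) (hn : 1 ≤ n) :
    Real.log n - Real.log k ≤ Real.log 2 := by
  have hn' : (0 : ℝ) < n := by exact_mod_cast hn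
  have hk' : (0 : ℝ) < k := by exact_mod_cast hk
  have h1 : (n : ℝ) ≤ 2 * k := by exact_mod_cast h
  have h2 := Real.log_le_log hn' h1
  rw [Real.log_mul (by norm_num) hk'.ne'] at h2
  linarith

include hσ hs in
/-- uniform estimate -/
theorem unif (ε : ℝ) (hε : 0 < ε) : ∃ K : ℕ, ∀ n, K ≤ n → ∀ k, n ≤ 2 * k → k ≤ n →
    |σ k * Real.log n - 1| ≤ ε := by
  have h1 : ∀ᶠ k : ℕ in atTop, |σ k * Real.log k - 1| ≤ ε / 2 := by
    have := (Metric.tendsto_atTop.1 hs) (ε / 2) (by linarith)
    obtain ⟨N, hN⟩ := this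
    refine eventually_atTop.2 ⟨N, fun k hk => ?_⟩
    have := hN k hk
    rw [Real.dist_eq] at this
    exact this.le
  have h2 : ∀ᶠ k : ℕ in atTop, σ k ≤ ε / 2 := by
    have := (sigma_zero hs).eventually_le_const (show (0 : ℝ) < ε / 2 by linarith)
    exact this
  obtain ⟨K1, hK1⟩ := eventually_atTop.1 h1
  obtain ⟨K2, hK2⟩ := eventually_atTop.1 h2
  refine ⟨2 * (K1 + K2 + 1), fun n hn k hk hkn => ?_⟩
  have hk1 : 1 ≤ k := by omega
  have h3 := hK1 k (by omega)
  have h4 := hK2 k (by omega)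
  have h5 := log_half hk1 hk (by omega)
  have h6 : Real.log k ≤ Real.log n := by
    apply Real.log_le_log
    · exact_mod_cast hk1
    · exact_mod_cast hkn
  have h7 := hσ k
  have hl2 : Real.log 2 ≤ 1 := by
    have := Real.log_two_lt_d9; linarith
  rw [abs_le] at h3 ⊢
  have h8 : 0 ≤ σ k * (Real.log n - Real.log k) := mul_nonneg h7 (by linarith)
  have h9 : σ k * (Real.log n - Real.log k) ≤ ε / 2 * 1 :=
    mul_le_mul h4 (by linarith) (by linarith) (by linarith)
  constructor
  · nlinarith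
  · nlinarith

include hC in
theorem half_tendsto : Tendsto (fun n : ℕ => (∑ m ∈ range (n / 2 + 1), w m) / Real.log n)
    atTop (𝓝 κ) := by
  have hdiv : Tendsto (fun n : ℕ => n / 2) atTop atTop := by
    rw [tendsto_atTop_atTop]
    intro b
    exact ⟨2 * b, fun a ha => by omega⟩
  have h1 := hC.comp hdiv
  have h2 : Tendsto (fun n : ℕ => Real.log ((n / 2 : ℕ) : ℝ) / Real.log n) atTop (𝓝 1) := by
    have h3 : Tendsto (fun n : ℕ => 1 - Real.log 3 * (Real.log n)⁻¹) atTop (𝓝 1) := by
      have : Tendsto (fun n : ℕ => Real.log 3 * (Real.log n)⁻¹) atTop (𝓝 (Real.log 3 * 0)) :=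
        (tendsto_inv_atTop_zero.comp log_tendsto).const_mul _
      rw [mul_zero] at this
      simpa using this.const_sub 1
    refine tendsto_of_tendsto_of_tendsto_of_le_of_le' h3 tendsto_const_nhds ?_ ?_
    · filter_upwards [eventually_ge_atTop 3] with n hn
      have hn' : (0 : ℝ) < n := by exact_mod_cast (by omega : 0 < n)
      have hlog : 0 < Real.log n := Real.log_pos (by exact_mod_cast (by omega : 1 < n))
      have hh : (0 : ℝ) < ((n / 2 : ℕ) : ℝ) := by exact_mod_cast (by omega : 0 < n / 2)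
      have h4 : (n : ℝ) ≤ 3 * ((n / 2 : ℕ) : ℝ) := by exact_mod_cast (by omega : n ≤ 3 * (n / 2))
      have h5 := Real.log_le_log hn' h4
      rw [Real.log_mul (by norm_num) hh.ne'] at h5
      rw [le_div_iff₀ hlog, sub_mul, one_mul, mul_assoc, inv_mul_cancel₀ hlog.ne', mul_one]
      linarith
    · filter_upwards [eventually_ge_atTop 3] with n hn
      have hlog : 0 < Real.log n := Real.log_pos (by exact_mod_cast (by omega : 1 < n))
      rw [div_le_one hlog]
      apply Real.log_le_log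
      · exact_mod_cast (by omega : 0 < n / 2)
      · exact_mod_cast (by omega : n / 2 ≤ n)
  have h6 := h1.mul h2
  rw [mul_one] at h6
  refine h6.congr' ?_
  filter_upwards [eventually_ge_atTop 6] with n hn
  simp only [Function.comp]
  have hlog : 0 < Real.log ((n / 2 : ℕ) : ℝ) :=
    Real.log_pos (by exact_mod_cast (by omega : 1 < n / 2))
  rw [div_mul_div_cancel₀ hlog.ne']

include hw hσ hrec hC hs in
theorem bounded : ∃ A : ℝ, 0 ≤ A ∧ ∀ m : ℕ, 1 ≤ m → (m : ℝ) * w m ≤ A := by
  obtain ⟨K, hK⟩ := unif hσ hs 1 one_pos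
  have h1 : ∀ᶠ n : ℕ in atTop, (∑ m ∈ range (n / 2 + 1), w m) / Real.log n ≤ κ + 1 :=
    (half_tendsto hC).eventually_le_const (by linarith)
  have h2 : ∀ᶠ n : ℕ in atTop, (n : ℝ)⁻¹ * ∑ i ∈ range n, σ i ≤ 1 / 4 :=
    (avg_zero hs).eventually_le_const (by norm_num)
  obtain ⟨N1, hN1⟩ := eventually_atTop.1 (h1.and (h2.and (eventually_ge_atTop (K + 2))))
  set B := ∑ m ∈ range N1, (m : ℝ) * w m with hB
  have hB0 : 0 ≤ B := Finset.sum_nonneg (fun m _ => mul_nonneg (by positivity) (hw m))
  refine ⟨max (4 * (|κ| + 1)) B, ?_, ?_⟩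
  · exact le_max_of_le_right hB0
  · intro n
    induction n using Nat.strong_induction_on with
    | _ n ih =>
      intro hn
      rcases Nat.lt_or_ge n N1 with h | h
      · refine le_trans ?_ (le_max_right _ _)
        rw [hB]
        exact Finset.single_le_sum (f := fun m : ℕ => (m : ℝ) * w m)
          (fun m _ => mul_nonneg (by positivity) (hw m)) (Finset.mem_range.2 h)
      · obtain ⟨h3, h4, h5⟩ := hN1 n h
        have h6 := second_le hσ n hn (max (4 * (|κ| + 1)) B) (le_max_of_le_right hB0)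
          (fun m hm1 hm2 => ih m hm2 (by omega))
        rw [split hrec n hn]
        have hlog : 0 < Real.log n := Real.log_pos (by exact_mod_cast (by omega : 1 < n))
        have h7 : ∑ m ∈ range (n / 2 + 1), σ (n - m) * w m ≤
            2 * ((∑ m ∈ range (n / 2 + 1), w m) / Real.log n) := by
          rw [mul_div_assoc', Finset.mul_sum, Finset.sum_div]
          apply Finset.sum_le_sum
          intro m hm
          rw [Finset.mem_range] at hm
          have h8 := hK n (by omega) (n - m) (by omega) (by omega)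
          rw [abs_le] at h8
          have h9 : σ (n - m) ≤ 2 / Real.log n := by
            rw [le_div_iff₀ hlog]; linarith
          calc σ (n - m) * w m ≤ 2 / Real.log n * w m :=
                mul_le_mul_of_nonneg_right h9 (hw m)
            _ = _ := by ring
        have h10 : κ ≤ |κ| := le_abs_self κ
        have h11 := le_max_left (4 * (|κ| + 1)) B
        have h12 : 2 * max (4 * (|κ| + 1)) B * ((n : ℝ)⁻¹ * ∑ i ∈ range n, σ i) ≤
            2 * max (4 * (|κ| + 1)) B * (1 / 4) := by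
          apply mul_le_mul_of_nonneg_left h4
          have := le_max_right (4 * (|κ| + 1)) B
          linarith
        linarith

include hw hσ hrec hC hs in
/-- the Tauberian theorem -/
theorem tauber : Tendsto (fun n : ℕ => (n : ℝ) * w n) atTop (𝓝 κ) := by
  obtain ⟨A, hA0, hA⟩ := bounded hw hσ hrec hC hs
  -- second sum
  have hS2 : Tendsto (fun n : ℕ => ∑ m ∈ Finset.Ico (n / 2 + 1) n, σ (n - m) * w m) atTop
      (𝓝 0) := by
    have h1 : Tendsto (fun n : ℕ => 2 * A * ((n : ℝ)⁻¹ * ∑ i ∈ range n, σ i)) atTop (𝓝 0) := by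
      have := (avg_zero hs).const_mul (2 * A)
      rwa [mul_zero] at this
    refine squeeze_zero' ?_ ?_ h1
    · exact Eventually.of_forall (fun n => Finset.sum_nonneg
        (fun m _ => mul_nonneg (hσ _) (hw m)))
    · filter_upwards [eventually_ge_atTop 1] with n hn
      exact second_le hσ n hn A hA0 (fun m hm1 _ => hA m (by omega))
  have hS1 : Tendsto (fun n : ℕ => ∑ m ∈ range (n / 2 + 1), σ (n - m) * w m -
      (∑ m ∈ range (n / 2 + 1), w m) / Real.log n) atTop (𝓝 0) := by
    rw [Metric.tendsto_atTop]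
    intro ε hε
    set δ := ε / (2 * (|κ| + 1)) with hδ
    have hk1 : 0 < |κ| + 1 := by positivity
    have hδ0 : 0 < δ := by positivity
    obtain ⟨K, hK⟩ := unif hσ hs δ hδ0
    have h1 : ∀ᶠ n : ℕ in atTop, (∑ m ∈ range (n / 2 + 1), w m) / Real.log n ≤ |κ| + 1 :=
      (half_tendsto hC).eventually_le_const (by have := le_abs_self κ; linarith)
    obtain ⟨N1, hN1⟩ := eventually_atTop.1 h1
    refine ⟨N1 + K + 2, fun n hn => ?_⟩
    have hlog : 0 < Real.log n := Real.log_pos (by exact_mod_cast (by omega : 1 < n))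
    have h2 := hN1 n (by omega)
    rw [Real.dist_eq, sub_zero]
    have h3 : |∑ m ∈ range (n / 2 + 1), σ (n - m) * w m -
        (∑ m ∈ range (n / 2 + 1), w m) / Real.log n| ≤
        δ * ((∑ m ∈ range (n / 2 + 1), w m) / Real.log n) := by
      rw [Finset.sum_div, ← Finset.sum_sub_distrib, Finset.mul_sum]
      refine (Finset.abs_sum_le_sum_abs _ _).trans (Finset.sum_le_sum ?_)
      intro m hm
      rw [Finset.mem_range] at hm
      have h8 := hK n (by omega) (n - m) (by omega) (by omega)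
      have e : σ (n - m) * w m - w m / Real.log n =
          (σ (n - m) * Real.log n - 1) * (w m / Real.log n) := by
        field_simp
      rw [e, abs_mul, abs_of_nonneg (div_nonneg (hw m) hlog.le)]
      exact mul_le_mul_of_nonneg_right h8 (div_nonneg (hw m) hlog.le)
    have h4 : δ * ((∑ m ∈ range (n / 2 + 1), w m) / Real.log n) ≤ δ * (|κ| + 1) :=
      mul_le_mul_of_nonneg_left h2 hδ0.le
    have h5 : δ * (|κ| + 1) = ε / 2 := by
      rw [hδ]; field_simp
    linarith
  have h := (hS1.add (half_tendsto hC)).add hS2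
  rw [zero_add, add_zero] at h
  refine h.congr' ?_
  filter_upwards [eventually_ge_atTop 1] with n hn
  rw [split hrec n hn]
  ring

end

end Pool.Agent.R153.SN
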