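import Pool.Agent.R153.SN2
import Pool.Agent.R153.SN3
import Pool.Agent.Cov.PNT
import Pool.Agent.H305R2.MertensE

set_option autoImplicit false

/-! The weights `1/p_k`. -/

namespace Pool.Agent.R153.SN

open Finset Filter Topology

/-- `1/p_k` -/
noncomputable def rp (k : ℕ) : ℝ := 1 / (Nat.nth Nat.Prime (k - 1) : ℝ)

theorem prime_nth (k : ℕ) : (Nat.nth Nat.Prime k).Prime :=
  Nat.nth_mem_of_infinite Nat.infinite_setOfPred_prime k

theorem nth_pos (k : ℕ) : (0 : ℝ) < (Nat.nth Nat.Prime k : ℝ) := by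
  exact_mod_cast (prime_nth k).pos

theorem rp_nonneg (k : ℕ) : 0 ≤ rp k := by
  unfold rp
  have := nth_pos (k - 1)
  positivity

theorem rp_le_half (k : ℕ) : rp k ≤ 1 / 2 := by
  unfold rp
  apply one_div_le_one_div_of_le (by norm_num)
  exact_mod_cast (prime_nth (k - 1)).two_le

theorem nth_mono : StrictMono (Nat.nth Nat.Prime) :=
  Nat.nth_strictMono Nat.infinite_setOfPred_prime

theorem nth_ge (k : ℕ) : k + 2 ≤ Nat.nth Nat.Prime k := by
  induction k with
  | zero => exact (prime_nth 0).two_le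
  | succ k ih =>
    have := nth_mono (Nat.lt_add_one k)
    omega

theorem rp_le (k : ℕ) (hk : 1 ≤ k) : rp k ≤ 1 / ((k : ℝ) + 1) := by
  unfold rp
  apply one_div_le_one_div_of_le (by positivity)
  have := nth_ge (k - 1)
  have h : k + 1 ≤ Nat.nth Nat.Prime (k - 1) := by omega
  exact_mod_cast h

/-- `x_k = p_k` as a real sequence, `k ≥ 1` -/
noncomputable def x (k : ℕ) : ℝ := (Nat.nth Nat.Prime (k - 1) : ℝ)

theorem x_tendsto_nat : Tendsto (fun k : ℕ => Nat.nth Nat.Prime (k - 1)) atTop atTop := by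
  refine tendsto_atTop_mono (f := fun k : ℕ => k) (fun k => ?_) tendsto_id
  have := nth_ge (k - 1)
  omega

theorem x_tendsto : Tendsto x atTop atTop :=
  tendsto_natCast_atTop_atTop.comp x_tendsto_nat

/-- `k log p_k / p_k → 1` -/
theorem pnt_x : Tendsto (fun k : ℕ => (k : ℝ) * Real.log (x k) / x k) atTop (𝓝 1) := by
  have h := Pool.Agent.Cov.PNT.pi_tendsto.comp x_tendsto
  refine h.congr' ?_
  filter_upwards [eventually_ge_atTop 1] with k hk
  simp only [Function.comp]
  have e : Nat.primeCounting ⌊x k⌋₊ = k := by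
    unfold x
    rw [Nat.floor_natCast, Nat.primeCounting, Nat.primeCounting', Nat.count_succ,
      Nat.count_nth_of_infinite Nat.infinite_setOfPred_prime, if_pos (prime_nth _)]
    omega
  rw [e]

theorem logx_tendsto : Tendsto (fun k : ℕ => Real.log (x k)) atTop atTop :=
  Real.tendsto_log_atTop.comp x_tendsto

/-- `log k / log p_k → 1` -/
theorem log_ratio : Tendsto (fun k : ℕ => Real.log k / Real.log (x k)) atTop (𝓝 1) := by
  have h1 : Tendsto (fun k : ℕ => Real.log ((k : ℝ) * Real.log (x k) / x k)) atTop (𝓝 0) := by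
    have := (Real.continuousAt_log (one_ne_zero)).tendsto.comp pnt_x
    rwa [Real.log_one] at this
  have h2 : Tendsto (fun k : ℕ => (Real.log (x k))⁻¹) atTop (𝓝 0) :=
    tendsto_inv_atTop_zero.comp logx_tendsto
  have h3 : Tendsto (fun k : ℕ => Real.log (Real.log (x k)) / Real.log (x k)) atTop (𝓝 0) := by
    have h4 : Tendsto (fun t : ℝ => Real.log t / t) atTop (𝓝 0) := by
      have := Real.isLittleO_log_id_atTop.tendsto_div_nhds_zero
      exact this
    exact h4.comp logx_tendsto
  have h5 := ((h1.mul h2).sub h3).add_const 1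
  have e5 : (0 * 0 - 0 + 1 : ℝ) = 1 := by norm_num
  rw [e5] at h5
  refine h5.congr' ?_
  filter_upwards [eventually_ge_atTop 1, logx_tendsto.eventually_gt_atTop 0] with k hk hlog
  have hk' : (0 : ℝ) < k := by exact_mod_cast hk
  have hx : 0 < x k := nth_pos _
  rw [Real.log_div (by positivity) hx.ne', Real.log_mul hk'.ne' hlog.ne']
  field_simp
  ring

/-- `(k / p_k) log k → 1` -/
theorem krp : Tendsto (fun k : ℕ => ((k : ℝ) * rp k) * Real.log k) atTop (𝓝 1) := by
  have h := pnt_x.mul log_ratio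
  rw [one_mul] at h
  refine h.congr' ?_
  filter_upwards [logx_tendsto.eventually_gt_atTop 0] with k hlog
  have hx : 0 < x k := nth_pos _
  have e : rp k = 1 / x k := rfl
  rw [e]
  field_simp

theorem krp_zero : Tendsto (fun k : ℕ => (k : ℝ) * rp k) atTop (𝓝 0) := by
  have h1 : Tendsto (fun n : ℕ => (Real.log n)⁻¹) atTop (𝓝 0) :=
    tendsto_inv_atTop_zero.comp log_tendsto
  have h2 := krp.mul h1
  rw [mul_zero] at h2
  refine h2.congr' ?_
  filter_upwards [log_tendsto.eventually_gt_atTop 0] with n hn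
  rw [mul_assoc, mul_inv_cancel₀ hn.ne', mul_one]

theorem cube_le (j : ℕ) : (j : ℝ) ^ 3 ≤ 2 ^ (j + 2) := by
  have h : j ^ 3 ≤ 2 ^ (j + 2) := by
    rcases Nat.lt_or_ge j 6 with h | h
    · interval_cases j <;> norm_num
    · induction j, h using Nat.le_induction with
      | base => norm_num
      | succ j hj ih =>
        have h1 : (j + 1) ^ 3 ≤ 2 * j ^ 3 := by nlinarith [sq_nonneg j, Nat.mul_le_mul hj hj]
        have h2 : 2 ^ (j + 1 + 2) = 2 * 2 ^ (j + 2) := by ring
        omega
  exact_mod_cast h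

theorem term_bound (d j : ℕ) (hd : 1 ≤ d) (hj : 2 ≤ j) :
    (d : ℝ) * rp d ^ j ≤ 16 / ((d : ℝ) * j) * ((j : ℝ) ^ 2)⁻¹ := by
  have hd' : (0 : ℝ) < d := by exact_mod_cast hd
  have hj' : (0 : ℝ) < j := by exact_mod_cast (by omega : 0 < j)
  have h1 := rp_le d hd
  have h2 := rp_le_half d
  have h0 := rp_nonneg d
  have h3 : rp d ≤ 1 / (d : ℝ) := h1.trans (one_div_le_one_div_of_le hd' (by linarith))
  obtain ⟨i, rfl⟩ : ∃ i, j = i + 2 := ⟨j - 2, by omega⟩
  have h4 : rp d ^ i ≤ (1 / 2 : ℝ) ^ i := pow_le_pow_left₀ h0 h2 i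
  have h5 : (d : ℝ) * rp d ^ (i + 2) ≤ (1 / (d : ℝ)) * (1 / 2) ^ i := by
    calc (d : ℝ) * rp d ^ (i + 2) = (d * rp d) * rp d * rp d ^ i := by ring
      _ ≤ (d * (1 / d)) * (1 / d) * (1 / 2) ^ i := by gcongr
      _ = _ := by rw [mul_one_div_cancel hd'.ne', one_mul]
  have h6 := cube_le (i + 2)
  refine h5.trans ?_
  have h7 : (16 / ((d : ℝ) * ((i + 2 : ℕ) : ℝ)) * (((i + 2 : ℕ) : ℝ) ^ 2)⁻¹) =
      (1 / d) * (16 / ((i + 2 : ℕ) : ℝ) ^ 3) := by
    field_simp
  rw [h7]
  apply mul_le_mul_of_nonneg_left _ (by positivity)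
  rw [le_div_iff₀ (by positivity), one_div, inv_pow, inv_mul_le_iff₀ (by positivity)]
  calc ((i + 2 : ℕ) : ℝ) ^ 3 ≤ 2 ^ (i + 2 + 2) := h6
    _ = 2 ^ i * 16 := by ring

/-- `σ(k) - k / p_k` is small -/
theorem sg_bound (k : ℕ) (hk : 1 ≤ k) : 0 ≤ sg rp k - k * rp k ∧ sg rp k - k * rp k ≤ 16 / k := by
  have hk' : (0 : ℝ) < k := by exact_mod_cast hk
  have h1 : sg rp k = (∑ d ∈ k.properDivisors, (d : ℝ) * rp d ^ (k / d)) + k * rp k := by
    unfold sg
    rw [← Nat.insert_self_properDivisors (by omega : k ≠ 0),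
      Finset.sum_insert Nat.self_notMem_properDivisors, Nat.div_self (by omega), pow_one, add_comm]
  rw [h1, add_sub_cancel_right]
  constructor
  · apply Finset.sum_nonneg
    intro d _
    exact mul_nonneg (by positivity) (pow_nonneg (rp_nonneg d) _)
  · have h2 : ∀ d ∈ k.properDivisors, (d : ℝ) * rp d ^ (k / d) ≤
        16 / k * (((k / d : ℕ) : ℝ) ^ 2)⁻¹ := by
      intro d hd
      rw [Nat.mem_properDivisors] at hd
      obtain ⟨⟨j, hj⟩, h3⟩ := hd
      have hdpos : 1 ≤ d := by
        rcases Nat.eq_zero_or_pos d with h | h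
        · rw [h] at hj; simp at hj; omega
        · exact h
      have hj2 : 2 ≤ j := by
        by_contra hcon
        have : j ≤ 1 := by omega
        have : k ≤ d * 1 := by rw [hj]; exact Nat.mul_le_mul_left d this
        omega
      have e : k / d = j := by rw [hj]; exact Nat.mul_div_cancel_left j hdpos
      rw [e]
      have := term_bound d j hdpos hj2
      have e2 : (k : ℝ) = (d : ℝ) * j := by rw [hj]; push_cast; ring
      rw [e2]
      exact this
    refine (Finset.sum_le_sum h2).trans ?_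
    rw [← Finset.mul_sum]
    have h3 : ∑ d ∈ k.properDivisors, (((k / d : ℕ) : ℝ) ^ 2)⁻¹ ≤ 1 := by
      have h4 : ∑ d ∈ k.properDivisors, (((k / d : ℕ) : ℝ) ^ 2)⁻¹ =
          ∑ j ∈ k.properDivisors.image (fun d => k / d), ((j : ℝ) ^ 2)⁻¹ := by
        rw [Finset.sum_image]
        intro a ha b hb hab
        rw [Finset.mem_coe, Nat.mem_properDivisors] at ha hb
        simp only at hab
        have ha' := Nat.div_mul_cancel ha.1
        have hb' := Nat.div_mul_cancel hb.1
        rw [hab] at ha'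
        have hpos : 0 < k / b := by
          rcases Nat.eq_zero_or_pos (k / b) with h | h
          · rw [h] at hb'; omega
          · exact h
        exact Nat.eq_of_mul_eq_mul_left hpos (ha'.trans hb'.symm)
      rw [h4]
      have h5 : k.properDivisors.image (fun d => k / d) ⊆ Finset.Ioc 1 k := by
        intro j hj
        rw [Finset.mem_image] at hj
        obtain ⟨d, hd, rfl⟩ := hj
        rw [Nat.mem_properDivisors] at hd
        rw [Finset.mem_Ioc]
        have h6 := Nat.div_mul_cancel hd.1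
        constructor
        · by_contra hcon
          have : k / d ≤ 1 := by omega
          have : k / d * d ≤ 1 * d := Nat.mul_le_mul_right d this
          omega
        · exact Nat.div_le_self k d
      refine (Finset.sum_le_sum_of_subset_of_nonneg h5 (fun _ _ _ => by positivity)).trans ?_
      have h7 := sum_Ioc_inv_sq_le_sub (α := ℝ) (k := 1) (n := k) one_ne_zero hk
      refine h7.trans ?_
      have : (0 : ℝ) ≤ (k : ℝ)⁻¹ := by positivity
      simp
    calc 16 / (k : ℝ) * ∑ d ∈ k.properDivisors, (((k / d : ℕ) : ℝ) ^ 2)⁻¹ ≤ 16 / k * 1 :=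
          mul_le_mul_of_nonneg_left h3 (by positivity)
      _ = 16 / k := mul_one _

theorem sg_tendsto : Tendsto (fun k : ℕ => sg rp k * Real.log k) atTop (𝓝 1) := by
  have h1 : Tendsto (fun k : ℕ => (sg rp k - k * rp k) * Real.log k) atTop (𝓝 0) := by
    have h2 : Tendsto (fun k : ℕ => 16 * (Real.log k / k)) atTop (𝓝 0) := by
      have h4 : Tendsto (fun t : ℝ => Real.log t / t) atTop (𝓝 0) :=
        Real.isLittleO_log_id_atTop.tendsto_div_nhds_zero
      have h5 := (h4.comp tendsto_natCast_atTop_atTop).const_mul 16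
      rw [mul_zero] at h5
      exact h5
    refine squeeze_zero' ?_ ?_ h2
    · filter_upwards [eventually_ge_atTop 1] with k hk
      have hlog : 0 ≤ Real.log k := Real.log_natCast_nonneg k
      exact mul_nonneg (sg_bound k hk).1 hlog
    · filter_upwards [eventually_ge_atTop 1] with k hk
      have hlog : 0 ≤ Real.log k := Real.log_natCast_nonneg k
      have := mul_le_mul_of_nonneg_right (sg_bound k hk).2 hlog
      refine this.trans (le_of_eq ?_)
      ring
  have h := krp.add h1
  rw [add_zero] at h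
  refine h.congr (fun k => ?_)
  ring

theorem T_eq (N : ℕ) (hN : 1 ≤ N) : T rp N =
    ∏ p ∈ (Finset.Icc 1 (Nat.nth Nat.Prime (N - 1))).filter Nat.Prime, (1 - (p : ℝ)⁻¹)⁻¹ := by
  have hset : (Finset.Icc 1 (Nat.nth Nat.Prime (N - 1))).filter Nat.Prime =
      (range N).image (fun k => Nat.nth Nat.Prime k) := by
    ext p
    rw [Finset.mem_filter, Finset.mem_Icc, Finset.mem_image]
    constructor
    · rintro ⟨⟨-, h1⟩, hp⟩
      refine ⟨Nat.count Nat.Prime p, ?_, Nat.nth_count hp⟩
      rw [Finset.mem_range]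
      by_contra hcon
      have h2 : N - 1 < Nat.count Nat.Prime p := by omega
      have h3 := nth_mono h2
      rw [Nat.nth_count hp] at h3
      omega
    · rintro ⟨k, hk, rfl⟩
      rw [Finset.mem_range] at hk
      refine ⟨⟨(prime_nth k).one_le, ?_⟩, prime_nth k⟩
      exact nth_mono.monotone (by omega)
  rw [hset, Finset.prod_image (fun a _ b _ hab => nth_mono.injective hab)]
  unfold T rp
  apply Finset.prod_congr rfl
  intro k _
  rw [Nat.add_sub_cancel, one_div]

theorem T_tendsto : Tendsto (fun N : ℕ => T rp N / Real.log N) atTop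
    (𝓝 (Real.exp Real.eulerMascheroniConstant)) := by
  have h1 := Pool.Agent.H305R2.mertens_three.comp x_tendsto_nat
  have h2 : Tendsto (fun k : ℕ => (Real.log k / Real.log (x k))⁻¹) atTop (𝓝 1) := by
    have := log_ratio.inv₀ one_ne_zero
    rwa [inv_one] at this
  have h3 := h1.mul h2
  rw [mul_one] at h3
  refine h3.congr' ?_
  filter_upwards [eventually_ge_atTop 1, logx_tendsto.eventually_gt_atTop 0] with N hN hlog
  simp only [Function.comp]
  rw [T_eq N hN]
  have e : Real.log (x N) = Real.log ((Nat.nth Nat.Prime (N - 1) : ℕ) : ℝ) := rfl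
  rw [← e]
  rw [inv_div]
  field_simp

theorem E_tendsto : Tendsto (fun N : ℕ => E rp N / N) atTop (𝓝 0) := by
  have h1 : Tendsto (fun k : ℕ => ((k : ℝ) + 1) * rp (k + 1) * (1 - rp (k + 1))⁻¹) atTop
      (𝓝 0) := by
    have h2 : Tendsto (fun k : ℕ => 2 * (((k + 1 : ℕ) : ℝ) * rp (k + 1))) atTop (𝓝 0) := by
      have := (krp_zero.comp (tendsto_add_atTop_nat 1)).const_mul 2
      rw [mul_zero] at this
      exact this
    refine squeeze_zero' ?_ ?_ h2
    · refine Eventually.of_forall (fun k => ?_)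
      have h3 := rp_le_half (k + 1)
      have h4 := rp_nonneg (k + 1)
      have h5 : 0 ≤ (1 - rp (k + 1))⁻¹ := by rw [inv_nonneg]; linarith
      positivity
    · refine Eventually.of_forall (fun k => ?_)
      have h3 := rp_le_half (k + 1)
      have h4 := rp_nonneg (k + 1)
      have h5 : (1 - rp (k + 1))⁻¹ ≤ 2 := by
        rw [inv_le_comm₀ (by linarith) (by norm_num)]
        linarith
      have h6 : 0 ≤ ((k : ℝ) + 1) * rp (k + 1) := by positivity
      calc ((k : ℝ) + 1) * rp (k + 1) * (1 - rp (k + 1))⁻¹ ≤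
            ((k : ℝ) + 1) * rp (k + 1) * 2 := mul_le_mul_of_nonneg_left h5 h6
        _ = _ := by push_cast; ring
  have h := h1.cesaro
  refine h.congr (fun N => ?_)
  unfold E
  rw [div_eq_inv_mul]

theorem C_tendsto : Tendsto (fun n : ℕ => (∑ m ∈ range (n + 1), w rp m) / Real.log n) atTop
    (𝓝 (Real.exp Real.eulerMascheroniConstant)) := by
  have hc : ∀ n : ℕ, ∑ m ∈ range (n + 1), w rp m = cN rp n n := by
    intro n
    unfold cN
    apply Finset.sum_congr rfl
    intro m hm
    rw [Finset.mem_range] at hm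
    rw [wN_eq rp (by omega)]
  have h1 : Tendsto (fun n : ℕ => (T rp n / Real.log n) * (1 - E rp n / n)) atTop
      (𝓝 (Real.exp Real.eulerMascheroniConstant)) := by
    have := T_tendsto.mul (E_tendsto.const_sub 1)
    rw [sub_zero, mul_one] at this
    exact this
  refine tendsto_of_tendsto_of_tendsto_of_le_of_le' h1 T_tendsto ?_ ?_
  · filter_upwards [eventually_ge_atTop 2] with n hn
    have hlog : 0 < Real.log n := Real.log_pos (by exact_mod_cast (by omega : 1 < n))
    rw [hc, le_div_iff₀ hlog]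
    have := lower rp_nonneg rp_le_half n (by omega)
    have e : T rp n / Real.log n * (1 - E rp n / n) * Real.log n =
        T rp n - T rp n * E rp n / n := by
      field_simp
    rw [e]
    exact this
  · filter_upwards [eventually_ge_atTop 2] with n hn
    have hlog : 0 < Real.log n := Real.log_pos (by exact_mod_cast (by omega : 1 < n))
    rw [hc]
    exact div_le_div_of_nonneg_right (cN_le rp_nonneg rp_le_half n n) hlog.le

theorem w_nonneg (n : ℕ) : 0 ≤ w rp n :=
  Finset.sum_nonneg (fun _ _ => wt_nonneg rp_nonneg _)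

theorem sg_nonneg (k : ℕ) : 0 ≤ sg rp k := by
  unfold sg
  apply Finset.sum_nonneg
  intro d _
  exact mul_nonneg (by positivity) (pow_nonneg (rp_nonneg d) _)

theorem final : Tendsto (fun n : ℕ => (n : ℝ) * w rp n) atTop
    (𝓝 (Real.exp Real.eulerMascheroniConstant)) :=
  tauber w_nonneg sg_nonneg (main_rec rp) C_tendsto sg_tendsto

end Pool.Agent.R153.SN
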