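import Mathlib

/-!
Pattern-restricted stack-sorting maps.  Words are lists of natural numbers, the stack is a list
whose head is its top entry.
-/

namespace Pool.Agent.R153.ST1

/-- The words `l` and `p` have the same length and the same relative order. -/
def SameOrder (l p : List ℕ) : Prop :=
  l.length = p.length ∧ ∀ i j : ℕ, i < p.length → j < p.length →
    (l.getD i 0 < l.getD j 0 ↔ p.getD i 0 < p.getD j 0)

/-- The word `s` contains the pattern `p`. -/
def Contains (s p : List ℕ) : Prop := ∃ l : List ℕ, l.Sublist s ∧ SameOrder l p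

/-- The word `s` avoids every pattern of `T`. -/
def Avoids (T : Set (List ℕ)) (s : List ℕ) : Prop := ∀ p ∈ T, ¬ Contains s p

open Classical in
/-- Run the machine on the remaining input (first argument) with the given stack contents, read
from top to bottom (second argument).  If the next entry can be pushed so that the stack avoids
`T`, push it; otherwise pop the top entry to the output.  When the input is exhausted, pop
everything.  Onto an empty stack one always pushes. -/
noncomputable def run (T : Set (List ℕ)) : List ℕ → List ℕ → List ℕ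
  | [], st => st
  | x :: xs, [] => run T xs [x]
  | x :: xs, t :: st =>
      if Avoids T (x :: t :: st) then run T xs (x :: t :: st) else t :: run T (x :: xs) st
termination_by inp st => 2 * inp.length + st.length

/-- The map `s_T`. -/
noncomputable def sT (T : Set (List ℕ)) (w : List ℕ) : List ℕ := run T w []

/-- `x` lies on one side of all entries of `st`. -/
def ok (x : ℕ) (st : List ℕ) : Prop := (∀ y ∈ st, y < x) ∨ (∀ y ∈ st, x < y)

/-- The set of patterns `{231, 213}`. -/
def T2 : Set (List ℕ) := {[2, 3, 1], [2, 1, 3]}

theorem sameOrder_231 {l : List ℕ} :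
    SameOrder l [2, 3, 1] ↔ ∃ x y z, l = [x, y, z] ∧ z < x ∧ x < y := by
  constructor
  · rintro ⟨h1, h2⟩
    match l, h1 with
    | [x, y, z], _ =>
      refine ⟨x, y, z, rfl, ?_, ?_⟩
      · have := h2 2 0 (by simp) (by simp)
        simpa using this
      · have := h2 0 1 (by simp) (by simp)
        simpa using this
  · rintro ⟨x, y, z, rfl, h1, h2⟩
    refine ⟨rfl, ?_⟩
    intro i j hi hj
    simp only [List.length_cons, List.length_nil] at hi hj
    interval_cases i <;> interval_cases j <;> simp <;> omega

theorem sameOrder_213 {l : List ℕ} :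
    SameOrder l [2, 1, 3] ↔ ∃ x y z, l = [x, y, z] ∧ y < x ∧ x < z := by
  constructor
  · rintro ⟨h1, h2⟩
    match l, h1 with
    | [x, y, z], _ =>
      refine ⟨x, y, z, rfl, ?_, ?_⟩
      · have := h2 1 0 (by simp) (by simp)
        simpa using this
      · have := h2 0 2 (by simp) (by simp)
        simpa using this
  · rintro ⟨x, y, z, rfl, h1, h2⟩
    refine ⟨rfl, ?_⟩
    intro i j hi hj
    simp only [List.length_cons, List.length_nil] at hi hj
    interval_cases i <;> interval_cases j <;> simp <;> omega

theorem pair_sublist {y z : ℕ} {st : List ℕ} (hy : y ∈ st) (hz : z ∈ st) (hne : y ≠ z) :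
    [y, z].Sublist st ∨ [z, y].Sublist st := by
  obtain ⟨s, t, rfl⟩ := List.append_of_mem hy
  simp only [List.mem_append, List.mem_cons] at hz
  rcases hz with hz | hz | hz
  · right
    have h1 : [z].Sublist s := List.singleton_sublist.2 hz
    have h2 : [y].Sublist (y :: t) := by simp
    exact h1.append h2
  · exact absurd hz.symm hne
  · left
    have h1 : [z].Sublist t := List.singleton_sublist.2 hz
    exact (h1.cons_cons y).trans (List.sublist_append_right _ _)

theorem avoids_cons_iff {x : ℕ} {st : List ℕ} (hst : Avoids T2 st) (hx : x ∉ st) :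
    Avoids T2 (x :: st) ↔ ok x st := by
  constructor
  · intro h
    by_contra hok
    simp only [ok, not_or, not_forall, not_lt] at hok
    obtain ⟨⟨y, hy, hxy⟩, ⟨z, hz, hzx⟩⟩ := hok
    have hxy' : x < y := lt_of_le_of_ne hxy (fun e => hx (e ▸ hy))
    have hzx' : z < x := lt_of_le_of_ne hzx (fun e => hx (e ▸ hz))
    rcases pair_sublist hy hz (by omega) with hs | hs
    · exact h [2, 3, 1] (by simp [T2]) ⟨[x, y, z], hs.cons_cons x,
        sameOrder_231.2 ⟨x, y, z, rfl, hzx', hxy'⟩⟩
    · exact h [2, 1, 3] (by simp [T2]) ⟨[x, z, y], hs.cons_cons x,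
        sameOrder_213.2 ⟨x, z, y, rfl, hzx', hxy'⟩⟩
  · intro hok p hp hc
    obtain ⟨l, hl, hso⟩ := hc
    have key : ∃ a b c, l = [a, b, c] ∧ ((c < a ∧ a < b) ∨ (b < a ∧ a < c)) := by
      simp only [T2, Set.mem_insert_iff, Set.mem_singleton_iff] at hp
      rcases hp with rfl | rfl
      · obtain ⟨a, b, c, h1, h2⟩ := sameOrder_231.1 hso
        exact ⟨a, b, c, h1, Or.inl h2⟩
      · obtain ⟨a, b, c, h1, h2⟩ := sameOrder_213.1 hso
        exact ⟨a, b, c, h1, Or.inr h2⟩
    rw [List.sublist_cons_iff] at hl
    rcases hl with hl | ⟨r, hr, hr2⟩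
    · exact hst p hp ⟨l, hl, hso⟩
    · obtain ⟨a, b, c, h1, h2⟩ := key
      rw [h1] at hr
      obtain ⟨rfl, rfl⟩ : a = x ∧ [b, c] = r := by simpa using hr
      have hb : b ∈ st := hr2.subset (by simp)
      have hc : c ∈ st := hr2.subset (by simp)
      rcases hok with h | h
      · have := h b hb
        have := h c hc
        omega
      · have := h b hb
        have := h c hc
        omega

theorem run_nil (st : List ℕ) : run T2 [] st = st := by
  unfold run; rfl

theorem run_empty (x : ℕ) (xs : List ℕ) : run T2 (x :: xs) [] = run T2 xs [x] := by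
  rw [run]

theorem avoids_singleton (x : ℕ) : Avoids T2 [x] := by
  intro p hp hc
  obtain ⟨l, hl, hso⟩ := hc
  have h1 := hl.length_le
  have h2 := hso.1
  simp only [T2, Set.mem_insert_iff, Set.mem_singleton_iff] at hp
  rcases hp with rfl | rfl <;> simp at h1 h2 <;> omega

theorem avoids_nil : Avoids T2 [] := by
  intro p hp hc
  obtain ⟨l, hl, hso⟩ := hc
  have h2 := hso.1
  rw [List.sublist_nil] at hl
  subst hl
  simp only [T2, Set.mem_insert_iff, Set.mem_singleton_iff] at hp
  rcases hp with rfl | rfl <;> simp at h2

theorem run_push {x : ℕ} {xs st : List ℕ} (hst : Avoids T2 st) (hx : x ∉ st) (h : ok x st) :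
    run T2 (x :: xs) st = run T2 xs (x :: st) := by
  cases st with
  | nil => rw [run]
  | cons t st =>
    rw [run, if_pos ((avoids_cons_iff hst hx).2 h)]

theorem run_pop {x t : ℕ} {xs st : List ℕ} (hst : Avoids T2 (t :: st)) (hx : x ∉ t :: st)
    (h : ¬ ok x (t :: st)) :
    run T2 (x :: xs) (t :: st) = t :: run T2 (x :: xs) st := by
  rw [run, if_neg (fun h' => h ((avoids_cons_iff hst hx).1 h'))]

theorem avoids_tail {t : ℕ} {st : List ℕ} (h : Avoids T2 (t :: st)) : Avoids T2 st := by
  intro p hp hc
  obtain ⟨l, hl, hso⟩ := hc
  exact h p hp ⟨l, hl.trans (List.sublist_cons_self _ _), hso⟩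

/-- Induction principle for the machine: a configuration is good if input and stack have
distinct entries and the stack avoids the patterns. -/
structure Good (inp st : List ℕ) : Prop where
  nd : (inp ++ st).Nodup
  av : Avoids T2 st

theorem Good.push {x : ℕ} {xs st : List ℕ} (h : Good (x :: xs) st) (hok : ok x st) :
    Good xs (x :: st) := by
  refine ⟨?_, ?_⟩
  · have := h.nd
    rw [List.nodup_append] at this ⊢
    simp only [List.nodup_cons, List.mem_cons] at this ⊢
    obtain ⟨⟨h1, h2⟩, h3, h4⟩ := this
    refine ⟨h2, ⟨fun hx => h4 x (Or.inl rfl) x hx rfl, h3⟩, ?_⟩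
    intro a ha b hb
    rcases hb with rfl | hb
    · intro e; exact h1 (e ▸ ha)
    · exact h4 a (Or.inr ha) b hb
  · have hx : x ∉ st := by
      intro hx
      have := h.nd
      rw [List.nodup_append] at this
      exact this.2.2 x (by simp) x hx rfl
    exact (avoids_cons_iff h.av hx).2 hok

theorem Good.pop {inp : List ℕ} {t : ℕ} {st : List ℕ} (h : Good inp (t :: st)) :
    Good inp st := by
  refine ⟨?_, avoids_tail h.av⟩
  exact h.nd.sublist (List.Sublist.append (List.Sublist.refl _) (List.sublist_cons_self _ _))

theorem Good.notMem {x : ℕ} {xs st : List ℕ} (h : Good (x :: xs) st) : x ∉ st := by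
  intro hx
  have := h.nd
  rw [List.nodup_append] at this
  exact this.2.2 x (by simp) x hx rfl

/-- One step of the machine. -/
theorem step {x : ℕ} {xs st : List ℕ} (h : Good (x :: xs) st) :
    (ok x st ∧ run T2 (x :: xs) st = run T2 xs (x :: st) ∧ Good xs (x :: st)) ∨
    (∃ t s, st = t :: s ∧ ¬ ok x st ∧ run T2 (x :: xs) st = t :: run T2 (x :: xs) s ∧
      Good (x :: xs) s) := by
  by_cases hok : ok x st
  · exact Or.inl ⟨hok, run_push h.av h.notMem hok, h.push hok⟩
  · right
    cases st with
    | nil => exact absurd (Or.inl (by simp)) hok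
    | cons t s => exact ⟨t, s, rfl, hok, run_pop h.av h.notMem hok, h.pop⟩

theorem run_perm : ∀ (N : ℕ) (inp st : List ℕ), 2 * inp.length + st.length ≤ N →
    Good inp st → (run T2 inp st).Perm (inp ++ st) := by
  intro N
  induction N with
  | zero =>
    intro inp st hN _
    have h1 : inp = [] := List.length_eq_zero_iff.1 (by omega)
    subst h1
    rw [run_nil]; simp
  | succ N ih =>
    intro inp st hN hg
    cases inp with
    | nil => rw [run_nil]; simp
    | cons x xs =>
      simp only [List.length_cons] at hN
      rcases step hg with ⟨_, h2, h3⟩ | ⟨t, s, rfl, _, h2, h3⟩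
      · rw [h2]
        refine (ih xs (x :: st) (by simp; omega) h3).trans ?_
        exact List.perm_middle
      · rw [h2]
        simp only [List.length_cons] at hN
        refine ((ih (x :: xs) s (by simp; omega) h3).cons t).trans ?_
        exact List.perm_middle.symm

/-- `x` is settled in `w`: it occurs in `w` and all later entries lie on one side of it. -/
def Settled (x : ℕ) (w : List ℕ) : Prop := ∃ u v, w = u ++ x :: v ∧ ok x v

theorem Settled.cons {x t : ℕ} {w : List ℕ} (h : Settled x w) : Settled x (t :: w) := by
  obtain ⟨u, v, rfl, h⟩ := h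
  exact ⟨t :: u, v, rfl, h⟩

/-- Bottom part of the stack on the far side: it stays. -/
theorem stay {r : ℕ → ℕ → Prop} (htr : ∀ a b c, r a b → r b c → r a c)
    (hok1 : ∀ a s, (∀ y ∈ s, r y a) → ok a s) :
    ∀ (N : ℕ) (inp s1 s2 : List ℕ) (x : ℕ), 2 * inp.length + s1.length ≤ N →
      Good inp (s1 ++ x :: s2) → (∀ y ∈ inp, r x y) → (∀ y ∈ s2, r y x) →
      ∃ w, run T2 inp (s1 ++ x :: s2) = w ++ x :: s2 := by
  intro N
  induction N with
  | zero =>
    intro inp s1 s2 x hN _ _ _
    have h1 : inp = [] := List.length_eq_zero_iff.1 (by omega)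
    subst h1
    exact ⟨s1, run_nil _⟩
  | succ N ih =>
    intro inp s1 s2 x hN hg h1 h2
    cases inp with
    | nil => exact ⟨s1, run_nil _⟩
    | cons y ys =>
      simp only [List.length_cons] at hN
      rcases step hg with ⟨_, h3, h4⟩ | ⟨t, s, h5, hno, h3, h4⟩
      · rw [h3]
        exact ih ys (y :: s1) s2 x (by simp; omega) h4 (fun z hz => h1 z (by simp [hz])) h2
      · cases s1 with
        | nil =>
          exfalso
          apply hno
          apply hok1
          intro z hz
          simp only [List.nil_append, List.mem_cons] at hz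
          rcases hz with rfl | hz
          · exact h1 y (by simp)
          · exact htr _ _ _ (h2 z hz) (h1 y (by simp))
        | cons t' s1' =>
          simp only [List.cons_append, List.cons.injEq] at h5
          obtain ⟨rfl, rfl⟩ := h5
          simp only [List.length_cons] at hN
          obtain ⟨w, hw⟩ := ih (y :: ys) s1' s2 x (by simp; omega) h4 h1 h2
          rw [h3, hw]
          exact ⟨t' :: w, rfl⟩

/-- `x` is in the stack and everything else still to be output is on one side. -/
theorem settled_of_all {w : List ℕ} {x : ℕ} (hx : x ∈ w) (hnd : w.Nodup)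
    (h : (∀ y ∈ w, y ≠ x → x < y) ∨ (∀ y ∈ w, y ≠ x → y < x)) : Settled x w := by
  obtain ⟨u, v, rfl⟩ := List.append_of_mem hx
  refine ⟨u, v, rfl, ?_⟩
  rw [List.nodup_append] at hnd
  have hxv : x ∉ v := (List.nodup_cons.1 hnd.2.1).1
  rcases h with h | h
  · right
    intro y hy
    exact h y (by simp [hy]) (fun e => hxv (e ▸ hy))
  · left
    intro y hy
    exact h y (by simp [hy]) (fun e => hxv (e ▸ hy))

/-- The main lemma: a settled entry of the input is settled in the output. -/
theorem settled_aux {r : ℕ → ℕ → Prop} (htr : ∀ a b c, r a b → r b c → r a c)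
    (hok1 : ∀ a s, (∀ y ∈ s, r y a) → ok a s) (hok2 : ∀ a s, (∀ y ∈ s, r a y) → ok a s)
    (hok3 : ∀ a s, ok a s → (∀ y ∈ s, r y a) ∨ (∀ y ∈ s, r a y)) :
    ∀ (N : ℕ) (u v st : List ℕ) (x : ℕ), 2 * u.length + st.length ≤ N →
      Good (u ++ x :: v) st → (∀ y ∈ v, r x y) → Settled x (run T2 (u ++ x :: v) st) := by
  intro N
  induction N with
  | zero =>
    intro u v st x hN hg hv
    have h1 : u = [] := List.length_eq_zero_iff.1 (by omega)
    have h2 : st = [] := List.length_eq_zero_iff.1 (by omega)
    subst h1 h2
    rcases step hg with ⟨_, h3, h4⟩ | ⟨t, s, h5, _⟩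
    · simp only [List.nil_append] at h3 ⊢
      rw [h3]
      obtain ⟨w, hw⟩ := stay htr hok1 (2 * v.length) v [] [] x (by simp) h4 hv (by simp)
      simp only [List.nil_append] at hw
      rw [hw]
      exact ⟨w, [], rfl, Or.inl (by simp)⟩
    · exact absurd h5 (by simp)
  | succ N ih =>
    intro u v st x hN hg hv
    cases u with
    | nil =>
      simp only [List.nil_append] at hg ⊢
      rcases step hg with ⟨h2, h3, h4⟩ | ⟨t, s, rfl, _, h3, h4⟩
      · rw [h3]
        rcases hok3 x st h2 with hs | hs
        · obtain ⟨w, hw⟩ := stay htr hok1 (2 * v.length) v [] st x (by simp) h4 hv hs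
          simp only [List.nil_append] at hw
          rw [hw]
          exact ⟨w, st, rfl, h2⟩
        · -- everything else is beyond x
          have hp := run_perm _ v (x :: st) le_rfl h4
          have hnd : (run T2 v (x :: st)).Nodup := hp.nodup_iff.2 h4.nd
          have hx : x ∈ run T2 v (x :: st) := hp.mem_iff.2 (by simp)
          obtain ⟨a, b, hab⟩ := List.append_of_mem hx
          refine ⟨a, b, hab, hok2 x b ?_⟩
          intro y hy
          have hy1 : y ∈ run T2 v (x :: st) := by rw [hab]; simp [hy]
          have hne : y ≠ x := by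
            rintro rfl
            rw [hab, List.nodup_append] at hnd
            exact (List.nodup_cons.1 hnd.2.1).1 hy
          have hy2 := hp.mem_iff.1 hy1
          simp only [List.mem_append, List.mem_cons] at hy2
          rcases hy2 with hy2 | hy2 | hy2
          · exact hv y hy2
          · exact absurd hy2 hne
          · exact hs y hy2
      · rw [h3]
        simp only [List.length_cons, List.length_nil] at hN
        have := ih [] v s x (by simp; omega) (by simpa using h4) hv
        simp only [List.nil_append] at this
        exact this.cons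
    | cons c u =>
      simp only [List.cons_append, List.length_cons] at hg hN ⊢
      rcases step hg with ⟨h2, h3, h4⟩ | ⟨t, s, rfl, _, h3, h4⟩
      · rw [h3]
        exact ih u v (c :: st) x (by simp; omega) h4 hv
      · rw [h3]
        simp only [List.length_cons] at hN
        exact (ih (c :: u) v s x (by simp; omega) (by simpa using h4) hv).cons

theorem good_init {w : List ℕ} (h : w.Nodup) : Good w [] := ⟨by simpa using h, avoids_nil⟩

theorem settled_sT {w : List ℕ} (hnd : w.Nodup) {x : ℕ} (h : Settled x w) :
    Settled x (sT T2 w) := by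
  obtain ⟨u, v, rfl, hv⟩ := h
  rcases hv with hv | hv
  · exact settled_aux (r := fun a b => b < a) (fun a b c h1 h2 => lt_trans h2 h1)
      (fun a s h => Or.inr h) (fun a s h => Or.inl h)
      (fun a s h => by rcases h with h | h; exacts [Or.inr h, Or.inl h])
      _ u v [] x le_rfl (good_init hnd) hv
  · exact settled_aux (r := fun a b => a < b) (fun a b c h1 h2 => lt_trans h1 h2)
      (fun a s h => Or.inl h) (fun a s h => Or.inr h)
      (fun a s h => h)
      _ u v [] x le_rfl (good_init hnd) hv

theorem sT_perm {w : List ℕ} (hnd : w.Nodup) : (sT T2 w).Perm w := by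
  have := run_perm _ w [] le_rfl (good_init hnd)
  simpa [sT] using this

/-- The first letter becomes the last one. -/
theorem bottom_last : ∀ (N : ℕ) (inp st : List ℕ) (a : ℕ), 2 * inp.length + st.length ≤ N →
    Good inp (st ++ [a]) → ∃ w, run T2 inp (st ++ [a]) = w ++ [a] := by
  intro N
  induction N with
  | zero =>
    intro inp st a hN _
    have h1 : inp = [] := List.length_eq_zero_iff.1 (by omega)
    subst h1
    exact ⟨st, run_nil _⟩
  | succ N ih =>
    intro inp st a hN hg
    cases inp with
    | nil => exact ⟨st, run_nil _⟩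
    | cons x xs =>
      simp only [List.length_cons] at hN
      rcases step hg with ⟨_, h3, h4⟩ | ⟨t, s, h5, hno, h3, h4⟩
      · rw [h3]
        exact ih xs (x :: st) a (by simp; omega) h4
      · cases st with
        | nil =>
          exfalso
          apply hno
          have hxa : x ∉ [a] := hg.notMem
          simp only [List.mem_singleton] at hxa
          rcases lt_or_gt_of_ne hxa with h | h
          · right; intro y hy; simp at hy; omega
          · left; intro y hy; simp at hy; omega
        | cons t' st' =>
          simp only [List.cons_append, List.cons.injEq] at h5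
          obtain ⟨rfl, rfl⟩ := h5
          simp only [List.length_cons] at hN
          obtain ⟨w, hw⟩ := ih (x :: xs) st' a (by simp; omega) h4
          rw [h3, hw]
          exact ⟨t' :: w, rfl⟩

theorem sT_last {a : ℕ} {w : List ℕ} (hnd : (a :: w).Nodup) :
    ∃ w', sT T2 (a :: w) = w' ++ [a] := by
  have hg := good_init hnd
  have h0 : sT T2 (a :: w) = run T2 w [a] := run_empty a w
  rcases step hg with ⟨_, h3, h4⟩ | ⟨t, s, h5, _⟩
  · rw [h0]
    exact bottom_last _ w [] a le_rfl h4
  · exact absurd h5 (by simp)

/-- If the last input entry is output first, nothing is popped before. -/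
theorem noPop : ∀ (inp st : List ℕ) (z : ℕ), Good (inp ++ [z]) st →
    (run T2 (inp ++ [z]) st).head? = some z →
    ∀ p y q, inp ++ [z] = p ++ y :: q → ok y (p.reverse ++ st) := by
  intro inp
  induction inp with
  | nil =>
    intro st z hg hh p y q hpq
    have hp : p = [] ∧ y = z ∧ q = [] := by
      cases p with
      | nil => simpa using hpq.symm
      | cons c p => simp at hpq
    obtain ⟨rfl, rfl, rfl⟩ := hp
    simp only [List.nil_append, List.reverse_nil] at hg hh ⊢
    rcases step hg with ⟨h2, _, _⟩ | ⟨t, s, rfl, _, h3, _⟩
    · exact h2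
    · rw [h3] at hh
      simp only [List.head?_cons, Option.some.injEq] at hh
      exact absurd (by simp [hh]) hg.notMem
  | cons c inp ih =>
    intro st z hg hh p y q hpq
    simp only [List.cons_append] at hg hh hpq
    rcases step hg with ⟨h2, h3, h4⟩ | ⟨t, s, rfl, _, h3, _⟩
    · rw [h3] at hh
      cases p with
      | nil =>
        simp only [List.nil_append, List.cons.injEq] at hpq
        obtain ⟨rfl, _⟩ := hpq
        simpa using h2
      | cons d p =>
        simp only [List.cons_append, List.cons.injEq] at hpq
        obtain ⟨rfl, hpq⟩ := hpq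
        have := ih (c :: st) z h4 hh p y q hpq
        simpa using this
    · rw [h3] at hh
      simp only [List.head?_cons, Option.some.injEq] at hh
      exfalso
      have hnd := hg.nd
      rw [List.nodup_append] at hnd
      exact hnd.2.2 z (by simp) t (by simp) hh.symm

/-- Periodic words: distinct entries, and some positive iterate of the map fixes the word. -/
def Per (w : List ℕ) : Prop := w.Nodup ∧ ∃ m : ℕ, 1 ≤ m ∧ (sT T2)^[m] w = w

theorem nodup_iterate {w : List ℕ} (hnd : w.Nodup) (k : ℕ) : ((sT T2)^[k] w).Nodup := by
  induction k with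
  | zero => simpa using hnd
  | succ k ih =>
    rw [Function.iterate_succ_apply']
    exact (sT_perm ih).nodup_iff.2 ih

theorem settled_iterate {w : List ℕ} (hnd : w.Nodup) {x : ℕ} (h : Settled x w) (k : ℕ) :
    Settled x ((sT T2)^[k] w) := by
  induction k with
  | zero => simpa using h
  | succ k ih =>
    rw [Function.iterate_succ_apply']
    exact settled_sT (nodup_iterate hnd k) ih

theorem Per.image {w : List ℕ} (h : Per w) : Per (sT T2 w) := by
  obtain ⟨hnd, m, hm, hw⟩ := h
  refine ⟨(sT_perm hnd).nodup_iff.2 hnd, m, hm, ?_⟩
  rw [← Function.iterate_succ_apply, Function.iterate_succ_apply', hw]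

theorem Per.pre {w : List ℕ} (h : Per w) : ∃ v, Per v ∧ ST1.sT T2 v = w := by
  obtain ⟨hnd, m, hm, hw⟩ := h
  obtain ⟨m, rfl⟩ : ∃ m', m = m' + 1 := ⟨m - 1, by omega⟩
  refine ⟨(ST1.sT T2)^[m] w, ⟨nodup_iterate hnd m, m + 1, hm, ?_⟩, ?_⟩
  · rw [← Function.iterate_add_apply, Nat.add_comm, Function.iterate_add_apply, hw]
  · exact (Function.iterate_succ_apply' (ST1.sT T2) m w).symm.trans hw

/-- The first letter of a periodic word is extreme. -/
theorem Per.head {a : ℕ} {w : List ℕ} (h : Per (a :: w)) : ok a w := by
  obtain ⟨hnd, m, hm, hw⟩ := h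
  obtain ⟨w', hw'⟩ := sT_last hnd
  have h1 : Settled a (ST1.sT T2 (a :: w)) := ⟨w', [], by rw [hw'], Or.inl (by simp)⟩
  obtain ⟨m, rfl⟩ : ∃ m', m = m' + 1 := ⟨m - 1, by omega⟩
  have h2 := settled_iterate ((sT_perm hnd).nodup_iff.2 hnd) h1 m
  rw [← Function.iterate_succ_apply, hw] at h2
  obtain ⟨u, v, huv, hok⟩ := h2
  cases u with
  | nil =>
    simp only [List.nil_append, List.cons.injEq, true_and] at huv
    rw [huv]; exact hok
  | cons c u =>
    simp only [List.cons_append, List.cons.injEq] at huv
    exfalso
    have : a ∉ w := (List.nodup_cons.1 hnd).1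
    apply this
    rw [huv.2]; simp

/-- The last letter of a periodic word is extreme. -/
theorem Per.last {a : ℕ} {w : List ℕ} (h : Per (w ++ [a])) : ok a w := by
  obtain ⟨v, hv, hvw⟩ := h.pre
  cases v with
  | nil =>
    have := sT_perm (w := []) (by simp)
    rw [hvw] at this
    simp at this
  | cons b v =>
    obtain ⟨w', hw'⟩ := sT_last hv.1
    have hh := hv.head
    rw [hvw] at hw'
    have hb : b = a ∧ w' = w := by
      have := List.append_inj' hw' rfl
      exact ⟨by simpa using this.2.symm, this.1.symm⟩
    obtain ⟨rfl, rfl⟩ := hb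
    have hp := sT_perm hv.1
    rw [hvw] at hp
    have hp2 : w'.Perm v := by
      have h3 : (b :: w').Perm (b :: v) := (List.perm_append_singleton b w').symm.trans hp
      exact h3.cons_inv
    rcases hh with hh | hh
    · exact Or.inl (fun y hy => hh y (hp2.mem_iff.1 hy))
    · exact Or.inr (fun y hy => hh y (hp2.mem_iff.1 hy))

theorem sorted_of_noPop_lt {a : ℕ} {w : List ℕ} (h : ∀ y ∈ w, a < y)
    (hnp : ∀ p y q, w = p ++ y :: q → ok y (p.reverse ++ [a])) : (a :: w).Pairwise (· < ·) := by
  rw [List.pairwise_cons]
  refine ⟨h, ?_⟩
  rw [List.pairwise_iff_forall_sublist]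
  intro b c hs
  obtain ⟨r₁, r₂, rfl, h1, h2⟩ := List.cons_sublist_iff.1 hs
  obtain ⟨s1, s2, rfl⟩ := List.append_of_mem (List.singleton_sublist.1 h2)
  have h3 := hnp (r₁ ++ s1) c s2 (by simp)
  rcases h3 with h3 | h3
  · exact h3 b (by simp [h1])
  · have h4 := h3 a (by simp)
    have h5 := h c (by simp)
    omega

theorem sorted_of_noPop_gt {a : ℕ} {w : List ℕ} (h : ∀ y ∈ w, y < a)
    (hnp : ∀ p y q, w = p ++ y :: q → ok y (p.reverse ++ [a])) : (a :: w).Pairwise (· > ·) := by
  rw [List.pairwise_cons]
  refine ⟨h, ?_⟩
  rw [List.pairwise_iff_forall_sublist]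
  intro b c hs
  obtain ⟨r₁, r₂, rfl, h1, h2⟩ := List.cons_sublist_iff.1 hs
  obtain ⟨s1, s2, rfl⟩ := List.append_of_mem (List.singleton_sublist.1 h2)
  have h3 := hnp (r₁ ++ s1) c s2 (by simp)
  rcases h3 with h3 | h3
  · have h4 := h3 a (by simp)
    have h5 := h c (by simp)
    omega
  · exact h3 b (by simp [h1])

/-- A periodic word is monotone. -/
theorem Per.mono {w : List ℕ} (h : Per w) : w.Pairwise (· < ·) ∨ w.Pairwise (· > ·) := by
  cases w with
  | nil => left; simp
  | cons a w =>
    rcases List.eq_nil_or_concat w with rfl | ⟨u, z, rfl⟩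
    · left; simp
    · -- first letter a, last letter z
      have hnd := h.1
      have hne : a ≠ z := by
        rintro rfl
        rw [List.nodup_cons] at hnd
        exact hnd.1 (by simp)
      have hhead := h.head
      have hlast : ok z (a :: u) := by
        apply Per.last
        simpa using h
      have hper := h.image
      obtain ⟨w', hw'⟩ := sT_last hnd
      -- head of the image
      have hp := sT_perm hnd
      rw [hw'] at hp hper
      cases w' with
      | nil =>
        have := hp.length_eq
        simp at this
      | cons b w' =>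
        simp only [List.cons_append] at hp hper hw'
        have hb := hper.head
        have hbmem : b ∈ a :: (u.concat z) := hp.mem_iff.1 (by simp)
        have hba : b ≠ a := by
          rintro rfl
          have := hper.1
          rw [List.nodup_cons] at this
          exact this.1 (by simp)
        have hbz : b = z := by
          by_contra hbz
          have h1 : z ∈ w' ++ [a] := by
            have : z ∈ b :: (w' ++ [a]) := hp.mem_iff.2 (by simp)
            simp only [List.mem_cons] at this
            rcases this with h2 | h2
            · exact absurd h2.symm hbz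
            · exact h2
          have h2 : a ∈ w' ++ [a] := by simp
          have h3 : b ∈ u := by
            simp only [List.concat_eq_append, List.mem_cons, List.mem_append,
              List.not_mem_nil, or_false] at hbmem
            rcases hbmem with h | h | h
            · exact absurd h hba
            · exact h
            · exact absurd h hbz
          -- a is extreme, z is extreme, b is extreme
          have ha' : ok a (u.concat z) := hhead
          rcases hb with hb | hb <;> rcases ha' with ha | ha <;> rcases hlast with hz | hz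
          all_goals
            have e1 := hb a h2
            have e2 := hb z h1
            have e3 := ha b (by simp [h3])
            have e4 := ha z (by simp)
            have e5 := hz a (by simp)
            have e6 := hz b (by simp [h3])
            omega
        subst hbz
        have hg := good_init hnd
        have h0 : sT T2 (a :: (u.concat b)) = run T2 (u ++ [b]) [a] := by
          rw [List.concat_eq_append]; exact run_empty a _
        have hg2 : Good (u ++ [b]) [a] := by
          refine ⟨?_, avoids_singleton a⟩
          rw [List.concat_eq_append] at hnd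
          rw [List.nodup_append]
          rw [List.nodup_cons] at hnd
          refine ⟨hnd.2, by simp, ?_⟩
          intro x hx y hy
          simp only [List.mem_singleton] at hy
          subst hy
          rintro rfl
          exact hnd.1 hx
        have hnp := noPop u [a] b hg2 (by rw [← h0, hw']; rfl)
        rcases hhead with hh | hh
        · right
          rw [List.concat_eq_append] at hh ⊢
          exact sorted_of_noPop_gt hh hnp
        · left
          rw [List.concat_eq_append] at hh ⊢
          exact sorted_of_noPop_lt hh hnp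

theorem allPush {r : ℕ → ℕ → Prop} (hr : ∀ a s, (∀ y ∈ s, r y a) → ok a s) :
    ∀ inp st, Good inp st → (∀ y ∈ st, ∀ x ∈ inp, r y x) → inp.Pairwise r →
      run T2 inp st = inp.reverse ++ st := by
  intro inp
  induction inp with
  | nil => intro st _ _ _; rw [run_nil]; simp
  | cons x xs ih =>
    intro st hg h1 h2
    rw [List.pairwise_cons] at h2
    rcases step hg with ⟨_, h3, h4⟩ | ⟨t, s, rfl, hno, _, _⟩
    · rw [h3, ih (x :: st) h4 ?_ h2.2]
      · simp
      · intro y hy z hz
        simp only [List.mem_cons] at hy
        rcases hy with rfl | hy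
        · exact h2.1 z hz
        · exact h1 y hy z (by simp [hz])
    · exact absurd (hr x _ (fun y hy => h1 y hy x (by simp))) hno

theorem sT_lt {w : List ℕ} (h : w.Pairwise (· < ·)) : sT T2 w = w.reverse := by
  have hnd : w.Nodup := h.imp (fun h => ne_of_lt h)
  have := allPush (r := fun a b => a < b) (fun a s h => Or.inl h) w [] (good_init hnd)
    (by simp) h
  simpa [sT] using this

theorem sT_gt {w : List ℕ} (h : w.Pairwise (· > ·)) : sT T2 w = w.reverse := by
  have hnd : w.Nodup := h.imp (fun h => ne_of_gt h)
  have := allPush (r := fun a b => a > b) (fun a s h => Or.inr h) w [] (good_init hnd)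
    (by simp) h
  simpa [sT] using this

end Pool.Agent.R153.ST1
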