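import Mathlib

set_option autoImplicit false

/-! Symplectic and orthogonal contents of the cells of a Young diagram.

Cells are `(i, j)` with `i, j` counted from `0`, so that the cell written `(i + 1, j + 1)` in the
usual convention is `(i, j)` here. `mu.rowLen i` is the part with (usual) index `i + 1`, and
`mu.colLen j` the part of the conjugate partition with (usual) index `j + 1`. -/

namespace Pool.Agent.R153.Sp

/-- The hook length of the cell `c`. -/
def hook (μ : YoungDiagram) (c : ℕ × ℕ) : ℚ :=
  ((μ.rowLen c.1 : ℚ) - (c.2 + 1)) + ((μ.colLen c.2 : ℚ) - (c.1 + 1)) + 1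

/-- The symplectic content of the cell `c`. -/
def csp (μ : YoungDiagram) (c : ℕ × ℕ) : ℚ :=
  if c.2 < c.1 then
    ((μ.rowLen c.1 : ℚ) - (c.1 + 1)) + ((μ.rowLen c.2 : ℚ) - (c.2 + 1)) + 2
  else -((μ.colLen c.1 : ℚ) - (c.1 + 1)) - ((μ.colLen c.2 : ℚ) - (c.2 + 1))

/-- The orthogonal content of the cell `c`. -/
def cO (μ : YoungDiagram) (c : ℕ × ℕ) : ℚ :=
  if c.2 ≤ c.1 then
    ((μ.rowLen c.1 : ℚ) - (c.1 + 1)) + ((μ.rowLen c.2 : ℚ) - (c.2 + 1))
  else -((μ.colLen c.1 : ℚ) - (c.1 + 1)) - ((μ.colLen c.2 : ℚ) - (c.2 + 1)) - 2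

theorem row_lt_card {μ : YoungDiagram} {i j : ℕ} (h : (i, j) ∈ μ) : i < μ.card := by
  have hsub : (Finset.range (i + 1)).image (fun k => (k, j)) ⊆ μ.cells := by
    intro c hc
    rw [Finset.mem_image] at hc
    obtain ⟨k, hk, rfl⟩ := hc
    rw [Finset.mem_range] at hk
    exact μ.up_left_mem (by omega) le_rfl h
  have := Finset.card_le_card hsub
  rw [Finset.card_image_of_injective _ (fun a b hab => (Prod.mk.inj hab).1),
    Finset.card_range] at this
  exact this

theorem col_lt_card {μ : YoungDiagram} {i j : ℕ} (h : (i, j) ∈ μ) : j < μ.card := by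
  have hsub : (Finset.range (j + 1)).image (fun k => (i, k)) ⊆ μ.cells := by
    intro c hc
    rw [Finset.mem_image] at hc
    obtain ⟨k, hk, rfl⟩ := hc
    rw [Finset.mem_range] at hk
    exact μ.up_left_mem le_rfl (by omega) h
  have := Finset.card_le_card hsub
  rw [Finset.card_image_of_injective _ (fun a b hab => (Prod.mk.inj hab).2),
    Finset.card_range] at this
  exact this

theorem finite_diagrams (n : ℕ) : {μ : YoungDiagram | μ.card = n}.Finite := by
  apply Set.Finite.of_finite_image (f := fun μ : YoungDiagram => μ.cells)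
  · apply Set.Finite.subset (Finset.finite_toSet (Finset.range n ×ˢ Finset.range n).powerset)
    rintro s ⟨μ, hμ, rfl⟩
    rw [Finset.mem_coe, Finset.mem_powerset]
    rintro ⟨i, j⟩ hc
    rw [Finset.mem_product, Finset.mem_range, Finset.mem_range]
    have hμ' : μ.card = n := hμ
    rw [← hμ']
    exact ⟨row_lt_card hc, col_lt_card hc⟩
  · intro μ _ ν _ h
    exact YoungDiagram.ext h

/-- The finite set of the Young diagrams with `n` cells, that is of the partitions of `n`. -/
noncomputable def diagrams (n : ℕ) : Finset YoungDiagram :=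
  (finite_diagrams n).toFinset

theorem mem_diagrams {n : ℕ} {μ : YoungDiagram} : μ ∈ diagrams n ↔ μ.card = n := by
  unfold diagrams
  rw [Set.Finite.mem_toFinset]
  rfl

end Pool.Agent.R153.Sp
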