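import Pool.Agent.R153.SpDefs

set_option autoImplicit false

namespace Pool.Agent.R153.Sp

open Finset

/-- doubled distinct partitions -/
def Special (μ : YoungDiagram) : Prop := ∀ i, (i, i) ∈ μ → μ.colLen i = μ.rowLen i + 1

theorem Special.iff_mem {μ : YoungDiagram} (h : Special μ) {i j : ℕ} (hij : i ≤ j) :
    (i, j) ∈ μ ↔ (j + 1, i) ∈ μ := by
  constructor
  · intro hm
    have hd : (i, i) ∈ μ := μ.up_left_mem le_rfl hij hm
    have := h i hd
    rw [YoungDiagram.mem_iff_lt_rowLen] at hm
    rw [YoungDiagram.mem_iff_lt_colLen]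
    omega
  · intro hm
    have hd : (i, i) ∈ μ := μ.up_left_mem (by omega) le_rfl hm
    have := h i hd
    rw [YoungDiagram.mem_iff_lt_colLen] at hm
    rw [YoungDiagram.mem_iff_lt_rowLen]
    omega

theorem special_of_iff {μ : YoungDiagram} (h : ∀ i j, i ≤ j → ((i, j) ∈ μ ↔ (j + 1, i) ∈ μ)) :
    Special μ := by
  intro i hi
  have h1 : ∀ j, i ≤ j → (j < μ.rowLen i ↔ j + 1 < μ.colLen i) := by
    intro j hj
    rw [← YoungDiagram.mem_iff_lt_rowLen, ← YoungDiagram.mem_iff_lt_colLen]
    exact h i j hj
  have h2 : i < μ.rowLen i := YoungDiagram.mem_iff_lt_rowLen.1 hi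
  have h3 : i < μ.colLen i := YoungDiagram.mem_iff_lt_colLen.1 hi
  have h4 := h1 (μ.rowLen i - 1) (by omega)
  have h5 := h1 (μ.rowLen i) (by omega)
  omega

/-- the upper cells -/
def upper (μ : YoungDiagram) : Finset (ℕ × ℕ) := μ.cells.filter (fun c => c.1 ≤ c.2)

theorem Special.card_eq {μ : YoungDiagram} (h : Special μ) : μ.card = 2 * (upper μ).card := by
  have h1 : (upper μ).card = (μ.cells.filter (fun c => ¬ c.1 ≤ c.2)).card := by
    apply Finset.card_bij (fun c _ => (c.2 + 1, c.1))
    · rintro ⟨i, j⟩ hc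
      unfold upper at hc
      rw [Finset.mem_filter] at hc ⊢
      obtain ⟨hc1, hc2⟩ := hc
      exact ⟨(h.iff_mem hc2).1 hc1, by simp only at hc2 ⊢; omega⟩
    · rintro ⟨i, j⟩ _ ⟨i', j'⟩ _ hcc
      simp only [Prod.mk.injEq, add_left_inj] at hcc
      simp [hcc.1, hcc.2]
    · rintro ⟨i, j⟩ hc
      rw [Finset.mem_filter] at hc
      obtain ⟨hc1, hc2⟩ := hc
      simp only [not_le] at hc2
      obtain ⟨k, rfl⟩ : ∃ k, i = k + 1 := ⟨i - 1, by omega⟩
      refine ⟨(j, k), ?_, rfl⟩
      unfold upper
      rw [Finset.mem_filter]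
      exact ⟨(h.iff_mem (by omega)).2 hc1, by simp only; omega⟩
  have h2 := Finset.card_filter_add_card_filter_not (s := μ.cells) (fun c => c.1 ≤ c.2)
  unfold upper at h1 ⊢
  unfold YoungDiagram.card
  omega

theorem hook_ne_zero {μ : YoungDiagram} {c : ℕ × ℕ} (hc : c ∈ μ) : hook μ c ≠ 0 := by
  obtain ⟨i, j⟩ := c
  have h1 : j < μ.rowLen i := YoungDiagram.mem_iff_lt_rowLen.1 hc
  have h2 : i < μ.colLen j := YoungDiagram.mem_iff_lt_colLen.1 hc
  unfold hook
  simp only
  have h1' : (j : ℚ) + 1 ≤ μ.rowLen i := by exact_mod_cast h1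
  have h2' : (i : ℚ) + 1 ≤ μ.colLen j := by exact_mod_cast h2
  linarith

theorem Special.prod_eq {μ : YoungDiagram} (h : Special μ) :
    ∏ c ∈ μ.cells, csp μ c / hook μ c = (-1) ^ (upper μ).card := by
  have h1 : ∀ c ∈ μ.cells, csp μ c / hook μ c = if c.1 ≤ c.2 then -1 else 1 := by
    rintro ⟨i, j⟩ hc
    have hc' : (i, j) ∈ μ := hc
    have hne := hook_ne_zero hc'
    rw [div_eq_iff hne]
    unfold csp hook
    simp only
    by_cases hij : i ≤ j
    · rw [if_pos hij, if_neg (by omega)]
      have := h i (μ.up_left_mem le_rfl hij hc')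
      have e : (μ.colLen i : ℚ) = μ.rowLen i + 1 := by exact_mod_cast this
      rw [e]; ring
    · rw [if_neg hij, if_pos (by omega)]
      have := h j (μ.up_left_mem (by omega) le_rfl hc')
      have e : (μ.colLen j : ℚ) = μ.rowLen j + 1 := by exact_mod_cast this
      rw [e]; ring
  rw [Finset.prod_congr rfl h1, Finset.prod_ite]
  simp [upper]

theorem exists_zero {μ : YoungDiagram} (h : ¬ Special μ) : ∃ c ∈ μ.cells, csp μ c = 0 := by
  classical
  set F := (range (μ.card + 1)).filter (fun i => (i, i) ∈ μ ∧ μ.colLen i ≠ μ.rowLen i + 1) with hF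
  have hne : F.Nonempty := by
    unfold Special at h
    push Not at h
    obtain ⟨i, hi, hi2⟩ := h
    refine ⟨i, ?_⟩
    rw [hF, Finset.mem_filter, Finset.mem_range]
    have := row_lt_card hi
    exact ⟨by omega, hi, hi2⟩
  set i := F.max' hne with hi
  have hiF : i ∈ F := Finset.max'_mem _ _
  rw [hF, Finset.mem_filter] at hiF
  obtain ⟨-, hd, hne2⟩ := hiF
  have hmax : ∀ k, i < k → (k, k) ∈ μ → μ.colLen k = μ.rowLen k + 1 := by
    intro k hk hkd
    by_contra hcon
    have hkF : k ∈ F := by
      rw [hF, Finset.mem_filter, Finset.mem_range]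
      have := row_lt_card hkd
      exact ⟨by omega, hkd, hcon⟩
    have := Finset.le_max' F k hkF
    omega
  have hr : i < μ.rowLen i := YoungDiagram.mem_iff_lt_rowLen.1 hd
  have hc : i < μ.colLen i := YoungDiagram.mem_iff_lt_colLen.1 hd
  have hra := μ.rowLen_anti i (i + 1) (by omega)
  have hca := μ.colLen_anti i (i + 1) (by omega)
  -- facts about the next diagonal cell
  have hnext : (μ.colLen (i + 1) = μ.rowLen (i + 1) + 1) ∨
      (μ.colLen (i + 1) ≤ i + 1 ∧ μ.rowLen (i + 1) ≤ i + 1) := by
    by_cases hdn : (i + 1, i + 1) ∈ μ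
    · exact Or.inl (hmax (i + 1) (by omega) hdn)
    · right
      constructor
      · rw [YoungDiagram.mem_iff_lt_colLen] at hdn; omega
      · rw [YoungDiagram.mem_iff_lt_rowLen] at hdn; omega
  rcases Nat.lt_or_ge (μ.rowLen i + 1) (μ.colLen i) with hcase | hcase
  · -- the cell (R i + 1, i)
    have hm : (μ.rowLen i + 1, i) ∈ μ := YoungDiagram.mem_iff_lt_colLen.2 hcase
    refine ⟨(μ.rowLen i + 1, i), hm, ?_⟩
    have h1 : i < μ.rowLen (μ.rowLen i + 1) := YoungDiagram.mem_iff_lt_rowLen.1 hm
    have h2 : ¬ (μ.rowLen i + 1, i + 1) ∈ μ := by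
      rw [YoungDiagram.mem_iff_lt_colLen]
      omega
    rw [YoungDiagram.mem_iff_lt_rowLen] at h2
    have h3 : μ.rowLen (μ.rowLen i + 1) = i + 1 := by omega
    unfold csp
    simp only
    rw [if_pos (by omega), h3]
    push_cast
    ring
  · -- the cell (i, C i - 1)
    obtain ⟨k, hk⟩ : ∃ k, μ.colLen i = k + 1 := ⟨μ.colLen i - 1, by omega⟩
    have hm : (i, k) ∈ μ := YoungDiagram.mem_iff_lt_rowLen.2 (by omega)
    refine ⟨(i, k), hm, ?_⟩
    have h1 : i < μ.colLen k := YoungDiagram.mem_iff_lt_colLen.1 hm
    have h2 : ¬ (i + 1, k) ∈ μ := by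
      intro hcon
      have hlt := YoungDiagram.mem_iff_lt_rowLen.1 hcon
      rcases hnext with hn | hn
      · omega
      · have hk1 : k = i := by omega
        rw [hk1] at hk
        rw [hk1] at hcon
        have := YoungDiagram.mem_iff_lt_colLen.1 hcon
        omega
    rw [YoungDiagram.mem_iff_lt_colLen] at h2
    have h3 : μ.colLen k = i + 1 := by omega
    unfold csp
    simp only
    rw [if_neg (by omega), h3, hk]
    push_cast
    ring

open Classical in
theorem prod_csp (μ : YoungDiagram) : ∏ c ∈ μ.cells, csp μ c / hook μ c =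
    if Special μ then (-1) ^ (upper μ).card else 0 := by
  split_ifs with h
  · exact h.prod_eq
  · obtain ⟨c, hc, h0⟩ := exists_zero h
    exact Finset.prod_eq_zero hc (by rw [h0, zero_div])

/-! ### Counting -/

/-- number of elements of `S` exceeding `x` -/
def N (S : Finset ℕ) (x : ℕ) : ℕ := (S.filter (fun s => x < s)).card

theorem N_anti (S : Finset ℕ) {x y : ℕ} (h : x ≤ y) : N S y ≤ N S x := by
  unfold N
  apply Finset.card_le_card
  intro s hs
  rw [Finset.mem_filter] at hs ⊢
  exact ⟨hs.1, by omega⟩

theorem N_lip (S : Finset ℕ) {x y : ℕ} (h : x ≤ y) : N S x ≤ N S y + (y - x) := by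
  unfold N
  have : S.filter (fun s => x < s) ⊆ S.filter (fun s => y < s) ∪ Finset.Ioc x y := by
    intro s hs
    rw [Finset.mem_filter] at hs
    rw [Finset.mem_union, Finset.mem_filter, Finset.mem_Ioc]
    by_cases hy : y < s
    · exact Or.inl ⟨hs.1, hy⟩
    · exact Or.inr ⟨hs.2, by omega⟩
  refine (Finset.card_le_card this).trans ((Finset.card_union_le _ _).trans ?_)
  rw [Nat.card_Ioc]

theorem N_succ (S : Finset ℕ) (x : ℕ) : N S x = N S (x + 1) + if x + 1 ∈ S then 1 else 0 := by
  unfold N
  split_ifs with h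
  · have : S.filter (fun s => x < s) = insert (x + 1) (S.filter (fun s => x + 1 < s)) := by
      ext s
      rw [Finset.mem_insert, Finset.mem_filter, Finset.mem_filter]
      constructor
      · rintro ⟨h1, h2⟩
        by_cases he : s = x + 1
        · exact Or.inl he
        · exact Or.inr ⟨h1, by omega⟩
      · rintro (rfl | ⟨h1, h2⟩)
        · exact ⟨h, by omega⟩
        · exact ⟨h1, by omega⟩
    rw [this, Finset.card_insert_of_notMem]
    rw [Finset.mem_filter]
    omega
  · have : S.filter (fun s => x < s) = S.filter (fun s => x + 1 < s) := by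
      ext s
      rw [Finset.mem_filter, Finset.mem_filter]
      constructor
      · rintro ⟨h1, h2⟩
        refine ⟨h1, ?_⟩
        have : s ≠ x + 1 := fun he => h (he ▸ h1)
        omega
      · rintro ⟨h1, h2⟩
        exact ⟨h1, by omega⟩
    rw [this, add_zero]

theorem N_inj {S T : Finset ℕ} (hS : 0 ∉ S) (hT : 0 ∉ T) (h : ∀ d, N S d = N T d) : S = T := by
  ext s
  rcases Nat.eq_zero_or_pos s with rfl | hs
  · exact ⟨fun h' => absurd h' hS, fun h' => absurd h' hT⟩
  · obtain ⟨x, rfl⟩ : ∃ x, s = x + 1 := ⟨s - 1, by omega⟩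
    have h1 := N_succ S x
    have h2 := N_succ T x
    rw [h x, h (x + 1)] at h1
    constructor
    · intro hm
      by_contra hn
      rw [if_pos hm] at h1
      rw [if_neg hn] at h2
      omega
    · intro hm
      by_contra hn
      rw [if_neg hn] at h1
      rw [if_pos hm] at h2
      omega

/-- the finset of the `R i - i` -/
def Phi (μ : YoungDiagram) : Finset ℕ :=
  ((range μ.card).filter (fun i => (i, i) ∈ μ)).image (fun i => μ.rowLen i - i)

theorem Phi_injOn (μ : YoungDiagram) :
    Set.InjOn (fun i => μ.rowLen i - i) ((range μ.card).filter (fun i => (i, i) ∈ μ) : Finset ℕ) := by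
  intro a ha b hb hab
  rw [Finset.mem_coe, Finset.mem_filter] at ha hb
  have h1 := YoungDiagram.mem_iff_lt_rowLen.1 ha.2
  have h2 := YoungDiagram.mem_iff_lt_rowLen.1 hb.2
  simp only at hab
  rcases Nat.lt_trichotomy a b with h | h | h
  · have := μ.rowLen_anti a b h.le
    omega
  · exact h
  · have := μ.rowLen_anti b a h.le
    omega

theorem zero_notMem_Phi (μ : YoungDiagram) : 0 ∉ Phi μ := by
  unfold Phi
  rw [Finset.mem_image]
  rintro ⟨i, hi, h0⟩
  rw [Finset.mem_filter] at hi
  have h1 := YoungDiagram.mem_iff_lt_rowLen.1 hi.2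
  omega

theorem mem_iff_N_Phi (μ : YoungDiagram) (i d : ℕ) : (i, i + d) ∈ μ ↔ i < N (Phi μ) d := by
  have hN : N (Phi μ) d = ((range μ.card).filter (fun k => (k, k + d) ∈ μ)).card := by
    unfold N Phi
    rw [Finset.filter_image, Finset.card_image_of_injOn]
    · congr 1
      ext k
      rw [Finset.mem_filter, Finset.mem_filter, Finset.mem_filter]
      constructor
      · rintro ⟨⟨h1, h2⟩, h3⟩
        refine ⟨h1, YoungDiagram.mem_iff_lt_rowLen.2 (by omega)⟩
      · rintro ⟨h1, h2⟩
        refine ⟨⟨h1, μ.up_left_mem le_rfl (by omega) h2⟩, ?_⟩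
        have := YoungDiagram.mem_iff_lt_rowLen.1 h2
        omega
    · apply (Phi_injOn μ).mono
      intro x hx
      rw [Finset.mem_coe] at hx ⊢
      exact (Finset.mem_filter.1 hx).1
  rw [hN]
  constructor
  · intro h
    have hsub : range (i + 1) ⊆ (range μ.card).filter (fun k => (k, k + d) ∈ μ) := by
      intro k hk
      rw [Finset.mem_range] at hk
      rw [Finset.mem_filter, Finset.mem_range]
      have hk' : (k, k + d) ∈ μ := μ.up_left_mem (by omega) (by omega) h
      exact ⟨row_lt_card hk', hk'⟩
    have := Finset.card_le_card hsub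
    rw [Finset.card_range] at this
    exact this
  · intro h
    by_contra hcon
    have hsub : (range μ.card).filter (fun k => (k, k + d) ∈ μ) ⊆ range i := by
      intro k hk
      rw [Finset.mem_filter] at hk
      rw [Finset.mem_range]
      by_contra hki
      exact hcon (μ.up_left_mem (by omega) (by omega) hk.2)
    have := Finset.card_le_card hsub
    rw [Finset.card_range] at this
    omega

theorem sum_Phi (μ : YoungDiagram) : ∑ s ∈ Phi μ, s = (upper μ).card := by
  unfold Phi
  rw [Finset.sum_image (Phi_injOn μ)]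
  have : (upper μ).card = (((range μ.card).filter (fun i => (i, i) ∈ μ)).sigma
      (fun i => range (μ.rowLen i - i))).card := by
    apply Finset.card_bij (fun c _ => ⟨c.1, c.2 - c.1⟩)
    · rintro ⟨i, j⟩ hc
      unfold upper at hc
      rw [Finset.mem_filter] at hc
      obtain ⟨hc1, hc2⟩ := hc
      simp only at hc2
      rw [Finset.mem_sigma, Finset.mem_filter, Finset.mem_range, Finset.mem_range]
      have hm : (i, j) ∈ μ := hc1
      have h1 := YoungDiagram.mem_iff_lt_rowLen.1 hm
      refine ⟨⟨row_lt_card hm, μ.up_left_mem le_rfl hc2 hm⟩, ?_⟩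
      simp only
      omega
    · rintro ⟨i, j⟩ hc ⟨i', j'⟩ hc' h
      unfold upper at hc hc'
      rw [Finset.mem_filter] at hc hc'
      simp only [Sigma.mk.injEq, heq_eq_eq] at h
      have h1 := hc.2
      have h2 := hc'.2
      simp only at h1 h2
      rw [Prod.mk.injEq]
      omega
    · rintro ⟨i, d⟩ hc
      rw [Finset.mem_sigma, Finset.mem_filter, Finset.mem_range, Finset.mem_range] at hc
      obtain ⟨⟨h1, h2⟩, h3⟩ := hc
      simp only at h1 h2 h3
      refine ⟨(i, i + d), ?_, ?_⟩
      · unfold upper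
        rw [Finset.mem_filter]
        refine ⟨?_, by simp⟩
        have : (i, i + d) ∈ μ := YoungDiagram.mem_iff_lt_rowLen.2 (by omega)
        exact this
      · simp
  rw [this, Finset.card_sigma]
  apply Finset.sum_congr rfl
  intro i _
  rw [Finset.card_range]

/-- membership in the diagram attached to `S` -/
def P (S : Finset ℕ) (c : ℕ × ℕ) : Prop :=
  (c.1 ≤ c.2 ∧ c.1 < N S (c.2 - c.1)) ∨ (c.2 < c.1 ∧ c.2 < N S (c.1 - c.2 - 1))

instance (S : Finset ℕ) : DecidablePred (P S) := fun c => by unfold P; infer_instance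

theorem P_bound {S : Finset ℕ} {c : ℕ × ℕ} (h : P S c) :
    c.1 < S.card + S.sup id + 1 ∧ c.2 < S.card + S.sup id + 1 := by
  have key : ∀ x y, x < N S y → x < S.card ∧ y < S.sup id := by
    intro x y hxy
    unfold N at hxy
    constructor
    · exact hxy.trans_le (Finset.card_filter_le _ _)
    · have : (S.filter (fun s => y < s)).Nonempty := by
        rw [← Finset.card_pos]; omega
      obtain ⟨s, hs⟩ := this
      rw [Finset.mem_filter] at hs
      have : s ≤ S.sup id := Finset.le_sup (f := id) hs.1
      omega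
  unfold P at h
  rcases h with ⟨h1, h2⟩ | ⟨h1, h2⟩
  · have := key _ _ h2
    omega
  · have := key _ _ h2
    omega

/-- the diagram attached to `S` -/
def diag (S : Finset ℕ) : YoungDiagram where
  cells := (range (S.card + S.sup id + 1) ×ˢ range (S.card + S.sup id + 1)).filter (P S)
  isLowerSet := by
    rintro ⟨i, j⟩ ⟨i', j'⟩ hle hc
    rw [Finset.mem_coe, Finset.mem_filter] at hc ⊢
    obtain ⟨-, hc⟩ := hc
    have hi : i' ≤ i := hle.1
    have hj : j' ≤ j := hle.2
    have hP : P S (i', j') := by
      unfold P at hc ⊢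
      simp only at hc ⊢
      rcases hc with ⟨h1, h2⟩ | ⟨h1, h2⟩
      · rcases Nat.lt_or_ge j' i' with h3 | h3
        · right
          refine ⟨h3, ?_⟩
          have a1 := N_lip S (Nat.zero_le (i' - j' - 1))
          have a2 := N_anti S (Nat.zero_le (j - i))
          omega
        · left
          refine ⟨h3, ?_⟩
          rcases Nat.le_total (j - i) (j' - i') with h4 | h4
          · have a1 := N_lip S h4
            omega
          · have a1 := N_anti S h4
            omega
      · rcases Nat.lt_or_ge j' i' with h3 | h3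
        · right
          refine ⟨h3, ?_⟩
          rcases Nat.le_total (i - j - 1) (i' - j' - 1) with h4 | h4
          · have a1 := N_lip S h4
            omega
          · have a1 := N_anti S h4
            omega
        · left
          refine ⟨h3, ?_⟩
          have a1 := N_lip S (Nat.zero_le (j' - i'))
          have a2 := N_anti S (Nat.zero_le (i - j - 1))
          omega
    refine ⟨?_, hP⟩
    have := P_bound hP
    rw [Finset.mem_product, Finset.mem_range, Finset.mem_range]
    exact this

theorem mem_diag {S : Finset ℕ} {c : ℕ × ℕ} : c ∈ diag S ↔ P S c := by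
  change c ∈ (range (S.card + S.sup id + 1) ×ˢ range (S.card + S.sup id + 1)).filter (P S) ↔ _
  rw [Finset.mem_filter]
  constructor
  · exact fun h => h.2
  · intro h
    refine ⟨?_, h⟩
    have := P_bound h
    rw [Finset.mem_product, Finset.mem_range, Finset.mem_range]
    exact this

theorem special_diag (S : Finset ℕ) : Special (diag S) := by
  apply special_of_iff
  intro i j hij
  rw [mem_diag, mem_diag]
  unfold P
  simp only
  have e : j + 1 - i - 1 = j - i := by omega
  rw [e]
  omega

theorem Phi_diag {S : Finset ℕ} (hS : 0 ∉ S) : Phi (diag S) = S := by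
  apply N_inj (zero_notMem_Phi _) hS
  intro d
  have h : ∀ i, i < N (Phi (diag S)) d ↔ i < N S d := by
    intro i
    rw [← mem_iff_N_Phi, mem_diag]
    unfold P
    simp only
    have e : i + d - i = d := by omega
    rw [e]
    omega
  have h1 := h (N S d)
  have h2 := h (N (Phi (diag S)) d)
  omega

theorem Special.ext {μ ν : YoungDiagram} (hμ : Special μ) (hν : Special ν)
    (h : Phi μ = Phi ν) : μ = ν := by
  have key : ∀ i d, (i, i + d) ∈ μ ↔ (i, i + d) ∈ ν := by
    intro i d
    rw [mem_iff_N_Phi, mem_iff_N_Phi, h]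
  apply YoungDiagram.ext
  ext ⟨i, j⟩
  rcases Nat.lt_or_ge j i with hij | hij
  · obtain ⟨d, rfl⟩ : ∃ d, i = j + d + 1 := ⟨i - j - 1, by omega⟩
    have h1 := hμ.iff_mem (show j ≤ j + d by omega)
    have h2 := hν.iff_mem (show j ≤ j + d by omega)
    rw [YoungDiagram.mem_cells, YoungDiagram.mem_cells, ← h1, ← h2]
    exact key j d
  · obtain ⟨d, rfl⟩ : ∃ d, j = i + d := ⟨j - i, by omega⟩
    exact key i d

theorem card_diag {S : Finset ℕ} (hS : 0 ∉ S) : (diag S).card = 2 * ∑ s ∈ S, s := by
  rw [(special_diag S).card_eq, ← sum_Phi, Phi_diag hS]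

theorem toFinset_sum {s : Multiset ℕ} (h : s.Nodup) : ∑ x ∈ s.toFinset, x = s.sum := by
  rw [Finset.sum_eq_multiset_sum, Multiset.toFinset_val, Multiset.dedup_eq_self.2 h,
    Multiset.map_id']

open Classical in
theorem card_special_even (m : ℕ) :
    ((diagrams (2 * m)).filter Special).card = (Nat.Partition.distincts m).card := by
  symm
  have hz : ∀ p : m.Partition, 0 ∉ p.parts.toFinset := by
    intro p h
    rw [Multiset.mem_toFinset] at h
    exact absurd (p.parts_pos h) (lt_irrefl 0)
  apply Finset.card_bij (fun p _ => diag p.parts.toFinset)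
  · intro p hp
    unfold Nat.Partition.distincts at hp
    rw [Finset.mem_filter] at hp
    rw [Finset.mem_filter, mem_diagrams]
    refine ⟨?_, special_diag _⟩
    rw [card_diag (hz p), toFinset_sum hp.2, p.parts_sum]
  · intro p hp q hq h
    unfold Nat.Partition.distincts at hp hq
    rw [Finset.mem_filter] at hp hq
    have h1 : p.parts.toFinset = q.parts.toFinset := by
      rw [← Phi_diag (hz p), ← Phi_diag (hz q), h]
    have h2 := congrArg Finset.val h1
    rw [Multiset.toFinset_val, Multiset.toFinset_val, Multiset.dedup_eq_self.2 hp.2,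
      Multiset.dedup_eq_self.2 hq.2] at h2
    exact Nat.Partition.ext h2
  · intro μ hμ
    rw [Finset.mem_filter, mem_diagrams] at hμ
    obtain ⟨h1, h2⟩ := hμ
    have hsum : (Phi μ).val.sum = m := by
      have h3 := sum_Phi μ
      rw [Finset.sum_eq_multiset_sum, Multiset.map_id'] at h3
      have h4 := h2.card_eq
      omega
    refine ⟨⟨(Phi μ).val, ?_, hsum⟩, ?_, ?_⟩
    · intro x hx
      have : x ≠ 0 := by
        rintro rfl
        exact zero_notMem_Phi μ hx
      omega
    · unfold Nat.Partition.distincts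
      rw [Finset.mem_filter]
      exact ⟨Finset.mem_univ _, (Phi μ).nodup⟩
    · simp only
      apply (special_diag _).ext h2
      have e : (Phi μ).val.toFinset = Phi μ := by
        ext x
        rw [Multiset.mem_toFinset]
        rfl
      rw [e, Phi_diag (zero_notMem_Phi μ)]

/-- partitions of `2 m` into parts `2 mod 4` -/
theorem card_odds_eq (m : ℕ) : (Nat.Partition.odds m).card =
    (Nat.Partition.restricted (2 * m) (fun x => x % 4 = 2)).card := by
  apply Finset.card_bij (fun p _ => (⟨p.parts.map (fun x => 2 * x), by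
      intro x hx
      rw [Multiset.mem_map] at hx
      obtain ⟨y, hy, rfl⟩ := hx
      have := p.parts_pos hy
      omega, by
      rw [Multiset.sum_map_mul_left, Multiset.map_id', p.parts_sum]⟩ : (2 * m).Partition))
  · intro p hp
    unfold Nat.Partition.odds Nat.Partition.restricted at hp
    rw [Finset.mem_filter] at hp
    unfold Nat.Partition.restricted
    rw [Finset.mem_filter]
    refine ⟨Finset.mem_univ _, ?_⟩
    intro x hx
    simp only [Multiset.mem_map] at hx
    obtain ⟨y, hy, rfl⟩ := hx
    have := hp.2 y hy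
    have := Nat.not_even_iff.1 this
    omega
  · intro p hp q hq h
    apply Nat.Partition.ext
    rw [Nat.Partition.ext_iff] at h
    exact Multiset.map_injective (fun a b hab => by simpa using hab) h
  · intro q hq
    unfold Nat.Partition.restricted at hq
    rw [Finset.mem_filter] at hq
    have hmap : (q.parts.map (fun x => x / 2)).map (fun x => 2 * x) = q.parts := by
      rw [Multiset.map_map]
      conv_rhs => rw [← Multiset.map_id q.parts]
      apply Multiset.map_congr rfl
      intro x hx
      have := hq.2 x hx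
      simp only [Function.comp, id]
      omega
    refine ⟨⟨q.parts.map (fun x => x / 2), ?_, ?_⟩, ?_, ?_⟩
    · intro x hx
      rw [Multiset.mem_map] at hx
      obtain ⟨y, hy, rfl⟩ := hx
      have := hq.2 y hy
      omega
    · have h1 := congrArg Multiset.sum hmap
      rw [Multiset.sum_map_mul_left, q.parts_sum, Multiset.map_id'] at h1
      omega
    · unfold Nat.Partition.odds Nat.Partition.restricted
      rw [Finset.mem_filter]
      refine ⟨Finset.mem_univ _, ?_⟩
      intro x hx
      simp only [Multiset.mem_map] at hx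
      obtain ⟨y, hy, rfl⟩ := hx
      have := hq.2 y hy
      rw [Nat.not_even_iff]
      omega
    · apply Nat.Partition.ext
      exact hmap

open Classical in
theorem card_special (n : ℕ) : ((diagrams n).filter Special).card =
    (Nat.Partition.restricted n (fun x => x % 4 = 2)).card := by
  rcases Nat.even_or_odd' n with ⟨m, rfl | rfl⟩
  · rw [card_special_even, ← card_odds_eq, Nat.Partition.card_odds_eq_card_distincts]
  · have h1 : (diagrams (2 * m + 1)).filter Special = ∅ := by
      rw [Finset.filter_eq_empty_iff]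
      intro μ hμ hs
      rw [mem_diagrams] at hμ
      have := hs.card_eq
      omega
    have h2 : Nat.Partition.restricted (2 * m + 1) (fun x => x % 4 = 2) = ∅ := by
      unfold Nat.Partition.restricted
      rw [Finset.filter_eq_empty_iff]
      intro p _ hp
      have hev : 2 ∣ p.parts.sum := by
        apply Multiset.dvd_sum
        intro x hx
        have := hp x hx
        omega
      rw [p.parts_sum] at hev
      omega
    rw [h1, h2]
    simp

/-- the sum of the products -/
theorem sum_prod (n : ℕ) : ∑ μ ∈ diagrams n, ∏ c ∈ μ.cells, csp μ c / hook μ c =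
    (-1) ^ (n / 2) * ((Nat.Partition.restricted n (fun x => x % 4 = 2)).card : ℚ) := by
  classical
  rw [← card_special, Finset.card_filter]
  push_cast
  rw [Finset.mul_sum]
  apply Finset.sum_congr rfl
  intro μ hμ
  rw [mem_diagrams] at hμ
  rw [prod_csp]
  split_ifs with h
  · have := h.card_eq
    have e : n / 2 = (upper μ).card := by omega
    rw [e, mul_one]
  · rw [mul_zero]

theorem sum_prod_sq (n : ℕ) : ∑ μ ∈ diagrams n, ∏ c ∈ μ.cells, (csp μ c / hook μ c) ^ 2 =
    ((Nat.Partition.restricted n (fun x => x % 4 = 2)).card : ℚ) := by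
  classical
  rw [← card_special, Finset.card_filter]
  push_cast
  apply Finset.sum_congr rfl
  intro μ hμ
  rw [Finset.prod_pow, prod_csp]
  split_ifs with h
  · rw [← pow_mul, mul_comm, pow_mul]
    simp
  · simp

/-! ### Transposition -/

theorem cells_transpose (μ : YoungDiagram) : μ.transpose.cells = μ.cells.map (Equiv.prodComm ℕ ℕ).toEmbedding := rfl

theorem card_transpose (μ : YoungDiagram) : μ.transpose.card = μ.card := by
  unfold YoungDiagram.card
  rw [cells_transpose, Finset.card_map]

theorem cO_eq (μ : YoungDiagram) (c : ℕ × ℕ) : cO μ c = - csp μ.transpose c.swap := by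
  obtain ⟨i, j⟩ := c
  unfold cO csp
  simp only [Prod.swap_prod_mk, YoungDiagram.rowLen_transpose, YoungDiagram.colLen_transpose]
  by_cases h : j ≤ i
  · rw [if_pos h, if_neg (by omega)]
    ring
  · rw [if_neg h, if_pos (by omega)]
    ring

theorem hook_transpose (μ : YoungDiagram) (c : ℕ × ℕ) : hook μ.transpose c.swap = hook μ c := by
  obtain ⟨i, j⟩ := c
  unfold hook
  simp only [Prod.swap_prod_mk, YoungDiagram.rowLen_transpose, YoungDiagram.colLen_transpose]
  ring

theorem prod_cO_sq (μ : YoungDiagram) : ∏ c ∈ μ.cells, (cO μ c / hook μ c) ^ 2 =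
    ∏ c ∈ μ.transpose.cells, (csp μ.transpose c / hook μ.transpose c) ^ 2 := by
  rw [cells_transpose, Finset.prod_map]
  apply Finset.prod_congr rfl
  intro c _
  rw [cO_eq, ← hook_transpose]
  simp only [Equiv.coe_toEmbedding, Equiv.prodComm_apply]
  rw [neg_div, neg_sq]

theorem sum_prod_sq_O (n : ℕ) : ∑ μ ∈ diagrams n, ∏ c ∈ μ.cells, (cO μ c / hook μ c) ^ 2 =
    ((Nat.Partition.restricted n (fun x => x % 4 = 2)).card : ℚ) := by
  rw [← sum_prod_sq]
  have hmem : ∀ μ ∈ diagrams n, μ.transpose ∈ diagrams n := by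
    intro μ hμ
    rw [mem_diagrams] at hμ ⊢
    rw [card_transpose, hμ]
  exact Finset.sum_bij' (fun μ _ => μ.transpose) (fun μ _ => μ.transpose) hmem hmem
    (fun μ _ => YoungDiagram.transpose_transpose μ) (fun μ _ => YoungDiagram.transpose_transpose μ)
    (fun μ _ => prod_cO_sq μ)

end Pool.Agent.R153.Sp
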